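import Pool.Agent.Lib.MP_ff3ed7_lc.TotalSigma2

/-!
Total Boolean functions with four-query Arthur-Merlin protocols and without cheap `Σ₂` protocols.
-/

namespace Pool.Agent.Lib.MP_ff3ed7_lc.OldTotalSigma2

open Pool.Agent.Lib.MP_ff3ed7_lc

/-- For every `σ` there is a total Boolean function `f` of `N` bits,
`2 ^ (8 σ + 28) ≤ N ≤ 2 ^ (9 σ + 29)`, which has an Arthur-Merlin query protocol with `4 σ + 14`
random bits, a reply of `9 σ + 30` bits and `4` queries, while every `Σ₂` query protocol for `f`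
has at least `2 ^ σ` existential bits or makes more than `2 ^ σ` queries (for any number of
universal bits). -/
theorem result (σ : ℕ) : ∃ (N : ℕ) (f : (Fin N → Bool) → Bool),
    2 ^ (8 * σ + 28) ≤ N ∧ N ≤ 2 ^ (9 * σ + 29) ∧
    HasAM f (4 * σ + 14) (9 * σ + 30) 4 ∧
    ∀ p q, HasSigma2 f p q → 2 ^ σ ≤ p ∨ 2 ^ σ < q :=
  Sig.total_sigma2 σ

end Pool.Agent.Lib.MP_ff3ed7_lc.OldTotalSigma2
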