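import Pool.Agent.Lib.MP_ff3ed7_lc.DefsCC

/-! T3: lower bound for quantum Merlin-Arthur query protocols. -/

open Finset

namespace Pool.Agent.Lib.MP_ff3ed7_lc

/-! ### Matrices -/

section Mat

open Matrix

open scoped ComplexOrder

variable {n : Type*} [Fintype n] [DecidableEq n]

/-- Trace of a power of a Hermitian matrix. -/
theorem trace_pow_eq {M : Matrix n n ℂ} (hM : M.IsHermitian) (k : ℕ) :
    (M ^ k).trace = ((∑ i, hM.eigenvalues i ^ k : ℝ) : ℂ) := by
  have h1 := hM.spectral_theorem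
  have h2 : M ^ k = Unitary.conjStarAlgAut ℂ _ hM.eigenvectorUnitary
      (diagonal (RCLike.ofReal ∘ hM.eigenvalues) ^ k) := by
    rw [map_pow, ← h1]
  rw [h2, Unitary.conjStarAlgAut_apply, Matrix.trace_mul_cycle, Unitary.coe_star_mul_self, one_mul,
    Matrix.diagonal_pow, Matrix.trace_diagonal]
  simp

/-- Coordinates of a vector in the eigenbasis. -/
theorem quad_eq {M : Matrix n n ℂ} (hM : M.IsHermitian) (w : n → ℂ) :
    ∃ c : n → ℂ, ∑ i, ‖c i‖ ^ 2 = ∑ i, ‖w i‖ ^ 2 ∧
      (star w ⬝ᵥ (M *ᵥ w)) = ((∑ i, ‖c i‖ ^ 2 * hM.eigenvalues i : ℝ) : ℂ) := by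
  set V : Matrix n n ℂ := (hM.eigenvectorUnitary : Matrix n n ℂ) with hV
  have hVV : star V * V = 1 := Unitary.coe_star_mul_self _
  have hVV' : V * star V = 1 := Unitary.coe_mul_star_self _
  have key : ∀ u : n → ℂ, star u ⬝ᵥ u = ((∑ i, ‖u i‖ ^ 2 : ℝ) : ℂ) := by
    intro u
    simp only [dotProduct, Pi.star_apply, RCLike.star_def]
    push_cast
    exact Finset.sum_congr rfl fun i _ => by rw [RCLike.conj_mul]; norm_cast
  refine ⟨star V *ᵥ w, ?_, ?_⟩
  · have h1 : star (star V *ᵥ w) ⬝ᵥ (star V *ᵥ w) = star w ⬝ᵥ w := by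
      rw [Matrix.star_mulVec, ← Matrix.star_eq_conjTranspose, star_star, ← Matrix.dotProduct_mulVec,
        Matrix.mulVec_mulVec, hVV', Matrix.one_mulVec]
    rw [key, key] at h1
    exact_mod_cast h1
  · have h1 : M = V * diagonal (fun i => (hM.eigenvalues i : ℂ)) * star V := by
      conv_lhs => rw [hM.spectral_theorem, Unitary.conjStarAlgAut_apply]
      rfl
    have h2 : star w ⬝ᵥ (M *ᵥ w) =
        star (star V *ᵥ w) ⬝ᵥ (diagonal (fun i => (hM.eigenvalues i : ℂ)) *ᵥ (star V *ᵥ w)) := by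
      rw [Matrix.star_mulVec, ← Matrix.star_eq_conjTranspose, star_star, ← Matrix.dotProduct_mulVec,
        Matrix.mulVec_mulVec, Matrix.mulVec_mulVec, ← h1]
    rw [h2]
    simp only [dotProduct, Matrix.mulVec_diagonal, Pi.star_apply, RCLike.star_def]
    push_cast
    refine Finset.sum_congr rfl fun i _ => ?_
    have := RCLike.conj_mul ((star V *ᵥ w) i)
    calc (starRingEnd ℂ) ((star V *ᵥ w) i) * ((hM.eigenvalues i : ℂ) * (star V *ᵥ w) i)
        = ((starRingEnd ℂ) ((star V *ᵥ w) i) * (star V *ᵥ w) i) * (hM.eigenvalues i : ℂ) := by ring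
      _ = _ := by rw [this]; rfl

/-- Lower bound for the trace of a power. -/
theorem pow_le_trace {M : Matrix n n ℂ} (hM : M.PosSemidef) (k : ℕ) {c : ℝ} (hc : 0 ≤ c)
    (w : n → ℂ) (hw : ∑ i, ‖w i‖ ^ 2 = 1) (h : c ≤ (star w ⬝ᵥ (M *ᵥ w)).re) :
    c ^ k ≤ ((M ^ k).trace).re := by
  obtain ⟨d, hd1, hd2⟩ := quad_eq hM.1 w
  rw [trace_pow_eq hM.1, Complex.ofReal_re]
  rw [hd2, Complex.ofReal_re] at h
  rw [hw] at hd1
  have hev := hM.eigenvalues_nonneg
  calc c ^ k ≤ (∑ i, ‖d i‖ ^ 2 * hM.1.eigenvalues i) ^ k := pow_le_pow_left₀ hc h k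
    _ ≤ ∑ i, ‖d i‖ ^ 2 * hM.1.eigenvalues i ^ k :=
      Real.pow_arith_mean_le_arith_mean_pow _ _ _ (fun i _ => by positivity) hd1
        (fun i _ => hev i) k
    _ ≤ ∑ i, hM.1.eigenvalues i ^ k := by
      refine Finset.sum_le_sum fun i _ => ?_
      have h1 : ‖d i‖ ^ 2 ≤ 1 := by
        rw [← hd1]
        exact Finset.single_le_sum (f := fun i => ‖d i‖ ^ 2) (fun j _ => by positivity)
          (Finset.mem_univ i)
      have h2 : 0 ≤ hM.1.eigenvalues i ^ k := pow_nonneg (hev i) k
      nlinarith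

/-- Upper bound for the trace of a power. -/
theorem trace_le {M : Matrix n n ℂ} (hM : M.PosSemidef) (k : ℕ) {c : ℝ}
    (h : ∀ w : n → ℂ, ∑ i, ‖w i‖ ^ 2 = 1 → (star w ⬝ᵥ (M *ᵥ w)).re ≤ c) :
    ((M ^ k).trace).re ≤ Fintype.card n * c ^ k := by
  rw [trace_pow_eq hM.1, Complex.ofReal_re]
  have hev := hM.eigenvalues_nonneg
  have h1 : ∀ i, hM.1.eigenvalues i ^ k ≤ c ^ k := by
    intro i
    refine pow_le_pow_left₀ (hev i) ?_ k
    rw [hM.1.eigenvalues_eq i]
    refine h _ ?_
    have h2 := hM.1.eigenvectorBasis.orthonormal.1 i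
    rw [EuclideanSpace.norm_eq] at h2
    have h3 : Real.sqrt (∑ j, ‖(hM.1.eigenvectorBasis i) j‖ ^ 2) = 1 := h2
    have h4 := Real.sqrt_eq_one.1 h3
    exact h4
  calc ∑ i, hM.1.eigenvalues i ^ k ≤ ∑ _i : n, c ^ k := Finset.sum_le_sum fun i _ => h1 i
    _ = Fintype.card n * c ^ k := by simp

end Mat

/-! ### Functions of few coordinates -/

section Junta

variable {ι : Type}

/-- The span of the functions which depend on at most `D` coordinates. -/
def J (ι : Type) (D : ℕ) : Submodule ℂ ((ι → Bool) → ℂ) :=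
  Submodule.span ℂ {g | ∃ S : Finset ι, S.card ≤ D ∧ ∀ x y, (∀ i ∈ S, x i = y i) → g x = g y}

theorem J_mono {a b : ℕ} (h : a ≤ b) : J ι a ≤ J ι b := by
  refine Submodule.span_mono ?_
  rintro g ⟨S, hS, hg⟩
  exact ⟨S, hS.trans h, hg⟩

theorem J_mul [DecidableEq ι] {a b : ℕ} {g h : (ι → Bool) → ℂ} (hg : g ∈ J ι a) (hh : h ∈ J ι b) :
    (fun x => g x * h x) ∈ J ι (a + b) := by
  have h1 : J ι a * J ι b ≤ J ι (a + b) := by
    unfold J
    rw [Submodule.span_mul_span]
    refine Submodule.span_mono ?_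
    rintro _ ⟨u, ⟨S, hS, hu⟩, v, ⟨S', hS', hv⟩, rfl⟩
    refine ⟨S ∪ S', (Finset.card_union_le _ _).trans (add_le_add hS hS'), ?_⟩
    intro x y hxy
    have e1 := hu x y fun i hi => hxy i (Finset.mem_union_left _ hi)
    have e2 := hv x y fun i hi => hxy i (Finset.mem_union_right _ hi)
    simp only [Pi.mul_apply, e1, e2]
  exact h1 (Submodule.mul_mem_mul hg hh)

theorem J_const (c : ℂ) (D : ℕ) : (fun _ : ι → Bool => c) ∈ J ι D :=
  Submodule.subset_span ⟨∅, by simp, fun _ _ _ => rfl⟩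

theorem J_sum {κ : Type*} {D : ℕ} (s : Finset κ) (g : κ → (ι → Bool) → ℂ)
    (h : ∀ k ∈ s, g k ∈ J ι D) : (fun x => ∑ k ∈ s, g k x) ∈ J ι D := by
  have : (fun x => ∑ k ∈ s, g k x) = ∑ k ∈ s, g k := by
    funext x
    simp
  rw [this]
  exact Submodule.sum_mem _ h

theorem J_smul {D : ℕ} (c : ℂ) {g : (ι → Bool) → ℂ} (h : g ∈ J ι D) :
    (fun x => c * g x) ∈ J ι D :=
  Submodule.smul_mem _ c h

theorem J_conj {D : ℕ} {g : (ι → Bool) → ℂ} (h : g ∈ J ι D) :
    (fun x => star (g x)) ∈ J ι D := by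
  unfold J at h
  induction h using Submodule.span_induction with
  | mem g hg =>
    obtain ⟨S, hS, hg⟩ := hg
    exact Submodule.subset_span ⟨S, hS, fun x y hxy => congrArg star (hg x y hxy)⟩
  | zero =>
    have : (fun x : ι → Bool => star ((0 : (ι → Bool) → ℂ) x)) = 0 := by
      funext x
      simp
    rw [this]
    exact Submodule.zero_mem _
  | add u v _ _ hu hv =>
    have : (fun x => star ((u + v) x)) = (fun x => star (u x)) + (fun x => star (v x)) := by
      funext x
      simp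
    rw [this]
    exact Submodule.add_mem _ hu hv
  | smul c u _ hu =>
    have : (fun x => star ((c • u) x)) = (star c) • (fun x => star (u x)) := by
      funext x
      simp
    rw [this]
    exact Submodule.smul_mem _ _ hu

theorem J_phase [DecidableEq ι] (o : Option ι) : (fun x => phase x o) ∈ J ι 1 := by
  cases o with
  | none => exact J_const 1 1
  | some i =>
    refine Submodule.subset_span ⟨{i}, by simp, fun x y hxy => ?_⟩
    have := hxy i (by simp)
    simp only [phase, this]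

theorem J_qstate [DecidableEq ι] {K : Type} [Fintype K] (U : ℕ → Matrix K K ℂ) (q : K → Option ι)
    (s : K → ℂ) (t : ℕ) (k : K) : (fun x => qstate U q s x t k) ∈ J ι t := by
  induction t generalizing k with
  | zero => exact J_const _ _
  | succ t ih =>
    have h1 : (fun x => qstate U q s x (t + 1) k) =
        fun x => ∑ k', U (t + 1) k k' * (phase x (q k') * qstate U q s x t k') := by
      funext x
      rfl
    rw [h1]
    refine J_sum _ _ fun k' _ => ?_
    refine J_smul (U (t + 1) k k') ?_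
    rw [add_comm t 1]
    exact J_mul (J_phase (q k')) (ih k')

/-- Powers of a matrix whose entries are functions of few coordinates. -/
theorem J_pow [DecidableEq ι] {n : Type*} [Fintype n] [DecidableEq n] {D : ℕ}
    (M : (ι → Bool) → Matrix n n ℂ) (h : ∀ i j, (fun x => M x i j) ∈ J ι D) (k : ℕ) (i j : n) :
    (fun x => (M x ^ k) i j) ∈ J ι (D * k) := by
  induction k generalizing i j with
  | zero =>
    simp only [pow_zero]
    exact J_const _ _
  | succ k ih =>
    have h1 : (fun x => (M x ^ (k + 1)) i j) =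
        fun x => ∑ l, (M x ^ k) i l * M x l j := by
      funext x
      rw [pow_succ, Matrix.mul_apply]
    rw [h1, Nat.mul_succ]
    exact J_sum _ _ fun l _ => J_mul (ih i l) (h l j)

theorem dual_J [Fintype ι] [DecidableEq ι] {D : ℕ} {α β : (ι → Bool) → ℝ}
    (hαβ : ∀ (S : Finset ι), S.card ≤ D → ∀ g : (ι → Bool) → ℝ,
      (∀ x y, (∀ i ∈ S, x i = y i) → g x = g y) → ∑ x, α x * g x = ∑ x, β x * g x)
    {g : (ι → Bool) → ℂ} (hg : g ∈ J ι D) :
    ∑ x, (α x : ℂ) * g x = ∑ x, (β x : ℂ) * g x := by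
  unfold J at hg
  induction hg using Submodule.span_induction with
  | mem g hg =>
    obtain ⟨S, hS, hg⟩ := hg
    have h1 := hαβ S hS (fun x => (g x).re) fun x y hxy => by rw [hg x y hxy]
    have h2 := hαβ S hS (fun x => (g x).im) fun x y hxy => by rw [hg x y hxy]
    apply Complex.ext
    · simpa [Complex.re_sum] using h1
    · simpa [Complex.im_sum] using h2
  | zero => simp
  | add u v _ _ hu hv =>
    simp only [Pi.add_apply, mul_add, Finset.sum_add_distrib, hu, hv]
  | smul c u _ hu =>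
    simp only [Pi.smul_apply, smul_eq_mul]
    have e : ∀ γ : (ι → Bool) → ℝ, ∑ x, (γ x : ℂ) * (c * u x) = c * ∑ x, (γ x : ℂ) * u x := by
      intro γ
      rw [Finset.mul_sum]
      exact Finset.sum_congr rfl fun x _ => by ring
    rw [e, e, hu]

end Junta

/-! ### Linearity of the final state -/

theorem qstate_sum {ι K Z : Type} [Fintype K] [Fintype Z] (U : ℕ → Matrix K K ℂ)
    (q : K → Option ι) (s : Z → K → ℂ) (w : Z → ℂ) (x : ι → Bool) (t : ℕ) (k : K) :
    qstate U q (fun k => ∑ z, w z * s z k) x t k = ∑ z, w z * qstate U q (s z) x t k := by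
  induction t generalizing k with
  | zero =>
    simp only [qstate, Matrix.mulVec, dotProduct, Finset.mul_sum]
    rw [Finset.sum_comm]
    exact Finset.sum_congr rfl fun z _ => Finset.sum_congr rfl fun k' _ => by ring
  | succ t ih =>
    simp only [qstate, Matrix.mulVec, dotProduct, ih, Finset.mul_sum]
    rw [Finset.sum_comm]
    exact Finset.sum_congr rfl fun z _ => Finset.sum_congr rfl fun k' _ => by ring

variable {ι : Type} [Fintype ι] [DecidableEq ι] {f : (ι → Bool) → Bool} {D : ℕ}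

open Matrix in
open scoped ComplexOrder in
/-- Quantum Merlin-Arthur protocols need many queries or a long witness. -/
theorem HasExactDual.qma (h : HasExactDual f D) {p T : ℕ} (hq : HasQMA f p T) :
    D < 2 * T * (p + 1) := by
  by_contra hD
  push Not at hD
  obtain ⟨α, β, hα, hβ, hα1, hβ1, hαf, hβf, hαβ⟩ := h
  obtain ⟨K, _, U, q, init, acc, -, hyes, hno⟩ := hq
  classical
  -- the matrix of the final states
  let A : (ι → Bool) → Matrix acc (Fin p → Bool) ℂ := fun x k z =>
    qstate U q (fun k => if init z = k then 1 else 0) x T k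
  let M : (ι → Bool) → Matrix (Fin p → Bool) (Fin p → Bool) ℂ := fun x => (A x)ᴴ * A x
  have hM : ∀ x, (M x).PosSemidef := fun x => Matrix.posSemidef_conjTranspose_mul_self (A x)
  have hquad : ∀ x (w : (Fin p → Bool) → ℂ), (star w ⬝ᵥ (M x *ᵥ w)).re =
      ∑ k ∈ acc, ‖qstate U q (fun k => ∑ z, if init z = k then w z else 0) x T k‖ ^ 2 := by
    intro x w
    have h1 : ∀ k, qstate U q (fun k => ∑ z, if init z = k then w z else 0) x T k =
        ∑ z, w z * qstate U q (fun k => if init z = k then 1 else 0) x T k := by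
      intro k
      rw [← qstate_sum]
      congr 1
      funext k'
      exact Finset.sum_congr rfl fun z _ => by rw [mul_ite, mul_one, mul_zero]
    have h2 : star w ⬝ᵥ (M x *ᵥ w) = star (A x *ᵥ w) ⬝ᵥ (A x *ᵥ w) := by
      rw [Matrix.star_mulVec, ← Matrix.dotProduct_mulVec, Matrix.mulVec_mulVec]
    have h3 : star (A x *ᵥ w) ⬝ᵥ (A x *ᵥ w) = ((∑ k : acc, ‖(A x *ᵥ w) k‖ ^ 2 : ℝ) : ℂ) := by
      simp only [dotProduct, Pi.star_apply, RCLike.star_def]
      push_cast
      exact Finset.sum_congr rfl fun i _ => by rw [RCLike.conj_mul]; norm_cast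
    rw [h2, h3, Complex.ofReal_re, ← Finset.sum_coe_sort acc]
    refine Finset.sum_congr rfl fun k _ => ?_
    rw [h1]
    congr 2
    simp only [Matrix.mulVec, dotProduct, A]
    exact Finset.sum_congr rfl fun z _ => mul_comm _ _
  -- the traces
  let P : (ι → Bool) → ℂ := fun x => ((M x) ^ (p + 1)).trace
  have hP : P ∈ J ι D := by
    have h1 : P ∈ J ι (2 * T * (p + 1)) := by
      have : P = fun x => ∑ z, ((M x) ^ (p + 1)) z z := by
        funext x
        rfl
      rw [this]
      refine J_sum _ _ fun z _ => J_pow M (fun i j => ?_) (p + 1) z z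
      have h2 : (fun x => M x i j) = fun x => ∑ k : acc, star (A x k i) * A x k j := by
        funext x
        simp only [M, Matrix.mul_apply, Matrix.conjTranspose_apply]
      rw [h2, two_mul]
      exact J_sum _ _ fun k _ => J_mul (J_conj (J_qstate U q _ T k)) (J_qstate U q _ T k)
    exact J_mono hD h1
  have hdual := dual_J hαβ hP
  have hre := congrArg Complex.re hdual
  simp only [Complex.re_sum, Complex.re_ofReal_mul] at hre
  have hlow : ((2 : ℝ) / 3) ^ (p + 1) ≤ ∑ x, α x * (P x).re := by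
    calc ((2 : ℝ) / 3) ^ (p + 1) = ∑ x, α x * ((2 : ℝ) / 3) ^ (p + 1) := by
          rw [← Finset.sum_mul, hα1, one_mul]
      _ ≤ ∑ x, α x * (P x).re := by
          refine Finset.sum_le_sum fun x _ => ?_
          by_cases hx : α x = 0
          · rw [hx, zero_mul, zero_mul]
          · obtain ⟨w, hw1, hw2⟩ := hyes x (hαf x hx)
            refine mul_le_mul_of_nonneg_left ?_ (hα x)
            exact pow_le_trace (hM x) (p + 1) (by norm_num) w hw1 (by rw [hquad]; exact hw2)
  have hup : ∑ x, β x * (P x).re ≤ 2 ^ p * ((1 : ℝ) / 3) ^ (p + 1) := by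
    calc ∑ x, β x * (P x).re ≤ ∑ x, β x * (2 ^ p * ((1 : ℝ) / 3) ^ (p + 1)) := by
          refine Finset.sum_le_sum fun x _ => ?_
          by_cases hx : β x = 0
          · rw [hx, zero_mul, zero_mul]
          · refine mul_le_mul_of_nonneg_left ?_ (hβ x)
            have h1 := trace_le (hM x) (p + 1) (c := 1 / 3) fun w hw => by
              rw [hquad]
              exact hno x (hβf x hx) w hw
            simpa using h1
      _ = 2 ^ p * ((1 : ℝ) / 3) ^ (p + 1) := by
          rw [← Finset.sum_mul, hβ1, one_mul]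
  have hfin : ((2 : ℝ) / 3) ^ (p + 1) ≤ 2 ^ p * ((1 : ℝ) / 3) ^ (p + 1) := by
    calc ((2 : ℝ) / 3) ^ (p + 1) ≤ ∑ x, α x * (P x).re := hlow
      _ = ∑ x, β x * (P x).re := hre
      _ ≤ _ := hup
  have h3 : (0 : ℝ) < ((1 : ℝ) / 3) ^ (p + 1) := by positivity
  have h4 : ((2 : ℝ) / 3) ^ (p + 1) = 2 * 2 ^ p * ((1 : ℝ) / 3) ^ (p + 1) := by
    rw [show (2 : ℝ) / 3 = 2 * (1 / 3) by norm_num, mul_pow, pow_succ 2 p]
    ring
  rw [h4] at hfin
  have h5 : (0 : ℝ) < 2 ^ p := by positivity
  nlinarith [mul_pos h5 h3]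

end Pool.Agent.Lib.MP_ff3ed7_lc
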