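import Pool.Agent.Lib.MP_ff3ed7_lc.DefsCC

/-! The threshold degree is large if there is an exact dual object. -/

open Finset

namespace Pool.Agent.Lib.MP_ff3ed7_lc

variable {ι : Type} [Fintype ι] [DecidableEq ι] {f : (ι → Bool) → Bool} {D : ℕ}

theorem HasExactDual.thrDeg (h : HasExactDual f D) : ¬ ThrDegLE f D := by
  rintro ⟨P, hP, hs⟩
  obtain ⟨α, β, hα, hβ, hα1, hβ1, hfα, hfβ, horth⟩ := h
  let ev : (ι → Bool) → ι → ℝ := fun x i => if x i then (1 : ℝ) else 0
  have key : ∑ x, α x * P.eval (ev x) = ∑ x, β x * P.eval (ev x) := by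
    simp only [MvPolynomial.eval_eq, mul_sum]
    rw [sum_comm, sum_comm (s := (univ : Finset (ι → Bool)))]
    refine sum_congr rfl fun s hsP => ?_
    refine horth s.support ?_ (fun x => P.coeff s * ∏ i ∈ s.support, ev x i ^ s i) ?_
    · refine le_trans ?_ ((MvPolynomial.le_totalDegree hsP).trans hP)
      rw [Finsupp.sum, card_eq_sum_ones]
      exact sum_le_sum fun i hi => Nat.one_le_iff_ne_zero.mpr (Finsupp.mem_support_iff.mp hi)
    · intro x y hxy
      congr 1
      refine prod_congr rfl fun i hi => ?_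
      simp only [ev, hxy i hi]
  have h1 : 0 < ∑ x, α x * P.eval (ev x) := by
    obtain ⟨x, -, hx⟩ := exists_ne_zero_of_sum_ne_zero (by rw [hα1]; norm_num :
      ∑ x, α x ≠ 0)
    refine sum_pos' (fun y _ => ?_) ⟨x, mem_univ x, ?_⟩
    · by_cases hy : α y = 0
      · rw [hy, zero_mul]
      · exact mul_nonneg (hα y) ((hs y).1 (hfα y hy)).le
    · exact mul_pos (lt_of_le_of_ne (hα x) (Ne.symm hx)) ((hs x).1 (hfα x hx))
  have h2 : ∑ x, β x * P.eval (ev x) ≤ 0 := by
    refine sum_nonpos fun y _ => ?_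
    by_cases hy : β y = 0
    · rw [hy, zero_mul]
    · exact mul_nonpos_of_nonneg_of_nonpos (hβ y) ((hs y).2 (hfβ y hy)).le
  linarith

end Pool.Agent.Lib.MP_ff3ed7_lc
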