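import Pool.Agent.Lib.MP_ff3ed7_lc.Exact
import Pool.Agent.Lib.MP_ff3ed7_lc.ThrDeg
import Pool.Agent.Lib.MP_ff3ed7_lc.QMA

/-! The total Boolean functions: threshold degree and quantum Merlin-Arthur protocols. -/

open Finset

namespace Pool.Agent.Lib.MP_ff3ed7_lc

lemma HasExactDual.equiv {ι κ : Type} [Fintype ι] [DecidableEq ι] [Fintype κ] [DecidableEq κ]
    {f : (ι → Bool) → Bool} {D : ℕ} (h : HasExactDual f D) (e : ι ≃ κ) :
    HasExactDual (fun x : κ → Bool => f fun i => x (e i)) D := by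
  obtain ⟨α, β, hα, hβ, hα1, hβ1, hfα, hfβ, horth⟩ := h
  let E : (κ → Bool) ≃ (ι → Bool) := e.symm.arrowCongr (Equiv.refl Bool)
  have hE : ∀ x, E x = fun i => x (e i) := by
    intro x
    funext i
    simp [E]
  refine ⟨fun x => α (E x), fun x => β (E x), fun x => hα _, fun x => hβ _, ?_, ?_, ?_, ?_, ?_⟩
  · rw [E.sum_comp α, hα1]
  · rw [E.sum_comp β, hβ1]
  · intro x hx
    have := hfα _ hx
    rwa [hE] at this
  · intro x hx
    have := hfβ _ hx
    rwa [hE] at this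
  · intro S hS g hg
    have h1 : ∀ γ : (ι → Bool) → ℝ, ∑ x, γ (E x) * g x = ∑ y, γ y * g (E.symm y) := by
      intro γ
      rw [← E.sum_comp fun y => γ y * g (E.symm y)]
      simp
    rw [h1, h1]
    refine horth (S.image e.symm) (card_image_le.trans hS) (fun y => g (E.symm y)) ?_
    intro x y hxy
    apply hg
    intro i hi
    have := hxy (e.symm i) (mem_image_of_mem _ hi)
    simpa [E] using this

theorem total_upp (ℓ : ℕ) : ∃ (N : ℕ) (f : (Fin N → Bool) → Bool),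
    2 ^ (5 * ℓ + 12) ≤ N ∧ N ≤ 2 ^ (5 * ℓ + 17) ∧
    HasAM f (ℓ + 2) (5 * ℓ + 17) 10 ∧
    (∀ D, 9 * D ≤ 2 ^ ℓ → HasExactDual f D) ∧
    (∀ p q, HasPP f p q → 2 ^ ℓ < q ∨ 2 ^ (ℓ + 2) ≤ p + q) ∧
    (∀ p q, HasMA f p q → 2 ^ ℓ < (p + 2) * (q + 1)) ∧
    (∀ D, ThrDegLE f D → 2 ^ ℓ < 9 * D) ∧
    ∀ p T, HasQMA f p T → 2 ^ ℓ < 18 * (p + 1) * T := by
  set n := 2 ^ ℓ with hn
  have hn1 : 1 ≤ n := Nat.one_le_two_pow
  let e : Cl n ≃ Fin (Fintype.card (Cl n)) := Fintype.equivFin _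
  have hdual : ∀ D, 9 * D ≤ n → HasExactDual (fun x => fb ℓ fun c => x (e c)) D :=
    fun D hD => (exactDual_fb hD).equiv e
  refine ⟨Fintype.card (Cl n), fun x => fb ℓ fun c => x (e c), ?_, ?_, ?_, hdual, ?_, ?_, ?_, ?_⟩
  · refine le_trans (le_of_eq ?_) (card_cl_ge n)
    rw [hn]; ring
  · refine (card_cl_le hn1).trans (le_of_eq ?_)
    rw [hn]; ring
  · exact HasAM.transfer (e := e) (s := id) (fun x => rfl) (hasAM_fb ℓ)
  · intro p q h
    exact pp_fb (HasPP.transfer (e := e.symm) (s := id) (fun x => by simp) h)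
  · intro p q h
    exact ma_fb (HasMA.transfer (e := e.symm) (s := id) (fun x => by simp) h)
  · intro D hD
    by_contra hcon
    exact (hdual D (by omega)).thrDeg hD
  · intro p T hq
    by_contra hcon
    have h1 := (hdual (2 * T * (p + 1)) (by nlinarith)).qma hq
    omega

end Pool.Agent.Lib.MP_ff3ed7_lc
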