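import Pool.Agent.Lib.MP_ff3ed7_lc.Defs

/-! Query complexity version of the class `Σ₂`. -/

namespace Pool.Agent.Lib.MP_ff3ed7_lc

/-- `f` has a `Σ₂` query protocol: `f x = true` if and only if there are `p` existential bits such
that for all universal bits (any number `r` of them) a decision tree which makes at most `q` queries
to the input accepts. -/
def HasSigma2 {ι σ : Type} (f : (ι → σ) → Bool) (p q : ℕ) : Prop :=
  ∃ (r : ℕ) (T : (Fin p → Bool) → (Fin r → Bool) → DTree ι σ),
    (∀ y ρ, (T y ρ).DepthLE q) ∧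
    ∀ x, f x = true ↔ ∃ y, ∀ ρ, (T y ρ).eval x = true

end Pool.Agent.Lib.MP_ff3ed7_lc
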