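import Pool.Agent.Lib.MP_ff3ed7_lc.OraclePP

/-! Protocols with access to the multilinear extensions of an oracle. -/

open Finset

namespace Pool.Agent.Lib.MP_ff3ed7_lc

/-- The value at the point `v` of the multilinear extension, over the commutative ring `R`, of the
restriction of the oracle `A` to strings of length `v.length`. -/
def mlext {R : Type} [CommRing R] (A : List Bool → Bool) (v : List R) : R :=
  ∑ s : Fin v.length → Bool,
    if A (List.ofFn s) = true then ∏ i, (if s i = true then v.get i else 1 - v.get i) else 0

/-- An algebraic query: a finite commutative ring, with elements numbered from `0` to `m - 1`, and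
a point with coordinates in this ring. -/
structure AQ where
  /-- the number of elements of the ring -/
  m : ℕ
  /-- the ring structure -/
  ring : CommRing (Fin m)
  /-- the point -/
  pt : List (Fin m)

/-- The answer to an algebraic query: the number of the value of the multilinear extension. -/
def AQ.ans (A : List Bool → Bool) (q : AQ) : ℕ := (@mlext (Fin q.m) q.ring A q.pt).val

/-- A verifier with access to the multilinear extensions, over all finite commutative rings, of an
oracle `A`.  On input `x`, with Merlin's message `y` and random bits `ρ`, it runs a decision tree
which makes algebraic queries.  For some `c`, the length of the message, the number of random bits,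
the number of queries and the lengths of the queried points are bounded by `|x| ^ c + c`, and the
number of elements of the rings by `2 ^ (|x| ^ c + c)`.  There is no other restriction on its
computing power. -/
structure AlgVerifier where
  /-- length of the message -/
  msg : ℕ → ℕ
  /-- number of random bits -/
  coins : ℕ → ℕ
  /-- the decision tree -/
  tree : (x : List Bool) → (Fin (msg x.length) → Bool) → (Fin (coins x.length) → Bool) →
    DTree AQ ℕ
  /-- the exponent of the polynomial bound -/
  c : ℕ
  msg_le : ∀ n, msg n ≤ n ^ c + c
  coins_le : ∀ n, coins n ≤ n ^ c + c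
  depth_le : ∀ x y ρ, (tree x y ρ).DepthLE (x.length ^ c + c)
  query_le : ∀ x y ρ, (tree x y ρ).AllQ fun q =>
    q.m ≤ 2 ^ (x.length ^ c + c) ∧ q.pt.length ≤ x.length ^ c + c

/-- Acceptance probability of `x` when Merlin's message `y` does not depend on the random bits. -/
noncomputable def AlgVerifier.maProb (W : AlgVerifier) (A : List Bool → Bool) (x : List Bool)
    (y : Fin (W.msg x.length) → Bool) : ℝ :=
  prob (W.coins x.length) fun ρ => (W.tree x y ρ).eval (AQ.ans A) = true

/-- `W` is a Merlin-Arthur protocol for `L` relative to the multilinear extensions of `A`. -/
def AlgVerifier.AcceptsMA (W : AlgVerifier) (A : List Bool → Bool) (L : Set (List Bool)) : Prop :=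
  ∀ x, (x ∈ L → ∃ y, 2 / 3 ≤ W.maProb A x y) ∧ (x ∉ L → ∀ y, W.maProb A x y ≤ 1 / 3)

/-- Acceptance probability of `x` when both the message and the coins are random bits. -/
noncomputable def AlgVerifier.ppProb (W : AlgVerifier) (A : List Bool → Bool) (x : List Bool) : ℝ :=
  (Nat.card {w : (Fin (W.msg x.length) → Bool) × (Fin (W.coins x.length) → Bool) //
    (W.tree x w.1 w.2).eval (AQ.ans A) = true} : ℝ) / 2 ^ (W.msg x.length + W.coins x.length)

/-- `W`, with both strings chosen at random, is a `PP` machine for `L` relative to the multilinear
extensions of `A`. -/
def AlgVerifier.AcceptsPP (W : AlgVerifier) (A : List Bool → Bool) (L : Set (List Bool)) : Prop :=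
  ∀ x, (x ∈ L → 1 / 2 < W.ppProb A x) ∧ (x ∉ L → W.ppProb A x ≤ 1 / 2)

/-- The multilinear extension extends the oracle. -/
lemma mlext_bool {R : Type} [CommRing R] (A : List Bool → Bool) (s : List Bool) :
    mlext A (s.map fun b => if b = true then (1 : R) else 0) = if A s = true then 1 else 0 := by
  classical
  unfold mlext
  set v : List R := s.map fun b => if b = true then (1 : R) else 0 with hv
  have hlen : v.length = s.length := by simp [hv]
  rw [Finset.sum_eq_single (fun i : Fin v.length => s.get (i.cast hlen))]
  · have h1 : List.ofFn (fun i : Fin v.length => s.get (i.cast hlen)) = s := by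
      apply List.ext_get
      · simp [hlen]
      · intro n h1 h2
        simp
    rw [h1]
    have h2 : ∀ i : Fin v.length,
        (if s.get (i.cast hlen) = true then v.get i else 1 - v.get i) = 1 := by
      intro i
      have h3 : v.get i = if s.get (i.cast hlen) = true then (1 : R) else 0 := by
        simp [hv]
      rw [h3]
      split_ifs <;> simp
    simp only [h2, prod_const_one]
  · intro t _ ht
    split_ifs with h
    · obtain ⟨i, hi⟩ : ∃ i, t i ≠ s.get (i.cast hlen) := by
        by_contra hcon
        push Not at hcon
        exact ht (funext hcon)
      apply Finset.prod_eq_zero (mem_univ i)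
      have h3 : v.get i = if s.get (i.cast hlen) = true then (1 : R) else 0 := by
        simp [hv]
      rw [h3]
      rcases h4 : t i <;> rcases h5 : s.get (i.cast hlen) <;> simp_all
    · rfl
  · intro h
    exact absurd (mem_univ _) h

end Pool.Agent.Lib.MP_ff3ed7_lc
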