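import Pool.Agent.Lib.MP_ff3ed7_lc.DefsPP

/-!
Two-party communication protocols, threshold degree, quantum query algorithms with a witness, and
exact dual objects.
-/

open Finset

namespace Pool.Agent.Lib.MP_ff3ed7_lc

/-- Deterministic two-party protocols; the first player holds an element of `X`, the second player
an element of `Y`, and in each round one of them sends a bit. -/
inductive Prot (X Y : Type) : Type
  | leaf (b : Bool) : Prot X Y
  | alice (a : X → Bool) (next : Bool → Prot X Y) : Prot X Y
  | bob (b : Y → Bool) (next : Bool → Prot X Y) : Prot X Y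

namespace Prot

variable {X Y : Type}

/-- The output of the protocol. -/
def eval (x : X) (y : Y) : Prot X Y → Bool
  | leaf b => b
  | alice a next => (next (a x)).eval x y
  | bob b next => (next (b y)).eval x y

/-- At most `c` bits are exchanged. -/
def CostLE : Prot X Y → ℕ → Prop
  | leaf _, _ => True
  | alice _ next, c => 0 < c ∧ ∀ s, (next s).CostLE (c - 1)
  | bob _ next, c => 0 < c ∧ ∀ s, (next s).CostLE (c - 1)

end Prot

variable {X Y : Type}

/-- `F` has an Arthur-Merlin communication protocol: `r` random bits are known to everybody,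
Merlin, who knows both inputs, sends a message of `p` bits to both players, and each player decides,
without further communication, whether to accept. -/
def HasAMcc (F : X → Y → Bool) (r p : ℕ) : Prop :=
  ∃ (A : (Fin p → Bool) → (Fin r → Bool) → X → Bool)
    (B : (Fin p → Bool) → (Fin r → Bool) → Y → Bool),
    (∀ x y, F x y = true → 2 / 3 ≤ prob r fun ρ => ∃ m, A m ρ x = true ∧ B m ρ y = true) ∧
    (∀ x y, F x y = false → prob r (fun ρ => ∃ m, A m ρ x = true ∧ B m ρ y = true) ≤ 1 / 3)

/-- `F` has a Merlin-Arthur communication protocol: Merlin, who knows both inputs, sends a message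
of `p` bits to both players; then the players use any number `r` of common random bits and exchange
at most `c` bits. -/
def HasMAcc (F : X → Y → Bool) (p c : ℕ) : Prop :=
  ∃ (r : ℕ) (P : (Fin p → Bool) → (Fin r → Bool) → Prot X Y),
    (∀ m ρ, (P m ρ).CostLE c) ∧
    (∀ x y, F x y = true → ∃ m, 2 / 3 ≤ prob r fun ρ => (P m ρ).eval x y = true) ∧
    (∀ x y, F x y = false → ∀ m, prob r (fun ρ => (P m ρ).eval x y = true) ≤ 1 / 3)

/-- `F` has a `PP` communication protocol of cost `p` and `c`: the players use any number `r` of
common random bits and exchange at most `c` bits; the acceptance probability is at least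
`1 / 2 + 2 ^ (-p)` if `F x y` is true, and at most `1 / 2` otherwise. -/
def HasPPcc (F : X → Y → Bool) (p c : ℕ) : Prop :=
  ∃ (r : ℕ) (P : (Fin r → Bool) → Prot X Y),
    (∀ ρ, (P ρ).CostLE c) ∧
    (∀ x y, F x y = true → 1 / 2 + (1 / 2) ^ p ≤ prob r fun ρ => (P ρ).eval x y = true) ∧
    (∀ x y, F x y = false → prob r (fun ρ => (P ρ).eval x y = true) ≤ 1 / 2)

variable {ι : Type}

/-- The bit string computed by the gadgets: the second player selects one of the two bits of the
first player and the selected bit is added to another bit of the second player. -/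
def sel (x y : ι → Bool × Bool) (i : ι) : Bool :=
  xor (if (y i).1 then (x i).2 else (x i).1) (y i).2

/-- The two-party function obtained from `f` by composition with the gadget. -/
def lift (f : (ι → Bool) → Bool) (x y : ι → Bool × Bool) : Bool := f (sel x y)

/-- `f` is the sign of a real polynomial of degree at most `D`. -/
def ThrDegLE (f : (ι → Bool) → Bool) (D : ℕ) : Prop :=
  ∃ P : MvPolynomial ι ℝ, P.totalDegree ≤ D ∧
    ∀ x, (f x = true → 0 < P.eval fun i => if x i then (1 : ℝ) else 0) ∧
      (f x = false → P.eval (fun i => if x i then (1 : ℝ) else 0) < 0)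

/-- The phase which a query to `x` gives to a basis state which holds the index `i` (`none` if the
basis state makes no query). -/
def phase (x : ι → Bool) : Option ι → ℂ
  | none => 1
  | some i => if x i then -1 else 1

/-- State after `t` queries. The basis states are the elements of `K`, `U t` is the unitary after
`t` queries, `s` is the initial state. -/
noncomputable def qstate {K : Type} [Fintype K] (U : ℕ → Matrix K K ℂ) (q : K → Option ι)
    (s : K → ℂ) (x : ι → Bool) : ℕ → K → ℂ
  | 0 => (U 0).mulVec s
  | t + 1 => (U (t + 1)).mulVec fun k => phase x (q k) * qstate U q s x t k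

open Classical in
/-- `f` has a quantum Merlin-Arthur query protocol with a witness of `p` qubits and `T` quantum
queries. -/
def HasQMA (f : (ι → Bool) → Bool) (p T : ℕ) : Prop :=
  ∃ (K : Type) (_ : Fintype K) (U : ℕ → Matrix K K ℂ) (q : K → Option ι)
    (init : (Fin p → Bool) ↪ K) (acc : Finset K),
    (∀ t, U t ∈ Matrix.unitaryGroup K ℂ) ∧
    (∀ x, f x = true → ∃ w : (Fin p → Bool) → ℂ, ∑ z, ‖w z‖ ^ 2 = 1 ∧
      2 / 3 ≤ ∑ k ∈ acc, ‖qstate U q (fun k => ∑ z, if init z = k then w z else 0) x T k‖ ^ 2) ∧
    (∀ x, f x = false → ∀ w : (Fin p → Bool) → ℂ, ∑ z, ‖w z‖ ^ 2 = 1 →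
      ∑ k ∈ acc, ‖qstate U q (fun k => ∑ z, if init z = k then w z else 0) x T k‖ ^ 2 ≤ 1 / 3)

/-- Two probability distributions, on the yes-inputs and on the no-inputs, which cannot be
distinguished by functions of at most `D` bits. -/
def HasExactDual [Fintype ι] [DecidableEq ι] (f : (ι → Bool) → Bool) (D : ℕ) : Prop :=
  ∃ α β : (ι → Bool) → ℝ, (∀ x, 0 ≤ α x) ∧ (∀ x, 0 ≤ β x) ∧ ∑ x, α x = 1 ∧ ∑ x, β x = 1 ∧
    (∀ x, α x ≠ 0 → f x = true) ∧ (∀ x, β x ≠ 0 → f x = false) ∧
    ∀ (S : Finset ι), S.card ≤ D → ∀ g : (ι → Bool) → ℝ,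
      (∀ x y, (∀ i ∈ S, x i = y i) → g x = g y) → ∑ x, α x * g x = ∑ x, β x * g x

end Pool.Agent.Lib.MP_ff3ed7_lc
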