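import Pool.Agent.Lib.MP_ff3ed7_lc.Defs

/-! Basic operations on decision trees. -/

namespace Pool.Agent.Lib.MP_ff3ed7_lc

namespace DTree

variable {ι σ : Type}

@[simp] lemma eval_leaf (x : ι → σ) (b : Bool) : (leaf b : DTree ι σ).eval x = b := rfl

@[simp] lemma eval_node (x : ι → σ) (i : ι) (f : σ → DTree ι σ) :
    (node i f).eval x = (f (x i)).eval x := rfl

lemma depthLE_leaf (b : Bool) (d : ℕ) : (leaf b : DTree ι σ).DepthLE d := trivial

lemma depthLE_node {i : ι} {f : σ → DTree ι σ} {d : ℕ} :
    (node i f).DepthLE (d + 1) ↔ ∀ s, (f s).DepthLE d := by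
  simp [DepthLE]

lemma DepthLE.mono {t : DTree ι σ} {d e : ℕ} (h : t.DepthLE d) (hde : d ≤ e) : t.DepthLE e := by
  induction t generalizing d e with
  | leaf b => trivial
  | node i f ih =>
    obtain ⟨h0, h1⟩ := h
    exact ⟨by omega, fun s => ih s (h1 s) (by omega)⟩

/-- Conjunction of trees. -/
def and : DTree ι σ → DTree ι σ → DTree ι σ
  | leaf true, t => t
  | leaf false, _ => leaf false
  | node i f, t => node i fun s => (f s).and t

@[simp] lemma eval_and (x : ι → σ) (s t : DTree ι σ) :
    (s.and t).eval x = (s.eval x && t.eval x) := by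
  induction s with
  | leaf b => cases b <;> simp [and]
  | node i f ih => simp [and, ih]

lemma depthLE_and {s t : DTree ι σ} {d e : ℕ} (hs : s.DepthLE d) (ht : t.DepthLE e) :
    (s.and t).DepthLE (d + e) := by
  induction s generalizing d with
  | leaf b =>
    cases b
    · trivial
    · exact ht.mono (by omega)
  | node i f ih =>
    obtain ⟨h0, h1⟩ := hs
    refine ⟨by omega, fun s => ?_⟩
    have := ih s (h1 s)
    refine this.mono (by omega)

/-- Conjunction of a family of trees. -/
def andAll : (k : ℕ) → (Fin k → DTree ι σ) → DTree ι σ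
  | 0, _ => leaf true
  | k + 1, f => (f 0).and (andAll k fun i => f i.succ)

lemma eval_andAll (x : ι → σ) (k : ℕ) (f : Fin k → DTree ι σ) :
    (andAll k f).eval x = true ↔ ∀ i, (f i).eval x = true := by
  induction k with
  | zero => simp [andAll]
  | succ k ih => simp [andAll, ih, Fin.forall_fin_succ]

lemma depthLE_andAll {k d : ℕ} {f : Fin k → DTree ι σ} (h : ∀ i, (f i).DepthLE d) :
    (andAll k f).DepthLE (k * d) := by
  induction k with
  | zero => trivial
  | succ k ih =>
    have := depthLE_and (h 0) (ih fun i => h i.succ)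
    refine this.mono ?_
    rw [Nat.succ_mul]; omega

/-- Read the `b` cells `c i` and continue according to what was read. -/
def readAll : (b : ℕ) → (Fin b → ι) → ((Fin b → σ) → DTree ι σ) → DTree ι σ
  | 0, _, k => k Fin.elim0
  | b + 1, c, k => node (c 0) fun a => readAll b (fun i => c i.succ) fun as => k (Fin.cons a as)

lemma eval_readAll (x : ι → σ) (b : ℕ) (c : Fin b → ι) (k : (Fin b → σ) → DTree ι σ) :
    (readAll b c k).eval x = (k fun i => x (c i)).eval x := by
  induction b with
  | zero =>
    simp only [readAll]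
    congr 2
    exact funext fun i => i.elim0
  | succ b ih =>
    simp only [readAll, eval_node, ih]
    congr 2
    funext i
    refine Fin.cases ?_ (fun j => ?_) i <;> simp

lemma depthLE_readAll {b d : ℕ} {c : Fin b → ι} {k : (Fin b → σ) → DTree ι σ}
    (h : ∀ a, (k a).DepthLE d) : (readAll b c k).DepthLE (b + d) := by
  induction b with
  | zero => simpa [readAll] using h _
  | succ b ih =>
    simp only [readAll]
    rw [show b + 1 + d = (b + d) + 1 by omega, depthLE_node]
    exact fun s => ih fun a => h _

/-- Simulate a tree which queries bits by a tree which queries cells. -/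
def conv {κ τ : Type} (g : ι → κ) (e : ι → τ → σ) : DTree ι σ → DTree κ τ
  | leaf b => leaf b
  | node i f => node (g i) fun v => (f (e i v)).conv g e

lemma eval_conv {κ τ : Type} (g : ι → κ) (e : ι → τ → σ) (x : κ → τ) (t : DTree ι σ) :
    (t.conv g e).eval x = t.eval fun i => e i (x (g i)) := by
  induction t with
  | leaf b => rfl
  | node i f ih => simp [conv, ih]

lemma depthLE_conv {κ τ : Type} {g : ι → κ} {e : ι → τ → σ} {t : DTree ι σ} {d : ℕ}
    (h : t.DepthLE d) : (t.conv g e).DepthLE d := by
  induction t generalizing d with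
  | leaf b => trivial
  | node i f ih => exact ⟨h.1, fun s => ih _ (h.2 _)⟩

end DTree

end Pool.Agent.Lib.MP_ff3ed7_lc
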