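import Pool.Agent.Lib.MP_ff3ed7_lc.AlgDefs
import Pool.Agent.Lib.MP_ff3ed7_lc.DefsCC
import Pool.Agent.Lib.MP_ff3ed7_lc.Tree

/-! Communication protocols from trees with algebraic queries. -/

open Finset

namespace Pool.Agent.Lib.MP_ff3ed7_lc

/-! ### Sending numbers -/

section send

variable {X Y : Type}

/-- The first player sends `k` bits. -/
def sendA : (k : ℕ) → (X → Fin k → Bool) → ((Fin k → Bool) → Prot X Y) → Prot X Y
  | 0, _, next => next Fin.elim0
  | k + 1, a, next => .alice (fun x => a x 0) fun s =>
      sendA k (fun x i => a x i.succ) fun t => next (Fin.cons s t)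

/-- The second player sends `k` bits. -/
def sendB : (k : ℕ) → (Y → Fin k → Bool) → ((Fin k → Bool) → Prot X Y) → Prot X Y
  | 0, _, next => next Fin.elim0
  | k + 1, b, next => .bob (fun y => b y 0) fun s =>
      sendB k (fun y i => b y i.succ) fun t => next (Fin.cons s t)

lemma eval_sendA (x : X) (y : Y) (k : ℕ) (a : X → Fin k → Bool)
    (next : (Fin k → Bool) → Prot X Y) :
    (sendA k a next).eval x y = (next (a x)).eval x y := by
  induction k with
  | zero =>
    simp only [sendA]
    congr 2
    exact funext fun i => i.elim0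
  | succ k ih =>
    simp only [sendA, Prot.eval, ih]
    congr 2
    funext i
    refine Fin.cases ?_ (fun j => ?_) i <;> simp

lemma eval_sendB (x : X) (y : Y) (k : ℕ) (b : Y → Fin k → Bool)
    (next : (Fin k → Bool) → Prot X Y) :
    (sendB k b next).eval x y = (next (b y)).eval x y := by
  induction k with
  | zero =>
    simp only [sendB]
    congr 2
    exact funext fun i => i.elim0
  | succ k ih =>
    simp only [sendB, Prot.eval, ih]
    congr 2
    funext i
    refine Fin.cases ?_ (fun j => ?_) i <;> simp

lemma cost_sendA {k c : ℕ} {a : X → Fin k → Bool} {next : (Fin k → Bool) → Prot X Y}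
    (h : ∀ t, (next t).CostLE c) : (sendA k a next).CostLE (k + c) := by
  induction k with
  | zero => simpa [sendA] using h _
  | succ k ih =>
    refine ⟨by omega, fun s => ?_⟩
    rw [show k + 1 + c - 1 = k + c by omega]
    exact ih fun t => h _

lemma cost_sendB {k c : ℕ} {b : Y → Fin k → Bool} {next : (Fin k → Bool) → Prot X Y}
    (h : ∀ t, (next t).CostLE c) : (sendB k b next).CostLE (k + c) := by
  induction k with
  | zero => simpa [sendB] using h _
  | succ k ih =>
    refine ⟨by omega, fun s => ?_⟩
    rw [show k + 1 + c - 1 = k + c by omega]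
    exact ih fun t => h _

end send

/-! ### The multilinear extension is additive -/

lemma mlext_add {R : Type} [CommRing R] {A B C : List Bool → Bool}
    (h : ∀ s, A s = (B s || C s)) (hd : ∀ s, B s = false ∨ C s = false) (v : List R) :
    mlext A v = mlext B v + mlext C v := by
  unfold mlext
  rw [← sum_add_distrib]
  refine sum_congr rfl fun s _ => ?_
  rcases hB : B (List.ofFn s) <;> rcases hC : C (List.ofFn s)
  · simp [h, hB, hC]
  · simp [h, hB, hC]
  · simp [h, hB, hC]
  · rcases hd (List.ofFn s) with h' | h'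
    · rw [hB] at h'; cases h'
    · rw [hC] at h'; cases h'

lemma mlext_congr {R : Type} [CommRing R] {A B : List Bool → Bool} {N : ℕ}
    (h : ∀ s : List Bool, s.length ≤ N → A s = B s) (v : List R) (hv : v.length ≤ N) :
    mlext A v = mlext B v := by
  unfold mlext
  refine sum_congr rfl fun s _ => ?_
  rw [h (List.ofFn s) (by simpa using hv)]

/-- Addition in an explicitly given ring. -/
def radd {R : Type} [CommRing R] (a b : R) : R := a + b

open Classical in
/-- The sum of two elements of the ring of a query. -/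
noncomputable def AQ.comb (q : AQ) (a b : ℕ) : ℕ :=
  if h : a < q.m ∧ b < q.m then (@radd (Fin q.m) q.ring ⟨a, h.1⟩ ⟨b, h.2⟩).val else 0

lemma AQ.comb_ans {A B C : List Bool → Bool}
    (h : ∀ s, A s = (B s || C s)) (hd : ∀ s, B s = false ∨ C s = false) (q : AQ) :
    q.comb (q.ans B) (q.ans C) = q.ans A := by
  unfold AQ.comb AQ.ans
  rw [dif_pos ⟨Fin.is_lt _, Fin.is_lt _⟩]
  congr 1
  exact (@mlext_add (Fin q.m) q.ring A B C h hd q.pt).symm

lemma AQ.ans_congr {A B : List Bool → Bool} {N : ℕ}
    (h : ∀ s : List Bool, s.length ≤ N → A s = B s) (q : AQ) (hq : q.pt.length ≤ N) :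
    q.ans A = q.ans B := by
  unfold AQ.ans
  congr 1
  exact @mlext_congr (Fin q.m) q.ring A B N h q.pt hq

lemma DTree.eval_congr_of_allQ {ι σ : Type} {P : ι → Prop} {x y : ι → σ}
    (h : ∀ i, P i → x i = y i) (t : DTree ι σ) (ht : t.AllQ P) : t.eval x = t.eval y := by
  induction t with
  | leaf b => rfl
  | node i f ih =>
    simp only [eval_node]
    rw [h i ht.1]
    exact ih _ (ht.2 _)

/-! ### The protocol -/

section prot

variable {X Y : Type}

/-- The bits of a number. -/
def enc (k n : ℕ) (i : Fin k) : Bool := n.testBit i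

lemma ofBits_enc {k n : ℕ} (h : n < 2 ^ k) : Nat.ofBits (enc k n) = n := by
  have := Nat.ofBits_testBit n k
  rw [Nat.mod_eq_of_lt h] at this
  exact this

/-- Both players send their share of the answer to each query. -/
noncomputable def toProt (k : ℕ) (B : X → List Bool → Bool) (C : Y → List Bool → Bool) :
    DTree AQ ℕ → Prot X Y
  | .leaf b => .leaf b
  | .node q next =>
      sendA k (fun x => enc k (q.ans (B x))) fun s =>
        sendB k (fun y => enc k (q.ans (C y))) fun t =>
          toProt k B C (next (q.comb (Nat.ofBits s) (Nat.ofBits t)))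

lemma cost_toProt {k d : ℕ} {B : X → List Bool → Bool} {C : Y → List Bool → Bool}
    {t : DTree AQ ℕ} (ht : t.DepthLE d) : (toProt k B C t).CostLE (d * (2 * k)) := by
  induction t generalizing d with
  | leaf b => trivial
  | node q next ih =>
    obtain ⟨h0, h1⟩ := ht
    obtain ⟨e, rfl⟩ : ∃ e, d = e + 1 := ⟨d - 1, by omega⟩
    rw [show (e + 1) * (2 * k) = k + (k + e * (2 * k)) by ring]
    exact cost_sendA fun s => cost_sendB fun t => ih _ (h1 _)

lemma AQ.ans_lt (A : List Bool → Bool) (q : AQ) : q.ans A < q.m := Fin.is_lt _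

lemma eval_toProt {k : ℕ} {B : X → List Bool → Bool} {C : Y → List Bool → Bool}
    {A : List Bool → Bool} {x : X} {y : Y}
    (h : ∀ s, A s = (B x s || C y s)) (hd : ∀ s, B x s = false ∨ C y s = false)
    {t : DTree AQ ℕ} (ht : t.AllQ fun q => q.m ≤ 2 ^ k) :
    (toProt k B C t).eval x y = t.eval (AQ.ans A) := by
  induction t with
  | leaf b => rfl
  | node q next ih =>
    simp only [toProt, eval_sendA, eval_sendB, DTree.eval_node]
    rw [ofBits_enc ((q.ans_lt _).trans_le ht.1), ofBits_enc ((q.ans_lt _).trans_le ht.1),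
      AQ.comb_ans h hd]
    exact ih _ (ht.2 _)

end prot

lemma DTree.AllQ.mono {ι σ : Type} {P Q : ι → Prop} (h : ∀ i, P i → Q i) {t : DTree ι σ}
    (ht : t.AllQ P) : t.AllQ Q := by
  induction t with
  | leaf b => trivial
  | node i f ih => exact ⟨h _ ht.1, fun s => ih _ (ht.2 s)⟩

/-! ### Trees for the composed function -/

section expandTree

variable {ι κ : Type}

/-- Replace a query by three queries to the bits of the two players. -/
def expandTree (g : ι × Fin 4 → κ) : DTree ι Bool → DTree κ Bool
  | .leaf b => .leaf b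
  | .node i f => .node (g (i, 2)) fun v => .node (g (i, if v = true then 1 else 0)) fun a =>
      .node (g (i, 3)) fun w => expandTree g (f (xor a w))

/-- The bits of the first player. -/
def fstPart (g : ι × Fin 4 → κ) (A : κ → Bool) (i : ι) : Bool × Bool := (A (g (i, 0)), A (g (i, 1)))

/-- The bits of the second player. -/
def sndPart (g : ι × Fin 4 → κ) (A : κ → Bool) (i : ι) : Bool × Bool := (A (g (i, 2)), A (g (i, 3)))

lemma eval_expandTree (g : ι × Fin 4 → κ) (A : κ → Bool) (t : DTree ι Bool) :
    (expandTree g t).eval A = t.eval (sel (fstPart g A) (sndPart g A)) := by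
  induction t with
  | leaf b => rfl
  | node i f ih =>
    simp only [expandTree, DTree.eval_node, ih]
    congr 2
    simp only [sel, fstPart, sndPart]
    cases A (g (i, 2)) <;> simp

lemma depthLE_expandTree {g : ι × Fin 4 → κ} {t : DTree ι Bool} {d : ℕ} (h : t.DepthLE d) :
    (expandTree g t).DepthLE (3 * d) := by
  induction t generalizing d with
  | leaf b => trivial
  | node i f ih =>
    obtain ⟨h0, h1⟩ := h
    obtain ⟨e, rfl⟩ : ∃ e, d = e + 1 := ⟨d - 1, by omega⟩
    rw [show 3 * (e + 1) = 3 * e + 1 + 1 + 1 by ring]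
    simp only [expandTree, DTree.depthLE_node]
    exact fun _ _ _ => ih _ (h1 _)

lemma allQ_expandTree {g : ι × Fin 4 → κ} {P : κ → Prop} (h : ∀ i, P (g i)) (t : DTree ι Bool) :
    (expandTree g t).AllQ P := by
  induction t with
  | leaf b => trivial
  | node i f ih => exact ⟨h _, fun _ => ⟨h _, fun _ => ⟨h _, fun _ => ih _⟩⟩⟩

end expandTree

end Pool.Agent.Lib.MP_ff3ed7_lc
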