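import Pool.Agent.Lib.MP_ff3ed7_lc.Tree
import Pool.Agent.Lib.MP_ff3ed7_lc.DefsCC

/-! Protocols with linear queries, and their simulation by two players. -/

open Finset

namespace Pool.Agent.Lib.MP_ff3ed7_lc

/-- Decision trees with linear queries: a query is given by coefficients `c` in an abelian group `G`
and the answer is the sum of the coefficients of the positions where the input has a one. -/
inductive LTree (ι G : Type) : Type
  | leaf (b : Bool) : LTree ι G
  | node (c : ι → G) (next : G → LTree ι G) : LTree ι G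

namespace LTree

variable {ι G : Type} [Fintype ι] [AddCommGroup G]

/-- The output of the tree on input `x`. -/
def eval (x : ι → Bool) : LTree ι G → Bool
  | leaf b => b
  | node c next => (next (∑ i, if x i then c i else 0)).eval x

/-- The tree makes at most `d` queries on every branch. -/
def DepthLE {ι G : Type} : LTree ι G → ℕ → Prop
  | leaf _, _ => True
  | node _ next, d => 0 < d ∧ ∀ s, (next s).DepthLE (d - 1)

end LTree

/-- `f` has a `PP` protocol of cost `p` and `q` with linear queries with coefficients in `G`. -/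
def HasPPlin {ι : Type} [Fintype ι] (G : Type) [AddCommGroup G] (f : (ι → Bool) → Bool)
    (p q : ℕ) : Prop :=
  ∃ (r : ℕ) (T : (Fin r → Bool) → LTree ι G),
    (∀ ρ, (T ρ).DepthLE q) ∧
    (∀ x, f x = true → 1 / 2 + (1 / 2) ^ p ≤ prob r fun ρ => (T ρ).eval x = true) ∧
    (∀ x, f x = false → prob r (fun ρ => (T ρ).eval x = true) ≤ 1 / 2)

namespace Prot

variable {X Y X' Y' : Type}

lemma CostLE.mono {P : Prot X Y} {c c' : ℕ} (h : P.CostLE c) (hc : c ≤ c') : P.CostLE c' := by
  induction P generalizing c c' with
  | leaf b => trivial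
  | alice a next ih => exact ⟨by have := h.1; omega, fun s => ih s (h.2 s) (by omega)⟩
  | bob b next ih => exact ⟨by have := h.1; omega, fun s => ih s (h.2 s) (by omega)⟩

/-- Change of the inputs. -/
def comap (u : X' → X) (v : Y' → Y) : Prot X Y → Prot X' Y'
  | leaf b => leaf b
  | alice a next => alice (fun x => a (u x)) fun s => (next s).comap u v
  | bob b next => bob (fun y => b (v y)) fun s => (next s).comap u v

lemma eval_comap (u : X' → X) (v : Y' → Y) (P : Prot X Y) (x : X') (y : Y') :
    (P.comap u v).eval x y = P.eval (u x) (v y) := by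
  induction P with
  | leaf b => rfl
  | alice a next ih => exact ih _
  | bob b next ih => exact ih _

lemma costLE_comap (u : X' → X) (v : Y' → Y) {P : Prot X Y} {c : ℕ} (h : P.CostLE c) :
    (P.comap u v).CostLE c := by
  induction P generalizing c with
  | leaf b => trivial
  | alice a next ih => exact ⟨h.1, fun s => ih s (h.2 s)⟩
  | bob b next ih => exact ⟨h.1, fun s => ih s (h.2 s)⟩

/-- The first player sends `g` bits. -/
def aliceSend : (g : ℕ) → (X → Fin g → Bool) → ((Fin g → Bool) → Prot X Y) → Prot X Y
  | 0, _, k => k Fin.elim0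
  | g + 1, a, k => alice (fun x => a x 0) fun s =>
      aliceSend g (fun x i => a x i.succ) fun m => k (Fin.cons s m)

/-- The second player sends `g` bits. -/
def bobSend : (g : ℕ) → (Y → Fin g → Bool) → ((Fin g → Bool) → Prot X Y) → Prot X Y
  | 0, _, k => k Fin.elim0
  | g + 1, b, k => bob (fun y => b y 0) fun s =>
      bobSend g (fun y i => b y i.succ) fun m => k (Fin.cons s m)

lemma eval_aliceSend (g : ℕ) (a : X → Fin g → Bool) (k : (Fin g → Bool) → Prot X Y) (x : X)
    (y : Y) : (aliceSend g a k).eval x y = (k (a x)).eval x y := by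
  induction g with
  | zero =>
    simp only [aliceSend]
    congr 2
    exact funext fun i => i.elim0
  | succ g ih =>
    simp only [aliceSend, eval, ih]
    congr 2
    funext i
    refine Fin.cases ?_ (fun j => ?_) i <;> simp

lemma eval_bobSend (g : ℕ) (b : Y → Fin g → Bool) (k : (Fin g → Bool) → Prot X Y) (x : X)
    (y : Y) : (bobSend g b k).eval x y = (k (b y)).eval x y := by
  induction g with
  | zero =>
    simp only [bobSend]
    congr 2
    exact funext fun i => i.elim0
  | succ g ih =>
    simp only [bobSend, eval, ih]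
    congr 2
    funext i
    refine Fin.cases ?_ (fun j => ?_) i <;> simp

lemma costLE_aliceSend {g c : ℕ} {a : X → Fin g → Bool} {k : (Fin g → Bool) → Prot X Y}
    (h : ∀ m, (k m).CostLE c) : (aliceSend g a k).CostLE (g + c) := by
  induction g with
  | zero => simpa [aliceSend] using h _
  | succ g ih =>
    refine ⟨by omega, fun s => ?_⟩
    have := ih (a := fun x i => a x i.succ) (k := fun m => k (Fin.cons s m)) fun m => h _
    exact this.mono (by omega)

lemma costLE_bobSend {g c : ℕ} {b : Y → Fin g → Bool} {k : (Fin g → Bool) → Prot X Y}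
    (h : ∀ m, (k m).CostLE c) : (bobSend g b k).CostLE (g + c) := by
  induction g with
  | zero => simpa [bobSend] using h _
  | succ g ih =>
    refine ⟨by omega, fun s => ?_⟩
    have := ih (b := fun y i => b y i.succ) (k := fun m => k (Fin.cons s m)) fun m => h _
    exact this.mono (by omega)

end Prot

section

variable {X Y X' Y' : Type} {F : X → Y → Bool}

lemma HasPPcc.comap {p c : ℕ} (h : HasPPcc F p c) (u : X' → X) (v : Y' → Y) :
    HasPPcc (fun x y => F (u x) (v y)) p c := by
  obtain ⟨r, P, hP, hyes, hno⟩ := h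
  refine ⟨r, fun ρ => (P ρ).comap u v, fun ρ => Prot.costLE_comap u v (hP ρ), fun x y h => ?_,
    fun x y h => ?_⟩
  · simpa only [Prot.eval_comap] using hyes _ _ h
  · simpa only [Prot.eval_comap] using hno _ _ h

lemma HasMAcc.comap {p c : ℕ} (h : HasMAcc F p c) (u : X' → X) (v : Y' → Y) :
    HasMAcc (fun x y => F (u x) (v y)) p c := by
  obtain ⟨r, P, hP, hyes, hno⟩ := h
  refine ⟨r, fun m ρ => (P m ρ).comap u v, fun m ρ => Prot.costLE_comap u v (hP m ρ),
    fun x y h => ?_, fun x y h => ?_⟩
  · simpa only [Prot.eval_comap] using hyes _ _ h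
  · simpa only [Prot.eval_comap] using hno _ _ h

lemma HasAMcc.comap {r p : ℕ} (h : HasAMcc F r p) (u : X' → X) (v : Y' → Y) :
    HasAMcc (fun x y => F (u x) (v y)) r p := by
  obtain ⟨A, B, hyes, hno⟩ := h
  exact ⟨fun m ρ x => A m ρ (u x), fun m ρ y => B m ρ (v y), fun x y h => hyes _ _ h,
    fun x y h => hno _ _ h⟩

end

/-! ### Simulation of linear queries -/

section

variable {ι κ G : Type} [Fintype ι] [Fintype κ] [AddCommGroup G]

/-- Simulation of a tree with linear queries: `enc`, `dec` are the binary codes of the elements of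
`G`. -/
def LTree.sim (g : ℕ) (enc : G → Fin g → Bool) (dec : (Fin g → Bool) → G) :
    LTree (ι ⊕ κ) G → Prot (ι → Bool) (κ → Bool)
  | .leaf b => .leaf b
  | .node c next => Prot.aliceSend g (fun x => enc (∑ i, if x i then c (.inl i) else 0)) fun m =>
      Prot.bobSend g (fun y => enc (∑ i, if y i then c (.inr i) else 0)) fun m' =>
        (next (dec m + dec m')).sim g enc dec

lemma LTree.eval_sim {g : ℕ} {enc : G → Fin g → Bool} {dec : (Fin g → Bool) → G}
    (h : ∀ s, dec (enc s) = s) (T : LTree (ι ⊕ κ) G) (x : ι → Bool) (y : κ → Bool) :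
    (T.sim g enc dec).eval x y = T.eval (Sum.elim x y) := by
  induction T with
  | leaf b => rfl
  | node c next ih =>
    simp only [LTree.sim, LTree.eval, Prot.eval_aliceSend, Prot.eval_bobSend, h, ih]
    congr 2
    rw [Fintype.sum_sum_type]
    rfl

lemma LTree.costLE_sim {g : ℕ} {enc : G → Fin g → Bool} {dec : (Fin g → Bool) → G} {q : ℕ}
    {T : LTree (ι ⊕ κ) G} (hT : T.DepthLE q) : (T.sim g enc dec).CostLE (q * (2 * g)) := by
  induction T generalizing q with
  | leaf b => trivial
  | node c next ih =>
    obtain ⟨h0, h1⟩ := hT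
    obtain ⟨q, rfl⟩ : ∃ e, q = e + 1 := ⟨q - 1, by omega⟩
    have h2 : ∀ s, ((next s).sim g enc dec).CostLE (q * (2 * g)) := fun s => ih s (h1 s)
    refine (Prot.costLE_aliceSend (c := g + q * (2 * g)) fun m =>
      Prot.costLE_bobSend fun m' => h2 _).mono (le_of_eq ?_)
    ring

/-- Linear queries are simulated by two players who hold parts of the input. -/
lemma HasPPlin.cc [Fintype G] {g : ℕ} (hg : Fintype.card G ≤ 2 ^ g) {f : (ι ⊕ κ → Bool) → Bool}
    {p q : ℕ} (h : HasPPlin G f p q) :
    HasPPcc (fun (x : ι → Bool) (y : κ → Bool) => f (Sum.elim x y)) p (q * (2 * g)) := by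
  obtain ⟨r, T, hT, hyes, hno⟩ := h
  obtain ⟨emb⟩ : Nonempty (G ↪ (Fin g → Bool)) :=
    Function.Embedding.nonempty_of_card_le (by simpa using hg)
  have hdec := Function.leftInverse_invFun emb.injective
  refine ⟨r, fun ρ => (T ρ).sim g emb (Function.invFun emb), fun ρ => LTree.costLE_sim (hT ρ),
    fun x y hxy => ?_, fun x y hxy => ?_⟩
  · simpa only [LTree.eval_sim hdec] using hyes _ hxy
  · simpa only [LTree.eval_sim hdec] using hno _ hxy

end

end Pool.Agent.Lib.MP_ff3ed7_lc
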