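import Pool.Agent.Lib.MP_ff3ed7_lc.DefsCC

/-! T4: the pattern matrix method. -/

open Finset

namespace Pool.Agent.Lib.MP_ff3ed7_lc

/-- The sign of a bit. -/
def chi (s : Bool) : ℝ := if s then -1 else 1

theorem chi_xor (s t : Bool) : chi (xor s t) = chi s * chi t := by
  cases s <;> cases t <;> simp [chi]

theorem chi_sq (s : Bool) : chi s * chi s = 1 := by cases s <;> simp [chi]

theorem chi_abs (s : Bool) : |chi s| = 1 := by cases s <;> simp [chi]

theorem one_add_chi (s t : Bool) : 1 + chi s * chi t = if s = t then 2 else 0 := by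
  cases s <;> cases t <;> norm_num [chi]

/-- The characters of the group `Bool × Bool`. -/
def kk (c s : Bool × Bool) : ℝ := (if c.1 then chi s.1 else 1) * (if c.2 then chi s.2 else 1)

theorem sum_kk (s t : Bool × Bool) : ∑ c, kk c s * kk c t = if s = t then 4 else 0 := by
  obtain ⟨s1, s2⟩ := s
  obtain ⟨t1, t2⟩ := t
  rw [Fintype.sum_prod_type]
  cases s1 <;> cases s2 <;> cases t1 <;> cases t2 <;> norm_num [kk, chi]

theorem sum_sq_kernel {C X : Type} [Fintype C] [Fintype X] (a : X → ℝ) (m : C → ℝ)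
    (k : C → X → ℝ) :
    ∑ c, m c * (∑ x, a x * k c x) ^ 2 =
      ∑ x, ∑ x', a x * a x' * ∑ c, m c * (k c x * k c x') := by
  have h1 : ∀ c, m c * (∑ x, a x * k c x) ^ 2 =
      ∑ x, ∑ x', m c * (a x * k c x * (a x' * k c x')) := by
    intro c
    rw [sq, Finset.sum_mul_sum, Finset.mul_sum]
    exact Finset.sum_congr rfl fun x _ => Finset.mul_sum _ _ _
  rw [Finset.sum_congr rfl fun c _ => h1 c, Finset.sum_comm]
  refine Finset.sum_congr rfl fun x _ => ?_
  rw [Finset.sum_comm]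
  refine Finset.sum_congr rfl fun x' _ => ?_
  rw [Finset.mul_sum]
  refine Finset.sum_congr rfl fun c _ => ?_
  ring

theorem sum_diag {X : Type} [Fintype X] [DecidableEq X] (a : X → ℝ) (q : ℝ) :
    ∑ x, ∑ x', a x * a x' * (if x = x' then q else 0) = q * ∑ x, a x ^ 2 := by
  rw [Finset.mul_sum]
  refine Finset.sum_congr rfl fun x _ => ?_
  rw [Finset.sum_eq_single x]
  · simp
    ring
  · intro b _ hb
    rw [if_neg (Ne.symm hb), mul_zero]
  · simp

section

variable {ι : Type} [Fintype ι]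

theorem prod_ite_eq_pow {σ : Type} [DecidableEq σ] (z z' : ι → σ) (q : ℝ) :
    (∏ i, if z i = z' i then q else 0) = if z = z' then q ^ Fintype.card ι else 0 := by
  by_cases h : z = z'
  · subst h
    simp
  · rw [if_neg h]
    obtain ⟨i, hi⟩ := Function.ne_iff.mp h
    exact Finset.prod_eq_zero (Finset.mem_univ i) (if_neg hi)

theorem sum_char (z z' : ι → Bool) :
    ∑ S : Finset ι, (∏ i ∈ S, chi (z i)) * (∏ i ∈ S, chi (z' i)) =
      if z = z' then (2 : ℝ) ^ Fintype.card ι else 0 := by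
  rw [← prod_ite_eq_pow]
  simp_rw [← one_add_chi, ← Finset.prod_mul_distrib]
  rw [Finset.prod_one_add, Finset.powerset_univ]

variable [DecidableEq ι]

theorem parseval (φ : (ι → Bool) → ℝ) :
    ∑ S : Finset ι, (∑ w, φ w * ∏ i ∈ S, chi (w i)) ^ 2 =
      2 ^ Fintype.card ι * ∑ w, φ w ^ 2 := by
  have := sum_sq_kernel (C := Finset ι) φ (fun _ => 1) (fun S w => ∏ i ∈ S, chi (w i))
  simp_rw [one_mul, sum_char] at this
  rw [this, sum_diag]

theorem parseval_kk (a : (ι → Bool × Bool) → ℝ) :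
    ∑ c : ι → Bool × Bool, (∑ x, a x * ∏ i, kk (c i) (x i)) ^ 2 =
      4 ^ Fintype.card ι * ∑ x, a x ^ 2 := by
  have h2 : ∀ x x' : ι → Bool × Bool,
      ∑ c : ι → Bool × Bool, (∏ i, kk (c i) (x i)) * ∏ i, kk (c i) (x' i) =
        if x = x' then (4 : ℝ) ^ Fintype.card ι else 0 := by
    intro x x'
    rw [← prod_ite_eq_pow]
    simp_rw [← sum_kk, ← Finset.prod_mul_distrib]
    rw [Finset.prod_univ_sum, Fintype.piFinset_univ]
  have := sum_sq_kernel (C := ι → Bool × Bool) a (fun _ => 1) (fun c x => ∏ i, kk (c i) (x i))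
  simp_rw [one_mul, h2] at this
  rw [this, sum_diag]

/-- The bit of `s` selected by `v`. -/
def pick (s : Bool × Bool) (v : Bool) : Bool := if v then s.2 else s.1

/-- The weights of the characters. -/
def mm (c : Bool × Bool) : ℝ := if c = (true, true) then 0 else 2

theorem sum_pick (s t : Bool × Bool) :
    ∑ v : Bool, (1 + 2 * (chi (pick s v) * chi (pick t v))) =
      ∑ c : Bool × Bool, mm c * (kk c s * kk c t) := by
  obtain ⟨s1, s2⟩ := s
  obtain ⟨t1, t2⟩ := t
  rw [Fintype.sum_prod_type]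
  cases s1 <;> cases s2 <;> cases t1 <;> cases t2 <;> norm_num [kk, chi, mm, pick]

theorem mm_le (c : Bool × Bool) : mm c ≤ 2 := by unfold mm; split_ifs <;> norm_num

theorem mm_nonneg (c : Bool × Bool) : 0 ≤ mm c := by unfold mm; split_ifs <;> norm_num

theorem alpha_kernel (x x' : ι → Bool × Bool) :
    ∑ Sv : Finset ι × (ι → Bool), (2 : ℝ) ^ Sv.1.card *
        ((∏ i ∈ Sv.1, chi (pick (x i) (Sv.2 i))) * ∏ i ∈ Sv.1, chi (pick (x' i) (Sv.2 i))) =
      ∑ c : ι → Bool × Bool, (∏ i, mm (c i)) *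
        ((∏ i, kk (c i) (x i)) * ∏ i, kk (c i) (x' i)) := by
  simp_rw [← Finset.prod_mul_distrib]
  rw [← Fintype.piFinset_univ, ← Finset.prod_univ_sum (fun _ => Finset.univ)
    (fun i (c : Bool × Bool) => mm c * (kk c (x i) * kk c (x' i)))]
  simp_rw [← sum_pick]
  rw [Finset.prod_univ_sum, Fintype.piFinset_univ, Fintype.sum_prod_type, Finset.sum_comm]
  refine Finset.sum_congr rfl fun v _ => ?_
  rw [Finset.prod_one_add, Finset.powerset_univ]
  refine Finset.sum_congr rfl fun S _ => ?_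
  simp only [Finset.prod_mul_distrib, Finset.prod_const]

theorem alpha_bound (a : (ι → Bool × Bool) → ℝ) (ha : ∀ x, a x ^ 2 ≤ 1) :
    ∑ Sv : Finset ι × (ι → Bool), (2 : ℝ) ^ Sv.1.card *
      (∑ x, a x * ∏ i ∈ Sv.1, chi (pick (x i) (Sv.2 i))) ^ 2 ≤ 32 ^ Fintype.card ι := by
  rw [sum_sq_kernel]
  simp_rw [alpha_kernel]
  rw [← sum_sq_kernel]
  have h1 : ∀ c : ι → Bool × Bool,
      (∏ i, mm (c i)) * (∑ x, a x * ∏ i, kk (c i) (x i)) ^ 2 ≤
      2 ^ Fintype.card ι * (∑ x, a x * ∏ i, kk (c i) (x i)) ^ 2 := by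
    intro c
    refine mul_le_mul_of_nonneg_right ?_ (sq_nonneg _)
    calc (∏ i, mm (c i)) ≤ ∏ i : ι, (2 : ℝ) :=
          Finset.prod_le_prod (fun i _ => mm_nonneg _) (fun i _ => mm_le _)
      _ = 2 ^ Fintype.card ι := by simp
  refine (Finset.sum_le_sum fun c _ => h1 c).trans ?_
  rw [← Finset.mul_sum, parseval_kk]
  have h2 : ∑ x, a x ^ 2 ≤ (4 : ℝ) ^ Fintype.card ι := by
    calc ∑ x, a x ^ 2 ≤ ∑ x : ι → Bool × Bool, (1 : ℝ) := Finset.sum_le_sum fun x _ => ha x
      _ = (4 : ℝ) ^ Fintype.card ι := by simp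
  calc (2 : ℝ) ^ Fintype.card ι * (4 ^ Fintype.card ι * ∑ x, a x ^ 2)
      ≤ 2 ^ Fintype.card ι * (4 ^ Fintype.card ι * 4 ^ Fintype.card ι) := by gcongr
    _ = 32 ^ Fintype.card ι := by rw [← mul_pow, ← mul_pow]; norm_num

/-- The second player's input in two pieces. -/
def join (v w : ι → Bool) : ι → Bool × Bool := fun i => (v i, w i)

theorem sum_join (g : (ι → Bool × Bool) → ℝ) :
    ∑ y, g y = ∑ v : ι → Bool, ∑ w : ι → Bool, g (join v w) := by
  rw [← Fintype.sum_prod_type']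
  exact Fintype.sum_equiv (Equiv.arrowProdEquivProdArrow ι (fun _ => Bool) (fun _ => Bool)) _ _
    fun y => rfl

theorem beta_bound (b : (ι → Bool × Bool) → ℝ) (hb : ∀ x, b x ^ 2 ≤ 1) :
    ∑ Sv : Finset ι × (ι → Bool),
      (∑ w, b (join Sv.2 w) * ∏ i ∈ Sv.1, chi (w i)) ^ 2 ≤ 8 ^ Fintype.card ι := by
  rw [Fintype.sum_prod_type, Finset.sum_comm]
  simp_rw [parseval]
  have h2 : ∀ v : ι → Bool, (2 : ℝ) ^ Fintype.card ι * ∑ w, b (join v w) ^ 2 ≤
      4 ^ Fintype.card ι := by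
    intro v
    have : ∑ w, b (join v w) ^ 2 ≤ (2 : ℝ) ^ Fintype.card ι := by
      calc ∑ w, b (join v w) ^ 2 ≤ ∑ w : ι → Bool, (1 : ℝ) := Finset.sum_le_sum fun x _ => hb _
        _ = (2 : ℝ) ^ Fintype.card ι := by simp
    calc (2 : ℝ) ^ Fintype.card ι * ∑ w, b (join v w) ^ 2 ≤
          2 ^ Fintype.card ι * 2 ^ Fintype.card ι := by gcongr
      _ = 4 ^ Fintype.card ι := by rw [← mul_pow]; norm_num
  refine (Finset.sum_le_sum fun v _ => h2 v).trans ?_
  rw [Finset.sum_const, Finset.card_univ, Fintype.card_fun, Fintype.card_bool, nsmul_eq_mul]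
  push_cast
  rw [← mul_pow]
  norm_num

omit [Fintype ι] [DecidableEq ι] in
theorem sel_join (x : ι → Bool × Bool) (v w : ι → Bool) (i : ι) :
    chi (sel x (join v w) i) = chi (pick (x i) (v i)) * chi (w i) := by
  rw [← chi_xor]
  rfl

theorem inversion (ψ : (ι → Bool) → ℝ) (z : ι → Bool) :
    (2 : ℝ) ^ Fintype.card ι * ψ z =
      ∑ S : Finset ι, (∑ z', ψ z' * ∏ i ∈ S, chi (z' i)) * ∏ i ∈ S, chi (z i) := by
  simp_rw [Finset.sum_mul, mul_assoc]
  rw [Finset.sum_comm]
  simp_rw [← Finset.mul_sum, sum_char]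
  rw [Finset.sum_eq_single z]
  · simp
    ring
  · intro b _ hb
    rw [if_neg hb, mul_zero]
  · simp

theorem expand (ψ : (ι → Bool) → ℝ) (a b : (ι → Bool × Bool) → ℝ) :
    (2 : ℝ) ^ Fintype.card ι * ∑ x, ∑ y, ψ (sel x y) * a x * b y =
      ∑ Sv : Finset ι × (ι → Bool),
        ((∑ z', ψ z' * ∏ i ∈ Sv.1, chi (z' i)) *
          (∑ x, a x * ∏ i ∈ Sv.1, chi (pick (x i) (Sv.2 i)))) *
        (∑ w, b (join Sv.2 w) * ∏ i ∈ Sv.1, chi (w i)) := by
  have L : (2 : ℝ) ^ Fintype.card ι * ∑ x, ∑ y, ψ (sel x y) * a x * b y =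
      ∑ x : ι → Bool × Bool, ∑ v : ι → Bool, ∑ w : ι → Bool, ∑ S : Finset ι,
        (∑ z', ψ z' * ∏ i ∈ S, chi (z' i)) *
        (a x * ∏ i ∈ S, chi (pick (x i) (v i))) * (b (join v w) * ∏ i ∈ S, chi (w i)) := by
    rw [Finset.mul_sum]
    refine Finset.sum_congr rfl fun x _ => ?_
    rw [sum_join, Finset.mul_sum]
    refine Finset.sum_congr rfl fun v _ => ?_
    rw [Finset.mul_sum]
    refine Finset.sum_congr rfl fun w _ => ?_
    rw [← mul_assoc, ← mul_assoc, inversion ψ (sel x (join v w)), Finset.sum_mul, Finset.sum_mul]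
    refine Finset.sum_congr rfl fun S _ => ?_
    simp_rw [sel_join, Finset.prod_mul_distrib]
    ring
  have R : ∀ (S : Finset ι) (v : ι → Bool), ((∑ z', ψ z' * ∏ i ∈ S, chi (z' i)) *
          (∑ x, a x * ∏ i ∈ S, chi (pick (x i) (v i)))) *
        (∑ w, b (join v w) * ∏ i ∈ S, chi (w i)) =
      ∑ x : ι → Bool × Bool, ∑ w : ι → Bool,
        (∑ z', ψ z' * ∏ i ∈ S, chi (z' i)) *
        (a x * ∏ i ∈ S, chi (pick (x i) (v i))) * (b (join v w) * ∏ i ∈ S, chi (w i)) := by
    intro S v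
    generalize (∑ z', ψ z' * ∏ i ∈ S, chi (z' i)) = c
    rw [Finset.mul_sum _ (fun x => a x * ∏ i ∈ S, chi (pick (x i) (v i))) c, Finset.sum_mul_sum]
  rw [L, Fintype.sum_prod_type]
  simp only [R]
  calc ∑ x : ι → Bool × Bool, ∑ v : ι → Bool, ∑ w : ι → Bool, ∑ S : Finset ι,
        (∑ z', ψ z' * ∏ i ∈ S, chi (z' i)) *
        (a x * ∏ i ∈ S, chi (pick (x i) (v i))) * (b (join v w) * ∏ i ∈ S, chi (w i))
      = ∑ x : ι → Bool × Bool, ∑ v : ι → Bool, ∑ S : Finset ι, ∑ w : ι → Bool,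
        (∑ z', ψ z' * ∏ i ∈ S, chi (z' i)) *
        (a x * ∏ i ∈ S, chi (pick (x i) (v i))) * (b (join v w) * ∏ i ∈ S, chi (w i)) :=
        Finset.sum_congr rfl fun x _ => Finset.sum_congr rfl fun v _ => Finset.sum_comm
    _ = ∑ x : ι → Bool × Bool, ∑ S : Finset ι, ∑ v : ι → Bool, ∑ w : ι → Bool,
        (∑ z', ψ z' * ∏ i ∈ S, chi (z' i)) *
        (a x * ∏ i ∈ S, chi (pick (x i) (v i))) * (b (join v w) * ∏ i ∈ S, chi (w i)) :=
        Finset.sum_congr rfl fun x _ => Finset.sum_comm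
    _ = ∑ S : Finset ι, ∑ x : ι → Bool × Bool, ∑ v : ι → Bool, ∑ w : ι → Bool,
        (∑ z', ψ z' * ∏ i ∈ S, chi (z' i)) *
        (a x * ∏ i ∈ S, chi (pick (x i) (v i))) * (b (join v w) * ∏ i ∈ S, chi (w i)) :=
        Finset.sum_comm
    _ = ∑ S : Finset ι, ∑ v : ι → Bool, ∑ x : ι → Bool × Bool, ∑ w : ι → Bool,
        (∑ z', ψ z' * ∏ i ∈ S, chi (z' i)) *
        (a x * ∏ i ∈ S, chi (pick (x i) (v i))) * (b (join v w) * ∏ i ∈ S, chi (w i)) :=
        Finset.sum_congr rfl fun S _ => Finset.sum_comm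

/-- The correlation of a function which has small correlation with low characters, with the
rectangles, is small. -/
theorem rect_bound (ψ : (ι → Bool) → ℝ) (M : ℝ)
    (hM : ∀ S : Finset ι, (∑ z, ψ z * ∏ i ∈ S, (if z i then (-1 : ℝ) else 1)) ^ 2 ≤
      M * 2 ^ S.card)
    (a b : (ι → Bool × Bool) → ℝ) (ha : ∀ x, a x ^ 2 ≤ 1) (hb : ∀ y, b y ^ 2 ≤ 1) :
    (∑ x, ∑ y, ψ (sel x y) * a x * b y) ^ 2 ≤ 64 ^ Fintype.card ι * M := by
  have hM0 : 0 ≤ M := by
    have := hM ∅
    simp only [Finset.prod_empty, mul_one, Finset.card_empty, pow_zero] at this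
    exact (sq_nonneg _).trans this
  have h := expand ψ a b
  set X := ∑ x, ∑ y, ψ (sel x y) * a x * b y with hX
  have h2 : ((2 : ℝ) ^ Fintype.card ι * X) ^ 2 ≤ (M * 32 ^ Fintype.card ι) * 8 ^ Fintype.card ι := by
    rw [h]
    refine (Finset.sum_mul_sq_le_sq_mul_sq _ _ _).trans ?_
    refine mul_le_mul ?_ (beta_bound b hb) (Finset.sum_nonneg fun _ _ => sq_nonneg _)
      (by positivity)
    refine le_trans ?_ (mul_le_mul_of_nonneg_left (alpha_bound a ha) hM0)
    rw [Finset.mul_sum]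
    refine Finset.sum_le_sum fun Sv _ => ?_
    rw [mul_pow, ← mul_assoc]
    exact mul_le_mul_of_nonneg_right (hM Sv.1) (sq_nonneg _)
  have h3 : ((2 : ℝ) ^ Fintype.card ι * X) ^ 2 = 4 ^ Fintype.card ι * X ^ 2 := by
    rw [mul_pow, ← pow_mul, mul_comm (Fintype.card ι) 2, pow_mul]
    norm_num
  have h4 : (M * 32 ^ Fintype.card ι) * 8 ^ Fintype.card ι =
      4 ^ Fintype.card ι * (64 ^ Fintype.card ι * M) := by
    rw [mul_assoc, ← mul_pow, ← mul_assoc, ← mul_pow]
    norm_num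
    ring
  rw [h3, h4] at h2
  exact le_of_mul_le_mul_left h2 (by positivity)

end

/-! ### Protocols -/

/-- All rectangles have correlation at most `T` with `h`, for the weights `w`. -/
def Bd {X Y : Type} [Fintype X] [Fintype Y] (w : X → Y → ℝ) (T : ℝ) (h : X → Y → ℝ) : Prop :=
  ∀ (a : X → ℝ) (b : Y → ℝ), (∀ x, a x ^ 2 ≤ 1) → (∀ y, b y ^ 2 ≤ 1) →
    |∑ x, ∑ y, w x y * h x y * a x * b y| ≤ T

/-- The indicator of acceptance. -/
noncomputable def indb (s : Bool) : ℝ := if s = true then 1 else 0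

theorem Bd.nonneg {X Y : Type} [Fintype X] [Fintype Y] {w : X → Y → ℝ} {T : ℝ} {h : X → Y → ℝ}
    (H : Bd w T h) : 0 ≤ T := by
  have := H (fun _ => 0) (fun _ => 0) (by simp) (by simp)
  exact (abs_nonneg _).trans this

theorem Bd.prot {X Y : Type} [Fintype X] [Fintype Y] {w : X → Y → ℝ} {T : ℝ} {h : X → Y → ℝ}
    (H : Bd w T h) (P : Prot X Y) : ∀ c : ℕ, P.CostLE c →
      Bd w (2 ^ c * T) (fun x y => h x y * indb (P.eval x y)) := by
  have hT := H.nonneg
  induction P with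
  | leaf s =>
    intro c _ a b ha hb
    have h1 : T ≤ 2 ^ c * T := le_mul_of_one_le_left hT (one_le_pow₀ (by norm_num))
    cases s
    · simp only [Prot.eval, indb]
      simp
      positivity
    · simp only [Prot.eval, indb]
      simpa using (H a b ha hb).trans h1
  | alice s next ih =>
    intro c hc a b ha hb
    obtain ⟨hc0, hc⟩ := hc
    have ht := ih true (c - 1) (hc true) (fun x => if s x = true then a x else 0) b (by
      intro x
      split_ifs
      · exact ha x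
      · norm_num) hb
    have hf := ih false (c - 1) (hc false) (fun x => if s x = true then 0 else a x) b (by
      intro x
      split_ifs
      · norm_num
      · exact ha x) hb
    have hs : ∑ x, ∑ y, w x y * (h x y * indb ((Prot.alice s next).eval x y)) * a x * b y =
        (∑ x, ∑ y, w x y * (h x y * indb ((next true).eval x y)) *
          (if s x = true then a x else 0) * b y) +
        ∑ x, ∑ y, w x y * (h x y * indb ((next false).eval x y)) *
          (if s x = true then 0 else a x) * b y := by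
      rw [← Finset.sum_add_distrib]
      refine Finset.sum_congr rfl fun x _ => ?_
      rw [← Finset.sum_add_distrib]
      refine Finset.sum_congr rfl fun y _ => ?_
      cases hsx : s x <;> simp [Prot.eval, hsx]
    rw [hs]
    have h2 : (2 : ℝ) ^ c = 2 * 2 ^ (c - 1) := by
      rw [← pow_succ']
      congr 1
      omega
    calc _ ≤ _ := abs_add_le _ _
      _ ≤ 2 ^ (c - 1) * T + 2 ^ (c - 1) * T := add_le_add ht hf
      _ = 2 ^ c * T := by rw [h2]; ring
  | bob s next ih =>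
    intro c hc a b ha hb
    obtain ⟨hc0, hc⟩ := hc
    have ht := ih true (c - 1) (hc true) a (fun x => if s x = true then b x else 0) ha (by
      intro x
      split_ifs
      · exact hb x
      · norm_num)
    have hf := ih false (c - 1) (hc false) a (fun x => if s x = true then 0 else b x) ha (by
      intro x
      split_ifs
      · norm_num
      · exact hb x)
    have hs : ∑ x, ∑ y, w x y * (h x y * indb ((Prot.bob s next).eval x y)) * a x * b y =
        (∑ x, ∑ y, w x y * (h x y * indb ((next true).eval x y)) *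
          a x * (if s y = true then b y else 0)) +
        ∑ x, ∑ y, w x y * (h x y * indb ((next false).eval x y)) *
          a x * (if s y = true then 0 else b y) := by
      rw [← Finset.sum_add_distrib]
      refine Finset.sum_congr rfl fun x _ => ?_
      rw [← Finset.sum_add_distrib]
      refine Finset.sum_congr rfl fun y _ => ?_
      cases hsx : s y <;> simp [Prot.eval, hsx]
    rw [hs]
    have h2 : (2 : ℝ) ^ c = 2 * 2 ^ (c - 1) := by
      rw [← pow_succ']
      congr 1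
      omega
    calc _ ≤ _ := abs_add_le _ _
      _ ≤ 2 ^ (c - 1) * T + 2 ^ (c - 1) * T := add_le_add ht hf
      _ = 2 ^ c * T := by rw [h2]; ring

theorem Bd.prods {X Y : Type} [Fintype X] [Fintype Y] {w : X → Y → ℝ} {T : ℝ}
    (H : Bd w T (fun _ _ => 1)) {c : ℕ} : ∀ (k : ℕ) (P : Fin k → Prot X Y),
      (∀ i, (P i).CostLE c) → Bd w (2 ^ (k * c) * T) (fun x y => ∏ i, indb ((P i).eval x y)) := by
  intro k
  induction k with
  | zero =>
    intro P _
    simpa using H
  | succ k ih =>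
    intro P hP
    have h1 := (ih (fun i => P i.castSucc) fun i => hP _).prot (P (Fin.last k)) c (hP _)
    have h2 : (2 : ℝ) ^ ((k + 1) * c) * T = 2 ^ c * (2 ^ (k * c) * T) := by
      rw [← mul_assoc, ← pow_add]
      congr 2
      ring
    rw [h2]
    intro a b ha hb
    have h3 := h1 a b ha hb
    simp_rw [Fin.prod_univ_castSucc]
    exact h3

theorem prob_eq (r : ℕ) (s : (Fin r → Bool) → Bool) :
    prob r (fun ρ => s ρ = true) = (∑ ρ, indb (s ρ)) / 2 ^ r := by
  unfold prob indb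
  rw [Finset.sum_boole, Nat.card_eq_fintype_card, Fintype.card_subtype]

theorem prob_pow_cc (r k : ℕ) (s : (Fin r → Bool) → Bool) :
    prob r (fun ρ => s ρ = true) ^ k =
      (∑ ρs : Fin k → Fin r → Bool, ∏ i, indb (s (ρs i))) / 2 ^ (r * k) := by
  rw [prob_eq, div_pow, ← pow_mul, Finset.sum_pow', Fintype.piFinset_univ]

variable {ι : Type} [Fintype ι] [DecidableEq ι] {f : (ι → Bool) → Bool} {D : ℕ}

theorem sum_sel (φ : (ι → Bool) → ℝ) :
    ∑ x, ∑ y, φ (sel x y) = 8 ^ Fintype.card ι * ∑ z, φ z := by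
  have h1 : ∀ (x : ι → Bool × Bool) (v : ι → Bool), ∑ w, φ (sel x (join v w)) = ∑ z, φ z := by
    intro x v
    refine Fintype.sum_equiv ⟨fun w i => xor (pick (x i) (v i)) (w i),
      fun w i => xor (pick (x i) (v i)) (w i), fun w => ?_, fun w => ?_⟩ _ _ fun w => rfl
    · funext i
      simp
    · funext i
      simp
  simp_rw [sum_join, h1]
  have h2 : (2 : ℝ) ^ Fintype.card ι * 2 ^ Fintype.card ι * 2 ^ Fintype.card ι =
      8 ^ Fintype.card ι := by
    rw [← mul_pow, ← mul_pow]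
    norm_num
  simp only [Finset.sum_const, Finset.card_univ, Fintype.card_fun, Fintype.card_bool,
    nsmul_eq_mul]
  push_cast
  rw [← h2]
  ring

/-- What an exact dual gives: weights on the inputs of the lifted function. -/
theorem HasExactDual.weights (h : HasExactDual f D) :
    ∃ w : (ι → Bool × Bool) → (ι → Bool × Bool) → ℝ, ∃ B : ℝ,
      B ^ 2 = 64 ^ Fintype.card ι * (2 / 2 ^ D) ∧ Bd w B (fun _ _ => 1) ∧
      ∀ (G : (ι → Bool × Bool) → (ι → Bool × Bool) → ℝ) (u l : ℝ),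
        (∀ x y, lift f x y = true → u ≤ G x y) → (∀ x y, lift f x y = false → G x y ≤ l) →
        8 ^ Fintype.card ι * (u - l) ≤ ∑ x, ∑ y, w x y * G x y := by
  obtain ⟨α, β, hα, hβ, hα1, hβ1, hαf, hβf, hD⟩ := h
  refine ⟨fun x y => α (sel x y) - β (sel x y), √(64 ^ Fintype.card ι * (2 / 2 ^ D)),
    Real.sq_sqrt (by positivity), ?_, ?_⟩
  · intro a b ha hb
    refine Real.abs_le_sqrt ?_
    have := rect_bound (fun z => α z - β z) (2 / 2 ^ D) ?_ a b ha hb
    · simpa only [mul_one] using this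
    · intro S
      rcases Nat.lt_or_ge D S.card with hS | hS
      · have h2 : (∑ z, (α z - β z) * ∏ i ∈ S, (if z i then (-1 : ℝ) else 1)) ^ 2 ≤ 4 := by
          have h3 : |∑ z, (α z - β z) * ∏ i ∈ S, (if z i then (-1 : ℝ) else 1)| ≤ 2 := by
            calc |∑ z, (α z - β z) * ∏ i ∈ S, (if z i then (-1 : ℝ) else 1)|
                ≤ ∑ z, |(α z - β z) * ∏ i ∈ S, (if z i then (-1 : ℝ) else 1)| :=
                  Finset.abs_sum_le_sum_abs _ _
              _ ≤ ∑ z, (α z + β z) := by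
                  refine Finset.sum_le_sum fun z _ => ?_
                  have h4 : |∏ i ∈ S, (if z i then (-1 : ℝ) else 1)| = 1 := by
                    rw [Finset.abs_prod]
                    exact Finset.prod_eq_one fun i _ => chi_abs (z i)
                  rw [abs_mul, h4, mul_one]
                  rw [abs_le]
                  constructor <;> linarith [hα z, hβ z]
              _ = 2 := by
                  rw [Finset.sum_add_distrib, hα1, hβ1]
                  norm_num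
          rw [← sq_abs]
          nlinarith [abs_nonneg (∑ z, (α z - β z) * ∏ i ∈ S, (if z i then (-1 : ℝ) else 1))]
        refine h2.trans ?_
        have h5 : (2 : ℝ) ^ (D + 1) ≤ 2 ^ S.card := pow_le_pow_right₀ (by norm_num) hS
        have h6 : (0 : ℝ) < 2 ^ D := by positivity
        rw [div_mul_eq_mul_div, le_div_iff₀ h6]
        rw [pow_succ] at h5
        linarith
      · have h7 : ∑ z, (α z - β z) * ∏ i ∈ S, (if z i then (-1 : ℝ) else 1) = 0 := by
          have := hD S hS (fun z => ∏ i ∈ S, (if z i then (-1 : ℝ) else 1)) (by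
            intro x y hxy
            exact Finset.prod_congr rfl fun i hi => by rw [hxy i hi])
          simp_rw [sub_mul]
          rw [Finset.sum_sub_distrib, this, sub_self]
        rw [h7, zero_pow two_ne_zero]
        positivity
  · intro G u l hu hl
    have h1 : 8 ^ Fintype.card ι * u ≤ ∑ x, ∑ y, α (sel x y) * G x y := by
      have : 8 ^ Fintype.card ι * u = ∑ x, ∑ y, α (sel x y) * u := by
        simp_rw [← Finset.sum_mul]
        rw [sum_sel, hα1, mul_one]
      rw [this]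
      refine Finset.sum_le_sum fun x _ => Finset.sum_le_sum fun y _ => ?_
      by_cases h0 : α (sel x y) = 0
      · simp [h0]
      · exact mul_le_mul_of_nonneg_left (hu x y (hαf _ h0)) (hα _)
    have h2 : ∑ x, ∑ y, β (sel x y) * G x y ≤ 8 ^ Fintype.card ι * l := by
      have : 8 ^ Fintype.card ι * l = ∑ x, ∑ y, β (sel x y) * l := by
        simp_rw [← Finset.sum_mul]
        rw [sum_sel, hβ1, mul_one]
      rw [this]
      refine Finset.sum_le_sum fun x _ => Finset.sum_le_sum fun y _ => ?_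
      by_cases h0 : β (sel x y) = 0
      · simp [h0]
      · exact mul_le_mul_of_nonneg_left (hl x y (hβf _ h0)) (hβ _)
    simp_rw [sub_mul, Finset.sum_sub_distrib]
    linarith

theorem Bd.sum {X Y I : Type} [Fintype X] [Fintype Y] [Fintype I] {w : X → Y → ℝ} {T : ℝ}
    {g : I → X → Y → ℝ} (H : ∀ i, Bd w T (g i)) :
    ∑ x, ∑ y, w x y * ∑ i, g i x y ≤ Fintype.card I * T := by
  have h1 : ∑ x, ∑ y, w x y * ∑ i, g i x y = ∑ i, ∑ x, ∑ y, w x y * g i x y * 1 * 1 := by
    symm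
    rw [Finset.sum_comm]
    refine Finset.sum_congr rfl fun x _ => ?_
    rw [Finset.sum_comm]
    refine Finset.sum_congr rfl fun y _ => ?_
    simp_rw [mul_one, Finset.mul_sum]
  rw [h1]
  calc _ ≤ ∑ i : I, T := Finset.sum_le_sum fun i _ =>
        (le_abs_self _).trans (H i (fun _ => 1) (fun _ => 1) (by simp) (by simp))
    _ = Fintype.card I * T := by simp

theorem HasExactDual.ppcc (h : HasExactDual f D) {p c : ℕ} (hp : HasPPcc (lift f) p c) :
    D ≤ 2 * (p + c) + 1 := by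
  obtain ⟨w, B, hB, hw, hG⟩ := h.weights
  obtain ⟨r, P, hc, h1, h0⟩ := hp
  have hB0 := hw.nonneg
  have h2 := hG (fun x y => prob r fun ρ => (P ρ).eval x y = true) _ _ h1 h0
  have h3 : ∑ x, ∑ y, w x y * (∑ ρ, (fun _ _ => 1) x y * indb ((P ρ).eval x y)) ≤
      Fintype.card (Fin r → Bool) * (2 ^ c * B) := Bd.sum fun ρ => hw.prot (P ρ) c (hc ρ)
  have h4 : ∑ x, ∑ y, w x y * (prob r fun ρ => (P ρ).eval x y = true) =
      (∑ x, ∑ y, w x y * (∑ ρ, (fun _ _ => 1) x y * indb ((P ρ).eval x y))) / 2 ^ r := by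
    rw [Finset.sum_div]
    refine Finset.sum_congr rfl fun x _ => ?_
    rw [Finset.sum_div]
    refine Finset.sum_congr rfl fun y _ => ?_
    rw [prob_eq, mul_div_assoc]
    simp
  have h5 : 8 ^ Fintype.card ι * (1 / 2 : ℝ) ^ p ≤ 2 ^ c * B := by
    have h6 : (1 / 2 + (1 / 2 : ℝ) ^ p - 1 / 2) = (1 / 2) ^ p := by ring
    rw [h6, h4] at h2
    refine h2.trans ?_
    rw [div_le_iff₀ (by positivity), mul_comm (2 ^ c * B)]
    simpa using h3
  have h7 : (8 ^ Fintype.card ι * (1 / 2 : ℝ) ^ p) ^ 2 ≤ (2 ^ c * B) ^ 2 :=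
    pow_le_pow_left₀ (by positivity) h5 2
  rw [mul_pow, mul_pow, hB, ← pow_mul, mul_comm (Fintype.card ι) 2, pow_mul] at h7
  have h8 : ((1 / 2 : ℝ) ^ p) ^ 2 ≤ (2 ^ c) ^ 2 * (2 / 2 ^ D) := by
    have : (0 : ℝ) < 64 ^ Fintype.card ι := by positivity
    norm_num at h7 ⊢
    nlinarith
  have h9 : (2 : ℝ) ^ D ≤ 2 ^ (2 * (p + c) + 1) := by
    have h10 : (1 / 2 : ℝ) ^ p = 1 / 2 ^ p := by rw [div_pow, one_pow]
    rw [h10, div_pow, one_pow, ← mul_div_assoc, div_le_div_iff₀ (by positivity) (by positivity)] at h8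
    calc (2 : ℝ) ^ D = 1 * 2 ^ D := (one_mul _).symm
      _ ≤ _ := h8
      _ = 2 ^ (2 * (p + c) + 1) := by ring
  exact (pow_le_pow_iff_right₀ (by norm_num : (1 : ℝ) < 2)).mp h9

theorem HasExactDual.macc (h : HasExactDual f D) {p c : ℕ} (hp : HasMAcc (lift f) p c) :
    D < 2 * (p + 2) * (c + 2) := by
  obtain ⟨w, B, hB, hw, hG⟩ := h.weights
  obtain ⟨r, P, hc, h1, h0⟩ := hp
  have hB0 := hw.nonneg
  set k := p + 2 with hk
  have hpr : ∀ (x y) (m), 0 ≤ prob r fun ρ => (P m ρ).eval x y = true := by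
    intro x y m
    unfold prob
    positivity
  have h2 := hG (fun x y => ∑ m, (prob r fun ρ => (P m ρ).eval x y = true) ^ k)
    ((2 / 3) ^ k) (2 ^ p * (1 / 3) ^ k) (by
      intro x y hxy
      obtain ⟨m, hm⟩ := h1 x y hxy
      refine (pow_le_pow_left₀ (by norm_num) hm k).trans ?_
      exact Finset.single_le_sum (f := fun m => (prob r fun ρ => (P m ρ).eval x y = true) ^ k)
        (fun m _ => pow_nonneg (hpr x y m) k) (Finset.mem_univ m)) (by
      intro x y hxy
      calc ∑ m, (prob r fun ρ => (P m ρ).eval x y = true) ^ k ≤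
            ∑ m : Fin p → Bool, (1 / 3 : ℝ) ^ k := Finset.sum_le_sum fun m _ =>
              pow_le_pow_left₀ (hpr x y m) (h0 x y hxy m) k
        _ = 2 ^ p * (1 / 3) ^ k := by simp)
  have h3 : ∑ x, ∑ y, w x y * (∑ mρ : (Fin p → Bool) × (Fin k → Fin r → Bool),
      ∏ i, indb ((P mρ.1 (mρ.2 i)).eval x y)) ≤
      Fintype.card ((Fin p → Bool) × (Fin k → Fin r → Bool)) * (2 ^ (k * c) * B) :=
    Bd.sum fun mρ => hw.prods k (fun i => P mρ.1 (mρ.2 i)) fun i => hc _ _
  have h4 : ∑ x, ∑ y, w x y * (∑ m, (prob r fun ρ => (P m ρ).eval x y = true) ^ k) =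
      (∑ x, ∑ y, w x y * (∑ mρ : (Fin p → Bool) × (Fin k → Fin r → Bool),
        ∏ i, indb ((P mρ.1 (mρ.2 i)).eval x y))) / 2 ^ (r * k) := by
    rw [Finset.sum_div]
    refine Finset.sum_congr rfl fun x _ => ?_
    rw [Finset.sum_div]
    refine Finset.sum_congr rfl fun y _ => ?_
    rw [mul_div_assoc]
    congr 1
    rw [Fintype.sum_prod_type, Finset.sum_div]
    exact Finset.sum_congr rfl fun m _ => prob_pow_cc r k _
  have h5 : 8 ^ Fintype.card ι * ((2 / 3 : ℝ) ^ k - 2 ^ p * (1 / 3) ^ k) ≤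
      2 ^ p * (2 ^ (k * c) * B) := by
    rw [h4] at h2
    refine h2.trans ?_
    rw [div_le_iff₀ (by positivity)]
    refine h3.trans (le_of_eq ?_)
    simp only [Fintype.card_prod, Fintype.card_fun, Fintype.card_fin, Fintype.card_bool]
    push_cast
    rw [← pow_mul]
    ring
  have h6 : (2 / 3 : ℝ) ^ k - 2 ^ p * (1 / 3) ^ k = 2 ^ p * (3 * (1 / 3) ^ k) := by
    rw [hk]
    have : (2 / 3 : ℝ) ^ (p + 2) = 2 ^ (p + 2) * (1 / 3) ^ (p + 2) := by
      rw [← mul_pow]
      norm_num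
    rw [this]
    ring
  have h7 : 8 ^ Fintype.card ι * (3 * (1 / 3 : ℝ) ^ k) ≤ 2 ^ (k * c) * B := by
    rw [h6] at h5
    have : (0 : ℝ) < 2 ^ p := by positivity
    nlinarith
  have h8 : (8 ^ Fintype.card ι * (3 * (1 / 3 : ℝ) ^ k)) ^ 2 ≤ (2 ^ (k * c) * B) ^ 2 :=
    pow_le_pow_left₀ (by positivity) h7 2
  rw [mul_pow, mul_pow _ B, hB, ← pow_mul, mul_comm (Fintype.card ι) 2, pow_mul] at h8
  have h9 : (3 * (1 / 3 : ℝ) ^ k) ^ 2 ≤ (2 ^ (k * c)) ^ 2 * (2 / 2 ^ D) := by
    have : (0 : ℝ) < 64 ^ Fintype.card ι := by positivity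
    norm_num at h8 ⊢
    nlinarith
  have h10 : (1 / 4 : ℝ) ^ (2 * k - 2) ≤ (3 * (1 / 3 : ℝ) ^ k) ^ 2 := by
    have e1 : k = (p + 1) + 1 := rfl
    have e2 : 2 * k - 2 = (p + 1) * 2 := by omega
    have e3 : 3 * (1 / 3 : ℝ) ^ k = (1 / 3) ^ (p + 1) := by
      rw [e1, pow_succ]
      ring
    rw [e2, e3, ← pow_mul]
    exact pow_le_pow_left₀ (by norm_num) (by norm_num) _
  have h11 : (2 : ℝ) ^ D ≤ 2 ^ (2 * (k * c) + 1 + 2 * (2 * k - 2)) := by
    have h12 := h10.trans h9
    have h13 : (1 / 4 : ℝ) ^ (2 * k - 2) = 1 / 2 ^ (2 * (2 * k - 2)) := by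
      rw [div_pow, one_pow, pow_mul]
      norm_num
    rw [h13, ← mul_div_assoc, div_le_div_iff₀ (by positivity) (by positivity)] at h12
    calc (2 : ℝ) ^ D = 1 * 2 ^ D := (one_mul _).symm
      _ ≤ _ := h12
      _ = 2 ^ (2 * (k * c) + 1 + 2 * (2 * k - 2)) := by
        rw [pow_add, pow_add, mul_comm 2 (k * c), pow_mul _ (k * c) 2, pow_one]
  have h14 : D ≤ 2 * (k * c) + 1 + 2 * (2 * k - 2) :=
    (pow_le_pow_iff_right₀ (by norm_num : (1 : ℝ) < 2)).mp h11
  have h15 : 2 * k * (c + 2) = 2 * (k * c) + 4 * k := by ring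
  rw [h15]
  omega

end Pool.Agent.Lib.MP_ff3ed7_lc
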