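import Pool.Agent.Lib.MP_ff3ed7_lc.DefsCC

/-! T5: Arthur-Merlin communication protocols from Arthur-Merlin query protocols. -/

open Finset

namespace Pool.Agent.Lib.MP_ff3ed7_lc

variable {ι : Type} {f : (ι → Bool) → Bool}

/-- The first player's check along the tree; a triple consists of the position, the mask and the
selected bit. -/
def simA (x : ι → Bool × Bool) : DTree ι Bool → List (Bool × Bool × Bool) → Bool
  | DTree.leaf b, _ => b
  | DTree.node _ _, [] => false
  | DTree.node i next, (v, w, a) :: L =>
    (a == (if v then (x i).2 else (x i).1)) && simA x (next (xor a w)) L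

/-- The second player's check along the tree. -/
def simB (y : ι → Bool × Bool) : DTree ι Bool → List (Bool × Bool × Bool) → Bool
  | DTree.leaf b, _ => b
  | DTree.node _ _, [] => false
  | DTree.node i next, (v, w, a) :: L =>
    (v == (y i).1) && (w == (y i).2) && simB y (next (xor a w)) L

lemma eval_of_sim (x y : ι → Bool × Bool) (t : DTree ι Bool) (L : List (Bool × Bool × Bool))
    (hA : simA x t L = true) (hB : simB y t L = true) : t.eval (sel x y) = true := by
  induction t generalizing L with
  | leaf b => simpa [simA, DTree.eval] using hA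
  | node i next ih =>
    match L, hA, hB with
    | (v, w, a) :: L, hA, hB =>
      simp only [simA, simB, Bool.and_eq_true, beq_iff_eq] at hA hB
      obtain ⟨ha, hA⟩ := hA
      obtain ⟨⟨hv, hw⟩, hB⟩ := hB
      have key : sel x y i = xor a w := by
        simp only [sel, ← hv, ← hw, ← ha]
      show (next (sel x y i)).eval (sel x y) = true
      rw [key]
      exact ih (xor a w) L hA hB

lemma exists_sim (x y : ι → Bool × Bool) (t : DTree ι Bool) (q : ℕ) (hq : t.DepthLE q)
    (h : t.eval (sel x y) = true) :
    ∃ L : List (Bool × Bool × Bool), L.length = q ∧ simA x t L = true ∧ simB y t L = true := by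
  induction t generalizing q with
  | leaf b =>
    refine ⟨List.replicate q (false, false, false), by simp, ?_, ?_⟩
    · simpa [simA, DTree.eval] using h
    · simpa [simB, DTree.eval] using h
  | node i next ih =>
    obtain ⟨h0, h1⟩ := hq
    obtain ⟨L, hL, hA, hB⟩ := ih (sel x y i) (q - 1) (h1 _) h
    refine ⟨((y i).1, (y i).2, if (y i).1 then (x i).2 else (x i).1) :: L, ?_, ?_, ?_⟩
    · simp only [List.length_cons, hL]; omega
    · simp only [simA, Bool.and_eq_true, beq_iff_eq]
      exact ⟨trivial, hA⟩
    · simp only [simB, Bool.and_eq_true, beq_iff_eq]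
      exact ⟨⟨trivial, trivial⟩, hB⟩

/-- Merlin announces, for each of the `q` queries, the position, the mask and the selected bit. -/
theorem HasAM.cc {r p q : ℕ} (h : HasAM f r p q) : HasAMcc (lift f) r (p + 3 * q) := by
  obtain ⟨T, hT, hyes, hno⟩ := h
  have hcard : Fintype.card (Fin (p + 3 * q) → Bool) =
      Fintype.card ((Fin p → Bool) × (Fin q → Bool × Bool × Bool)) := by
    simp only [Fintype.card_fun, Fintype.card_bool, Fintype.card_fin, Fintype.card_prod]
    rw [pow_add, pow_mul]
    norm_num
  let e : (Fin (p + 3 * q) → Bool) ≃ ((Fin p → Bool) × (Fin q → Bool × Bool × Bool)) :=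
    Fintype.equivOfCardEq hcard
  have key : ∀ x y : ι → Bool × Bool, ∀ ρ : Fin r → Bool,
      (∃ m, simA x (T (e m).1 ρ) (List.ofFn (e m).2) = true ∧
        simB y (T (e m).1 ρ) (List.ofFn (e m).2) = true) ↔
      ∃ z, (T z ρ).eval (sel x y) = true := by
    intro x y ρ
    constructor
    · rintro ⟨m, hA, hB⟩
      exact ⟨_, eval_of_sim x y _ _ hA hB⟩
    · rintro ⟨z, hz⟩
      obtain ⟨L, hL, hA, hB⟩ := exists_sim x y (T z ρ) q (hT z ρ) hz
      subst hL
      refine ⟨e.symm (z, L.get), ?_⟩
      simp only [Equiv.apply_symm_apply, List.ofFn_get]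
      exact ⟨hA, hB⟩
  refine ⟨fun m ρ x => simA x (T (e m).1 ρ) (List.ofFn (e m).2),
    fun m ρ y => simB y (T (e m).1 ρ) (List.ofFn (e m).2), ?_, ?_⟩
  · intro x y hxy
    have := hyes (sel x y) hxy
    simpa only [key] using this
  · intro x y hxy
    have := hno (sel x y) hxy
    simpa only [key] using this

end Pool.Agent.Lib.MP_ff3ed7_lc
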