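import Pool.Agent.Lib.MP_ff3ed7_lc.TotalUPP
import Pool.Agent.Lib.MP_ff3ed7_lc.UpperCC
import Pool.Agent.Lib.MP_ff3ed7_lc.Pattern
import Pool.Agent.Lib.MP_ff3ed7_lc.LinQ

/-! The total two-party functions. -/

open Finset

namespace Pool.Agent.Lib.MP_ff3ed7_lc

/-- A string of `2 N` bits as `N` pairs of bits. -/
def pairs {N : ℕ} (x : Fin (N + N) → Bool) (i : Fin N) : Bool × Bool :=
  (x (Fin.castAdd N i), x (Fin.natAdd N i))

/-- Inverse of `pairs`. -/
def unpairs {N : ℕ} (x : Fin N → Bool × Bool) : Fin (N + N) → Bool :=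
  Fin.addCases (fun i => (x i).1) fun i => (x i).2

lemma pairs_unpairs {N : ℕ} (x : Fin N → Bool × Bool) : pairs (unpairs x) = x := by
  funext i
  unfold pairs unpairs
  rw [Fin.addCases_left, Fin.addCases_right]

/-- The two-party function of two strings of `2 N` bits. -/
def lift2 {N : ℕ} (f : (Fin N → Bool) → Bool) (x y : Fin (N + N) → Bool) : Bool :=
  lift f (pairs x) (pairs y)

/-- A function of two bit strings as a function of one bit string. -/
def joint {M : ℕ} (F : (Fin M → Bool) → (Fin M → Bool) → Bool) (z : Fin M ⊕ Fin M → Bool) : Bool :=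
  F (fun i => z (.inl i)) fun i => z (.inr i)

/-- Simulation of a query to `sel x y` by three queries to `x`, `y`. -/
def DTree.triple {N : ℕ} : DTree (Fin N) Bool → DTree (Fin (N + N) ⊕ Fin (N + N)) Bool
  | .leaf b => .leaf b
  | .node i next => .node (.inr (Fin.castAdd N i)) fun v => .node (.inr (Fin.natAdd N i)) fun w =>
      .node (.inl (if v then Fin.natAdd N i else Fin.castAdd N i)) fun a =>
        (next (xor a w)).triple

lemma DTree.eval_triple {N : ℕ} (T : DTree (Fin N) Bool) (z : Fin (N + N) ⊕ Fin (N + N) → Bool) :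
    T.triple.eval z = T.eval (sel (pairs fun i => z (.inl i)) (pairs fun i => z (.inr i))) := by
  induction T with
  | leaf b => rfl
  | node i next ih =>
    simp only [DTree.triple, DTree.eval_node, ih]
    congr 2
    cases hv : z (Sum.inr (Fin.castAdd N i)) <;> simp [sel, pairs, hv]

lemma DTree.depthLE_triple {N : ℕ} {T : DTree (Fin N) Bool} {q : ℕ} (h : T.DepthLE q) :
    T.triple.DepthLE (3 * q) := by
  induction T generalizing q with
  | leaf b => trivial
  | node i next ih =>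
    obtain ⟨h0, h1⟩ := h
    refine ⟨by omega, fun v => ⟨by omega, fun w => ⟨by omega, fun a => ?_⟩⟩⟩
    exact (ih _ (h1 _)).mono (by omega)

lemma HasAM.joint {N : ℕ} {f : (Fin N → Bool) → Bool} {r p q : ℕ} (h : HasAM f r p q) :
    HasAM (joint (lift2 f)) r p (3 * q) := by
  obtain ⟨T, hT, hyes, hno⟩ := h
  refine ⟨fun y ρ => (T y ρ).triple, fun y ρ => DTree.depthLE_triple (hT y ρ),
    fun z hz => ?_, fun z hz => ?_⟩
  · simpa only [DTree.eval_triple] using hyes _ hz
  · simpa only [DTree.eval_triple] using hno _ hz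

theorem total_comm (ℓ : ℕ) : ∃ (M : ℕ) (F : (Fin M → Bool) → (Fin M → Bool) → Bool),
    2 ^ (5 * ℓ + 13) ≤ M ∧ M ≤ 2 ^ (5 * ℓ + 18) ∧
    HasAMcc F (ℓ + 2) (5 * ℓ + 47) ∧
    (∀ p c, HasPPcc F p c → 2 ^ ℓ < 18 * (p + c + 1)) ∧
    (∀ p c, HasMAcc F p c → 2 ^ ℓ < 18 * (p + 2) * (c + 2)) ∧
    HasAM (joint F) (ℓ + 2) (5 * ℓ + 17) 30 ∧
    ∀ (G : Type) [AddCommGroup G] [Fintype G] (g p q : ℕ), Fintype.card G ≤ 2 ^ g →
      HasPPlin G (joint F) p q → 2 ^ ℓ < 18 * (p + 2 * g * q + 1) := by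
  obtain ⟨N, f, h1, h2, hAM, hdual, -⟩ := total_upp ℓ
  have hpp : ∀ p c, HasPPcc (lift2 f) p c → 2 ^ ℓ < 18 * (p + c + 1) := by
    intro p c h
    have h3 := h.comap (X' := Fin N → Bool × Bool) (Y' := Fin N → Bool × Bool) unpairs unpairs
    have h4 : (fun x y => lift2 f (unpairs x) (unpairs y)) = lift f := by
      funext x y
      simp only [lift2, pairs_unpairs]
    rw [h4] at h3
    have h5 := (hdual (2 ^ ℓ / 9) (Nat.mul_div_le _ _)).ppcc h3
    omega
  have hma : ∀ p c, HasMAcc (lift2 f) p c → 2 ^ ℓ < 18 * (p + 2) * (c + 2) := by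
    intro p c h
    have h3 := h.comap (X' := Fin N → Bool × Bool) (Y' := Fin N → Bool × Bool) unpairs unpairs
    have h4 : (fun x y => lift2 f (unpairs x) (unpairs y)) = lift f := by
      funext x y
      simp only [lift2, pairs_unpairs]
    rw [h4] at h3
    have h5 := (hdual (2 ^ ℓ / 9) (Nat.mul_div_le _ _)).macc h3
    rw [mul_assoc] at h5 ⊢
    omega
  refine ⟨N + N, lift2 f, ?_, ?_, hAM.cc.comap pairs pairs, hpp, hma, hAM.joint, ?_⟩
  · rw [show 5 * ℓ + 13 = (5 * ℓ + 12) + 1 by ring, pow_succ]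
    omega
  · rw [show 5 * ℓ + 18 = (5 * ℓ + 17) + 1 by ring, pow_succ]
    omega
  · intro G _ _ g p q hG h
    have h3 := hpp _ _ (h.cc hG)
    rw [show 2 * g * q = q * (2 * g) by ring]
    exact h3

end Pool.Agent.Lib.MP_ff3ed7_lc
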