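import Mathlib

/-! # Forster's theorem in the Razborov-Sherstov form, elementary proof -/

open Finset Matrix Module

namespace Pool.Agent.Lib.MP_ff3ed7_lc.Forster

/-- Hadamard's inequality (rows). -/
lemma hadamard {r : ℕ} (M : Matrix (Fin r) (Fin r) ℝ) :
    M.det ^ 2 ≤ ∏ i, (M i ⬝ᵥ M i) := by
  have : Fact (finrank ℝ (EuclideanSpace ℝ (Fin r)) = r) := ⟨by simp⟩
  set b := EuclideanSpace.basisFun (Fin r) ℝ with hb
  set o := b.toBasis.orientation with ho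
  set v : Fin r → EuclideanSpace ℝ (Fin r) := fun i => WithLp.toLp 2 (M i) with hv
  have h1 := o.abs_volumeForm_apply_le v
  rw [o.volumeForm_robust' b] at h1
  have h2 : b.toBasis.det v = M.det := by
    rw [Basis.det_apply, ← Matrix.det_transpose]
    congr 1
  rw [h2] at h1
  have h3 : ∀ i, ‖v i‖ ^ 2 = M i ⬝ᵥ M i := by
    intro i
    rw [EuclideanSpace.real_norm_sq_eq]
    simp [hv, dotProduct, sq]
  calc M.det ^ 2 = |M.det| ^ 2 := (sq_abs _).symm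
    _ ≤ (∏ i, ‖v i‖) ^ 2 := by gcongr
    _ = ∏ i, ‖v i‖ ^ 2 := by rw [Finset.prod_pow]
    _ = _ := by simp_rw [h3]

section cyclic

variable {m r : ℕ} [NeZero m]

/-- the cyclic window of `r` consecutive vectors, starting at `i` -/
def win (r : ℕ) (u : ZMod m → (Fin r → ℝ)) (i : ZMod m) : Matrix (Fin r) (Fin r) ℝ :=
  Matrix.of fun j => u (i + (j : ℕ))

omit [NeZero m] in
lemma win_row (u : ZMod m → (Fin r → ℝ)) (i : ZMod m) (j : Fin r) :
    win r u i j = u (i + (j : ℕ)) := rfl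

lemma sum_win (f : ZMod m → ℝ) :
    ∑ i : ZMod m, ∑ j : Fin r, f (i + ((j : ℕ) : ZMod m)) = r * ∑ x, f x := by
  rw [Finset.sum_comm]
  have : ∀ j : Fin r, ∑ i : ZMod m, f (i + ((j : ℕ) : ZMod m)) = ∑ x, f x := fun j =>
    Equiv.sum_comp (Equiv.addRight (((j : ℕ) : ZMod m))) f
  simp [this]

omit [NeZero m] in
lemma win_mul (u : ZMod m → (Fin r → ℝ)) (T : Matrix (Fin r) (Fin r) ℝ) (i : ZMod m) :
    win r u i * Tᵀ = win r (fun x => T *ᵥ u x) i := by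
  ext j k
  simp [win, Matrix.mul_apply, Matrix.mulVec, dotProduct, mul_comm]

omit [NeZero m] in
lemma ne_zero_of_win (hr : 0 < r) (u : ZMod m → (Fin r → ℝ)) (i : ZMod m)
    (h : (win r u i).det ≠ 0) : u i ≠ 0 := by
  intro h0
  apply h
  apply Matrix.det_eq_zero_of_row_eq_zero ⟨0, hr⟩
  intro k
  simp [win, h0]

lemma mulVec_ne_zero {T : Matrix (Fin r) (Fin r) ℝ} (hT : T.det ≠ 0) {w : Fin r → ℝ}
    (hw : w ≠ 0) : T *ᵥ w ≠ 0 := by
  intro h
  apply hw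
  exact Matrix.eq_zero_of_mulVec_eq_zero hT h

lemma dot_self_pos {w : Fin r → ℝ} (hw : w ≠ 0) : 0 < w ⬝ᵥ w := by
  rcases (lt_or_eq_of_le (Finset.sum_nonneg (fun i (_ : i ∈ univ) => mul_self_nonneg (w i))))
    with h | h
  · exact h
  · exact absurd (dotProduct_self_eq_zero.1 h.symm) hw

/-- the potential -/
noncomputable def Phi (u : ZMod m → (Fin r → ℝ)) (T : Matrix (Fin r) (Fin r) ℝ) : ℝ :=
  m * Real.log (T.det ^ 2) - r * ∑ x, Real.log ((T *ᵥ u x) ⬝ᵥ (T *ᵥ u x))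

/-- the potential is bounded above -/
lemma Phi_le (hr : 0 < r) (u : ZMod m → (Fin r → ℝ)) (hu : ∀ i, (win r u i).det ≠ 0)
    (T : Matrix (Fin r) (Fin r) ℝ) (hT : T.det ≠ 0) :
    Phi u T ≤ - ∑ i, Real.log ((win r u i).det ^ 2) := by
  have h1 : ∀ i : ZMod m, Real.log ((win r u i).det ^ 2) + Real.log (T.det ^ 2)
      ≤ ∑ j : Fin r, Real.log ((T *ᵥ u (i + (j : ℕ))) ⬝ᵥ (T *ᵥ u (i + (j : ℕ)))) := by
    intro i
    rw [← Real.log_mul (pow_ne_zero 2 (hu i)) (pow_ne_zero 2 hT), ← Real.log_prod]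
    · apply Real.log_le_log
      · have := hu i
        positivity
      · have h := hadamard (win r u i * Tᵀ)
        rw [Matrix.det_mul, Matrix.det_transpose, mul_pow, win_mul] at h
        exact h
    · intro j _
      exact (dot_self_pos (mulVec_ne_zero hT (ne_zero_of_win hr u _ (hu _)))).ne'
  have h2 := Finset.sum_le_sum (fun i (_ : i ∈ (univ : Finset (ZMod m))) => h1 i)
  rw [Finset.sum_add_distrib,
    sum_win (fun x => Real.log ((T *ᵥ u x) ⬝ᵥ (T *ᵥ u x)))] at h2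
  simp only [sum_const, card_univ, ZMod.card, nsmul_eq_mul] at h2
  unfold Phi
  linarith

/-- the effect of a rank one change `1 + s e eᵀ` on a vector -/
lemma step_vec (e p : Fin r → ℝ) (s : ℝ) :
    ((1 + s • Matrix.vecMulVec e e) *ᵥ p) ⬝ᵥ ((1 + s • Matrix.vecMulVec e e) *ᵥ p)
      = p ⬝ᵥ p + (2 * s + s ^ 2 * (e ⬝ᵥ e)) * (p ⬝ᵥ e) ^ 2 := by
  have h : (1 + s • Matrix.vecMulVec e e) *ᵥ p = p + (s * (p ⬝ᵥ e)) • e := by
    rw [Matrix.add_mulVec, Matrix.one_mulVec, Matrix.smul_mulVec, Matrix.vecMulVec_mulVec]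
    rw [dotProduct_comm e p]
    ext i
    simp
    ring
  rw [h]
  simp only [dotProduct_add, add_dotProduct, dotProduct_smul, smul_dotProduct, smul_eq_mul]
  rw [dotProduct_comm e p]
  ring

lemma step_det (e : Fin r → ℝ) (s : ℝ) :
    (1 + s • Matrix.vecMulVec e e).det = 1 + s * (e ⬝ᵥ e) := by
  have h : (1 + s • Matrix.vecMulVec e e : Matrix (Fin r) (Fin r) ℝ)
      = 1 + Matrix.replicateCol Unit (s • e) * Matrix.replicateRow Unit e := by
    ext i j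
    simp [Matrix.vecMulVec, Matrix.mul_apply]
  rw [h, Matrix.det_one_add_replicateCol_mul_replicateRow]
  simp [dotProduct_smul]

/-- approximate isotropic position -/
lemma isotropic (hr : 0 < r) (u : ZMod m → (Fin r → ℝ)) (hu : ∀ i, (win r u i).det ≠ 0)
    {ε : ℝ} (hε : 0 < ε) :
    ∃ T : Matrix (Fin r) (Fin r) ℝ, T.det ≠ 0 ∧ ∀ e : Fin r → ℝ,
      (1 - ε) * m * (e ⬝ᵥ e) ≤
        r * ∑ x, ((T *ᵥ u x) ⬝ᵥ e) ^ 2 / ((T *ᵥ u x) ⬝ᵥ (T *ᵥ u x)) := by
  have hm : (0 : ℝ) < m := by exact_mod_cast Nat.pos_of_ne_zero (NeZero.ne m)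
  set S : Set ℝ := {z | ∃ T : Matrix (Fin r) (Fin r) ℝ, T.det ≠ 0 ∧ Phi u T = z} with hS
  have hSne : S.Nonempty := ⟨Phi u 1, 1, by simp, rfl⟩
  have hSb : BddAbove S := by
    refine ⟨- ∑ i, Real.log ((win r u i).det ^ 2), ?_⟩
    rintro z ⟨T, hT, rfl⟩
    exact Phi_le hr u hu T hT
  have hδ : 0 < (m : ℝ) * ε ^ 2 / 2 := by positivity
  obtain ⟨z, ⟨T, hT, rfl⟩, hz⟩ := exists_lt_of_lt_csSup hSne
    (show sSup S - (m : ℝ) * ε ^ 2 / 2 < sSup S by linarith)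
  refine ⟨T, hT, ?_⟩
  intro e
  by_contra hcon
  push Not at hcon
  have hp : ∀ x, 0 < (T *ᵥ u x) ⬝ᵥ (T *ᵥ u x) := fun x =>
    dot_self_pos (mulVec_ne_zero hT (ne_zero_of_win hr u _ (hu _)))
  have he0 : e ≠ 0 := by
    rintro rfl
    simp at hcon
  have he : 0 < e ⬝ᵥ e := dot_self_pos he0
  set t := ε / 2 with ht
  have ht0 : 0 < t := by positivity
  set s := t / (e ⬝ᵥ e) with hs
  have hse : s * (e ⬝ᵥ e) = t := by rw [hs]; field_simp
  set D : Matrix (Fin r) (Fin r) ℝ := 1 + s • Matrix.vecMulVec e e with hD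
  have hDdet : D.det = 1 + t := by rw [hD, step_det, hse]
  have hDT : (D * T).det ≠ 0 := by
    rw [Matrix.det_mul, hDdet]
    exact mul_ne_zero (by positivity) hT
  have h1 : Phi u (D * T) ≤ sSup S := le_csSup hSb ⟨_, hDT, rfl⟩
  have hQ : ∀ x, Real.log (((D * T) *ᵥ u x) ⬝ᵥ ((D * T) *ᵥ u x)) ≤
      Real.log ((T *ᵥ u x) ⬝ᵥ (T *ᵥ u x)) + (2 * t + t ^ 2) / (e ⬝ᵥ e) *
        (((T *ᵥ u x) ⬝ᵥ e) ^ 2 / ((T *ᵥ u x) ⬝ᵥ (T *ᵥ u x))) := by
    intro x
    have h2 : ((D * T) *ᵥ u x) ⬝ᵥ ((D * T) *ᵥ u x) = ((T *ᵥ u x) ⬝ᵥ (T *ᵥ u x)) *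
        (1 + (2 * t + t ^ 2) / (e ⬝ᵥ e) *
        (((T *ᵥ u x) ⬝ᵥ e) ^ 2 / ((T *ᵥ u x) ⬝ᵥ (T *ᵥ u x)))) := by
      rw [← Matrix.mulVec_mulVec, hD, step_vec]
      have := (hp x).ne'
      have he' := he.ne'
      have h3 : 2 * s + s ^ 2 * (e ⬝ᵥ e) = (2 * t + t ^ 2) / (e ⬝ᵥ e) := by
        rw [hs]; field_simp
      rw [h3]
      field_simp
    have h4 : 0 ≤ (2 * t + t ^ 2) / (e ⬝ᵥ e) *
        (((T *ᵥ u x) ⬝ᵥ e) ^ 2 / ((T *ᵥ u x) ⬝ᵥ (T *ᵥ u x))) := by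
      have := hp x
      positivity
    rw [h2, Real.log_mul (hp x).ne' (by positivity)]
    have h5 := Real.log_le_sub_one_of_pos (show 0 < 1 + (2 * t + t ^ 2) / (e ⬝ᵥ e) *
        (((T *ᵥ u x) ⬝ᵥ e) ^ 2 / ((T *ᵥ u x) ⬝ᵥ (T *ᵥ u x))) by positivity)
    linarith
  have h6 := Finset.sum_le_sum (fun x (_ : x ∈ (univ : Finset (ZMod m))) => hQ x)
  rw [Finset.sum_add_distrib, ← Finset.mul_sum] at h6
  set Q := ∑ x, ((T *ᵥ u x) ⬝ᵥ e) ^ 2 / ((T *ᵥ u x) ⬝ᵥ (T *ᵥ u x)) with hQdef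
  have h7 : (r : ℝ) * ((2 * t + t ^ 2) / (e ⬝ᵥ e) * Q) ≤ (2 * t + t ^ 2) * ((1 - ε) * m) := by
    have : (r : ℝ) * ((2 * t + t ^ 2) / (e ⬝ᵥ e) * Q)
        = (2 * t + t ^ 2) * ((r * Q) / (e ⬝ᵥ e)) := by
      field_simp
    rw [this]
    apply mul_le_mul_of_nonneg_left _ (by positivity)
    rw [div_le_iff₀ he]
    exact hcon.le
  have h8 : Real.log ((D * T).det ^ 2) = 2 * Real.log (1 + t) + Real.log (T.det ^ 2) := by
    rw [Matrix.det_mul, hDdet, mul_pow, Real.log_mul (by positivity) (pow_ne_zero 2 hT),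
      Real.log_pow]
    norm_num
  have h9 : t - t ^ 2 / 2 ≤ Real.log (1 + t) := by
    refine le_trans ?_ (Real.le_log_one_add_of_nonneg ht0.le)
    rw [le_div_iff₀ (by positivity)]
    nlinarith [pow_pos ht0 3]
  have h10 : Phi u (D * T) ≥ Phi u T + m * ε ^ 2 / 2 := by
    unfold Phi
    rw [h8]
    have h11 := mul_le_mul_of_nonneg_left h6 (Nat.cast_nonneg (α := ℝ) r)
    rw [mul_add] at h11
    have h12 := mul_le_mul_of_nonneg_left h9 hm.le
    have h13 : m * ε ^ 2 / 2 ≤ 2 * (m * (t - t ^ 2 / 2)) - (2 * t + t ^ 2) * ((1 - ε) * m) := by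
      have : 2 * (m * (t - t ^ 2 / 2)) - (2 * t + t ^ 2) * ((1 - ε) * m) - m * ε ^ 2 / 2
          = m * ε ^ 3 / 4 := by
        rw [ht]; ring
      have h14 : 0 ≤ m * ε ^ 3 / 4 := by positivity
      linarith
    linarith
  linarith

end cyclic

/-- the summation of the bilinear form bound over the coordinates -/
lemma bilinear_sum {X Y : Type*} [Fintype X] [Fintype Y] {r : ℕ} (A : X → Y → ℝ)
    (a : X → (Fin r → ℝ)) (b : Y → (Fin r → ℝ)) (ha : ∀ x, a x ⬝ᵥ a x = 1)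
    (hb : ∀ y, b y ⬝ᵥ b y = 1) {B : ℝ} (hB : 0 ≤ B)
    (hAB : ∀ (f : X → ℝ) (g : Y → ℝ), ∑ x, ∑ y, A x y * f x * g y ≤
      B * √(∑ x, f x ^ 2) * √(∑ y, g y ^ 2)) :
    ∑ x, ∑ y, A x y * (a x ⬝ᵥ b y) ≤
      B * (√(Fintype.card X) * √(Fintype.card Y)) := by
  have h1 : ∑ x, ∑ y, A x y * (a x ⬝ᵥ b y) = ∑ i, ∑ x, ∑ y, A x y * a x i * b y i := by
    rw [Finset.sum_comm (s := (univ : Finset (Fin r)))]
    refine Finset.sum_congr rfl fun x _ => ?_
    rw [Finset.sum_comm (s := (univ : Finset (Fin r)))]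
    refine Finset.sum_congr rfl fun y _ => ?_
    rw [dotProduct, Finset.mul_sum]
    refine Finset.sum_congr rfl fun i _ => ?_
    ring
  rw [h1]
  have h2 : ∑ i, ∑ x, ∑ y, A x y * a x i * b y i ≤
      ∑ i, B * (√(∑ x, a x i ^ 2) * √(∑ y, b y i ^ 2)) := by
    refine Finset.sum_le_sum fun i _ => ?_
    rw [← mul_assoc]
    exact hAB (fun x => a x i) (fun y => b y i)
  refine h2.trans ?_
  rw [← Finset.mul_sum]
  apply mul_le_mul_of_nonneg_left _ hB
  have h3 := Real.sum_mul_le_sqrt_mul_sqrt (univ : Finset (Fin r))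
    (fun i => √(∑ x, a x i ^ 2)) (fun i => √(∑ y, b y i ^ 2))
  refine h3.trans (le_of_eq ?_)
  congr 2
  · simp_rw [Real.sq_sqrt (Finset.sum_nonneg (fun _ _ => sq_nonneg _))]
    rw [Finset.sum_comm]
    simp_rw [dotProduct, ← sq] at ha
    simp [ha]
  · simp_rw [Real.sq_sqrt (Finset.sum_nonneg (fun _ _ => sq_nonneg _))]
    rw [Finset.sum_comm]
    simp_rw [dotProduct, ← sq] at hb
    simp [hb]

lemma dot_sq_le {r : ℕ} (p e : Fin r → ℝ) : (p ⬝ᵥ e) ^ 2 ≤ (p ⬝ᵥ p) * (e ⬝ᵥ e) := by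
  have := Finset.sum_mul_sq_le_sq_mul_sq univ p e
  simpa [dotProduct, sq] using this

/-- Forster's theorem for vectors whose cyclic windows are invertible. -/
lemma forster_win {m r : ℕ} [NeZero m] (hr : 0 < r) {Y : Type*} [Fintype Y]
    (u : ZMod m → (Fin r → ℝ)) (hu : ∀ i, (win r u i).det ≠ 0)
    (v : Y → (Fin r → ℝ)) (A : ZMod m → Y → ℝ)
    (H1 : ∀ x y, u x ⬝ᵥ v y ≠ 0) (H2 : ∀ x y, 0 ≤ A x y * (u x ⬝ᵥ v y))
    (Bad : Finset (ZMod m × Y)) {γ : ℝ} (hγ : 0 ≤ γ) (H3 : ∀ x y, (x, y) ∉ Bad → γ ≤ |A x y|)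
    {B : ℝ} (hB : 0 ≤ B)
    (H4 : ∀ (f : ZMod m → ℝ) (g : Y → ℝ), ∑ x, ∑ y, A x y * f x * g y ≤
      B * √(∑ x, f x ^ 2) * √(∑ y, g y ^ 2)) :
    γ * (m * Fintype.card Y) ≤ r * (B * (√m * √(Fintype.card Y)) + γ * #Bad) := by
  classical
  have hm : (0 : ℝ) < m := by exact_mod_cast Nat.pos_of_ne_zero (NeZero.ne m)
  have hr' : (0 : ℝ) < r := by exact_mod_cast hr
  -- it is enough to prove the estimate with an error `ε`
  suffices hmain : ∀ ε : ℝ, 0 < ε → (1 - ε) * (γ * (m * Fintype.card Y)) ≤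
      r * (B * (√m * √(Fintype.card Y)) + γ * #Bad) by
    apply le_of_forall_pos_le_add
    intro δ hδ
    set K := γ * (m * (Fintype.card Y : ℝ)) with hK
    have hK0 : 0 ≤ K := by positivity
    have h := hmain (δ / (K + 1)) (by positivity)
    have h2 : δ / (K + 1) * K ≤ δ := by
      rw [div_mul_eq_mul_div, div_le_iff₀ (by positivity)]
      nlinarith
    linarith
  intro ε hε
  obtain ⟨T, hT, hiso⟩ := isotropic hr u hu hε
  set p : ZMod m → (Fin r → ℝ) := fun x => T *ᵥ u x with hp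
  set e : Y → (Fin r → ℝ) := fun y => (T⁻¹)ᵀ *ᵥ v y with he
  have hpe : ∀ x y, p x ⬝ᵥ e y = u x ⬝ᵥ v y := by
    intro x y
    have hTu : IsUnit T.det := isUnit_iff_ne_zero.2 hT
    rw [hp, he]
    show (T *ᵥ u x) ⬝ᵥ ((T⁻¹)ᵀ *ᵥ v y) = _
    rw [Matrix.dotProduct_mulVec, Matrix.vecMul_transpose, Matrix.mulVec_mulVec,
      Matrix.nonsing_inv_mul T hTu, Matrix.one_mulVec]
  have hppos : ∀ x, 0 < p x ⬝ᵥ p x := fun x =>
    dot_self_pos (mulVec_ne_zero hT (ne_zero_of_win hr u _ (hu _)))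
  have hepos : ∀ y, 0 < e y ⬝ᵥ e y := by
    intro y
    apply dot_self_pos
    intro h0
    have := H1 0 y
    rw [← hpe, h0] at this
    simp at this
  set R : ZMod m → Y → ℝ := fun x y => (p x ⬝ᵥ e y) / (√(p x ⬝ᵥ p x) * √(e y ⬝ᵥ e y)) with hR
  have hR2 : ∀ x y, R x y ^ 2 = (p x ⬝ᵥ e y) ^ 2 / (p x ⬝ᵥ p x) / (e y ⬝ᵥ e y) := by
    intro x y
    rw [hR]
    show ((p x ⬝ᵥ e y) / (√(p x ⬝ᵥ p x) * √(e y ⬝ᵥ e y))) ^ 2 = _
    rw [div_pow, mul_pow, Real.sq_sqrt (hppos x).le, Real.sq_sqrt (hepos y).le, div_div]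
  have hR1 : ∀ x y, R x y ^ 2 ≤ 1 := by
    intro x y
    rw [hR2, div_div, div_le_one (mul_pos (hppos x) (hepos y))]
    exact dot_sq_le _ _
  have hRabs : ∀ x y, |R x y| ≤ 1 := fun x y => (sq_le_one_iff_abs_le_one _).1 (hR1 x y)
  have hRsq : ∀ x y, R x y ^ 2 ≤ |R x y| := by
    intro x y
    rw [← sq_abs]
    have := hRabs x y
    nlinarith [abs_nonneg (R x y)]
  -- the lower bound for the sum of the squares
  have hlow : ∀ y, (1 - ε) * m / r ≤ ∑ x, R x y ^ 2 := by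
    intro y
    have h := hiso (e y)
    simp_rw [hR2]
    rw [← Finset.sum_div, div_le_div_iff₀ hr' (hepos y)]
    calc (1 - ε) * m * (e y ⬝ᵥ e y) ≤ _ := h
      _ = _ := by ring
  -- the sign condition
  have hAR : ∀ x y, 0 ≤ A x y * R x y := by
    intro x y
    have h1 := H2 x y
    rw [← hpe] at h1
    have h2 : A x y * R x y = (A x y * (p x ⬝ᵥ e y)) / (√(p x ⬝ᵥ p x) * √(e y ⬝ᵥ e y)) := by
      rw [hR]; ring
    rw [h2]
    exact div_nonneg h1 (by positivity)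
  have hterm : ∀ x y, γ * R x y ^ 2 - (if (x, y) ∈ Bad then γ else 0) ≤ A x y * R x y := by
    intro x y
    split_ifs with hxy
    · have h1 := hAR x y
      have h2 := hR1 x y
      nlinarith
    · have h1 : A x y * R x y = |A x y| * |R x y| := by
        rw [← abs_mul, abs_of_nonneg (hAR x y)]
      rw [h1, sub_zero]
      exact mul_le_mul (H3 x y hxy) (hRsq x y) (sq_nonneg _) (abs_nonneg _)
  have hsum : γ * ((1 - ε) * m / r * Fintype.card Y) - γ * #Bad ≤ ∑ x, ∑ y, A x y * R x y := by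
    have h1 : ∑ x, ∑ y, (γ * R x y ^ 2 - (if (x, y) ∈ Bad then γ else 0)) ≤
        ∑ x, ∑ y, A x y * R x y :=
      Finset.sum_le_sum fun x _ => Finset.sum_le_sum fun y _ => hterm x y
    refine le_trans ?_ h1
    simp_rw [Finset.sum_sub_distrib]
    have h2 : ∑ x : ZMod m, ∑ y : Y, (if (x, y) ∈ Bad then γ else 0) = γ * #Bad := by
      rw [← Fintype.sum_prod_type' (f := fun x y => if (x, y) ∈ Bad then γ else 0)]
      rw [Finset.sum_ite_mem]
      simp [mul_comm]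
    rw [h2]
    have h3 : γ * ((1 - ε) * m / r * Fintype.card Y) ≤ ∑ x, ∑ y, γ * R x y ^ 2 := by
      rw [Finset.sum_comm]
      simp_rw [← Finset.mul_sum]
      apply mul_le_mul_of_nonneg_left _ hγ
      have h4 := Finset.sum_le_sum fun y (_ : y ∈ (univ : Finset Y)) => hlow y
      simp only [sum_const, card_univ, nsmul_eq_mul] at h4
      linarith
    linarith
  -- the upper bound
  have hup : ∑ x, ∑ y, A x y * R x y ≤ B * (√m * √(Fintype.card Y)) := by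
    have h1 := bilinear_sum A (fun x => (1 / √(p x ⬝ᵥ p x)) • p x)
      (fun y => (1 / √(e y ⬝ᵥ e y)) • e y) ?_ ?_ hB H4
    · rw [ZMod.card] at h1
      refine le_trans (le_of_eq ?_) h1
      refine Finset.sum_congr rfl fun x _ => Finset.sum_congr rfl fun y _ => ?_
      rw [hR]
      simp only [smul_dotProduct, dotProduct_smul, smul_eq_mul]
      have h5 : √(p x ⬝ᵥ p x) ≠ 0 := (Real.sqrt_pos.2 (hppos x)).ne'
      have h6 : √(e y ⬝ᵥ e y) ≠ 0 := (Real.sqrt_pos.2 (hepos y)).ne'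
      field_simp
    · intro x
      simp only [smul_dotProduct, dotProduct_smul, smul_eq_mul]
      have h5 : √(p x ⬝ᵥ p x) ≠ 0 := (Real.sqrt_pos.2 (hppos x)).ne'
      have h6 := Real.mul_self_sqrt (hppos x).le
      field_simp
      rw [sq, h6]
    · intro y
      simp only [smul_dotProduct, dotProduct_smul, smul_eq_mul]
      have h5 : √(e y ⬝ᵥ e y) ≠ 0 := (Real.sqrt_pos.2 (hepos y)).ne'
      have h6 := Real.mul_self_sqrt (hepos y).le
      field_simp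
      rw [sq, h6]
  have h7 := hsum.trans hup
  have h8 : (1 - ε) * (γ * (m * Fintype.card Y)) = r * (γ * ((1 - ε) * m / r * Fintype.card Y)) := by
    field_simp
  rw [h8]
  have h9 := mul_le_mul_of_nonneg_left h7 hr'.le
  linarith

/-- general position by a small perturbation -/
lemma perturb {m r : ℕ} [NeZero m] (hrm : r ≤ m) {Y : Type*} [Fintype Y]
    (u : ZMod m → (Fin r → ℝ)) (v : Y → (Fin r → ℝ)) (H1 : ∀ x y, u x ⬝ᵥ v y ≠ 0) :
    ∃ u' : ZMod m → (Fin r → ℝ), (∀ i, (win r u' i).det ≠ 0) ∧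
      ∀ x y, 0 < (u' x ⬝ᵥ v y) * (u x ⬝ᵥ v y) := by
  set w : ZMod m → (Fin r → ℝ) := fun x k => (x.val : ℝ) ^ (k : ℕ) with hw
  have hwin : ∀ i, (win r w i).det ≠ 0 := by
    intro i
    have h1 : win r w i =
        Matrix.vandermonde (fun j : Fin r => (((i + ((j : ℕ) : ZMod m)).val : ℕ) : ℝ)) := by
      ext j k
      simp [win, hw, Matrix.vandermonde]
    rw [h1, Matrix.det_vandermonde_ne_zero_iff]
    intro j j' h
    have h' : (i + ((j : ℕ) : ZMod m)).val = (i + ((j' : ℕ) : ZMod m)).val := by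
      exact Nat.cast_injective (R := ℝ) h
    have h3 : ((j : ℕ) : ZMod m) = ((j' : ℕ) : ZMod m) := add_left_cancel (ZMod.val_injective m h')
    have h4 := congrArg ZMod.val h3
    rw [ZMod.val_cast_of_lt (by omega), ZMod.val_cast_of_lt (by omega)] at h4
    exact Fin.ext h4
  set P : Polynomial ℝ := ∏ i : ZMod m, ((Polynomial.X : Polynomial ℝ) •
    (win r w i).map Polynomial.C + (win r u i).map Polynomial.C).det with hPdef
  have hP : P ≠ 0 := by
    rw [hPdef, Finset.prod_ne_zero_iff]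
    intro i _ h0
    have h1 := Polynomial.coeff_det_X_add_C_card (win r w i) (win r u i)
    rw [h0] at h1
    simp only [Polynomial.coeff_zero] at h1
    exact hwin i h1.symm
  have hev : ∀ᶠ ε in nhds (0 : ℝ), ∀ x y, 0 < ((u x + ε • w x) ⬝ᵥ v y) * (u x ⬝ᵥ v y) := by
    rw [Filter.eventually_all]
    intro x
    rw [Filter.eventually_all]
    intro y
    have hc : Continuous fun ε : ℝ => ((u x + ε • w x) ⬝ᵥ v y) * (u x ⬝ᵥ v y) := by
      simp only [add_dotProduct, smul_dotProduct, smul_eq_mul]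
      fun_prop
    have h0 : 0 < ((u x + (0 : ℝ) • w x) ⬝ᵥ v y) * (u x ⬝ᵥ v y) := by
      rw [zero_smul, add_zero]
      exact mul_self_pos.2 (H1 x y)
    exact hc.continuousAt.eventually (lt_mem_nhds h0)
  obtain ⟨δ, hδ, hδ'⟩ := Metric.eventually_nhds_iff.1 hev
  obtain ⟨ε, hε0, hεδ, hPε⟩ : ∃ ε : ℝ, 0 < ε ∧ ε < δ ∧ P.eval ε ≠ 0 := by
    by_contra hcon
    push Not at hcon
    apply hP
    apply Polynomial.eq_zero_of_infinite_isRoot
    refine Set.Infinite.mono (s := Set.Ioo 0 δ) ?_ (Set.Ioo_infinite hδ)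
    rintro x ⟨h1, h2⟩
    exact hcon x h1 h2
  refine ⟨fun x => u x + ε • w x, ?_, ?_⟩
  · intro i h0
    apply hPε
    rw [hPdef, Polynomial.eval_prod]
    apply Finset.prod_eq_zero (mem_univ i)
    rw [← h0, ← Polynomial.coe_evalRingHom, RingHom.map_det]
    congr 1
    ext j k
    simp [win]
    ring
  · intro x y
    apply hδ'
    rw [Real.dist_eq, sub_zero, abs_of_pos hε0]
    exact hεδ

/-- Forster's theorem in dimension at most the number of rows -/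
lemma forster_le {X Y : Type*} [Fintype X] [Nonempty X] [Fintype Y] {r : ℕ} (hr : 0 < r)
    (hrX : r ≤ Fintype.card X) (u : X → (Fin r → ℝ)) (v : Y → (Fin r → ℝ)) (A : X → Y → ℝ)
    (H1 : ∀ x y, u x ⬝ᵥ v y ≠ 0) (H2 : ∀ x y, 0 ≤ A x y * (u x ⬝ᵥ v y))
    (Bad : Finset (X × Y)) {γ : ℝ} (hγ : 0 ≤ γ) (H3 : ∀ x y, (x, y) ∉ Bad → γ ≤ |A x y|)
    {B : ℝ} (hB : 0 ≤ B)
    (H4 : ∀ (f : X → ℝ) (g : Y → ℝ), ∑ x, ∑ y, A x y * f x * g y ≤
      B * √(∑ x, f x ^ 2) * √(∑ y, g y ^ 2)) :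
    γ * (Fintype.card X * Fintype.card Y) ≤
      r * (B * (√(Fintype.card X) * √(Fintype.card Y)) + γ * #Bad) := by
  classical
  set m := Fintype.card X with hm
  have : NeZero m := ⟨Fintype.card_ne_zero⟩
  let e : X ≃ ZMod m := Fintype.equivOfCardEq (by rw [ZMod.card])
  obtain ⟨u', hu', hs⟩ := perturb hrX (fun i => u (e.symm i)) v (fun i y => H1 _ y)
  have hmain := forster_win hr u' hu' v (fun i y => A (e.symm i) y) ?_ ?_
    (Bad.map (e.prodCongr (Equiv.refl Y)).toEmbedding) hγ ?_ hB ?_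
  · rw [Finset.card_map] at hmain
    exact hmain
  · intro x y h0
    have := hs x y
    rw [h0] at this
    simp at this
  · intro x y
    have h1 := hs x y
    have h2 := H2 (e.symm x) y
    have h3 : 0 < (u (e.symm x) ⬝ᵥ v y) ^ 2 := by
      have := H1 (e.symm x) y
      positivity
    have h4 : A (e.symm x) y * (u' x ⬝ᵥ v y) * (u (e.symm x) ⬝ᵥ v y) ^ 2 =
        (A (e.symm x) y * (u (e.symm x) ⬝ᵥ v y)) * ((u' x ⬝ᵥ v y) * (u (e.symm x) ⬝ᵥ v y)) := by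
      ring
    exact nonneg_of_mul_nonneg_left (h4 ▸ mul_nonneg h2 h1.le) h3
  · intro x y hxy
    apply H3
    intro h
    apply hxy
    rw [Finset.mem_map]
    exact ⟨(e.symm x, y), h, by simp⟩
  · intro f g
    have h1 := H4 (fun x => f (e x)) g
    rw [← e.sum_comp fun x => ∑ y, A (e.symm x) y * f x * g y,
      ← e.sum_comp fun x => f x ^ 2]
    simpa using h1

/-- **Forster's theorem** in the form of Razborov and Sherstov: if the matrix `A` agrees in sign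
with a matrix of scalar products of vectors of dimension `r`, has bilinear form bounded by `B`,
and `|A x y| ≥ γ` for all `(x, y)` outside `Bad`, then
`γ |X| |Y| ≤ r (B √(|X| |Y|) + γ |Bad|)`. -/
theorem forster {X Y : Type*} [Fintype X] [Fintype Y] {r : ℕ}
    (u : X → (Fin r → ℝ)) (v : Y → (Fin r → ℝ)) (A : X → Y → ℝ)
    (H1 : ∀ x y, u x ⬝ᵥ v y ≠ 0) (H2 : ∀ x y, 0 ≤ A x y * (u x ⬝ᵥ v y))
    (Bad : Finset (X × Y)) {γ : ℝ} (hγ : 0 ≤ γ) (H3 : ∀ x y, (x, y) ∉ Bad → γ ≤ |A x y|)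
    {B : ℝ} (hB : 0 ≤ B)
    (H4 : ∀ (f : X → ℝ) (g : Y → ℝ), ∑ x, ∑ y, A x y * f x * g y ≤
      B * √(∑ x, f x ^ 2) * √(∑ y, g y ^ 2)) :
    γ * (Fintype.card X * Fintype.card Y) ≤
      r * (B * √(Fintype.card X * Fintype.card Y) + γ * #Bad) := by
  classical
  rw [Real.sqrt_mul (Nat.cast_nonneg _)]
  rcases isEmpty_or_nonempty X with hX | hX
  · simp
    positivity
  rcases isEmpty_or_nonempty Y with hY | hY
  · simp
    positivity
  have hr : 0 < r := by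
    rcases Nat.eq_zero_or_pos r with h | h
    · subst h
      exact absurd (by simp) (H1 hX.some hY.some)
    · exact h
  rcases le_or_gt r (Fintype.card X) with hrX | hrX
  · exact forster_le hr hrX u v A H1 H2 Bad hγ H3 hB H4
  · set m := Fintype.card X with hm
    let e : X ≃ Fin m := Fintype.equivFin X
    have hdot : ∀ x y, (Pi.single (e x) (1 : ℝ) : Fin m → ℝ) ⬝ᵥ
        (fun k => u (e.symm k) ⬝ᵥ v y) = u x ⬝ᵥ v y := by
      intro x y
      rw [single_one_dotProduct]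
      simp
    have h := forster_le (r := m) Fintype.card_pos le_rfl (fun x => Pi.single (e x) (1 : ℝ))
      (fun y k => u (e.symm k) ⬝ᵥ v y) A (fun x y => by rw [hdot]; exact H1 x y)
      (fun x y => by rw [hdot]; exact H2 x y) Bad hγ H3 hB H4
    refine h.trans ?_
    apply mul_le_mul_of_nonneg_right
    · exact_mod_cast hrX.le
    · positivity

end Pool.Agent.Lib.MP_ff3ed7_lc.Forster
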