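import Pool.Agent.Lib.MP_ff3ed7_lc.Lower

/-! Many lucky guesses are unlikely. -/

open Finset

namespace Pool.Agent.Lib.MP_ff3ed7_lc

variable {n k m : ℕ}

section general

variable {α β : Type} [Fintype α] [DecidableEq α] [Fintype β] [DecidableEq β]

open Classical in
/-- Functions which agree with `H0` on `Kn` and have a property. -/
noncomputable def cyl (Kn : Finset α) (H0 : α → β) (P : (α → β) → Prop) : Finset (α → β) :=
  univ.filter fun H => (∀ a ∈ Kn, H a = H0 a) ∧ P H

lemma mem_cyl {Kn : Finset α} {H0 : α → β} {P : (α → β) → Prop} {H : α → β} :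
    H ∈ cyl Kn H0 P ↔ (∀ a ∈ Kn, H a = H0 a) ∧ P H := by
  simp [cyl]

lemma card_cyl_le (Kn : Finset α) (H0 : α → β) (P : (α → β) → Prop) :
    (cyl Kn H0 P).card * Fintype.card β ^ Kn.card ≤ Fintype.card β ^ Fintype.card α := by
  classical
  have h1 : cyl Kn H0 P ⊆ Fintype.piFinset fun a => if a ∈ Kn then {H0 a} else univ := by
    intro H hH
    rw [mem_cyl] at hH
    rw [Fintype.mem_piFinset]
    intro a
    split_ifs with ha
    · simp [hH.1 a ha]
    · simp
  have h2 := card_le_card h1
  rw [Fintype.card_piFinset] at h2
  have h3 : ∏ a, (if a ∈ Kn then ({H0 a} : Finset β) else univ).card =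
      Fintype.card β ^ (Fintype.card α - Kn.card) := by
    have : ∀ a, (if a ∈ Kn then ({H0 a} : Finset β) else univ).card =
        if a ∈ Kn then 1 else Fintype.card β := by
      intro a; split_ifs <;> simp
    simp only [this]
    rw [prod_ite, prod_const_one, one_mul, prod_const]
    congr 1
    have : (univ.filter fun a => a ∉ Kn) = Knᶜ := by ext; simp
    rw [this, card_compl]
  rw [h3] at h2
  calc (cyl Kn H0 P).card * Fintype.card β ^ Kn.card
      ≤ Fintype.card β ^ (Fintype.card α - Kn.card) * Fintype.card β ^ Kn.card :=
        Nat.mul_le_mul_right _ h2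
    _ = Fintype.card β ^ Fintype.card α := by
        rw [← pow_add, Nat.sub_add_cancel (card_le_univ Kn)]

/-- Reveal the value at `a`. -/
lemma reveal (Kn : Finset α) (a : α) (c C : ℕ) (P : (α → β) → β → Prop)
    (hP : ∀ H0 : α → β, (cyl (insert a Kn) H0 fun H => P H (H0 a)).card *
      Fintype.card β ^ (c + (insert a Kn).card) ≤ C) (H0 : α → β) :
    (cyl Kn H0 fun H => P H (H a)).card * Fintype.card β ^ (c + Kn.card) ≤ C := by
  classical
  by_cases ha : a ∈ Kn
  · have h := hP H0
    rw [insert_eq_of_mem ha] at h
    refine le_trans (Nat.mul_le_mul_right _ (card_le_card ?_)) h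
    intro H hH
    rw [mem_cyl] at hH ⊢
    refine ⟨hH.1, ?_⟩
    rw [← hH.1 a ha]; exact hH.2
  · have hpos : 0 < Fintype.card β := Fintype.card_pos_iff.mpr ⟨H0 a⟩
    have hsub : (cyl Kn H0 fun H => P H (H a)) ⊆
        univ.biUnion fun b : β => cyl (insert a Kn) (Function.update H0 a b)
          fun H => P H (Function.update H0 a b a) := by
      intro H hH
      rw [mem_cyl] at hH
      rw [mem_biUnion]
      refine ⟨H a, mem_univ _, ?_⟩
      rw [mem_cyl]
      refine ⟨fun x hx => ?_, by simpa using hH.2⟩
      by_cases hxa : x = a
      · rw [hxa]; simp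
      · rw [Function.update_of_ne hxa]
        exact hH.1 x ((mem_insert.mp hx).resolve_left hxa)
    have h1 := (card_le_card hsub).trans card_biUnion_le
    have h2 : (cyl Kn H0 fun H => P H (H a)).card * Fintype.card β ^ (c + (insert a Kn).card) ≤
        Fintype.card β * C := by
      calc _ ≤ (∑ b : β, (cyl (insert a Kn) (Function.update H0 a b)
            fun H => P H (Function.update H0 a b a)).card) *
              Fintype.card β ^ (c + (insert a Kn).card) := Nat.mul_le_mul_right _ h1
        _ = ∑ b : β, (cyl (insert a Kn) (Function.update H0 a b)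
            fun H => P H (Function.update H0 a b a)).card *
              Fintype.card β ^ (c + (insert a Kn).card) := by rw [sum_mul]
        _ ≤ ∑ _b : β, C := sum_le_sum fun b _ => hP _
        _ = Fintype.card β * C := by simp
    rw [card_insert_of_notMem ha, ← add_assoc, pow_succ, ← mul_assoc, mul_comm _ (Fintype.card β)]
      at h2
    exact Nat.le_of_mul_le_mul_left h2 hpos

end general

lemma count (T : DTree (Cell n k m) (Val n m)) : ∀ (d R : ℕ) (Kn : Finset (Nd n k))
    (H0 : Nd n k → Fin m), T.DepthLE d →
    (cyl Kn H0 fun H => R ≤ luck H T Kn).card * m ^ (R + Kn.card) ≤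
      d.choose R * m ^ Fintype.card (Nd n k) := by
  induction T with
  | leaf b =>
    intro d R Kn H0 _
    rcases Nat.eq_zero_or_pos R with rfl | hR
    · have := card_cyl_le Kn H0 (fun H => 0 ≤ luck H (.leaf b : DTree (Cell n k m) (Val n m)) Kn)
      simpa using this
    · have : (cyl Kn H0 fun H => R ≤ luck H (.leaf b : DTree (Cell n k m) (Val n m)) Kn) = ∅ := by
        ext H
        rw [mem_cyl]
        simp [luck]
        omega
      rw [this]; simp
  | node c f ih =>
    intro d R Kn H0 hd
    obtain ⟨h0, h1⟩ := hd
    obtain ⟨d', rfl⟩ := Nat.exists_eq_succ_of_ne_zero h0.ne'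
    simp only [Nat.succ_eq_add_one, Nat.add_sub_cancel] at h1 ⊢
    have hmono : ∀ {A : ℕ}, A ≤ d'.choose R * m ^ Fintype.card (Nd n k) →
        A ≤ (d' + 1).choose R * m ^ Fintype.card (Nd n k) := fun h =>
      h.trans (Nat.mul_le_mul_right _ (Nat.choose_le_choose _ (Nat.le_succ _)))
    rcases c with ⟨u, v, i, j⟩ | ⟨t, a⟩
    · set a := (src u v i : Nd n k) with ha
      set b := (tgt u v i : Nd n k) with hb
      by_cases hk : a ∈ Kn
      · by_cases hj : H0 a = j
        · -- known source, hit
          have h2 := reveal Kn b R (d'.choose R * m ^ Fintype.card (Nd n k))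
            (fun H w => R ≤ luck H (f (.ptr w)) (insert b Kn)) (fun H0' => by
              simpa using ih (.ptr (H0' b)) d' R (insert b Kn) H0' (h1 _)) H0
          rw [Fintype.card_fin] at h2
          refine hmono (le_trans (Nat.mul_le_mul_right _ (card_le_card ?_)) h2)
          intro H hH
          rw [mem_cyl] at hH ⊢
          refine ⟨hH.1, ?_⟩
          have h3 := hH.2
          have h4 : H a = j := by rw [hH.1 a hk]; exact hj
          simp only [luck, ← ha, ← hb, if_pos h4, if_pos hk, zero_add] at h3
          rwa [insert_eq_of_mem (mem_insert_of_mem hk)] at h3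
        · refine hmono (le_trans (Nat.mul_le_mul_right _ (card_le_card ?_))
            (ih .none d' R Kn H0 (h1 _)))
          intro H hH
          rw [mem_cyl] at hH ⊢
          refine ⟨hH.1, ?_⟩
          have h3 := hH.2
          have h4 : ¬ H a = j := by rw [hH.1 a hk]; exact hj
          simpa only [luck, ← ha, if_neg h4] using h3
      · rcases Nat.eq_zero_or_pos R with rfl | hR
        · have := card_cyl_le Kn H0
            (fun H => 0 ≤ luck H (.node (.arr u v i j) f : DTree (Cell n k m) (Val n m)) Kn)
          simpa using this
        · obtain ⟨R', rfl⟩ := Nat.exists_eq_succ_of_ne_zero hR.ne'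
          simp only [Nat.succ_eq_add_one]
          -- lucky part
          have hrev : ∀ H1 : Nd n k → Fin m, (cyl (insert a Kn) H1
              fun H => R' ≤ luck H (f (.ptr (H b))) (insert a (insert b Kn))).card *
                m ^ (R' + (insert a Kn).card) ≤ d'.choose R' * m ^ Fintype.card (Nd n k) := by
            intro H1
            have h2 := reveal (insert a Kn) b R' (d'.choose R' * m ^ Fintype.card (Nd n k))
              (fun H w => R' ≤ luck H (f (.ptr w)) (insert a (insert b Kn))) (fun H0' => by
                rw [Finset.insert_comm a b Kn]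
                simpa using ih (.ptr (H0' b)) d' R' (insert b (insert a Kn)) H0' (h1 _)) H1
            rwa [Fintype.card_fin] at h2
          have hA := hrev (Function.update H0 a j)
          have hB := ih .none d' (R' + 1) Kn H0 (h1 _)
          rw [card_insert_of_notMem hk] at hA
          have hsub : (cyl Kn H0 fun H => R' + 1 ≤
              luck H (.node (.arr u v i j) f : DTree (Cell n k m) (Val n m)) Kn) ⊆
              (cyl (insert a Kn) (Function.update H0 a j)
                fun H => R' ≤ luck H (f (.ptr (H b))) (insert a (insert b Kn))) ∪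
              (cyl Kn H0 fun H => R' + 1 ≤ luck H (f .none) Kn) := by
            intro H hH
            rw [mem_cyl] at hH
            rw [mem_union, mem_cyl, mem_cyl]
            by_cases h4 : H a = j
            · left
              have h3 := hH.2
              simp only [luck, ← ha, ← hb, if_pos h4, if_neg hk] at h3
              refine ⟨fun x hx => ?_, by omega⟩
              by_cases hxa : x = a
              · rw [hxa, h4]; simp
              · rw [Function.update_of_ne hxa]
                exact hH.1 x ((mem_insert.mp hx).resolve_left hxa)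
            · right
              have h3 := hH.2
              simp only [luck, ← ha, if_neg h4] at h3
              exact ⟨hH.1, h3⟩
          have hc := (card_le_card hsub).trans (card_union_le _ _)
          calc _ ≤ (_ + _) * m ^ (R' + 1 + Kn.card) := Nat.mul_le_mul_right _ hc
            _ = _ := by rw [add_mul]
            _ ≤ d'.choose R' * m ^ Fintype.card (Nd n k) +
                d'.choose (R' + 1) * m ^ Fintype.card (Nd n k) := by
                refine add_le_add ?_ hB
                rw [show R' + 1 + Kn.card = R' + (Kn.card + 1) by ring]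
                exact hA
            _ = (d' + 1).choose (R' + 1) * m ^ Fintype.card (Nd n k) := by
                rw [← add_mul, Nat.choose_succ_succ]
    · refine hmono (le_trans (Nat.mul_le_mul_right _ (card_le_card ?_))
        (ih .none d' R Kn H0 (h1 _)))
      intro H hH
      rw [mem_cyl] at hH ⊢
      exact hH

end Pool.Agent.Lib.MP_ff3ed7_lc
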