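import Mathlib

/-!
Query complexity versions of the classes `MA` and `AM`, and the total function which separates
them.
-/

namespace Pool.Agent.Lib.MP_ff3ed7_lc

/-- Decision trees which query cells in `ι`; the content of a cell is in `σ`. -/
inductive DTree (ι σ : Type) : Type
  | leaf (b : Bool) : DTree ι σ
  | node (i : ι) (next : σ → DTree ι σ) : DTree ι σ

namespace DTree

variable {ι σ : Type}

/-- The output of the tree on input `x`. -/
def eval (x : ι → σ) : DTree ι σ → Bool
  | leaf b => b
  | node i next => (next (x i)).eval x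

/-- The tree makes at most `d` queries on every branch. -/
def DepthLE : DTree ι σ → ℕ → Prop
  | leaf _, _ => True
  | node _ next, d => 0 < d ∧ ∀ s, (next s).DepthLE (d - 1)

end DTree

/-- Probability, over `r` uniform random bits, of an event. -/
noncomputable def prob (r : ℕ) (E : (Fin r → Bool) → Prop) : ℝ :=
  (Nat.card {ρ // E ρ} : ℝ) / 2 ^ r

variable {ι σ : Type}

/-- `f` has a Merlin-Arthur query protocol: Merlin's message has `p` bits and is chosen before
Arthur's random bits (any number `r` of them); Arthur makes at most `q` adaptive queries to the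
input. -/
def HasMA (f : (ι → σ) → Bool) (p q : ℕ) : Prop :=
  ∃ (r : ℕ) (T : (Fin p → Bool) → (Fin r → Bool) → DTree ι σ),
    (∀ y ρ, (T y ρ).DepthLE q) ∧
    (∀ x, f x = true → ∃ y, 2 / 3 ≤ prob r fun ρ => (T y ρ).eval x = true) ∧
    (∀ x, f x = false → ∀ y, prob r (fun ρ => (T y ρ).eval x = true) ≤ 1 / 3)

/-- `f` has an Arthur-Merlin query protocol: Arthur's `r` random bits are chosen first and sent to
Merlin, whose reply has `p` bits; Arthur then makes at most `q` adaptive queries to the input. -/
def HasAM (f : (ι → σ) → Bool) (r p q : ℕ) : Prop :=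
  ∃ T : (Fin p → Bool) → (Fin r → Bool) → DTree ι σ,
    (∀ y ρ, (T y ρ).DepthLE q) ∧
    (∀ x, f x = true → 2 / 3 ≤ prob r fun ρ => ∃ y, (T y ρ).eval x = true) ∧
    (∀ x, f x = false → prob r (fun ρ => ∃ y, (T y ρ).eval x = true) ≤ 1 / 3)

end Pool.Agent.Lib.MP_ff3ed7_lc
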