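import Pool.Agent.Lib.MP_ff3ed7_lc.Defs

/-! Query complexity version of the class `PP`. -/

namespace Pool.Agent.Lib.MP_ff3ed7_lc

/-- `f` has a `PP` query protocol of cost `p` and `q`: there are random decision trees of depth at
most `q` which accept the yes-inputs with probability at least `1 / 2 + 2 ^ (-p)` and the no-inputs
with probability at most `1 / 2`.  The number `r` of random bits is not restricted. -/
def HasPP {ι σ : Type} (f : (ι → σ) → Bool) (p q : ℕ) : Prop :=
  ∃ (r : ℕ) (T : (Fin r → Bool) → DTree ι σ),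
    (∀ ρ, (T ρ).DepthLE q) ∧
    (∀ x, f x = true → 1 / 2 + (1 / 2) ^ p ≤ prob r fun ρ => (T ρ).eval x = true) ∧
    (∀ x, f x = false → prob r (fun ρ => (T ρ).eval x = true) ≤ 1 / 2)

end Pool.Agent.Lib.MP_ff3ed7_lc
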