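import Mathlib

/-!
Two distributions on the subsets of a set of `1025 d ^ 2` elements which cannot be distinguished by
looking at `d` elements: the first one gives the empty set probability at least `255 / 256`, the
second one gives it probability zero.
-/

open Finset

namespace Pool.Agent.Lib.MP_ff3ed7_lc

/-- The large nodes. -/
def big (k : ℕ) : ℕ := 1025 * (k + 1) ^ 2

lemma big_inj : Function.Injective big := by
  intro a b h
  unfold big at h
  have h1 : (a + 1) ^ 2 = (b + 1) ^ 2 := by omega
  have h2 := Nat.pow_left_injective (n := 2) (by norm_num) h1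
  omega

lemma two_le_big (k : ℕ) : 2 ≤ big k := by
  unfold big
  have : 1 ≤ (k + 1) ^ 2 := Nat.one_le_pow _ _ (by omega)
  omega

/-- The nodes. -/
def nds (d : ℕ) : Finset ℕ := insert 0 (insert 1 ((range d).image big))

lemma zero_notMem (s : Finset ℕ) : 0 ∉ insert 1 (s.image big) := by
  simp only [mem_insert, zero_ne_one, mem_image, false_or, not_exists, not_and]
  intro k _ h
  have := two_le_big k
  omega

lemma one_notMem (s : Finset ℕ) : 1 ∉ s.image big := by
  simp only [mem_image, not_exists, not_and]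
  intro k _ h
  have := two_le_big k
  omega

lemma card_nds (d : ℕ) : (nds d).card = d + 2 := by
  unfold nds
  rw [card_insert_of_notMem (zero_notMem _), card_insert_of_notMem (one_notMem _),
    card_image_of_injective _ big_inj, card_range]

lemma nds_le {d t : ℕ} (hd : 1 ≤ d) (ht : t ∈ nds d) : t ≤ 1025 * d ^ 2 := by
  unfold nds at ht
  simp only [mem_insert, mem_image, mem_range] at ht
  have h1 : 1 ≤ d ^ 2 := Nat.one_le_pow _ _ hd
  rcases ht with rfl | rfl | ⟨k, hk, rfl⟩
  · omega
  · omega
  · unfold big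
    exact Nat.mul_le_mul_left _ (Nat.pow_le_pow_left (by omega) 2)

/-- The signed measure. -/
noncomputable def psi (d t : ℕ) : ℝ := (-1) ^ (d + 1) / ∏ j ∈ (nds d).erase t, ((t : ℝ) - j)

lemma psi_orth (d : ℕ) (P : Polynomial ℝ) (hP : P.natDegree ≤ d) :
    ∑ t ∈ nds d, P.eval (t : ℝ) * psi d t = 0 := by
  have h1 : P.degree < (nds d).card := by
    rw [card_nds]
    refine lt_of_le_of_lt Polynomial.degree_le_natDegree ?_
    exact_mod_cast (by omega : P.natDegree < d + 2)
  have h2 := Lagrange.coeff_eq_sum (s := nds d) (v := fun t : ℕ => (t : ℝ))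
    (fun a _ b _ h => Nat.cast_injective h) h1
  rw [card_nds, Polynomial.coeff_eq_zero_of_natDegree_lt (by omega)] at h2
  have h3 : ∑ t ∈ nds d, P.eval (t : ℝ) * psi d t =
      (-1) ^ (d + 1) * ∑ t ∈ nds d, P.eval (t : ℝ) / ∏ j ∈ (nds d).erase t, ((t : ℝ) - j) := by
    rw [mul_sum]
    refine sum_congr rfl fun t _ => ?_
    unfold psi
    ring
  rw [h3, ← h2, mul_zero]

lemma psi_zero (d : ℕ) : psi d 0 = 1 / ∏ k ∈ range d, (big k : ℝ) := by
  unfold psi nds
  rw [erase_insert (zero_notMem _), prod_insert (one_notMem _), prod_image (fun a _ b _ h => big_inj h)]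
  have : ∏ k ∈ range d, (((0 : ℕ) : ℝ) - (big k : ℝ)) = (-1) ^ d * ∏ k ∈ range d, (big k : ℝ) := by
    have : ∀ k ∈ range d, (((0 : ℕ) : ℝ) - (big k : ℝ)) = (-1) * (big k : ℝ) := by
      intro k _; push_cast; ring
    rw [prod_congr rfl this, prod_mul_distrib, prod_const, card_range]
  rw [this]
  have h0 : ∏ k ∈ range d, (big k : ℝ) ≠ 0 := by
    rw [prod_ne_zero_iff]
    intro k _
    have := two_le_big k
    positivity
  have h1 : ((-1 : ℝ) ^ d) ≠ 0 := by positivity
  push_cast
  rw [pow_succ]
  field_simp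
  ring

lemma psi_zero_pos (d : ℕ) : 0 < psi d 0 := by
  rw [psi_zero]
  apply one_div_pos.mpr
  apply prod_pos
  intro k _
  have := two_le_big k
  positivity

lemma psi_one_neg (d : ℕ) : psi d 1 < 0 := by
  unfold psi nds
  have h0 : (insert 0 (insert 1 ((range d).image big))).erase 1 = insert 0 ((range d).image big) := by
    rw [insert_comm, erase_insert]
    simp only [mem_insert, one_ne_zero, mem_image, mem_range, false_or, not_exists, not_and]
    intro k _ h
    have := two_le_big k
    omega
  have h00 : 0 ∉ (range d).image big := by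
    simp only [mem_image, not_exists, not_and]
    intro k _ h
    have := two_le_big k
    omega
  rw [h0, prod_insert h00, prod_image (fun a _ b _ h => big_inj h)]
  have : ∏ k ∈ range d, (((1 : ℕ) : ℝ) - (big k : ℝ)) =
      (-1) ^ d * ∏ k ∈ range d, ((big k : ℝ) - 1) := by
    have : ∀ k ∈ range d, (((1 : ℕ) : ℝ) - (big k : ℝ)) = (-1) * ((big k : ℝ) - 1) := by
      intro k _; push_cast; ring
    rw [prod_congr rfl this, prod_mul_distrib, prod_const, card_range]
  rw [this]
  have hpos : 0 < ∏ k ∈ range d, ((big k : ℝ) - 1) := by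
    apply prod_pos
    intro k _
    have : (2 : ℝ) ≤ big k := by exact_mod_cast two_le_big k
    linarith
  have h1 : ((-1 : ℝ) ^ d) ≠ 0 := by positivity
  have h2 : (-1 : ℝ) ^ (d + 1) / ((((1 : ℕ) : ℝ) - ((0 : ℕ) : ℝ)) *
      ((-1) ^ d * ∏ k ∈ range d, ((big k : ℝ) - 1))) = - (1 / ∏ k ∈ range d, ((big k : ℝ) - 1)) := by
    rw [pow_succ]
    push_cast
    field_simp
    ring
  rw [h2]
  have := one_div_pos.mpr hpos
  linarith

/-- `2 K ^ 2 ∏ |K ^ 2 - i ^ 2| = (d - K)! (d + K)!`. -/
lemma prod_abs (k e : ℕ) : 2 * ((k : ℝ) + 1) ^ 2 *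
    ∏ i ∈ (range (k + 1 + e)).erase k, |((k : ℝ) + 1) ^ 2 - ((i : ℝ) + 1) ^ 2| =
      (e.factorial : ℝ) * ((e + 2 * (k + 1)).factorial : ℝ) := by
  induction e with
  | zero =>
    have h1 : (range (k + 1 + 0)).erase k = range k := by
      ext i
      simp only [add_zero, mem_erase, mem_range]
      omega
    rw [h1]
    have h2 : ∏ i ∈ range k, |((k : ℝ) + 1) ^ 2 - ((i : ℝ) + 1) ^ 2| =
        (∏ i ∈ range k, ((k : ℝ) - i)) * ∏ i ∈ range k, ((k : ℝ) + 2 + i) := by
      rw [← prod_mul_distrib]
      refine prod_congr rfl fun i hi => ?_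
      have : (i : ℝ) + 1 ≤ k := by exact_mod_cast (mem_range.mp hi)
      rw [abs_of_nonneg (by nlinarith [Nat.cast_nonneg (α := ℝ) i])]
      ring
    have h3 : ∏ i ∈ range k, ((k : ℝ) - i) = (k.factorial : ℝ) := by
      rw [← prod_range_reflect, ← prod_range_add_one_eq_factorial]
      push_cast
      refine prod_congr rfl fun i hi => ?_
      have := mem_range.mp hi
      rw [Nat.cast_sub (by omega), Nat.cast_sub (by omega)]
      push_cast; ring
    have h4 : ((k + 1).factorial : ℝ) * ∏ i ∈ range k, ((k : ℝ) + 2 + i) =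
        ((2 * k + 1).factorial : ℝ) := by
      have := Nat.factorial_mul_ascFactorial (k + 1) k
      rw [Nat.ascFactorial_eq_prod_range] at this
      have h5 : ∏ i ∈ range k, ((k : ℝ) + 2 + i) = ((∏ i ∈ range k, (k + 1 + 1 + i) : ℕ) : ℝ) := by
        push_cast
        refine prod_congr rfl fun i _ => ?_
        ring
      rw [h5, show 2 * k + 1 = k + 1 + k by ring, ← this]
      push_cast
      ring
    rw [h2, h3]
    have h6 : (0 + 2 * (k + 1)) = 2 * k + 1 + 1 := by ring
    rw [h6, Nat.factorial_succ (2 * k + 1)]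
    push_cast
    rw [← h4, Nat.factorial_succ k]
    push_cast
    simp only [Nat.factorial_zero, Nat.cast_one]
    ring
  | succ e ih =>
    have h1 : (range (k + 1 + (e + 1))).erase k = insert (k + 1 + e) ((range (k + 1 + e)).erase k) := by
      ext i
      simp only [mem_erase, mem_range, mem_insert]
      omega
    rw [h1, prod_insert (by simp)]
    have h2 : |((k : ℝ) + 1) ^ 2 - (((k + 1 + e : ℕ) : ℝ) + 1) ^ 2| =
        ((e : ℝ) + 1) * ((e : ℝ) + 1 + 2 * (k + 1)) := by
      push_cast
      rw [abs_of_nonpos (by nlinarith [Nat.cast_nonneg (α := ℝ) k, Nat.cast_nonneg (α := ℝ) e])]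
      ring
    rw [h2]
    have h3 : (e + 1 + 2 * (k + 1)) = (e + 2 * (k + 1)) + 1 := by ring
    rw [h3, Nat.factorial_succ e, Nat.factorial_succ (e + 2 * (k + 1))]
    push_cast
    calc _ = ((e : ℝ) + 1) * ((e : ℝ) + 1 + 2 * (k + 1)) * (2 * ((k : ℝ) + 1) ^ 2 *
        ∏ i ∈ (range (k + 1 + e)).erase k, |((k : ℝ) + 1) ^ 2 - ((i : ℝ) + 1) ^ 2|) := by ring
      _ = _ := by rw [ih]; ring

lemma fact_sq_le (e K : ℕ) : (e + K).factorial * (e + K).factorial ≤
    e.factorial * (e + 2 * K).factorial := by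
  have h1 : e.factorial * (e + K).descFactorial K = (e + K).factorial := by
    have := Nat.factorial_mul_descFactorial (n := e + K) (k := K) (by omega)
    rwa [Nat.add_sub_cancel] at this
  have h2 : (e + K).factorial * (e + K + 1).ascFactorial K = (e + 2 * K).factorial := by
    have := Nat.factorial_mul_ascFactorial (e + K) K
    rw [this]
    congr 1
    ring
  have h3 : (e + K).descFactorial K ≤ (e + K + 1).ascFactorial K :=
    (Nat.descFactorial_le_pow _ _).trans
      ((Nat.pow_le_pow_left (by omega) K).trans (Nat.pow_succ_le_ascFactorial _ _))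
  calc (e + K).factorial * (e + K).factorial
      = e.factorial * (e + K).descFactorial K * (e + K).factorial := by rw [h1]
    _ ≤ e.factorial * (e + K + 1).ascFactorial K * (e + K).factorial := by gcongr
    _ = e.factorial * ((e + K).factorial * (e + K + 1).ascFactorial K) := by ring
    _ = _ := by rw [h2]

lemma prod_ratio {d k : ℕ} (hk : k < d) : ∏ i ∈ (range d).erase k, ((i : ℝ) + 1) ^ 2 ≤
    2 * ∏ i ∈ (range d).erase k, |((k : ℝ) + 1) ^ 2 - ((i : ℝ) + 1) ^ 2| := by
  obtain ⟨e, rfl⟩ : ∃ e, d = k + 1 + e := ⟨d - (k + 1), by omega⟩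
  have h1 := prod_abs k e
  have h2 : ((k : ℝ) + 1) ^ 2 * ∏ i ∈ (range (k + 1 + e)).erase k, ((i : ℝ) + 1) ^ 2 =
      ((k + 1 + e).factorial : ℝ) * ((k + 1 + e).factorial : ℝ) := by
    rw [mul_prod_erase (range (k + 1 + e)) (fun i : ℕ => ((i : ℝ) + 1) ^ 2) (by simp; omega),
      ← prod_range_add_one_eq_factorial]
    push_cast
    rw [← prod_mul_distrib]
    refine prod_congr rfl fun i _ => by ring
  have h3 : ((k + 1 + e).factorial : ℝ) * ((k + 1 + e).factorial : ℝ) ≤
      (e.factorial : ℝ) * ((e + 2 * (k + 1)).factorial : ℝ) := by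
    have := fact_sq_le e (k + 1)
    rw [show e + (k + 1) = k + 1 + e by ring] at this
    exact_mod_cast this
  rw [← h1, ← h2] at h3
  have hK : (0 : ℝ) < ((k : ℝ) + 1) ^ 2 := by positivity
  have h4 : ((k : ℝ) + 1) ^ 2 * ∏ i ∈ (range (k + 1 + e)).erase k, ((i : ℝ) + 1) ^ 2 ≤
      ((k : ℝ) + 1) ^ 2 * (2 *
        ∏ i ∈ (range (k + 1 + e)).erase k, |((k : ℝ) + 1) ^ 2 - ((i : ℝ) + 1) ^ 2|) := by
    linarith
  exact le_of_mul_le_mul_left h4 hK

lemma psi_big {d k : ℕ} (hk : k < d) : psi d (big k) ≤ 1 / (512 * ((k : ℝ) + 1) ^ 2) * psi d 0 := by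
  refine (le_abs_self _).trans ?_
  rw [psi_zero]
  unfold psi nds
  have h0 : (insert 0 (insert 1 ((range d).image big))).erase (big k) =
      insert 0 (insert 1 (((range d).erase k).image big)) := by
    rw [erase_insert_of_ne (by have := two_le_big k; omega),
      erase_insert_of_ne (by have := two_le_big k; omega)]
    congr 2
    ext i
    simp only [mem_erase, mem_image, mem_range]
    constructor
    · rintro ⟨h1, j, hj, rfl⟩
      exact ⟨j, ⟨fun h => h1 (by rw [h]), hj⟩, rfl⟩
    · rintro ⟨j, ⟨h1, hj⟩, rfl⟩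
      exact ⟨fun h => h1 (big_inj h), j, hj, rfl⟩
  rw [h0, prod_insert (zero_notMem _), prod_insert (one_notMem _),
    prod_image (fun a _ b _ h => big_inj h), abs_div, abs_mul, abs_mul, abs_prod, abs_pow, abs_neg,
    abs_one, one_pow]
  have hb : (big k : ℝ) = 1025 * ((k : ℝ) + 1) ^ 2 := by unfold big; push_cast; ring
  have h1 : ∀ i ∈ (range d).erase k, |(big k : ℝ) - (big i : ℝ)| =
      1025 * |((k : ℝ) + 1) ^ 2 - ((i : ℝ) + 1) ^ 2| := by
    intro i _
    unfold big
    push_cast
    rw [← abs_of_pos (show (0 : ℝ) < 1025 by norm_num), ← abs_mul]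
    rw [abs_of_pos (show (0 : ℝ) < 1025 by norm_num)]
    congr 1
    ring
  rw [prod_congr rfl h1, prod_mul_distrib, prod_const]
  have h2 : ∏ i ∈ range d, (big i : ℝ) = 1025 * ((k : ℝ) + 1) ^ 2 *
      (1025 ^ ((range d).erase k).card * ∏ i ∈ (range d).erase k, ((i : ℝ) + 1) ^ 2) := by
    rw [← mul_prod_erase (range d) (fun i : ℕ => (big i : ℝ)) (mem_range.mpr hk), hb]
    congr 1
    rw [← prod_const, ← prod_mul_distrib]
    refine prod_congr rfl fun i _ => ?_
    unfold big; push_cast; ring
  rw [h2]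
  set C : ℝ := 1025 ^ ((range d).erase k).card
  set A := ∏ i ∈ (range d).erase k, ((i : ℝ) + 1) ^ 2
  set B := ∏ i ∈ (range d).erase k, |((k : ℝ) + 1) ^ 2 - ((i : ℝ) + 1) ^ 2|
  have hAB : A ≤ 2 * B := prod_ratio hk
  have hA : 0 < A := prod_pos fun i _ => by positivity
  have hC : 0 < C := by positivity
  have hB : 0 < B := by linarith
  have hK : (1 : ℝ) ≤ ((k : ℝ) + 1) ^ 2 := by nlinarith [Nat.cast_nonneg (α := ℝ) k]
  push_cast
  rw [hb, abs_of_pos (by linarith), abs_of_pos (by linarith), sub_zero]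
  rw [div_mul_div_comm, one_mul]
  rw [div_le_div_iff₀ (by
    have : 0 < 1025 * ((k : ℝ) + 1) ^ 2 - 1 := by linarith
    positivity) (by positivity)]
  have h5 : 512 * ((k : ℝ) + 1) ^ 2 * (1025 * ((k : ℝ) + 1) ^ 2 * (C * A)) ≤
      512 * ((k : ℝ) + 1) ^ 2 * (1025 * ((k : ℝ) + 1) ^ 2 * (C * (2 * B))) := by gcongr
  have h6 : 512 * ((k : ℝ) + 1) ^ 2 * 2 ≤ 1025 * ((k : ℝ) + 1) ^ 2 - 1 := by linarith
  calc _ = 512 * ((k : ℝ) + 1) ^ 2 * (1025 * ((k : ℝ) + 1) ^ 2 * (C * A)) := by ring
    _ ≤ _ := h5
    _ = (512 * ((k : ℝ) + 1) ^ 2 * 2) * (1025 * ((k : ℝ) + 1) ^ 2 * (C * B)) := by ring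
    _ ≤ (1025 * ((k : ℝ) + 1) ^ 2 - 1) * (1025 * ((k : ℝ) + 1) ^ 2 * (C * B)) := by gcongr
    _ = _ := by ring

lemma sum_inv_sq (d : ℕ) : ∑ k ∈ range d, 1 / (((k : ℝ) + 1) ^ 2) ≤ 2 := by
  have key : ∀ e : ℕ, ∑ k ∈ range (e + 1), 1 / (((k : ℝ) + 1) ^ 2) ≤ 2 - 1 / ((e : ℝ) + 1) := by
    intro e
    induction e with
    | zero => norm_num
    | succ e ih =>
      rw [sum_range_succ]
      have h : (1 : ℝ) / (((e + 1 : ℕ) : ℝ) + 1) ^ 2 ≤ 1 / ((e : ℝ) + 1) - 1 / (((e + 1 : ℕ) : ℝ) + 1) := by
        push_cast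
        rw [div_sub_div _ _ (by positivity) (by positivity),
          div_le_div_iff₀ (by positivity) (by positivity)]
        nlinarith [Nat.cast_nonneg (α := ℝ) e]
      linarith
  rcases d with _ | e
  · norm_num
  · have := key e
    have h : (0 : ℝ) ≤ 1 / ((e : ℝ) + 1) := by positivity
    linarith

/-- Total positive mass. -/
noncomputable def Zp (d : ℕ) : ℝ := ∑ t ∈ nds d, max (psi d t) 0

lemma Zp_eq (d : ℕ) : ∑ t ∈ nds d, max (-psi d t) 0 = Zp d := by
  have h1 := psi_orth d 1 (by simp)
  simp only [Polynomial.eval_one, one_mul] at h1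
  have h2 : ∀ t, psi d t = max (psi d t) 0 - max (-psi d t) 0 := by
    intro t
    rcases le_total (psi d t) 0 with h | h
    · rw [max_eq_right h, max_eq_left (by linarith)]; ring
    · rw [max_eq_left h, max_eq_right (by linarith)]; ring
  rw [sum_congr rfl fun t _ => h2 t, sum_sub_distrib] at h1
  unfold Zp
  linarith

lemma psi_le_Zp (d : ℕ) : psi d 0 ≤ Zp d := by
  unfold Zp
  calc psi d 0 ≤ max (psi d 0) 0 := le_max_left _ _
    _ ≤ _ := single_le_sum (f := fun t => max (psi d t) 0) (fun t _ => le_max_right _ _)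
        (by unfold nds; simp)

lemma Zp_pos (d : ℕ) : 0 < Zp d := (psi_zero_pos d).trans_le (psi_le_Zp d)

/-- The mass of the nonzero nodes is small. -/
lemma small_mass (d : ℕ) : ∑ t ∈ (nds d).erase 0, max (psi d t) 0 ≤ 1 / 256 * Zp d := by
  unfold nds
  rw [erase_insert (zero_notMem _), sum_insert (one_notMem _), max_eq_right (psi_one_neg d).le,
    zero_add, sum_image (fun a _ b _ h => big_inj h)]
  have h1 : ∀ k ∈ range d, max (psi d (big k)) 0 ≤ 1 / 512 * psi d 0 * (1 / (((k : ℝ) + 1) ^ 2)) := by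
    intro k hk
    apply max_le
    · refine (psi_big (mem_range.mp hk)).trans (le_of_eq ?_)
      field_simp
    · have := psi_zero_pos d
      positivity
  calc _ ≤ ∑ k ∈ range d, 1 / 512 * psi d 0 * (1 / (((k : ℝ) + 1) ^ 2)) := sum_le_sum h1
    _ = 1 / 512 * psi d 0 * ∑ k ∈ range d, (1 / (((k : ℝ) + 1) ^ 2)) := by rw [mul_sum]
    _ ≤ 1 / 512 * psi d 0 * 2 := by
        have := psi_zero_pos d
        exact mul_le_mul_of_nonneg_left (sum_inv_sq d) (by positivity)
    _ = 1 / 256 * psi d 0 := by ring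
    _ ≤ _ := by have := psi_le_Zp d; linarith

/-! ### Symmetrization -/

variable {m : ℕ}

/-- The weight of a set, given by weights of the nodes. -/
noncomputable def wt (d : ℕ) (g : ℕ → ℝ) (T : Finset (Fin m)) : ℝ :=
  if T.card ∈ nds d then g T.card / m.choose T.card else 0

lemma card_trace {R A : Finset (Fin m)} (hA : A ⊆ R) (t : ℕ) (ht : A.card ≤ t) :
    (univ.filter fun T : Finset (Fin m) => T.card = t ∧ T ∩ R = A).card =
      (m - R.card).choose (t - A.card) := by
  have h1 : (powersetCard (t - A.card) (univ \ R : Finset (Fin m))).card =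
      (m - R.card).choose (t - A.card) := by
    rw [card_powersetCard, card_sdiff_of_subset (subset_univ R), card_univ, Fintype.card_fin]
  rw [← h1]
  refine card_nbij' (fun T => T \ R) (fun T => T ∪ A) ?_ ?_ ?_ ?_
  · intro T hT
    simp only [coe_filter, mem_univ, true_and, Set.mem_ofPred_eq] at hT
    simp only [mem_coe, mem_powersetCard]
    refine ⟨sdiff_subset_sdiff (subset_univ _) (subset_refl _), ?_⟩
    rw [← hT.1, ← hT.2]
    have := card_sdiff_add_card_inter T R
    omega
  · intro T hT
    simp only [mem_coe, mem_powersetCard] at hT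
    simp only [coe_filter, mem_univ, true_and, Set.mem_ofPred_eq]
    have hTR : Disjoint T R := by
      rw [disjoint_left]
      intro x hx hxR
      have := hT.1 hx
      simp [hxR] at this
    constructor
    · rw [card_union_of_disjoint (hTR.mono_right hA), hT.2]
      omega
    · rw [union_inter_distrib_right, disjoint_iff_inter_eq_empty.mp hTR, empty_union,
        inter_eq_left.mpr hA]
  · intro T hT
    simp only [coe_filter, mem_univ, true_and, Set.mem_ofPred_eq] at hT
    simp only
    rw [← hT.2]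
    exact sdiff_union_inter T R
  · intro T hT
    simp only [mem_coe, mem_powersetCard] at hT
    have hTR : Disjoint T R := by
      rw [disjoint_left]
      intro x hx hxR
      have := hT.1 hx
      simp [hxR] at this
    simp only
    rw [union_sdiff_distrib, sdiff_eq_empty_iff_subset.mpr hA, union_empty,
      sdiff_eq_self_of_disjoint hTR]

lemma choose_identity {a b t : ℕ} (hm : a + b ≤ m) (ht : t ≤ m) (hat : a ≤ t) :
    (m - (a + b)).choose (t - a) * m.descFactorial (a + b) =
      m.choose t * (t.descFactorial a * (m - t).descFactorial b) := by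
  by_cases hb : b ≤ m - t
  · have e1 := Nat.choose_mul_factorial_mul_factorial (n := m - (a + b)) (k := t - a) (by omega)
    have e2 := Nat.factorial_mul_descFactorial (n := m) (k := a + b) hm
    have e3 := Nat.choose_mul_factorial_mul_factorial (n := m) (k := t) ht
    have e4 := Nat.factorial_mul_descFactorial (n := t) (k := a) hat
    have e5 := Nat.factorial_mul_descFactorial (n := m - t) (k := b) hb
    have e6 : m - (a + b) - (t - a) = m - t - b := by omega
    rw [e6] at e1
    have hpos : 0 < (t - a).factorial * (m - t - b).factorial := by positivity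
    apply Nat.eq_of_mul_eq_mul_right hpos
    calc _ = (m - (a + b)).choose (t - a) * (t - a).factorial * (m - t - b).factorial *
          m.descFactorial (a + b) := by ring
      _ = m.factorial := by rw [e1, e2]
      _ = m.choose t * ((t - a).factorial * t.descFactorial a) *
          ((m - t - b).factorial * (m - t).descFactorial b) := by rw [e4, e5, e3]
      _ = _ := by ring
  · rw [Nat.choose_eq_zero_of_lt (by omega), Nat.descFactorial_of_lt (show m - t < b by omega)]
    ring

lemma sum_trace (d : ℕ) (g : ℕ → ℝ) {R A : Finset (Fin m)} (hA : A ⊆ R)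
    (hm : ∀ t ∈ nds d, t ≤ m) :
    (∑ T ∈ univ.filter (fun T : Finset (Fin m) => T ∩ R = A), wt d g T) * m.descFactorial R.card =
      ∑ t ∈ nds d, g t * ((t.descFactorial A.card : ℝ) *
        ((m - t).descFactorial (R.card - A.card) : ℝ)) := by
  have hRm : R.card ≤ m := by simpa using card_le_univ R
  have hAR := card_le_card hA
  have h1 : ∑ T ∈ univ.filter (fun T : Finset (Fin m) => T ∩ R = A), wt d g T =
      ∑ t ∈ nds d, ((univ.filter fun T : Finset (Fin m) => T.card = t ∧ T ∩ R = A).card : ℝ) *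
        (g t / m.choose t) := by
    unfold wt
    rw [← sum_filter, filter_filter]
    rw [← sum_fiberwise_of_maps_to (s := univ.filter fun T : Finset (Fin m) => T ∩ R = A ∧
      T.card ∈ nds d) (t := nds d) (g := card) (by
        intro T hT
        simp only [mem_filter] at hT
        exact hT.2.2)]
    refine sum_congr rfl fun t ht => ?_
    rw [filter_filter]
    have h2 : (univ.filter fun T : Finset (Fin m) => (T ∩ R = A ∧ T.card ∈ nds d) ∧ T.card = t) =
        univ.filter fun T : Finset (Fin m) => T.card = t ∧ T ∩ R = A := by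
      ext T
      simp only [mem_filter, mem_univ, true_and]
      constructor
      · rintro ⟨⟨h1, h2⟩, h3⟩; exact ⟨h3, h1⟩
      · rintro ⟨h1, h2⟩; exact ⟨⟨h2, by rw [h1]; exact ht⟩, h1⟩
    rw [h2, ← nsmul_eq_mul, ← sum_const]
    refine sum_congr rfl fun T hT => ?_
    simp only [mem_filter, mem_univ, true_and] at hT
    rw [hT.1]
  rw [h1, sum_mul]
  refine sum_congr rfl fun t ht => ?_
  have htm := hm t ht
  have hch : (0 : ℝ) < m.choose t := by exact_mod_cast Nat.choose_pos htm
  by_cases hat : A.card ≤ t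
  · rw [card_trace hA t hat]
    have h3 := choose_identity (m := m) (a := A.card) (b := R.card - A.card) (t := t) (by omega)
      htm hat
    rw [show A.card + (R.card - A.card) = R.card by omega] at h3
    have h4 : ((m - R.card).choose (t - A.card) : ℝ) * m.descFactorial R.card =
        m.choose t * (t.descFactorial A.card * (m - t).descFactorial (R.card - A.card)) := by
      exact_mod_cast h3
    calc _ = ((m - R.card).choose (t - A.card) : ℝ) * m.descFactorial R.card *
          (g t / m.choose t) := by ring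
      _ = _ := by rw [h4]; field_simp
  · have h5 : (univ.filter fun T : Finset (Fin m) => T.card = t ∧ T ∩ R = A) = ∅ := by
      rw [filter_eq_empty_iff]
      rintro T _ ⟨h6, h7⟩
      have : A.card ≤ T.card := by rw [← h7]; exact card_le_card inter_subset_left
      omega
    rw [h5, card_empty, Nat.descFactorial_of_lt (show t < A.card by omega)]
    push_cast
    ring

/-- The distribution which is usually empty. -/
noncomputable def w0 (d : ℕ) (T : Finset (Fin m)) : ℝ := wt d (fun t => max (psi d t) 0 / Zp d) T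

/-- The distribution which is never empty. -/
noncomputable def w1 (d : ℕ) (T : Finset (Fin m)) : ℝ := wt d (fun t => max (-psi d t) 0 / Zp d) T

lemma wt_nonneg {d : ℕ} {g : ℕ → ℝ} (hg : ∀ t, 0 ≤ g t) (T : Finset (Fin m)) : 0 ≤ wt d g T := by
  unfold wt
  split_ifs
  · exact div_nonneg (hg _) (by positivity)
  · exact le_rfl

lemma w0_nonneg (d : ℕ) (T : Finset (Fin m)) : 0 ≤ w0 d T :=
  wt_nonneg (fun _ => div_nonneg (le_max_right _ _) (Zp_pos d).le) T

lemma w1_nonneg (d : ℕ) (T : Finset (Fin m)) : 0 ≤ w1 d T :=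
  wt_nonneg (fun _ => div_nonneg (le_max_right _ _) (Zp_pos d).le) T

lemma sum_wt {d : ℕ} (g : ℕ → ℝ) (hm : ∀ t ∈ nds d, t ≤ m) :
    ∑ T : Finset (Fin m), wt d g T = ∑ t ∈ nds d, g t := by
  have h := sum_trace (m := m) d g (R := ∅) (A := ∅) (subset_refl _) hm
  simpa using h

lemma sum_w0 {d : ℕ} (hm : ∀ t ∈ nds d, t ≤ m) : ∑ T : Finset (Fin m), w0 d T = 1 := by
  unfold w0
  rw [sum_wt _ hm, ← sum_div]
  exact div_self (Zp_pos d).ne'

lemma sum_w1 {d : ℕ} (hm : ∀ t ∈ nds d, t ≤ m) : ∑ T : Finset (Fin m), w1 d T = 1 := by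
  unfold w1
  rw [sum_wt _ hm, ← sum_div, Zp_eq]
  exact div_self (Zp_pos d).ne'

lemma w1_empty (d : ℕ) : w1 d (∅ : Finset (Fin m)) = 0 := by
  unfold w1 wt
  simp only [card_empty]
  rw [max_eq_right (by have := psi_zero_pos d; linarith)]
  simp

lemma sum_w0_ne {d : ℕ} (hm : ∀ t ∈ nds d, t ≤ m) :
    ∑ T ∈ univ.erase (∅ : Finset (Fin m)), w0 d T ≤ 1 / 256 := by
  have h1 := sum_w0 (m := m) hm
  rw [← add_sum_erase univ _ (mem_univ (∅ : Finset (Fin m)))] at h1
  have h2 : w0 d (∅ : Finset (Fin m)) = max (psi d 0) 0 / Zp d := by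
    unfold w0 wt
    rw [card_empty, if_pos (by unfold nds; simp)]
    simp
  have h3 : max (psi d 0) 0 + ∑ t ∈ (nds d).erase 0, max (psi d t) 0 = Zp d := by
    unfold Zp
    exact add_sum_erase (nds d) (fun t => max (psi d t) 0) (by unfold nds; simp)
  have h4 := small_mass d
  have h5 := Zp_pos d
  have h6 : 255 / 256 ≤ max (psi d 0) 0 / Zp d := by
    rw [le_div_iff₀ h5]
    linarith
  rw [h2] at h1
  linarith

/-- The two distributions agree on the traces on small sets. -/
theorem trace_eq {d : ℕ} (hm : ∀ t ∈ nds d, t ≤ m) {R A : Finset (Fin m)} (hR : R.card ≤ d) :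
    ∑ T ∈ univ.filter (fun T : Finset (Fin m) => T ∩ R = A), w1 d T =
      ∑ T ∈ univ.filter (fun T : Finset (Fin m) => T ∩ R = A), w0 d T := by
  by_cases hA : A ⊆ R
  · have hRm : R.card ≤ m := by simpa using card_le_univ R
    have hpos : (0 : ℝ) < m.descFactorial R.card := by
      exact_mod_cast Nat.descFactorial_pos.mpr hRm
    have h1 := sum_trace (m := m) d (fun t => max (-psi d t) 0 / Zp d) hA hm
    have h0 := sum_trace (m := m) d (fun t => max (psi d t) 0 / Zp d) hA hm
    have hP := psi_orth d ((descPochhammer ℝ A.card) *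
      ((descPochhammer ℝ (R.card - A.card)).comp (Polynomial.C (m : ℝ) - Polynomial.X))) (by
        refine Polynomial.natDegree_mul_le.trans ?_
        rw [descPochhammer_natDegree]
        have h2 : ((descPochhammer ℝ (R.card - A.card)).comp
            (Polynomial.C (m : ℝ) - Polynomial.X)).natDegree ≤ R.card - A.card := by
          refine Polynomial.natDegree_comp_le.trans ?_
          rw [descPochhammer_natDegree]
          have h3 : (Polynomial.C (m : ℝ) - Polynomial.X : Polynomial ℝ).natDegree ≤ 1 := by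
            refine (Polynomial.natDegree_sub_le _ _).trans ?_
            simp
          calc _ ≤ (R.card - A.card) * 1 := Nat.mul_le_mul_left _ h3
            _ = _ := by ring
        have := card_le_card hA
        omega)
    have hev : ∀ t ∈ nds d, ((descPochhammer ℝ A.card) *
      ((descPochhammer ℝ (R.card - A.card)).comp (Polynomial.C (m : ℝ) - Polynomial.X))).eval
        (t : ℝ) = (t.descFactorial A.card : ℝ) * ((m - t).descFactorial (R.card - A.card) : ℝ) := by
      intro t ht
      rw [Polynomial.eval_mul, Polynomial.eval_comp, descPochhammer_eval_eq_descFactorial]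
      simp only [Polynomial.eval_sub, Polynomial.eval_C, Polynomial.eval_X]
      rw [← Nat.cast_sub (hm t ht), descPochhammer_eval_eq_descFactorial]
    have hkey : (∑ T ∈ univ.filter (fun T : Finset (Fin m) => T ∩ R = A), w1 d T) *
        m.descFactorial R.card =
        (∑ T ∈ univ.filter (fun T : Finset (Fin m) => T ∩ R = A), w0 d T) *
        m.descFactorial R.card := by
      unfold w0 w1
      rw [h1, h0, ← sub_eq_zero, ← sum_sub_distrib]
      rw [← neg_eq_zero, ← sum_neg_distrib]
      have h4 : ∑ t ∈ nds d, ((descPochhammer ℝ A.card) *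
        ((descPochhammer ℝ (R.card - A.card)).comp (Polynomial.C (m : ℝ) - Polynomial.X))).eval
          (t : ℝ) * psi d t / Zp d = 0 := by
        rw [← sum_div, hP, zero_div]
      refine Eq.trans (sum_congr rfl fun t ht => ?_) h4
      rw [hev t ht]
      rcases le_total (psi d t) 0 with h | h
      · rw [max_eq_right h, max_eq_left (by linarith)]; ring
      · rw [max_eq_left h, max_eq_right (by linarith)]; ring
    exact mul_right_cancel₀ hpos.ne' hkey
  · have : (univ.filter fun T : Finset (Fin m) => T ∩ R = A) = ∅ := by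
      rw [filter_eq_empty_iff]
      rintro T _ rfl
      exact hA inter_subset_right
    rw [this]
    simp

end Pool.Agent.Lib.MP_ff3ed7_lc
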