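import Pool.Agent.Lib.MP_ff3ed7_lc.Gap

/-! The Arthur-Merlin protocol for the total function. -/

open Finset

namespace Pool.Agent.Lib.MP_ff3ed7_lc

variable {P X Q : Type} {μ : ℕ}

/-- Read the sum of a list of cells. -/
def DTree.readSum {ι : Type} : List ι → (ZMod 2 → DTree ι (ZMod 2)) → DTree ι (ZMod 2)
  | [], k => k 0
  | i :: l, k => .node i fun s => readSum l fun t => k (s + t)

lemma DTree.eval_readSum {ι : Type} (l : List ι) (k : ZMod 2 → DTree ι (ZMod 2))
    (x : ι → ZMod 2) : (readSum l k).eval x = (k (l.map x).sum).eval x := by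
  induction l generalizing k with
  | nil => rfl
  | cons i l ih => simp [readSum, ih]

lemma DTree.depthLE_readSum {ι : Type} {l : List ι} {k : ZMod 2 → DTree ι (ZMod 2)} {d : ℕ}
    (h : ∀ s, (k s).DepthLE d) : (readSum l k).DepthLE (l.length + d) := by
  induction l generalizing k with
  | nil => simpa [readSum] using h 0
  | cons i l ih =>
    simp only [readSum, List.length_cons]
    rw [show l.length + 1 + d = (l.length + d) + 1 by omega, depthLE_node]
    exact fun s => ih fun t => h _

/-- Read share `i` of an affine form. -/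
def Aff.rd (a : Aff X) (i : Fin (μ + 1)) (k : ZMod 2 → DTree (TCell P X Q μ) (ZMod 2)) :
    DTree (TCell P X Q μ) (ZMod 2) :=
  DTree.readSum (a.vars.map fun x => .sh x i) fun t => k ((if i = 0 then a.c else 0) + t)

lemma Aff.eval_rd (a : Aff X) (i : Fin (μ + 1)) (k : ZMod 2 → DTree (TCell P X Q μ) (ZMod 2))
    (y : TCell P X Q μ → ZMod 2) :
    (a.rd i k).eval y = (k (a.sh (fun x i => y (.sh x i)) i)).eval y := by
  unfold Aff.rd
  rw [DTree.eval_readSum]
  congr 2
  unfold Aff.sh Aff.lin
  rw [List.map_map]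
  rfl

lemma Aff.depthLE_rd {a : Aff X} {i : Fin (μ + 1)} {k : ZMod 2 → DTree (TCell P X Q μ) (ZMod 2)}
    {d e : ℕ} (ha : a.vars.length ≤ 2) (h : ∀ s, (k s).DepthLE d) (he : 2 + d ≤ e) :
    (a.rd i k).DepthLE e := by
  unfold Aff.rd
  refine (DTree.depthLE_readSum fun s => h _).mono ?_
  rw [List.length_map]; omega

/-- Local defects. -/
inductive Defect (P Q : Type) (μ : ℕ) : Type
  | ch0 (p : P) : Defect P Q μ
  | chS (p : P) (i : Fin (μ + 1)) : Defect P Q μ
  | chE (p : P) : Defect P Q μ
  | W (q : Q) (i j : Fin (μ + 1)) : Defect P Q μ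
  | Wd (q : Q) (i : Fin (μ + 1)) : Defect P Q μ
  | D0 (q : Q) (i : Fin (μ + 1)) : Defect P Q μ
  | DS (q : Q) (i j : Fin (μ + 1)) : Defect P Q μ
  | E0 (q : Q) : Defect P Q μ
  | ES (q : Q) (i : Fin (μ + 1)) : Defect P Q μ
  | EE (q : Q) : Defect P Q μ

/-- Test for a local defect. -/
def Defect.check (S : Sys P X Q) : Defect P Q μ → DTree (TCell P X Q μ) (ZMod 2)
  | .ch0 p => .node (.ch p 0) fun a => .leaf (decide (a ≠ 0))
  | .chS p i => .node (.ch p i.succ) fun a => .node (.ch p i.castSucc) fun b =>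
      .node (.sh (S.pv p) i) fun c => .leaf (decide (a ≠ b + c))
  | .chE p => .node (.ch p (Fin.last _)) fun a => .node (.pub p) fun b => .leaf (decide (a ≠ b))
  | .W q i j => .node (.W q i j) fun w => .node (.W q j i) fun w' =>
      (S.eqn q).A.rd i fun a => (S.eqn q).B.rd j fun b =>
      (S.eqn q).A.rd j fun a' => (S.eqn q).B.rd i fun b' =>
      .leaf (decide (i ≠ j ∧ w + w' ≠ a * b + a' * b'))
  | .Wd q i => .node (.W q i i) fun w =>
      (S.eqn q).A.rd i fun a => (S.eqn q).B.rd i fun b => (S.eqn q).C.rd i fun c =>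
      .leaf (decide (w ≠ a * b + c))
  | .D0 q i => .node (.D q i 0) fun a => .leaf (decide (a ≠ 0))
  | .DS q i j => .node (.D q i j.succ) fun a => .node (.D q i j.castSucc) fun b =>
      .node (.W q i j) fun c => .leaf (decide (a ≠ b + c))
  | .E0 q => .node (.E q 0) fun a => .leaf (decide (a ≠ 0))
  | .ES q i => .node (.E q i.succ) fun a => .node (.E q i.castSucc) fun b =>
      .node (.D q i (Fin.last _)) fun c => .leaf (decide (a ≠ b + c))
  | .EE q => .node (.E q (Fin.last _)) fun a => .leaf (decide (a ≠ 0))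

lemma Defect.depth_check (S : Sys P X Q) (hS : ∀ q, (S.eqn q).A.vars.length ≤ 2 ∧
    (S.eqn q).B.vars.length ≤ 2 ∧ (S.eqn q).C.vars.length ≤ 2) (d : Defect P Q μ) :
    (d.check S).DepthLE 10 := by
  have leafD : ∀ (b : Bool) (e : ℕ), (DTree.leaf b : DTree (TCell P X Q μ) (ZMod 2)).DepthLE e :=
    fun _ _ => trivial
  cases d with
  | ch0 p => exact ⟨by norm_num, fun _ => leafD _ _⟩
  | chS p i => exact ⟨by norm_num, fun _ => ⟨by norm_num, fun _ => ⟨by norm_num, fun _ => leafD _ _⟩⟩⟩
  | chE p => exact ⟨by norm_num, fun _ => ⟨by norm_num, fun _ => leafD _ _⟩⟩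
  | W q i j =>
    refine ⟨by norm_num, fun _ => ⟨by norm_num, fun _ => ?_⟩⟩
    refine Aff.depthLE_rd (hS q).1 (fun _ => Aff.depthLE_rd (hS q).2.1 (fun _ =>
      Aff.depthLE_rd (hS q).1 (fun _ => Aff.depthLE_rd (hS q).2.1 (fun _ => leafD _ 0)
        (le_refl 2)) (le_refl 4)) (le_refl 6)) (by norm_num)
  | Wd q i =>
    refine ⟨by norm_num, fun _ => ?_⟩
    refine Aff.depthLE_rd (hS q).1 (fun _ => Aff.depthLE_rd (hS q).2.1 (fun _ =>
      Aff.depthLE_rd (hS q).2.2 (fun _ => leafD _ 0) (le_refl 2)) (le_refl 4)) (by norm_num)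
  | D0 q i => exact ⟨by norm_num, fun _ => leafD _ _⟩
  | DS q i j => exact ⟨by norm_num, fun _ => ⟨by norm_num, fun _ => ⟨by norm_num, fun _ => leafD _ _⟩⟩⟩
  | E0 q => exact ⟨by norm_num, fun _ => leafD _ _⟩
  | ES q i => exact ⟨by norm_num, fun _ => ⟨by norm_num, fun _ => ⟨by norm_num, fun _ => leafD _ _⟩⟩⟩
  | EE q => exact ⟨by norm_num, fun _ => leafD _ _⟩

lemma valid_iff (S : Sys P X Q) (a : TCell P X Q μ → ZMod 2) :
    Valid S a ↔ ∀ d : Defect P Q μ, (d.check S).eval a = false := by
  constructor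
  · intro h d
    cases d with
    | ch0 p => simp [Defect.check, h.ch0 p]
    | chS p i => simp [Defect.check, h.chS p i]
    | chE p => simp [Defect.check, h.chE p]
    | W q i j =>
      by_cases hij : i = j
      · simp [Defect.check, Aff.eval_rd, hij]
      · simp [Defect.check, Aff.eval_rd, h.W q i j hij]
    | Wd q i => simp [Defect.check, Aff.eval_rd, h.Wd q i]
    | D0 q i => simp [Defect.check, h.D0 q i]
    | DS q i j => simp [Defect.check, h.DS q i j]
    | E0 q => simp [Defect.check, h.E0 q]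
    | ES q i => simp [Defect.check, h.ES q i]
    | EE q => simp [Defect.check, h.EE q]
  · intro h
    constructor
    · intro p; simpa [Defect.check] using h (.ch0 p)
    · intro p i; simpa [Defect.check] using h (.chS p i)
    · intro p; simpa [Defect.check] using h (.chE p)
    · intro q i j hij
      have := h (.W q i j)
      simpa [Defect.check, Aff.eval_rd, hij] using this
    · intro q i
      have := h (.Wd q i)
      simpa [Defect.check, Aff.eval_rd] using this
    · intro q i; simpa [Defect.check] using h (.D0 q i)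
    · intro q i j; simpa [Defect.check] using h (.DS q i j)
    · intro q; simpa [Defect.check] using h (.E0 q)
    · intro q i; simpa [Defect.check] using h (.ES q i)
    · intro q; simpa [Defect.check] using h (.EE q)

variable {n m : ℕ}

/-- Arthur's test for the random block `v` and Merlin's reply. -/
def test2 (v : Fin (4 * n)) : Fin m ⊕ Defect (Fin (4 * n) × Fin m) (GQ n m) μ →
    DTree (GCell n m μ) (ZMod 2)
  | .inl j => .node (.pub (v, j)) fun a => .leaf (decide (a = 1))
  | .inr d => d.check (gapSys n m)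

lemma vars_le (q : GQ n m) : ((gapSys n m).eqn q).A.vars.length ≤ 2 ∧
    ((gapSys n m).eqn q).B.vars.length ≤ 2 ∧ ((gapSys n m).eqn q).C.vars.length ≤ 2 := by
  cases q with
  | c6 v w t =>
    by_cases h : v = w <;> simp [gapSys, h]
  | _ => simp [gapSys]

lemma depthLE_test2 (v : Fin (4 * n)) (c : Fin m ⊕ Defect (Fin (4 * n) × Fin m) (GQ n m) μ) :
    (test2 v c).DepthLE 10 := by
  cases c with
  | inl j => exact ⟨by norm_num, fun _ => trivial⟩
  | inr d => exact d.depth_check (gapSys n m) vars_le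

/-- The Arthur-Merlin protocol. -/
theorem am_upper2 {r p : ℕ} (hn : 1 ≤ n) (hr : 4 * n = 2 ^ r)
    [Fintype (Defect (Fin (4 * n) × Fin m) (GQ n m) μ)]
    (hp : Fintype.card (Fin m ⊕ Defect (Fin (4 * n) × Fin m) (GQ n m) μ) ≤ 2 ^ p) (hm : 0 < m) :
    HasAM (F2 (n := n) (m := m) (μ := μ)) r p 10 := by
  classical
  have c : (Fin r → Bool) ≃ Fin (4 * n) :=
    Fintype.equivFinOfCardEq (by simp [hr])
  have hne : Nonempty (Fin m ⊕ Defect (Fin (4 * n) × Fin m) (GQ n m) μ) := ⟨.inl ⟨0, hm⟩⟩
  obtain ⟨dec, hdec⟩ : ∃ dec : (Fin p → Bool) → Fin m ⊕ Defect (Fin (4 * n) × Fin m) (GQ n m) μ,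
      Function.Surjective dec := by
    have hle : Fintype.card (Fin m ⊕ Defect (Fin (4 * n) × Fin m) (GQ n m) μ) ≤
        Fintype.card (Fin p → Bool) := by simpa using hp
    obtain ⟨emb⟩ := Function.Embedding.nonempty_of_card_le hle
    exact ⟨Function.invFun emb, Function.invFun_surjective emb.injective⟩
  have hn' : (0 : ℝ) < 4 * n := by positivity
  refine ⟨fun y ρ => test2 (c ρ) (dec y), fun y ρ => depthLE_test2 _ _, fun x hx => ?_,
    fun x hx => ?_⟩
  · by_cases hbad : Valid (gapSys n m) x
    · have h0 : 3 * n ≤ (ones (pubs x)).card := by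
        rw [F2_eq_true] at hx
        have := dichotomy2 hbad
        rcases hx with hx | hx
        · exact absurd hbad hx
        · omega
      have h1 : prob r (fun ρ => c ρ ∈ ones (pubs x)) ≤
          prob r fun ρ => ∃ y, (test2 (c ρ) (dec y)).eval x = true := by
        apply prob_le_of
        intro ρ hρ
        simp only [ones, mem_filter, mem_univ, true_and] at hρ
        obtain ⟨j, hj⟩ := hρ
        obtain ⟨y, hy⟩ := hdec (.inl j)
        refine ⟨y, ?_⟩
        rw [hy]
        simpa [test2, pubs] using hj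
      rw [prob_coin hr] at h1
      refine le_trans ?_ h1
      rw [le_div_iff₀ hn']
      have : (3 * n : ℝ) ≤ (ones (pubs x)).card := by exact_mod_cast h0
      linarith
    · have h1 : prob r (fun ρ => c ρ ∈ (univ : Finset (Fin (4 * n)))) ≤
          prob r fun ρ => ∃ y, (test2 (c ρ) (dec y)).eval x = true := by
        apply prob_le_of
        intro ρ _
        rw [valid_iff] at hbad
        push Not at hbad
        obtain ⟨d, hd⟩ := hbad
        obtain ⟨y, hy⟩ := hdec (.inr d)
        refine ⟨y, ?_⟩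
        rw [hy]
        simpa [test2] using hd
      rw [prob_coin hr] at h1
      refine le_trans ?_ h1
      rw [card_univ, Fintype.card_fin, le_div_iff₀ hn']
      push_cast
      linarith
  · rw [F2_eq_false] at hx
    have h1 : prob r (fun ρ => ∃ y, (test2 (c ρ) (dec y)).eval x = true) ≤
        prob r (fun ρ => c ρ ∈ ones (pubs x)) := by
      apply prob_le_of
      rintro ρ ⟨y, hy⟩
      rcases hd : dec y with j | d
      · rw [hd] at hy
        simp only [ones, mem_filter, mem_univ, true_and]
        exact ⟨j, by simpa [test2, pubs] using hy⟩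
      · rw [hd] at hy
        have := (valid_iff _ _).mp hx.1 d
        simp only [test2] at hy
        rw [this] at hy
        exact absurd hy (by simp)
    rw [prob_coin hr] at h1
    refine h1.trans ?_
    rw [div_le_iff₀ hn']
    have : ((ones (pubs x)).card : ℝ) ≤ n := by exact_mod_cast hx.2
    linarith

end Pool.Agent.Lib.MP_ff3ed7_lc
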