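import Pool.Agent.Lib.MP_ff3ed7_lc.Dual
import Pool.Agent.Lib.MP_ff3ed7_lc.GapUpper

/-! Products of the two distributions, and trees with few queries. -/

open Finset

namespace Pool.Agent.Lib.MP_ff3ed7_lc

variable {n m d : ℕ}

/-- Product weights. -/
noncomputable def W0 (d : ℕ) (T : Fin (4 * n) → Finset (Fin m)) : ℝ := ∏ v, w0 d (T v)

/-- Product weights. -/
noncomputable def W1 (d : ℕ) (T : Fin (4 * n) → Finset (Fin m)) : ℝ := ∏ v, w1 d (T v)

lemma W0_nonneg (T : Fin (4 * n) → Finset (Fin m)) : 0 ≤ W0 d T := prod_nonneg fun _ _ => w0_nonneg _ _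

lemma W1_nonneg (T : Fin (4 * n) → Finset (Fin m)) : 0 ≤ W1 d T := prod_nonneg fun _ _ => w1_nonneg _ _

lemma sum_prod_fiber (w : Finset (Fin m) → ℝ) (R A : Fin (4 * n) → Finset (Fin m)) :
    ∑ T ∈ univ.filter (fun T : Fin (4 * n) → Finset (Fin m) => (fun v => T v ∩ R v) = A),
      ∏ v, w (T v) = ∏ v, ∑ T ∈ univ.filter (fun T : Finset (Fin m) => T ∩ R v = A v), w T := by
  rw [prod_univ_sum]
  refine sum_congr ?_ fun T _ => rfl
  ext T
  simp only [mem_filter, mem_univ, true_and, Fintype.mem_piFinset, funext_iff]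

lemma sum_W {w : Finset (Fin m) → ℝ} (h : ∑ T, w T = 1) :
    ∑ T : Fin (4 * n) → Finset (Fin m), ∏ v, w (T v) = 1 := by
  have := prod_univ_sum (fun _ : Fin (4 * n) => (univ : Finset (Finset (Fin m)))) (fun _ T => w T)
  rw [Fintype.piFinset_univ] at this
  rw [← this]
  simp [h]

/-- Functions of the traces on small sets have the same averages. -/
lemma junta (hm : ∀ t ∈ nds d, t ≤ m) (R : Fin (4 * n) → Finset (Fin m))
    (hR : ∀ v, (R v).card ≤ d) (φ : (Fin (4 * n) → Finset (Fin m)) → ℝ) :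
    ∑ T, W1 d T * φ (fun v => T v ∩ R v) = ∑ T, W0 d T * φ (fun v => T v ∩ R v) := by
  classical
  have key : ∀ w : Finset (Fin m) → ℝ, ∑ T : Fin (4 * n) → Finset (Fin m),
      (∏ v, w (T v)) * φ (fun v => T v ∩ R v) =
      ∑ A : Fin (4 * n) → Finset (Fin m), φ A *
        ∏ v, ∑ T ∈ univ.filter (fun T : Finset (Fin m) => T ∩ R v = A v), w T := by
    intro w
    rw [← sum_fiberwise_of_maps_to (s := (univ : Finset (Fin (4 * n) → Finset (Fin m))))
      (t := (univ : Finset (Fin (4 * n) → Finset (Fin m)))) (g := fun T v => T v ∩ R v)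
      (fun _ _ => mem_univ _)]
    refine sum_congr rfl fun A _ => ?_
    rw [← sum_prod_fiber, mul_sum]
    refine sum_congr rfl fun T hT => ?_
    simp only [mem_filter, mem_univ, true_and] at hT
    rw [hT]
    ring
  unfold W0 W1
  rw [key (w1 d), key (w0 d)]
  refine sum_congr rfl fun A _ => ?_
  congr 1
  refine prod_congr rfl fun v _ => ?_
  exact trace_eq hm (hR v)

/-- The nonempty blocks. -/
def ne (T : Fin (4 * n) → Finset (Fin m)) : Finset (Fin (4 * n)) := univ.filter fun v => T v ≠ ∅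

lemma W1_supp {T : Fin (4 * n) → Finset (Fin m)} (h : W1 d T ≠ 0) : (ne T).card = 4 * n := by
  have : ne T = univ := by
    unfold ne
    rw [filter_true_of_mem]
    intro v _ hv
    apply h
    unfold W1
    apply prod_eq_zero (mem_univ v)
    rw [hv, w1_empty]
  rw [this, card_univ, Fintype.card_fin]

/-- The tail bound. -/
lemma tail (hm : ∀ t ∈ nds d, t ≤ m) :
    ∑ T ∈ univ.filter (fun T : Fin (4 * n) → Finset (Fin m) => n < (ne T).card), W0 d T ≤
      (1 / 16) ^ n := by
  classical
  have h1 : ∀ T : Fin (4 * n) → Finset (Fin m), T ∈ univ.filter (fun T : Fin (4 * n) →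
      Finset (Fin m) => n < (ne T).card) →
      W0 d T ≤ (1 / 64) ^ n * ∏ v, (w0 d (T v) * if T v = ∅ then 1 else 64) := by
    intro T hT
    simp only [mem_filter, mem_univ, true_and] at hT
    rw [prod_mul_distrib]
    have h2 : ∏ v, (if T v = ∅ then (1 : ℝ) else 64) = 64 ^ (ne T).card := by
      rw [prod_ite, prod_const_one, one_mul, prod_const]
      rfl
    rw [h2]
    have h3 : (64 : ℝ) ^ n ≤ 64 ^ (ne T).card := pow_le_pow_right₀ (by norm_num) hT.le
    have h4 : (1 : ℝ) ≤ (1 / 64) ^ n * 64 ^ (ne T).card := by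
      calc (1 : ℝ) = (1 / 64) ^ n * 64 ^ n := by rw [← mul_pow]; norm_num
        _ ≤ _ := mul_le_mul_of_nonneg_left h3 (by positivity)
    have h5 := W0_nonneg (d := d) T
    calc W0 d T = W0 d T * 1 := by ring
      _ ≤ W0 d T * ((1 / 64) ^ n * 64 ^ (ne T).card) := mul_le_mul_of_nonneg_left h4 h5
      _ = _ := by unfold W0; ring
  have h6 : ∑ T : Finset (Fin m), (w0 d T * if T = ∅ then 1 else 64) ≤ 319 / 256 := by
    have h7 := sum_w0 (m := m) hm
    have h8 := sum_w0_ne (m := m) hm
    rw [← add_sum_erase univ _ (mem_univ (∅ : Finset (Fin m)))] at h7 ⊢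
    rw [if_pos rfl]
    have h9 : ∑ T ∈ univ.erase (∅ : Finset (Fin m)), (w0 d T * if T = ∅ then (1 : ℝ) else 64) =
        (∑ T ∈ univ.erase (∅ : Finset (Fin m)), w0 d T) * 64 := by
      rw [sum_mul]
      refine sum_congr rfl fun T hT => ?_
      rw [if_neg (ne_of_mem_erase hT)]
    rw [h9]
    linarith
  have h10 : (0 : ℝ) ≤ ∑ T : Finset (Fin m), (w0 d T * if T = ∅ then 1 else 64) :=
    sum_nonneg fun T _ => mul_nonneg (w0_nonneg d T) (by split_ifs <;> norm_num)
  calc _ ≤ ∑ T ∈ univ.filter (fun T : Fin (4 * n) → Finset (Fin m) => n < (ne T).card),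
        (1 / 64) ^ n * ∏ v, (w0 d (T v) * if T v = ∅ then 1 else 64) := sum_le_sum h1
    _ ≤ ∑ T : Fin (4 * n) → Finset (Fin m),
        (1 / 64) ^ n * ∏ v, (w0 d (T v) * if T v = ∅ then 1 else 64) := by
        apply sum_le_sum_of_subset_of_nonneg (filter_subset _ _)
        intro T _ _
        apply mul_nonneg (by positivity)
        exact prod_nonneg fun v _ => mul_nonneg (w0_nonneg d _) (by split_ifs <;> norm_num)
    _ = (1 / 64) ^ n * (∑ T : Finset (Fin m), (w0 d T * if T = ∅ then 1 else 64)) ^ (4 * n) := by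
        rw [← mul_sum]
        congr 1
        have := prod_univ_sum (fun _ : Fin (4 * n) => (univ : Finset (Finset (Fin m))))
          (fun _ T => (w0 d T * if T = ∅ then (1 : ℝ) else 64))
        rw [Fintype.piFinset_univ] at this
        rw [← this]
        simp
    _ ≤ (1 / 64) ^ n * (319 / 256) ^ (4 * n) := by gcongr
    _ = (1 / 64 * (319 / 256) ^ 4) ^ n := by rw [pow_mul, ← mul_pow]
    _ ≤ (1 / 16) ^ n := by
        apply pow_le_pow_left₀ (by positivity)
        norm_num

/-! ### The inputs -/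

/-- The public bits given by sets. -/
def bits (T : Fin (4 * n) → Finset (Fin m)) : Fin (4 * n) → Fin m → ZMod 2 :=
  fun v j => if j ∈ T v then 1 else 0

lemma ones_bits (T : Fin (4 * n) → Finset (Fin m)) : ones (bits T) = ne T := by
  ext v
  unfold ones ne
  rw [mem_filter, mem_filter, ← nonempty_iff_ne_empty]
  refine and_congr_right fun _ => ?_
  unfold bits
  constructor
  · rintro ⟨j, hj⟩
    exact ⟨j, by by_contra h; rw [if_neg h] at hj; exact zero_ne_one hj⟩
  · rintro ⟨j, hj⟩
    exact ⟨j, if_pos hj⟩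

/-- The domain of the gap problem. -/
def Dom (T : Fin (4 * n) → Finset (Fin m)) : Prop := (ne T).card ≤ n ∨ 3 * n ≤ (ne T).card

open Classical in
/-- A solution of the system. -/
noncomputable def sol (T : Fin (4 * n) → Finset (Fin m)) : GX n m → ZMod 2 :=
  if h : Dom T then (gap_complete (bits T) (by rw [ones_bits]; exact h)).choose else 0

lemma sol_sat {T : Fin (4 * n) → Finset (Fin m)} (h : Dom T) (q : GQ n m) :
    ((gapSys n m).eqn q).Sat (sol T) := by
  unfold sol
  rw [dif_pos h]
  exact (gap_complete (bits T) (by rw [ones_bits]; exact h)).choose_spec.1 q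

lemma sol_z {T : Fin (4 * n) → Finset (Fin m)} (h : Dom T) (v : Fin (4 * n)) (j : Fin m) :
    sol T (.z v j) = bits T v j := by
  unfold sol
  rw [dif_pos h]
  exact (gap_complete (bits T) (by rw [ones_bits]; exact h)).choose_spec.2 v j

variable {μ : ℕ}

/-- The input with randomness `ω`. -/
noncomputable def inp (T : Fin (4 * n) → Finset (Fin m)) (ω : Rnd (GX n m) (GQ n m) μ) :
    GCell n m μ → ZMod 2 := tab (gapSys n m) (sol T) ω

lemma pubs_inp {T : Fin (4 * n) → Finset (Fin m)} (h : Dom T) (ω : Rnd (GX n m) (GQ n m) μ) :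
    pubs (inp T ω) = bits T := by
  funext v j
  exact sol_z h v j

lemma F2_inp_true {T : Fin (4 * n) → Finset (Fin m)} (h : Dom T) (h2 : n < (ne T).card)
    (ω : Rnd (GX n m) (GQ n m) μ) : F2 (inp T ω) = true := by
  rw [F2_eq_true, pubs_inp h, ones_bits]
  exact Or.inr h2

lemma F2_inp_false {T : Fin (4 * n) → Finset (Fin m)} (h2 : (ne T).card ≤ n)
    (ω : Rnd (GX n m) (GQ n m) μ) : F2 (inp T ω) = false := by
  rw [F2_eq_false, pubs_inp (Or.inl h2), ones_bits]
  exact ⟨valid_tab (sol_sat (Or.inl h2)) ω, h2⟩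

open Classical in
/-- The number of random strings which are consistent with the path `τ` and make the tree `t`
accept. -/
noncomputable def cnt (t : DTree (GCell n m μ) (ZMod 2)) (τ : List (GCell n m μ × ZMod 2))
    (T : Fin (4 * n) → Finset (Fin m)) : ℕ :=
  (univ.filter fun ω : Rnd (GX n m) (GQ n m) μ =>
    (∀ c ∈ τ, inp T ω c.1 = c.2) ∧ t.eval (inp T ω) = true).card

lemma zmod2_exhaust (a : ZMod 2) : a = 0 ∨ a = 1 := zmod2_cases a

lemma cnt_node (c : GCell n m μ) (f : ZMod 2 → DTree (GCell n m μ) (ZMod 2))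
    (τ : List (GCell n m μ × ZMod 2)) (T : Fin (4 * n) → Finset (Fin m)) :
    cnt (.node c f) τ T = cnt (f 0) ((c, 0) :: τ) T + cnt (f 1) ((c, 1) :: τ) T := by
  classical
  unfold cnt
  rw [← card_union_of_disjoint]
  · congr 1
    ext ω
    simp only [mem_filter, mem_univ, true_and, mem_union, List.forall_mem_cons, DTree.eval_node]
    rcases zmod2_cases (inp T ω c) with h | h
    · simp [h]
    · simp [h]
  · rw [disjoint_left]
    intro ω h1 h2
    simp only [mem_filter, mem_univ, true_and, List.forall_mem_cons] at h1 h2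
    rw [h1.1.1] at h2
    exact zero_ne_one h2.1.1

lemma cnt_leaf_false (τ : List (GCell n m μ × ZMod 2)) (T : Fin (4 * n) → Finset (Fin m)) :
    cnt (.leaf false) τ T = 0 := by
  unfold cnt
  simp

/-- The public variables which were read. -/
noncomputable def rd (τ : List (GCell n m μ × ZMod 2)) (v : Fin (4 * n)) : Finset (Fin m) := by
  classical
  exact (τ.filterMap fun c => c.1.pb).toFinset.image Prod.snd |>.filter
    fun j => (v, j) ∈ (τ.filterMap fun c => c.1.pb).toFinset

lemma mem_rd {τ : List (GCell n m μ × ZMod 2)} {v : Fin (4 * n)} {j : Fin m} :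
    j ∈ rd τ v ↔ ∃ c ∈ τ, c.1.pb = some (v, j) := by
  classical
  unfold rd
  simp only [mem_filter, mem_image, List.mem_toFinset, List.mem_filterMap]
  constructor
  · rintro ⟨_, h⟩; exact h
  · intro h; exact ⟨⟨(v, j), h, rfl⟩, h⟩

lemma card_rd_le (τ : List (GCell n m μ × ZMod 2)) (v : Fin (4 * n)) :
    (rd τ v).card ≤ τ.length := by
  classical
  unfold rd
  refine (card_filter_le _ _).trans (card_image_le.trans ?_)
  exact (List.toFinset_card_le _).trans (List.length_filterMap_le _ _)

lemma card_ne_rd_le (τ : List (GCell n m μ × ZMod 2)) (T : Fin (4 * n) → Finset (Fin m)) :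
    (ne fun v => T v ∩ rd τ v).card ≤ τ.length := by
  classical
  have h1 : (ne fun v => T v ∩ rd τ v) ⊆
      (τ.filterMap fun c => c.1.pb).toFinset.image Prod.fst := by
    intro v hv
    simp only [ne, mem_filter, mem_univ, true_and] at hv
    obtain ⟨j, hj⟩ := nonempty_iff_ne_empty.mpr hv
    rw [mem_inter, mem_rd] at hj
    simp only [mem_image, List.mem_toFinset, List.mem_filterMap]
    exact ⟨(v, j), hj.2, rfl⟩
  refine (card_le_card h1).trans (card_image_le.trans ?_)
  exact (List.toFinset_card_le _).trans (List.length_filterMap_le _ _)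

lemma cnt_leaf_true {τ : List (GCell n m μ × ZMod 2)} (hτ : τ.length ≤ μ) (hτn : τ.length ≤ n)
    {T : Fin (4 * n) → Finset (Fin m)} (hT : Dom T) :
    cnt (.leaf true) τ T = cnt (.leaf true) τ fun v => T v ∩ rd τ v := by
  classical
  have hT' : Dom fun v => T v ∩ rd τ v := Or.inl ((card_ne_rd_le τ T).trans hτn)
  unfold cnt
  simp only [DTree.eval_leaf, and_true, inp]
  have := local_hiding (μ := μ) (S := gapSys n m) (sol_sat hT) (sol_sat hT') τ hτ (by
    rintro c hc ⟨v, j⟩ hp
    change sol T (.z v j) = sol _ (.z v j)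
    rw [sol_z hT, sol_z hT']
    have hj : j ∈ rd τ v := mem_rd.mpr ⟨c, hc, hp⟩
    simp [bits, hj])
  rw [Nat.card_eq_fintype_card, Nat.card_eq_fintype_card, Fintype.card_subtype,
    Fintype.card_subtype] at this
  convert this

end Pool.Agent.Lib.MP_ff3ed7_lc
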