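import Mathlib

/-!
Extrapolation: the value at a set `B` of a function of at most `D` elements is a combination of the
values at the intersections of `B` with the subsets of size at most `D` of a larger set.
-/

open Finset Polynomial

namespace Pool.Agent.Lib.MP_ff3ed7_lc

/-- The polynomial without its monomials of degree more than `D`, evaluated at one. -/
noncomputable def trc (D : ℕ) (q : ℝ[X]) : ℝ := ∑ k ∈ range (D + 1), q.coeff k

/-- The coefficients. -/
noncomputable def cf (D u a : ℕ) : ℝ := trc D (X ^ a * (1 - X) ^ (u - a))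

lemma trc_add (D : ℕ) (p q : ℝ[X]) : trc D (p + q) = trc D p + trc D q := by
  unfold trc
  rw [← sum_add_distrib]
  exact sum_congr rfl fun k _ => coeff_add p q k

lemma trc_C_mul (D : ℕ) (c : ℝ) (q : ℝ[X]) : trc D (C c * q) = c * trc D q := by
  unfold trc
  rw [mul_sum]
  exact sum_congr rfl fun k _ => coeff_C_mul q

lemma trc_sum {ι : Type*} (D : ℕ) (S : Finset ι) (q : ι → ℝ[X]) :
    trc D (∑ i ∈ S, q i) = ∑ i ∈ S, trc D (q i) := by
  unfold trc
  rw [sum_comm]
  exact sum_congr rfl fun k _ => finsetSum_coeff _ _ _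

lemma trc_of_natDegree_le {D : ℕ} {q : ℝ[X]} (h : q.natDegree ≤ D) : trc D q = q.eval 1 := by
  unfold trc
  rw [eval_eq_sum_range' (Nat.lt_succ_of_le h)]
  simp

lemma cf_eq_zero {D u a : ℕ} (h : D < a) : cf D u a = 0 := by
  unfold cf trc
  refine sum_eq_zero fun k hk => ?_
  rw [mem_range] at hk
  rw [coeff_X_pow_mul', if_neg (by omega)]

lemma abs_cf_le (D u a : ℕ) : |cf D u a| ≤ 2 ^ u := by
  unfold cf trc
  have h1 : ∀ v k : ℕ, |((1 - X : ℝ[X]) ^ v).coeff k| = v.choose k := by
    intro v k
    have e : (1 - X : ℝ[X]) ^ v = C ((-1) ^ v) * (X - C 1) ^ v := by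
      rw [map_pow, ← mul_pow]
      congr 1
      simp
    rw [e, coeff_C_mul, sub_eq_add_neg, ← C_neg, coeff_X_add_C_pow, abs_mul, abs_mul, abs_pow,
      abs_pow, abs_neg, abs_one,
      one_pow, one_pow, one_mul, one_mul, Nat.abs_cast]
  calc |∑ k ∈ range (D + 1), (X ^ a * (1 - X : ℝ[X]) ^ (u - a)).coeff k|
      ≤ ∑ k ∈ range (D + 1), |(X ^ a * (1 - X : ℝ[X]) ^ (u - a)).coeff k| :=
        abs_sum_le_sum_abs _ _
    _ = ∑ k ∈ range (D + 1), if a ≤ k then ((u - a).choose (k - a) : ℝ) else 0 := by
        refine sum_congr rfl fun k _ => ?_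
        rw [coeff_X_pow_mul']
        split_ifs with h2
        · exact h1 _ _
        · simp
    _ = ∑ k ∈ (range (D + 1)).filter (fun k => a ≤ k), ((u - a).choose (k - a) : ℝ) := by
        rw [sum_filter]
    _ = ∑ j ∈ ((range (D + 1)).filter (fun k => a ≤ k)).image (fun k => k - a),
          ((u - a).choose j : ℝ) := by
        rw [sum_image]
        intro x hx y hy hxy
        simp only [coe_filter, Set.mem_ofPred_eq] at hx hy
        simp only at hxy
        omega
    _ ≤ ∑ j ∈ range (u - a + 1) ∪ ((range (D + 1)).filter (fun k => a ≤ k)).image (fun k => k - a),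
          ((u - a).choose j : ℝ) := by
        refine sum_le_sum_of_subset_of_nonneg subset_union_right fun _ _ _ => Nat.cast_nonneg _
    _ = ∑ j ∈ range (u - a + 1), ((u - a).choose j : ℝ) := by
        symm
        refine sum_subset subset_union_left fun j _ hj => ?_
        rw [mem_range, not_lt] at hj
        rw [Nat.choose_eq_zero_of_lt (by omega), Nat.cast_zero]
    _ = 2 ^ (u - a) := by
        have := Nat.sum_range_choose (u - a)
        exact_mod_cast this
    _ ≤ 2 ^ u := pow_le_pow_right₀ (by norm_num) (Nat.sub_le _ _)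

/-- The weights of the subsets of a set sum up to one. -/
lemma sum_bern {V R : Type*} [DecidableEq V] [CommRing R] (x : R) (B U : Finset V) (hB : B ⊆ U)
    (G : Finset V → R) :
    ∑ A ∈ U.powerset, x ^ A.card * (1 - x) ^ (U.card - A.card) * G (A ∩ B) =
      ∑ A ∈ B.powerset, x ^ A.card * (1 - x) ^ (B.card - A.card) * G A := by
  obtain ⟨W, hW, rfl⟩ : ∃ W, Disjoint B W ∧ U = B ∪ W :=
    ⟨U \ B, disjoint_sdiff, by rw [union_sdiff_of_subset hB]⟩
  clear hB
  induction W using Finset.induction_on with
  | empty =>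
    rw [union_empty]
    refine sum_congr rfl fun A hA => ?_
    rw [inter_eq_left.mpr (mem_powerset.mp hA)]
  | insert v W hv ih =>
    rw [disjoint_insert_right] at hW
    rw [← ih hW.2]
    have hvU : v ∉ B ∪ W := by
      rw [mem_union, not_or]; exact ⟨hW.1, hv⟩
    rw [union_insert, sum_powerset_insert hvU, ← sum_add_distrib]
    refine sum_congr rfl fun A hA => ?_
    have hA' := mem_powerset.mp hA
    have hvA : v ∉ A := fun h => hvU (hA' h)
    have h1 : insert v A ∩ B = A ∩ B := by
      rw [insert_inter_of_notMem hW.1]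
    have h2 : A.card ≤ (B ∪ W).card := card_le_card hA'
    rw [h1, card_insert_of_notMem hvU, card_insert_of_notMem hvA,
      show (B ∪ W).card + 1 - A.card = ((B ∪ W).card - A.card) + 1 by omega,
      show (B ∪ W).card + 1 - (A.card + 1) = (B ∪ W).card - A.card by omega, pow_succ, pow_succ]
    ring

/-- Extrapolation. -/
theorem cf_interp {V : Type*} [DecidableEq V] (D : ℕ) (B U : Finset V) (hB : B ⊆ U)
    (hD : B.card ≤ D) (G : Finset V → ℝ) :
    ∑ A ∈ U.powerset, cf D U.card A.card * G (A ∩ B) = G B := by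
  have h1 := sum_bern (X : ℝ[X]) B U hB fun A => C (G A)
  have h2 := congrArg (trc D) h1
  rw [trc_sum] at h2
  have h3 : ∀ A ∈ U.powerset, trc D (X ^ A.card * (1 - X) ^ (U.card - A.card) * C (G (A ∩ B))) =
      cf D U.card A.card * G (A ∩ B) := by
    intro A _
    rw [mul_comm, trc_C_mul, cf, mul_comm]
  rw [sum_congr rfl h3] at h2
  rw [h2, trc_of_natDegree_le]
  · rw [eval_finsetSum, sum_eq_single B]
    · simp
    · intro A hA hAB
      have h4 : A.card < B.card := card_lt_card (lt_of_le_of_ne (mem_powerset.mp hA) hAB)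
      simp [show B.card - A.card ≠ 0 by omega]
    · intro h
      exact absurd (mem_powerset.mpr (Subset.refl B)) h
  · refine natDegree_sum_le_of_forall_le _ _ fun A hA => ?_
    have h4 : A.card ≤ B.card := card_le_card (mem_powerset.mp hA)
    refine (natDegree_mul_C_le _ _).trans ?_
    refine natDegree_mul_le.trans ?_
    have h5 : (X ^ A.card : ℝ[X]).natDegree ≤ A.card := natDegree_X_pow_le _
    have h6 : ((1 - X : ℝ[X]) ^ (B.card - A.card)).natDegree ≤ B.card - A.card := by
      refine natDegree_pow_le.trans ?_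
      have h7 : (1 - X : ℝ[X]).natDegree ≤ 1 := by
        refine (natDegree_sub_le _ _).trans ?_
        simp
      calc (B.card - A.card) * (1 - X : ℝ[X]).natDegree ≤ (B.card - A.card) * 1 :=
            Nat.mul_le_mul_left _ h7
        _ = _ := mul_one _
    omega

end Pool.Agent.Lib.MP_ff3ed7_lc
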