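import Pool.Agent.Lib.MP_ff3ed7_lc.TotalPP
import Pool.Agent.Lib.MP_ff3ed7_lc.Trunc
import Pool.Agent.Lib.MP_ff3ed7_lc.DefsCC

/-! The exact dual object of the total function. -/

open Finset

namespace Pool.Agent.Lib.MP_ff3ed7_lc

variable {n m d D : ℕ}

/-- Restriction to the blocks of `A`. -/
def res (T : Fin (4 * n) → Finset (Fin m)) (A : Finset (Fin (4 * n))) :
    Fin (4 * n) → Finset (Fin m) := fun v => if v ∈ A then T v else ∅

lemma mem_ne {T : Fin (4 * n) → Finset (Fin m)} {v : Fin (4 * n)} : v ∈ ne T ↔ T v ≠ ∅ := by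
  simp [ne]

lemma ne_res {T : Fin (4 * n) → Finset (Fin m)} {A : Finset (Fin (4 * n))} (hA : A ⊆ ne T) :
    ne (res T A) = A := by
  ext v
  rw [mem_ne, res]
  constructor
  · intro h
    by_contra hv
    rw [if_neg hv] at h
    exact h rfl
  · intro hv
    rw [if_pos hv]
    exact mem_ne.mp (hA hv)

open Classical in
/-- The corrected weights. -/
noncomputable def V0 (d D : ℕ) (T : Fin (4 * n) → Finset (Fin m)) : ℝ :=
  (if (ne T).card ≤ n then W0 d T else 0) +
    ∑ T' ∈ univ.filter (fun T' : Fin (4 * n) → Finset (Fin m) => n < (ne T').card),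
      W0 d T' * if res T' (ne T) = T then cf D (ne T').card (ne T).card else 0

/-- The corrected weights are exactly orthogonal. -/
lemma V0_junta (R : Fin (4 * n) → Finset (Fin m))
    (hR : (univ.filter fun v => R v ≠ ∅).card ≤ D) (φ : (Fin (4 * n) → Finset (Fin m)) → ℝ) :
    ∑ T, V0 d D T * φ (fun v => T v ∩ R v) = ∑ T, W0 d T * φ (fun v => T v ∩ R v) := by
  classical
  unfold V0
  simp only [add_mul, sum_add_distrib]
  rw [← sum_filter_add_sum_filter_not univ (fun T : Fin (4 * n) → Finset (Fin m) =>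
        (ne T).card ≤ n) fun T => W0 d T * φ (fun v => T v ∩ R v)]
  congr 1
  · rw [sum_filter]
    refine sum_congr rfl fun T _ => ?_
    split_ifs <;> ring
  · simp only [not_le, sum_mul]
    rw [sum_comm]
    refine sum_congr rfl fun T' hT' => ?_
    simp only [mul_assoc]
    rw [← mul_sum]
    congr 1
    set B : Finset (Fin (4 * n)) := ne T' ∩ univ.filter fun v => R v ≠ ∅ with hB
    have hBD : B.card ≤ D := (card_le_card inter_subset_right).trans hR
    have h1 := cf_interp D B (ne T') inter_subset_left hBD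
      fun E => φ fun v => res T' E v ∩ R v
    have h2 : (fun v => res T' B v ∩ R v) = fun v => T' v ∩ R v := by
      funext v
      simp only [res]
      split_ifs with hv
      · rfl
      · rw [hB, mem_inter, not_and_or, mem_ne, not_not] at hv
        rcases hv with hv | hv
        · rw [hv]
        · simp only [mem_filter, mem_univ, true_and, not_not] at hv
          rw [hv, inter_empty, inter_empty]
    rw [h2] at h1
    rw [← h1]
    symm
    simp only [ite_mul, zero_mul]
    rw [← sum_filter]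
    refine sum_bij' (fun A _ => res T' A) (fun T _ => ne T) ?_ ?_ ?_ ?_ ?_
    · intro A hA
      simp only [mem_filter, mem_univ, true_and]
      rw [ne_res (mem_powerset.mp hA)]
    · intro T hT
      simp only [mem_filter, mem_univ, true_and] at hT
      rw [mem_powerset]
      intro v hv
      rw [mem_ne] at hv ⊢
      rw [← hT] at hv
      simp only [res] at hv
      split_ifs at hv with h
      · exact hv
      · exact absurd rfl hv
    · intro A hA
      exact ne_res (mem_powerset.mp hA)
    · intro T hT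
      simp only [mem_filter, mem_univ, true_and] at hT
      exact hT
    · intro A hA
      rw [ne_res (mem_powerset.mp hA)]
      congr 2
      funext v
      simp only [res, mem_inter]
      by_cases hvA : v ∈ A
      · by_cases hvB : v ∈ B
        · rw [if_pos ⟨hvA, hvB⟩, if_pos hvA]
        · rw [if_neg (fun h => hvB h.2), if_pos hvA]
          rw [hB, mem_inter, not_and_or, mem_ne, not_not] at hvB
          rcases hvB with hv | hv
          · rw [hv]
          · simp only [mem_filter, mem_univ, true_and, not_not] at hv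
            rw [hv, inter_empty, inter_empty]
      · rw [if_neg (fun h => hvA h.1), if_neg hvA]

lemma V0_supp (hDn : D ≤ n) {T : Fin (4 * n) → Finset (Fin m)} (h : V0 d D T ≠ 0) :
    (ne T).card ≤ n := by
  by_contra hn
  apply h
  unfold V0
  rw [if_neg hn, zero_add]
  refine sum_eq_zero fun T' _ => ?_
  rw [cf_eq_zero (by omega)]
  simp

lemma w0_empty_ge (hm : ∀ t ∈ nds d, t ≤ m) : (255 / 256 : ℝ) ≤ w0 d (∅ : Finset (Fin m)) := by
  classical
  have h7 := sum_w0 (m := m) hm
  have h8 := sum_w0_ne (m := m) hm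
  rw [← add_sum_erase univ _ (mem_univ (∅ : Finset (Fin m)))] at h7
  linarith

lemma sum_w0_64 (hm : ∀ t ∈ nds d, t ≤ m) :
    ∑ T : Finset (Fin m), (w0 d T * if T = ∅ then 1 else 64) ≤ 319 / 256 := by
  classical
  have h7 := sum_w0 (m := m) hm
  have h8 := sum_w0_ne (m := m) hm
  rw [← add_sum_erase univ _ (mem_univ (∅ : Finset (Fin m)))] at h7 ⊢
  rw [if_pos rfl]
  have h9 : ∑ T ∈ univ.erase (∅ : Finset (Fin m)), (w0 d T * if T = ∅ then (1 : ℝ) else 64) =
      (∑ T ∈ univ.erase (∅ : Finset (Fin m)), w0 d T) * 64 := by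
    rw [sum_mul]
    refine sum_congr rfl fun T hT => ?_
    rw [if_neg (ne_of_mem_erase hT)]
  rw [h9]
  linarith

/-- The mass of the bad patterns above `T` is small. -/
lemma above_le (hm : ∀ t ∈ nds d, t ≤ m) (T : Fin (4 * n) → Finset (Fin m))
    (hT : (ne T).card ≤ D) :
    64 ^ n * ∑ T' ∈ univ.filter (fun T' : Fin (4 * n) → Finset (Fin m) =>
      n < (ne T').card ∧ res T' (ne T) = T), W0 d T' ≤
      64 ^ D * ((319 / 255) ^ (4 * n) * W0 d T) := by
  classical
  set A := ne T with hA
  let c : Fin (4 * n) → Finset (Fin m) → ℝ := fun v U => if v ∈ A ∨ U = ∅ then 1 else 64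
  let t : Fin (4 * n) → Finset (Finset (Fin m)) := fun v => if v ∈ A then {T v} else univ
  have hc0 : ∀ v U, 0 ≤ c v U := by
    intro v U
    simp only [c]
    split_ifs <;> norm_num
  have h1 : ∀ T' ∈ univ.filter (fun T' : Fin (4 * n) → Finset (Fin m) =>
      n < (ne T').card ∧ res T' A = T), 64 ^ n * W0 d T' ≤
      64 ^ D * ∏ v, (w0 d (T' v) * c v (T' v)) := by
    intro T' hT'
    simp only [mem_filter, mem_univ, true_and] at hT'
    have h2 : ∏ v, c v (T' v) = 64 ^ (ne T' \ A).card := by
      simp only [c]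
      rw [prod_ite, prod_const_one, one_mul, prod_const]
      congr 2
      ext v
      simp only [mem_filter, mem_univ, true_and, mem_sdiff, mem_ne, not_or]
      tauto
    have h3 : n ≤ D + (ne T' \ A).card := by
      have := card_le_card (subset_union_left (s₁ := ne T') (s₂ := A))
      rw [← sdiff_union_self_eq_union] at this
      have h4 := card_union_le (ne T' \ A) A
      omega
    rw [prod_mul_distrib, h2]
    have h5 : (64 : ℝ) ^ n ≤ 64 ^ D * 64 ^ (ne T' \ A).card := by
      rw [← pow_add]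
      exact pow_le_pow_right₀ (by norm_num) h3
    calc (64 : ℝ) ^ n * W0 d T' ≤ (64 ^ D * 64 ^ (ne T' \ A).card) * W0 d T' :=
          mul_le_mul_of_nonneg_right h5 (W0_nonneg _)
      _ = _ := by unfold W0; ring
  have h6 : ∏ v, ∑ U ∈ t v, w0 d U * c v U ≤ (319 / 255) ^ (4 * n) * W0 d T := by
    have h7 : (319 / 255 : ℝ) ^ (4 * n) * W0 d T = ∏ v : Fin (4 * n), (319 / 255) * w0 d (T v) := by
      unfold W0
      rw [prod_mul_distrib, prod_const, card_univ, Fintype.card_fin]
    rw [h7]
    refine prod_le_prod (fun v _ => sum_nonneg fun U _ => mul_nonneg (w0_nonneg _ _) (hc0 v U))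
      fun v _ => ?_
    by_cases hv : v ∈ A
    · simp only [t, c, if_pos hv, sum_singleton, true_or, if_true, mul_one, hv]
      have := w0_nonneg d (T v)
      linarith
    · have hTv : T v = ∅ := by
        rw [hA, mem_ne, not_not] at hv
        exact hv
      simp only [t, c, if_neg hv, hv, false_or]
      rw [hTv]
      have h8 := sum_w0_64 (m := m) hm
      have h9 := w0_empty_ge (m := m) hm
      linarith
  calc 64 ^ n * ∑ T' ∈ univ.filter (fun T' : Fin (4 * n) → Finset (Fin m) =>
      n < (ne T').card ∧ res T' A = T), W0 d T'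
      ≤ ∑ T' ∈ univ.filter (fun T' : Fin (4 * n) → Finset (Fin m) =>
      n < (ne T').card ∧ res T' A = T), 64 ^ D * ∏ v, (w0 d (T' v) * c v (T' v)) := by
        rw [mul_sum]
        exact sum_le_sum h1
    _ ≤ ∑ T' ∈ Fintype.piFinset t, 64 ^ D * ∏ v, (w0 d (T' v) * c v (T' v)) := by
        refine sum_le_sum_of_subset_of_nonneg ?_ fun T' _ _ => mul_nonneg (by positivity)
          (prod_nonneg fun v _ => mul_nonneg (w0_nonneg _ _) (hc0 _ _))
        intro T' hT'
        simp only [mem_filter, mem_univ, true_and] at hT'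
        rw [Fintype.mem_piFinset]
        intro v
        simp only [t]
        split_ifs with hv
        · rw [mem_singleton, ← hT'.2]
          simp [res, hv]
        · exact mem_univ _
    _ = 64 ^ D * ∏ v, ∑ U ∈ t v, w0 d U * c v U := by
        rw [← mul_sum, prod_univ_sum]
    _ ≤ _ := mul_le_mul_of_nonneg_left h6 (by positivity)

lemma V0_nonneg (hm : ∀ t ∈ nds d, t ≤ m) (hD : 9 * D ≤ n) (T : Fin (4 * n) → Finset (Fin m)) :
    0 ≤ V0 d D T := by
  classical
  by_cases hT : (ne T).card ≤ D
  · have hTn : (ne T).card ≤ n := by omega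
    unfold V0
    rw [if_pos hTn]
    have h1 : |∑ T' ∈ univ.filter (fun T' : Fin (4 * n) → Finset (Fin m) => n < (ne T').card),
        W0 d T' * (if res T' (ne T) = T then cf D (ne T').card (ne T).card else 0)| ≤ W0 d T := by
      have h2 : ∀ T' : Fin (4 * n) → Finset (Fin m),
          |W0 d T' * (if res T' (ne T) = T then cf D (ne T').card (ne T).card else 0)| ≤
          16 ^ n * if res T' (ne T) = T then W0 d T' else 0 := by
        intro T'
        split_ifs with h
        · rw [abs_mul, abs_of_nonneg (W0_nonneg T')]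
          have h3 := abs_cf_le D (ne T').card (ne T).card
          have h4 : (2 : ℝ) ^ (ne T').card ≤ 16 ^ n := by
            have h5 : (ne T').card ≤ 4 * n := by
              have := card_le_univ (ne T')
              simpa using this
            calc (2 : ℝ) ^ (ne T').card ≤ 2 ^ (4 * n) := pow_le_pow_right₀ (by norm_num) h5
              _ = 16 ^ n := by rw [pow_mul]; norm_num
          calc W0 d T' * |cf D (ne T').card (ne T).card| ≤ W0 d T' * 16 ^ n :=
                mul_le_mul_of_nonneg_left (h3.trans h4) (W0_nonneg T')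
            _ = _ := mul_comm _ _
        · simp
      have h6 := above_le (d := d) hm T hT
      have h7 : (∑ T' ∈ univ.filter (fun T' : Fin (4 * n) → Finset (Fin m) => n < (ne T').card),
          16 ^ n * if res T' (ne T) = T then W0 d T' else 0) =
          16 ^ n * ∑ T' ∈ univ.filter (fun T' : Fin (4 * n) → Finset (Fin m) =>
            n < (ne T').card ∧ res T' (ne T) = T), W0 d T' := by
        rw [← mul_sum, ← sum_filter, filter_filter]
      refine (abs_sum_le_sum_abs _ _).trans ((sum_le_sum fun T' _ => h2 T').trans ?_)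
      rw [h7]
      set s := ∑ T' ∈ univ.filter (fun T' : Fin (4 * n) → Finset (Fin m) =>
            n < (ne T').card ∧ res T' (ne T) = T), W0 d T'
      -- numerical estimate
      have h8 : (16 : ℝ) ^ n * (64 ^ D * (319 / 255) ^ (4 * n)) ≤ 64 ^ n := by
        have e1 : (64 : ℝ) ^ D ≤ (8 / 5) ^ n := by
          calc (64 : ℝ) ^ D ≤ ((8 / 5) ^ 9) ^ D := pow_le_pow_left₀ (by norm_num) (by norm_num) D
            _ = (8 / 5) ^ (9 * D) := by rw [pow_mul]
            _ ≤ (8 / 5) ^ n := pow_le_pow_right₀ (by norm_num) hD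
        have e2 : (319 / 255 : ℝ) ^ (4 * n) ≤ (5 / 2) ^ n := by
          rw [pow_mul]
          exact pow_le_pow_left₀ (by norm_num) (by norm_num) n
        calc (16 : ℝ) ^ n * (64 ^ D * (319 / 255) ^ (4 * n)) ≤ 16 ^ n * ((8 / 5) ^ n * (5 / 2) ^ n) := by
              gcongr
          _ = 64 ^ n := by rw [← mul_pow, ← mul_pow]; norm_num
      have h9 : (64 : ℝ) ^ n * (16 ^ n * s) ≤ 64 ^ n * W0 d T := by
        calc (64 : ℝ) ^ n * (16 ^ n * s) = 16 ^ n * (64 ^ n * s) := by ring
          _ ≤ 16 ^ n * (64 ^ D * ((319 / 255) ^ (4 * n) * W0 d T)) :=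
              mul_le_mul_of_nonneg_left h6 (by positivity)
          _ = (16 ^ n * (64 ^ D * (319 / 255) ^ (4 * n))) * W0 d T := by ring
          _ ≤ 64 ^ n * W0 d T := mul_le_mul_of_nonneg_right h8 (W0_nonneg _)
      exact le_of_mul_le_mul_left h9 (by positivity)
    have := neg_abs_le (∑ T' ∈ univ.filter (fun T' : Fin (4 * n) → Finset (Fin m) =>
      n < (ne T').card), W0 d T' * (if res T' (ne T) = T then cf D (ne T').card (ne T).card else 0))
    linarith
  · unfold V0
    have h1 : ∑ T' ∈ univ.filter (fun T' : Fin (4 * n) → Finset (Fin m) => n < (ne T').card),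
        W0 d T' * (if res T' (ne T) = T then cf D (ne T').card (ne T).card else 0) = 0 := by
      refine sum_eq_zero fun T' _ => ?_
      rw [cf_eq_zero (by omega)]
      simp
    rw [h1, add_zero]
    split_ifs
    · exact W0_nonneg T
    · exact le_rfl

/-! ### Hiding -/

variable {μ : ℕ}

/-- The public bits which occur in `S`. -/
def pcells (S : Finset (GCell n m μ)) (v : Fin (4 * n)) : Finset (Fin m) := by
  classical
  exact univ.filter fun j => ∃ c ∈ S, c.pb = some (v, j)

lemma mem_pcells {S : Finset (GCell n m μ)} {v : Fin (4 * n)} {j : Fin m} :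
    j ∈ pcells S v ↔ ∃ c ∈ S, c.pb = some (v, j) := by
  simp [pcells]

lemma card_pcells_le (S : Finset (GCell n m μ)) (v : Fin (4 * n)) :
    (pcells S v).card ≤ S.card := by
  classical
  refine (card_le_card_of_injOn (t := S.image TCell.pb) (fun j => some (v, j)) ?_ ?_).trans
    card_image_le
  · intro j hj
    obtain ⟨c, hc, h⟩ := mem_pcells.mp hj
    exact mem_coe.mpr (mem_image.mpr ⟨c, hc, h⟩)
  · intro j _ k _ h
    simpa using h

lemma card_blocks_le (S : Finset (GCell n m μ)) :
    (univ.filter fun v => pcells S v ≠ ∅).card ≤ S.card := by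
  classical
  have h : ∀ v ∈ univ.filter (fun v => pcells S v ≠ ∅), ∃ j, ∃ c ∈ S, c.pb = some (v, j) := by
    intro v hv
    simp only [mem_filter, mem_univ, true_and] at hv
    obtain ⟨j, hj⟩ := nonempty_iff_ne_empty.mpr hv
    exact ⟨j, mem_pcells.mp hj⟩
  rcases isEmpty_or_nonempty (Fin m) with he | hne
  · rw [filter_false_of_mem]
    · simp
    · intro v _ hv
      obtain ⟨j, -⟩ := nonempty_iff_ne_empty.mpr hv
      exact he.elim j
  choose! j hj using h
  refine (card_le_card_of_injOn (t := S.image TCell.pb) (fun v => some (v, j v)) ?_ ?_).trans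
    card_image_le
  · intro v hv
    obtain ⟨c, hc, h⟩ := hj v hv
    exact mem_coe.mpr (mem_image.mpr ⟨c, hc, h⟩)
  · intro v _ w _ h
    simp only [Option.some.injEq, Prod.mk.injEq] at h
    exact h.1

lemma card_ne_pcells_le (S : Finset (GCell n m μ)) (T : Fin (4 * n) → Finset (Fin m)) :
    (ne fun v => T v ∩ pcells S v).card ≤ S.card := by
  refine (card_le_card ?_).trans (card_blocks_le S)
  intro v hv
  rw [mem_ne] at hv
  simp only [mem_filter, mem_univ, true_and]
  intro h
  rw [h, inter_empty] at hv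
  exact hv rfl

/-- Functions of few cells depend only on the public bits which occur. -/
lemma hide {S : Finset (GCell n m μ)} (hS : S.card ≤ μ) (hSn : S.card ≤ n)
    {T : Fin (4 * n) → Finset (Fin m)} (hT : Dom T) (g : (GCell n m μ → ZMod 2) → ℝ)
    (hg : ∀ x y, (∀ i ∈ S, x i = y i) → g x = g y) :
    ∑ ω : Rnd (GX n m) (GQ n m) μ, g (inp T ω) =
      ∑ ω : Rnd (GX n m) (GQ n m) μ, g (inp (fun v => T v ∩ pcells S v) ω) := by
  classical
  have hT' : Dom fun v => T v ∩ pcells S v := Or.inl ((card_ne_pcells_le S T).trans hSn)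
  have key : ∀ T' : Fin (4 * n) → Finset (Fin m), Dom T' →
      ∑ ω : Rnd (GX n m) (GQ n m) μ, g (inp T' ω) =
      ∑ σ : S → ZMod 2, g (fun c => if h : c ∈ S then σ ⟨c, h⟩ else 0) *
        Nat.card {ω : Rnd (GX n m) (GQ n m) μ //
          ∀ c ∈ S.toList.map (fun c => (c, if h : c ∈ S then σ ⟨c, h⟩ else 0)),
            tab (gapSys n m) (sol T') ω c.1 = c.2} := by
    intro T' _
    rw [← sum_fiberwise_of_maps_to (s := (univ : Finset (Rnd (GX n m) (GQ n m) μ)))
      (t := (univ : Finset (S → ZMod 2))) (g := fun ω c => inp T' ω c.1) (fun _ _ => mem_univ _)]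
    refine sum_congr rfl fun σ _ => ?_
    have h1 : ∀ ω ∈ univ.filter (fun ω : Rnd (GX n m) (GQ n m) μ =>
        (fun c : S => inp T' ω c.1) = σ), g (inp T' ω) =
        g (fun c => if h : c ∈ S then σ ⟨c, h⟩ else 0) := by
      intro ω hω
      simp only [mem_filter, mem_univ, true_and] at hω
      apply hg
      intro c hc
      rw [dif_pos hc, ← hω]
    rw [sum_congr rfl h1, sum_const, nsmul_eq_mul, mul_comm]
    congr 2
    rw [Nat.card_eq_fintype_card, Fintype.card_subtype]
    congr 1
    ext ω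
    simp only [mem_filter, mem_univ, true_and, List.mem_map, mem_toList, forall_exists_index,
      and_imp]
    constructor
    · rintro h _ c hc rfl
      simp only [dif_pos hc]
      rw [← h]
      rfl
    · intro h
      funext c
      have := h _ c.1 c.2 rfl
      simp only [dif_pos c.2] at this
      exact this
  rw [key T hT, key _ hT']
  refine sum_congr rfl fun σ _ => ?_
  congr 2
  refine local_hiding (sol_sat hT) (sol_sat hT') _ (by simpa using hS) ?_
  rintro ⟨c, s⟩ hc ⟨v, j⟩ hp
  change sol T (.z v j) = sol _ (.z v j)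
  rw [sol_z hT, sol_z hT']
  have hcS : c ∈ S := by
    simp only [List.mem_map, mem_toList, Prod.mk.injEq] at hc
    obtain ⟨a, ha, rfl, -⟩ := hc
    exact ha
  have hj : j ∈ pcells S v := mem_pcells.mpr ⟨c, hcS, hp⟩
  simp [bits, hj]

/-- The averages of a function of few cells over the two distributions are equal. -/
lemma exact_avg (hm : ∀ t ∈ nds n, t ≤ m) (hμ : n ≤ μ) (hD : 9 * D ≤ n)
    {S : Finset (GCell n m μ)} (hS : S.card ≤ D) (g : (GCell n m μ → ZMod 2) → ℝ)
    (hg : ∀ x y, (∀ i ∈ S, x i = y i) → g x = g y) (hn : 1 ≤ n) :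
    ∑ T, W1 n T * ∑ ω : Rnd (GX n m) (GQ n m) μ, g (inp T ω) =
      ∑ T, V0 n D T * ∑ ω : Rnd (GX n m) (GQ n m) μ, g (inp T ω) := by
  have h1 : ∀ T : Fin (4 * n) → Finset (Fin m), W1 n T * ∑ ω : Rnd (GX n m) (GQ n m) μ,
      g (inp T ω) = W1 n T * ∑ ω : Rnd (GX n m) (GQ n m) μ,
        g (inp (fun v => T v ∩ pcells S v) ω) := by
    intro T
    by_cases h : W1 n T = 0
    · rw [h, zero_mul, zero_mul]
    · rw [hide (by omega) (by omega) (Or.inr (by rw [W1_supp h]; omega)) g hg]
  have h2 : ∀ T : Fin (4 * n) → Finset (Fin m), V0 n D T * ∑ ω : Rnd (GX n m) (GQ n m) μ,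
      g (inp T ω) = V0 n D T * ∑ ω : Rnd (GX n m) (GQ n m) μ,
        g (inp (fun v => T v ∩ pcells S v) ω) := by
    intro T
    by_cases h : V0 n D T = 0
    · rw [h, zero_mul, zero_mul]
    · rw [hide (by omega) (by omega) (Or.inl (V0_supp (by omega) h)) g hg]
  rw [sum_congr rfl fun T _ => h1 T, sum_congr rfl fun T _ => h2 T,
    junta hm (pcells S) (fun v => (card_pcells_le S v).trans (by omega))
      fun T => ∑ ω : Rnd (GX n m) (GQ n m) μ, g (inp T ω),
    V0_junta (pcells S) ((card_blocks_le S).trans hS)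
      fun T => ∑ ω : Rnd (GX n m) (GQ n m) μ, g (inp T ω)]

noncomputable instance : DecidableEq (GCell n m μ) := Classical.decEq _

lemma zb_bz (b : Bool) : zb (bz b) = b := by
  cases b <;> decide

/-- The exact dual object of the total function. -/
theorem exactDual_fb {ℓ D : ℕ} (hD : 9 * D ≤ 2 ^ ℓ) : HasExactDual (fb ℓ) D := by
  classical
  set n := 2 ^ ℓ with hn
  have hn1 : 1 ≤ n := Nat.one_le_two_pow
  have hm : ∀ t ∈ nds n, t ≤ 1025 * n ^ 2 := fun t ht => nds_le hn1 ht
  let Ω := Rnd (GX n (1025 * n ^ 2)) (GQ n (1025 * n ^ 2)) n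
  have hΩ : (0 : ℝ) < Fintype.card Ω := by exact_mod_cast Fintype.card_pos
  let pt : (Fin (4 * n) → Finset (Fin (1025 * n ^ 2))) → Ω → Cl n → Bool :=
    fun T ω c => zb (inp T ω c)
  let A : ((Fin (4 * n) → Finset (Fin (1025 * n ^ 2))) → ℝ) → (Cl n → Bool) → ℝ :=
    fun w x => ∑ T, w T * ∑ ω : Ω, if pt T ω = x then 1 / (Fintype.card Ω : ℝ) else 0
  have hsum : ∀ (w : (Fin (4 * n) → Finset (Fin (1025 * n ^ 2))) → ℝ) (g : (Cl n → Bool) → ℝ),
      ∑ x, A w x * g x = (∑ T, w T * ∑ ω : Ω, g (pt T ω)) / Fintype.card Ω := by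
    intro w g
    simp only [A, sum_mul, mul_assoc, mul_sum, sum_div]
    rw [sum_comm]
    refine sum_congr rfl fun T _ => ?_
    rw [sum_comm]
    refine sum_congr rfl fun ω _ => ?_
    rw [sum_eq_single (pt T ω)]
    · rw [if_pos rfl]
      ring
    · intro x _ hx
      rw [if_neg (Ne.symm hx)]
      ring
    · intro h
      exact absurd (mem_univ _) h
  have hA0 : ∀ (w : (Fin (4 * n) → Finset (Fin (1025 * n ^ 2))) → ℝ), (∀ T, 0 ≤ w T) →
      ∀ x, 0 ≤ A w x := by
    intro w hw x
    refine sum_nonneg fun T _ => mul_nonneg (hw T) (sum_nonneg fun ω _ => ?_)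
    split_ifs
    · positivity
    · exact le_rfl
  have horth : ∀ (S : Finset (Cl n)), S.card ≤ D → ∀ g : (Cl n → Bool) → ℝ,
      (∀ x y, (∀ i ∈ S, x i = y i) → g x = g y) →
      ∑ x, A (W1 n) x * g x = ∑ x, A (V0 n D) x * g x := by
    intro S hS g hg
    rw [hsum, hsum]
    congr 1
    exact exact_avg hm le_rfl hD hS (fun a => g fun c => zb (a c))
      (fun x y hxy => hg _ _ fun i hi => by rw [hxy i hi]) hn1
  have hone : ∑ x, A (W1 n) x = 1 := by
    have h1 := hsum (W1 n) fun _ => 1
    simp only [mul_one, sum_const, card_univ, nsmul_eq_mul] at h1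
    rw [h1, ← sum_mul, mul_div_assoc, div_self hΩ.ne', mul_one]
    exact sum_W (sum_w1 hm)
  have hsupp : ∀ (w : (Fin (4 * n) → Finset (Fin (1025 * n ^ 2))) → ℝ) x, A w x ≠ 0 →
      ∃ T, w T ≠ 0 ∧ ∃ ω, pt T ω = x := by
    intro w x hx
    by_contra hcon
    push Not at hcon
    apply hx
    refine sum_eq_zero fun T _ => ?_
    by_cases h : w T = 0
    · rw [h, zero_mul]
    · rw [sum_eq_zero, mul_zero]
      intro ω _
      rw [if_neg (hcon T h ω)]
  have hfb : ∀ T ω, fb ℓ (pt T ω) = F2 (inp T ω) := by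
    intro T ω
    unfold fb
    congr 1
    funext c
    exact bz_zb _
  refine ⟨A (W1 n), A (V0 n D), hA0 _ W1_nonneg, hA0 _ (V0_nonneg hm hD), hone, ?_, ?_, ?_, horth⟩
  · have h := horth ∅ (by simp) (fun _ => 1) (fun _ _ _ => rfl)
    simp only [mul_one] at h
    rw [← h, hone]
  · intro x hx
    obtain ⟨T, hT, ω, rfl⟩ := hsupp _ x hx
    rw [hfb]
    have h2 := W1_supp hT
    exact F2_inp_true (Or.inr (by omega)) (by omega) ω
  · intro x hx
    obtain ⟨T, hT, ω, rfl⟩ := hsupp _ x hx
    rw [hfb]
    exact F2_inp_false (V0_supp (by omega) hT) ω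

end Pool.Agent.Lib.MP_ff3ed7_lc
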