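import Pool.Agent.Lib.MP_ff3ed7_lc.Tree

/-!
The total function.  There are `4 n` blocks.  Cell `arr u v i j` is cell `j` of layer `i` on the
way from block `u` to block `v`; layer `0` is (the copy for `v` of) block `u` itself.
-/

open Finset

namespace Pool.Agent.Lib.MP_ff3ed7_lc

/-- The cells. -/
inductive Cell (n k m : ℕ) : Type
  | arr (u v : Fin (4 * n)) (i : Fin (k + 2)) (j : Fin m) : Cell n k m
  | tok (t : Fin (3 * n ^ 2)) (s : Fin m) : Cell n k m
  deriving DecidableEq, Fintype

/-- The contents of the cells: nothing, a pointer into the next layer, a pointer to a token, or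
(for token cells) an ordered pair of blocks. -/
inductive Val (n m : ℕ) : Type
  | none : Val n m
  | ptr (j : Fin m) : Val n m
  | tk (t : Fin (3 * n ^ 2)) (s : Fin m) : Val n m
  | pr (u v : Fin (4 * n)) : Val n m
  deriving DecidableEq, Fintype

variable {n k m : ℕ}

/-- A value is active if it is a pointer of one of the two kinds. -/
def Val.act : Val n m → Bool
  | .ptr _ => true
  | .tk _ _ => true
  | _ => false

/-- The cell to which pointer `j` in layer `i` on the way from `u` to `v` leads. -/
def nxt (u v : Fin (4 * n)) (i : Fin (k + 2)) (j : Fin m) : Cell n k m :=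
  if h : i.1 + 1 < k + 2 then .arr u v ⟨i.1 + 1, h⟩ j else .arr v v 0 j

/-- Cell `arr u v i j` contains a pointer to a cell which is not active, or a pointer to a token
cell which does not contain the pair `(u, v)`. -/
def brk (z : Cell n k m → Val n m) (u v : Fin (4 * n)) (i : Fin (k + 2)) (j : Fin m) : Bool :=
  match z (.arr u v i j) with
  | .ptr j' => !(z (nxt u v i j')).act
  | .tk t s => !decide (z (.tok t s) = .pr u v)
  | _ => false

/-- `z` has a local defect. -/
def Bad (z : Cell n k m → Val n m) : Prop :=
  (∃ u v j, (z (.arr u u 0 j)).act = true ∧ (z (.arr u v 0 j)).act = false) ∨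
  (∃ u v i j, brk z u v i j = true) ∨
  (∃ t s s', s ≠ s' ∧ z (.tok t s) ≠ .none ∧ z (.tok t s') ≠ .none)

/-- The active blocks. -/
def Act (z : Cell n k m → Val n m) : Finset (Fin (4 * n)) :=
  univ.filter fun v => ∃ j, (z (.arr v v 0 j)).act = true

open Classical in
/-- The total function: `z` has a local defect or more than `n` active blocks. -/
noncomputable def F (z : Cell n k m → Val n m) : Bool := decide (Bad z ∨ n < (Act z).card)

lemma F_eq_true {z : Cell n k m → Val n m} : F z = true ↔ (Bad z ∨ n < (Act z).card) := by
  simp [F]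

lemma F_eq_false {z : Cell n k m → Val n m} : F z = false ↔ (¬ Bad z ∧ (Act z).card ≤ n) := by
  rw [← Bool.not_eq_true, F_eq_true, not_or, not_lt]

/-- From an active block one either reaches an active block or a token. -/
lemma reach {z : Cell n k m → Val n m} (hz : ¬ Bad z) {u v : Fin (4 * n)}
    (hv : v ∉ Act z) (e : ℕ) : ∀ (i : Fin (k + 2)) (j : Fin m), k + 1 - i.1 = e →
    (z (.arr u v i j)).act = true → ∃ t s, z (.tok t s) = .pr u v := by
  simp only [Bad, not_or, not_exists, not_and] at hz
  obtain ⟨h1, h2, h3⟩ := hz
  induction e with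
  | zero =>
    intro i j hi hact
    have hb := h2 u v i j
    rcases hval : z (.arr u v i j) with _ | j' | ⟨t, s⟩ | _
    · rw [hval] at hact; simp [Val.act] at hact
    · exfalso
      simp only [brk, hval] at hb
      have hnx : (nxt u v i j' : Cell n k m) = .arr v v 0 j' := by
        unfold nxt
        rw [dif_neg]
        omega
      rw [hnx] at hb
      apply hv
      simp only [Act, mem_filter, mem_univ, true_and]
      refine ⟨j', ?_⟩
      simpa using hb
    · simp only [brk, hval] at hb
      exact ⟨t, s, by simpa using hb⟩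
    · rw [hval] at hact; simp [Val.act] at hact
  | succ e ih =>
    intro i j hi hact
    have hb := h2 u v i j
    rcases hval : z (.arr u v i j) with _ | j' | ⟨t, s⟩ | _
    · rw [hval] at hact; simp [Val.act] at hact
    · simp only [brk, hval] at hb
      have hlt : i.1 + 1 < k + 2 := by omega
      have hnx : (nxt u v i j' : Cell n k m) = .arr u v ⟨i.1 + 1, hlt⟩ j' := by
        unfold nxt
        rw [dif_pos hlt]
      rw [hnx] at hb
      refine ih ⟨i.1 + 1, hlt⟩ j' ?_ ?_
      · simp only; omega
      · simpa using hb
    · simp only [brk, hval] at hb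
      exact ⟨t, s, by simpa using hb⟩
    · rw [hval] at hact; simp [Val.act] at hact

/-- The dichotomy: without local defects, at most `n` or at least `3 n` blocks are active. -/
lemma dichotomy {z : Cell n k m → Val n m} (hz : ¬ Bad z) :
    (Act z).card ≤ n ∨ 3 * n ≤ (Act z).card := by
  have key : ∀ p : (Act z) × ((Act z)ᶜ : Finset (Fin (4 * n))),
      ∃ t s, z (.tok t s) = .pr p.1.1 p.2.1 := by
    rintro ⟨⟨u, hu⟩, ⟨v, hv⟩⟩
    simp only [Act, mem_filter, mem_univ, true_and] at hu
    obtain ⟨j, hj⟩ := hu
    rw [mem_compl] at hv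
    refine reach hz hv _ 0 j rfl ?_
    have := hz
    simp only [Bad, not_or, not_exists, not_and] at this
    have h1 := this.1 u v j hj
    simpa using h1
  choose t s hts using key
  have hinj : Function.Injective t := by
    intro p q hpq
    have h1 := hts p
    have h2 := hts q
    rw [hpq] at h1
    by_cases hs : s p = s q
    · rw [hs, h2] at h1
      simp only [Val.pr.injEq] at h1
      exact Prod.ext (Subtype.ext h1.1.symm) (Subtype.ext h1.2.symm)
    · exfalso
      apply hz
      right; right
      refine ⟨t q, s p, s q, hs, ?_, ?_⟩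
      · rw [h1]; simp
      · rw [h2]; simp
  have hc := Fintype.card_le_of_injective t hinj
  rw [Fintype.card_prod, Fintype.card_coe, Fintype.card_coe, Fintype.card_fin, card_compl,
    Fintype.card_fin] at hc
  have hle : (Act z).card ≤ 4 * n := by
    simpa using card_le_univ (Act z)
  obtain ⟨d, hd⟩ := Nat.exists_eq_add_of_le hle
  have hd' : 4 * n - (Act z).card = d := by omega
  rw [hd'] at hc
  set g := (Act z).card
  by_contra hcon
  push Not at hcon
  obtain ⟨h1, h2⟩ := hcon
  -- g = n + a, d = n + b, with a, b ≥ 1, a + b = 2 n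
  obtain ⟨a, ha⟩ := Nat.exists_eq_add_of_lt h1
  have hdn : n < d := by omega
  obtain ⟨b, hb⟩ := Nat.exists_eq_add_of_lt hdn
  have : a + b + 2 = 2 * n := by omega
  rw [ha, hb] at hc
  nlinarith [Nat.zero_le a, Nat.zero_le b, Nat.zero_le (a * b)]

end Pool.Agent.Lib.MP_ff3ed7_lc
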