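import Pool.Agent.Lib.MP_ff3ed7_lc.Func

/-! The Arthur-Merlin protocol, and the passage from cells to bits. -/

open Finset

namespace Pool.Agent.Lib.MP_ff3ed7_lc

variable {n k m : ℕ}

/-- Merlin's replies: an active cell, or a local defect. -/
inductive Msg (n k m : ℕ) : Type
  | hit (j : Fin m) : Msg n k m
  | d1 (u v : Fin (4 * n)) (j : Fin m) : Msg n k m
  | d2 (u v : Fin (4 * n)) (i : Fin (k + 2)) (j : Fin m) : Msg n k m
  | d3 (t : Fin (3 * n ^ 2)) (s s' : Fin m) : Msg n k m
  deriving DecidableEq, Fintype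

/-- Arthur's test, for the random block `v` and Merlin's reply. -/
def test (v : Fin (4 * n)) : Msg n k m → DTree (Cell n k m) (Val n m)
  | .hit j => .node (.arr v v 0 j) fun a => .leaf a.act
  | .d1 u w j => .node (.arr u u 0 j) fun a => .node (.arr u w 0 j) fun b => .leaf (a.act && !b.act)
  | .d2 u w i j => .node (.arr u w i j) fun a => match a with
      | .ptr j' => .node (nxt u w i j') fun b => .leaf (!b.act)
      | .tk t s => .node (.tok t s) fun b => .leaf (!decide (b = .pr u w))
      | _ => .leaf false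
  | .d3 t s s' => .node (.tok t s) fun a => .node (.tok t s') fun b =>
      .leaf (decide (s ≠ s') && (decide (a ≠ .none) && decide (b ≠ .none)))

lemma depthLE_test (v : Fin (4 * n)) (μ : Msg n k m) : (test v μ).DepthLE 2 := by
  cases μ with
  | hit j => exact ⟨by norm_num, fun _ => trivial⟩
  | d1 u w j => exact ⟨by norm_num, fun _ => ⟨by norm_num, fun _ => trivial⟩⟩
  | d2 u w i j =>
    refine ⟨by norm_num, fun a => ?_⟩
    cases a with
    | none => trivial
    | ptr j' => exact ⟨by norm_num, fun _ => trivial⟩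
    | tk t s => exact ⟨by norm_num, fun _ => trivial⟩
    | pr u v => trivial
  | d3 t s s' => exact ⟨by norm_num, fun _ => ⟨by norm_num, fun _ => trivial⟩⟩

lemma eval_test_d2 (v u w : Fin (4 * n)) (i : Fin (k + 2)) (j : Fin m)
    (z : Cell n k m → Val n m) : (test v (.d2 u w i j)).eval z = brk z u w i j := by
  simp only [test, DTree.eval_node, brk]
  cases z (.arr u w i j) <;> rfl

lemma test_sound {z : Cell n k m → Val n m} (hz : ¬ Bad z) {v : Fin (4 * n)} {μ : Msg n k m}
    (h : (test v μ).eval z = true) : v ∈ Act z := by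
  cases μ with
  | hit j =>
    simp only [Act, mem_filter, mem_univ, true_and]
    exact ⟨j, h⟩
  | d1 u w j =>
    exfalso
    apply hz
    left
    refine ⟨u, w, j, ?_⟩
    simpa [test] using h
  | d2 u w i j =>
    exfalso
    apply hz
    right; left
    refine ⟨u, w, i, j, ?_⟩
    rwa [eval_test_d2] at h
  | d3 t s s' =>
    exfalso
    apply hz
    right; right
    refine ⟨t, s, s', ?_⟩
    simpa [test] using h

lemma test_complete_bad {z : Cell n k m → Val n m} (hz : Bad z) (v : Fin (4 * n)) :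
    ∃ μ : Msg n k m, (test v μ).eval z = true := by
  rcases hz with ⟨u, w, j, h1, h2⟩ | ⟨u, w, i, j, h⟩ | ⟨t, s, s', h1, h2, h3⟩
  · exact ⟨.d1 u w j, by simp [test, h1, h2]⟩
  · exact ⟨.d2 u w i j, by rw [eval_test_d2]; exact h⟩
  · exact ⟨.d3 t s s', by simp [test, h1, h2, h3]⟩

lemma test_complete_act {z : Cell n k m → Val n m} {v : Fin (4 * n)} (hv : v ∈ Act z) :
    ∃ μ : Msg n k m, (test v μ).eval z = true := by
  simp only [Act, mem_filter, mem_univ, true_and] at hv
  obtain ⟨j, hj⟩ := hv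
  exact ⟨.hit j, hj⟩

lemma prob_le_of {r : ℕ} {E E' : (Fin r → Bool) → Prop} (h : ∀ ρ, E ρ → E' ρ) :
    prob r E ≤ prob r E' := by
  unfold prob
  apply div_le_div_of_nonneg_right _ (by positivity)
  exact_mod_cast Nat.card_le_card_of_injective (fun ρ : {ρ // E ρ} => (⟨ρ.1, h ρ.1 ρ.2⟩ : {ρ // E' ρ}))
    (fun a b hab => Subtype.ext (by simpa using congrArg Subtype.val hab))

lemma prob_coin {r : ℕ} (hr : 4 * n = 2 ^ r) (c : (Fin r → Bool) ≃ Fin (4 * n))
    (S : Finset (Fin (4 * n))) : prob r (fun ρ => c ρ ∈ S) = (S.card : ℝ) / (4 * n) := by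
  unfold prob
  have h1 : Nat.card {ρ : Fin r → Bool // c ρ ∈ S} = S.card := by
    rw [Nat.card_congr (c.subtypeEquiv (q := fun v => v ∈ S) (fun _ => Iff.rfl))]
    simp
  rw [h1]
  congr 1
  exact_mod_cast hr.symm

/-- The Arthur-Merlin protocol for the cell version. -/
theorem am_upper {r p : ℕ} (hn : 1 ≤ n) (hr : 4 * n = 2 ^ r)
    (hp : Fintype.card (Msg n k m) ≤ 2 ^ p) (hm : 0 < m) :
    HasAM (F (n := n) (k := k) (m := m)) r p 2 := by
  classical
  have c : (Fin r → Bool) ≃ Fin (4 * n) :=
    Fintype.equivFinOfCardEq (by simp [hr])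
  have hne : Nonempty (Msg n k m) := ⟨.hit ⟨0, hm⟩⟩
  obtain ⟨dec, hdec⟩ : ∃ dec : (Fin p → Bool) → Msg n k m, Function.Surjective dec := by
    have hle : Fintype.card (Msg n k m) ≤ Fintype.card (Fin p → Bool) := by simpa using hp
    obtain ⟨emb⟩ := Function.Embedding.nonempty_of_card_le hle
    exact ⟨Function.invFun emb, Function.invFun_surjective emb.injective⟩
  have hn' : (0 : ℝ) < 4 * n := by positivity
  refine ⟨fun y ρ => test (c ρ) (dec y), fun y ρ => depthLE_test _ _, fun x hx => ?_,
    fun x hx => ?_⟩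
  · by_cases hbad : Bad x
    · have h1 : prob r (fun ρ => c ρ ∈ (univ : Finset (Fin (4 * n)))) ≤
          prob r fun ρ => ∃ y, (test (c ρ) (dec y)).eval x = true := by
        apply prob_le_of
        intro ρ _
        obtain ⟨μ, hμ⟩ := test_complete_bad hbad (c ρ)
        obtain ⟨y, rfl⟩ := hdec μ
        exact ⟨y, hμ⟩
      rw [prob_coin hr] at h1
      refine le_trans ?_ h1
      rw [card_univ, Fintype.card_fin, le_div_iff₀ hn']
      push_cast
      linarith
    · have h0 : 3 * n ≤ (Act x).card := by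
        rw [F_eq_true] at hx
        have := dichotomy hbad
        rcases hx with hx | hx
        · exact absurd hx hbad
        · omega
      have h1 : prob r (fun ρ => c ρ ∈ Act x) ≤
          prob r fun ρ => ∃ y, (test (c ρ) (dec y)).eval x = true := by
        apply prob_le_of
        intro ρ hρ
        obtain ⟨μ, hμ⟩ := test_complete_act hρ
        obtain ⟨y, rfl⟩ := hdec μ
        exact ⟨y, hμ⟩
      rw [prob_coin hr] at h1
      refine le_trans ?_ h1
      rw [le_div_iff₀ hn']
      have : (3 * n : ℝ) ≤ (Act x).card := by exact_mod_cast h0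
      linarith
  · rw [F_eq_false] at hx
    have h1 : prob r (fun ρ => ∃ y, (test (c ρ) (dec y)).eval x = true) ≤
        prob r (fun ρ => c ρ ∈ Act x) := by
      apply prob_le_of
      rintro ρ ⟨y, hy⟩
      exact test_sound hx.1 hy
    rw [prob_coin hr] at h1
    refine h1.trans ?_
    rw [div_le_iff₀ hn']
    have : ((Act x).card : ℝ) ≤ n := by exact_mod_cast hx.2
    linarith

/-! ### From cells to bits -/

section bits

variable {ι σ : Type}

/-- Replace a query to a cell by queries to its `b` bits. -/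
def DTree.expand {b : ℕ} (dec : (Fin b → Bool) → σ) : DTree ι σ → DTree (ι × Fin b) Bool
  | .leaf a => .leaf a
  | .node c f => DTree.readAll b (fun i => (c, i)) fun bits => (f (dec bits)).expand dec

lemma DTree.eval_expand {b : ℕ} (dec : (Fin b → Bool) → σ) (t : DTree ι σ)
    (x : ι × Fin b → Bool) : (t.expand dec).eval x = t.eval fun c => dec fun i => x (c, i) := by
  induction t with
  | leaf a => rfl
  | node c f ih =>
    simp only [expand, eval_readAll, ih, eval_node]

lemma DTree.depthLE_expand {b : ℕ} (dec : (Fin b → Bool) → σ) {t : DTree ι σ} {d : ℕ}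
    (h : t.DepthLE d) : (t.expand dec).DepthLE (b * d) := by
  induction t generalizing d with
  | leaf a => trivial
  | node c f ih =>
    obtain ⟨h0, h1⟩ := h
    simp only [expand]
    have := DTree.depthLE_readAll (c := fun i => (c, i)) (b := b)
      (k := fun bits => (f (dec bits)).expand dec) (fun a => ih _ (h1 _))
    refine this.mono ?_
    obtain ⟨d', rfl⟩ := Nat.exists_eq_succ_of_ne_zero h0.ne'
    simp only [Nat.succ_eq_add_one, Nat.add_sub_cancel]
    rw [mul_add]; omega

/-- The Boolean version of a function of cells. -/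
def bitFun {b : ℕ} (dec : (Fin b → Bool) → σ) (f : (ι → σ) → Bool) : (ι × Fin b → Bool) → Bool :=
  fun x => f fun c => dec fun i => x (c, i)

lemma hasAM_bitFun {b : ℕ} (dec : (Fin b → Bool) → σ) (f : (ι → σ) → Bool) {r p q : ℕ}
    (h : HasAM f r p q) : HasAM (bitFun dec f) r p (b * q) := by
  obtain ⟨T, h1, h2, h3⟩ := h
  refine ⟨fun y ρ => (T y ρ).expand dec, fun y ρ => DTree.depthLE_expand dec (h1 y ρ), ?_, ?_⟩
  · intro x hx
    simp only [DTree.eval_expand]
    exact h2 _ hx
  · intro x hx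
    simp only [DTree.eval_expand]
    exact h3 _ hx

lemma hasMA_of_bitFun {b : ℕ} (dec : (Fin b → Bool) → σ) (enc : σ → (Fin b → Bool))
    (hde : ∀ s, dec (enc s) = s) (f : (ι → σ) → Bool) {p q : ℕ}
    (h : HasMA (bitFun dec f) p q) : HasMA f p q := by
  obtain ⟨r, T, h1, h2, h3⟩ := h
  have hkey : ∀ x : ι → σ, bitFun dec f (fun c => enc (x c.1) c.2) = f x := by
    intro x
    simp only [bitFun]
    congr 1
    funext c
    exact hde (x c)
  refine ⟨r, fun y ρ => (T y ρ).conv Prod.fst (fun c s => enc s c.2),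
    fun y ρ => DTree.depthLE_conv (h1 y ρ), ?_, ?_⟩
  · intro x hx
    simp only [DTree.eval_conv]
    exact h2 (fun c => enc (x c.1) c.2) (by rw [hkey]; exact hx)
  · intro x hx y
    simp only [DTree.eval_conv]
    exact h3 (fun c => enc (x c.1) c.2) (by rw [hkey]; exact hx) y

lemma HasMA.mono {f : (ι → σ) → Bool} {p q p' q' : ℕ} (h : HasMA f p q) (hp : p ≤ p')
    (hq : q ≤ q') : HasMA f p' q' := by
  obtain ⟨r, T, h1, h2, h3⟩ := h
  refine ⟨r, fun y ρ => T (fun i => y (Fin.castLE hp i)) ρ, fun y ρ => (h1 _ ρ).mono hq, ?_, ?_⟩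
  · intro x hx
    obtain ⟨y, hy⟩ := h2 x hx
    refine ⟨fun i => if h : i.1 < p then y ⟨i.1, h⟩ else false, ?_⟩
    simpa using hy
  · intro x hx y
    exact h3 x hx _

lemma HasMA.reindex {κ : Type} (e : κ ≃ ι) {f : (ι → σ) → Bool} {p q : ℕ}
    (h : HasMA (fun x : κ → σ => f fun i => x (e.symm i)) p q) : HasMA f p q := by
  obtain ⟨r, T, h1, h2, h3⟩ := h
  refine ⟨r, fun y ρ => (T y ρ).conv e (fun _ s => s), fun y ρ => DTree.depthLE_conv (h1 y ρ),
    ?_, ?_⟩
  · intro x hx
    simp only [DTree.eval_conv]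
    exact h2 (fun c => x (e c)) (by simpa using hx)
  · intro x hx y
    simp only [DTree.eval_conv]
    exact h3 (fun c => x (e c)) (by simpa using hx) y

lemma HasAM.reindex {κ : Type} (e : κ ≃ ι) {f : (ι → σ) → Bool} {r p q : ℕ}
    (h : HasAM f r p q) : HasAM (fun x : κ → σ => f fun i => x (e.symm i)) r p q := by
  obtain ⟨T, h1, h2, h3⟩ := h
  refine ⟨fun y ρ => (T y ρ).conv e.symm (fun _ s => s), fun y ρ => DTree.depthLE_conv (h1 y ρ),
    ?_, ?_⟩
  · intro x hx
    simp only [DTree.eval_conv]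
    exact h2 _ hx
  · intro x hx
    simp only [DTree.eval_conv]
    exact h3 _ hx

end bits

end Pool.Agent.Lib.MP_ff3ed7_lc
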