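import Pool.Agent.Lib.MP_ff3ed7_lc.Tab
import Pool.Agent.Lib.MP_ff3ed7_lc.Upper

/-!
The system of quadratic equations which expresses at most `n` or at least `3 n` of the `4 n`
blocks contain a one, and the total function built on it.
-/

open Finset

namespace Pool.Agent.Lib.MP_ff3ed7_lc

/-- Variables. -/
inductive GX (n m : ℕ) : Type
  /-- the bits of the blocks -/
  | z (v : Fin (4 * n)) (j : Fin m) : GX n m
  /-- `h v j`: one of the first `j` bits of block `v` is one -/
  | h (v : Fin (4 * n)) (j : Fin (m + 1)) : GX n m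
  /-- the secret bit -/
  | b : GX n m
  /-- `x v t`: block `v` is mapped to `t` -/
  | x (v : Fin (4 * n)) (t : Fin n) : GX n m
  /-- `y v t`: block `v` is mapped to an element smaller than `t` -/
  | y (v : Fin (4 * n)) (t : Fin (n + 1)) : GX n m
  deriving DecidableEq, Fintype

/-- Equations. -/
inductive GQ (n m : ℕ) : Type
  | c1 (v : Fin (4 * n)) : GQ n m
  | c2 (v : Fin (4 * n)) (j : Fin m) : GQ n m
  | c3 (v : Fin (4 * n)) : GQ n m
  | c4 (v : Fin (4 * n)) (t : Fin n) : GQ n m
  | c5 (v : Fin (4 * n)) : GQ n m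
  | c6 (v w : Fin (4 * n)) (t : Fin n) : GQ n m
  deriving DecidableEq, Fintype

variable {n m μ : ℕ}

/-- The system. -/
def gapSys (n m : ℕ) : Sys (Fin (4 * n) × Fin m) (GX n m) (GQ n m) where
  pv p := .z p.1 p.2
  eqn q := match q with
    | .c1 v => ⟨⟨0, [.h v 0]⟩, ⟨1, []⟩, ⟨0, []⟩⟩
    | .c2 v j => ⟨⟨1, [.h v j.castSucc]⟩, ⟨1, [.z v j]⟩, ⟨1, [.h v j.succ]⟩⟩
    | .c3 v => ⟨⟨0, [.y v 0]⟩, ⟨1, []⟩, ⟨0, []⟩⟩
    | .c4 v t => ⟨⟨1, [.y v t.castSucc]⟩, ⟨1, [.x v t]⟩, ⟨1, [.y v t.succ]⟩⟩
    | .c5 v => ⟨⟨0, [.h v (Fin.last m), .b]⟩, ⟨1, [.y v (Fin.last n)]⟩, ⟨0, []⟩⟩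
    | .c6 v w t => ⟨⟨0, if v = w then [] else [.x v t]⟩, ⟨0, [.x w t]⟩, ⟨0, []⟩⟩

/-- The blocks which contain a one. -/
def ones (z : Fin (4 * n) → Fin m → ZMod 2) : Finset (Fin (4 * n)) :=
  univ.filter fun v => ∃ j, z v j = 1

lemma zmod2_cases (a : ZMod 2) : a = 0 ∨ a = 1 := by
  fin_cases a
  · exact Or.inl rfl
  · exact Or.inr rfl

lemma zmod2_ne_one {a : ZMod 2} (h : a ≠ 1) : a = 0 := (zmod2_cases a).resolve_right h

/-- Chains of equations `(1 + c (i+1)) = (1 + c i) (1 + d i)`, `c 0 = 0`, compute disjunctions. -/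
lemma or_chain {M : ℕ} (c : Fin (M + 1) → ZMod 2) (d : Fin M → ZMod 2) (h0 : c 0 = 0)
    (hS : ∀ i : Fin M, (1 + c i.castSucc) * (1 + d i) = 1 + c i.succ) (k : Fin (M + 1)) :
    c k = 1 ↔ ∃ i : Fin M, i.castSucc < k ∧ d i = 1 := by
  induction k using Fin.induction with
  | zero => simp [h0]
  | succ i ih =>
    have key : c i.succ = 1 ↔ (c i.castSucc = 1 ∨ d i = 1) := by
      have h := hS i
      rcases zmod2_cases (c i.castSucc) with h1 | h1 <;> rcases zmod2_cases (d i) with h2 | h2 <;>
        rcases zmod2_cases (c i.succ) with h3 | h3 <;> rw [h1, h2, h3] at h ⊢ <;>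
        revert h <;> decide
    rw [key, ih]
    constructor
    · rintro (⟨j, hj, hd⟩ | hd)
      · exact ⟨j, hj.trans (Fin.castSucc_lt_succ), hd⟩
      · exact ⟨i, Fin.castSucc_lt_succ, hd⟩
    · rintro ⟨j, hj, hd⟩
      by_cases hji : j = i
      · right; rw [← hji]; exact hd
      · left
        refine ⟨j, ?_, hd⟩
        simp only [Fin.lt_def, Fin.val_castSucc, Fin.val_succ] at hj ⊢
        have : j.1 ≠ i.1 := fun h => hji (Fin.ext h)
        omega

/-- Soundness of the system. -/
lemma gap_sound {g : GX n m → ZMod 2} (hg : ∀ q, ((gapSys n m).eqn q).Sat g) :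
    (ones fun v j => g (.z v j)).card ≤ n ∨ 3 * n ≤ (ones fun v j => g (.z v j)).card := by
  classical
  have hh : ∀ v, g (.h v (Fin.last m)) = 1 ↔ ∃ j, g (.z v j) = 1 := by
    intro v
    have h0 : g (.h v 0) = 0 := by
      have := hg (.c1 v)
      simpa [Eqn.Sat, gapSys, Aff.ev, Aff.lin] using this
    have := or_chain (fun k => g (.h v k)) (fun j => g (.z v j)) h0 (fun i => by
      have := hg (.c2 v i)
      simpa [Eqn.Sat, gapSys, Aff.ev, Aff.lin] using this) (Fin.last m)
    rw [this]
    simp [Fin.castSucc_lt_last]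
  have hy : ∀ v, g (.y v (Fin.last n)) = 1 ↔ ∃ t, g (.x v t) = 1 := by
    intro v
    have h0 : g (.y v 0) = 0 := by
      have := hg (.c3 v)
      simpa [Eqn.Sat, gapSys, Aff.ev, Aff.lin] using this
    have := or_chain (fun k => g (.y v k)) (fun j => g (.x v j)) h0 (fun i => by
      have := hg (.c4 v i)
      simpa [Eqn.Sat, gapSys, Aff.ev, Aff.lin] using this) (Fin.last n)
    rw [this]
    simp [Fin.castSucc_lt_last]
  have h5 : ∀ v, g (.h v (Fin.last m)) ≠ g .b → ∃ t, g (.x v t) = 1 := by
    intro v hv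
    rw [← hy]
    have := hg (.c5 v)
    simp only [Eqn.Sat, gapSys, Aff.ev, Aff.lin, List.map_cons, List.map_nil, List.sum_cons,
      List.sum_nil, add_zero, zero_add] at this
    rcases zmod2_cases (g (.h v (Fin.last m))) with h1 | h1 <;>
      rcases zmod2_cases (g .b) with h2 | h2 <;>
      rcases zmod2_cases (g (.y v (Fin.last n))) with h3 | h3 <;>
      rw [h1, h2] at hv <;> rw [h1, h2, h3] at this <;> rw [h3] <;> revert this hv <;> decide
  have h6 : ∀ v w t, g (.x v t) = 1 → g (.x w t) = 1 → v = w := by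
    intro v w t h1 h2
    by_contra hvw
    have := hg (.c6 v w t)
    simp [Eqn.Sat, gapSys, Aff.ev, Aff.lin, hvw, h1, h2] at this
  -- an injection from the deviating blocks
  have hcard : (univ.filter fun v => g (.h v (Fin.last m)) ≠ g .b).card ≤ n := by
    rcases Nat.eq_zero_or_pos n with hn0 | hn
    · refine (card_le_univ _).trans ?_
      rw [Fintype.card_fin, hn0]
    have : Nonempty (Fin n) := ⟨⟨0, hn⟩⟩
    choose! t ht using h5
    have : Set.InjOn t ((univ.filter fun v => g (.h v (Fin.last m)) ≠ g .b :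
        Finset (Fin (4 * n))) : Set (Fin (4 * n))) := by
      intro v hv w hw hvw
      simp only [coe_filter, mem_univ, true_and, Set.mem_ofPred_eq] at hv hw
      have h1 := ht v hv
      have h2 := ht w hw
      rw [hvw] at h1
      exact h6 v w _ h1 h2
    have h7 := card_le_card_of_injOn t (fun v _ => mem_coe.mpr (mem_univ (t v))) this
    simpa using h7
  rcases zmod2_cases (g .b) with hb | hb
  · left
    refine le_trans (card_le_card ?_) hcard
    intro v hv
    simp only [ones, mem_filter, mem_univ, true_and] at hv ⊢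
    rw [(hh v).mpr hv, hb]
    decide
  · right
    have h8 : (ones fun v j => g (.z v j))ᶜ ⊆
        univ.filter fun v => g (.h v (Fin.last m)) ≠ g .b := by
      intro v hv
      rw [mem_compl] at hv
      simp only [ones, mem_filter, mem_univ, true_and] at hv ⊢
      rw [hb]
      exact fun h => hv ((hh v).mp h)
    have h9 := (card_le_card h8).trans hcard
    rw [card_compl, Fintype.card_fin] at h9
    omega

/-- Completeness of the system. -/
lemma gap_complete (z : Fin (4 * n) → Fin m → ZMod 2)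
    (hz : (ones z).card ≤ n ∨ 3 * n ≤ (ones z).card) :
    ∃ g : GX n m → ZMod 2, (∀ q, ((gapSys n m).eqn q).Sat g) ∧ ∀ v j, g (.z v j) = z v j := by
  classical
  -- the deviating blocks
  obtain ⟨b, hb⟩ : ∃ b : ZMod 2,
      (univ.filter fun v => (if v ∈ ones z then (1 : ZMod 2) else 0) ≠ b).card ≤ n := by
    rcases hz with h | h
    · refine ⟨0, le_trans (card_le_card ?_) h⟩
      intro v hv
      simp only [mem_filter, mem_univ, true_and] at hv
      by_contra hvo
      rw [if_neg hvo] at hv
      exact hv rfl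
    · refine ⟨1, ?_⟩
      have : (univ.filter fun v => (if v ∈ ones z then (1 : ZMod 2) else 0) ≠ 1) ⊆ (ones z)ᶜ := by
        intro v hv
        simp only [mem_filter, mem_univ, true_and] at hv
        rw [mem_compl]
        intro hvo
        rw [if_pos hvo] at hv
        exact hv rfl
      have h1 := card_le_card this
      rw [card_compl, Fintype.card_fin] at h1
      omega
  set Dv := univ.filter fun v => (if v ∈ ones z then (1 : ZMod 2) else 0) ≠ b with hDv
  obtain ⟨emb⟩ : Nonempty (Dv ↪ Fin n) :=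
    Function.Embedding.nonempty_of_card_le (by simpa using hb)
  -- the values
  let xv : Fin (4 * n) → Fin n → ZMod 2 := fun v t =>
    if h : v ∈ Dv then (if emb ⟨v, h⟩ = t then 1 else 0) else 0
  let orv : {M : ℕ} → (Fin M → ZMod 2) → Fin (M + 1) → ZMod 2 := fun d k =>
    if ∃ i, i.castSucc < k ∧ d i = 1 then 1 else 0
  have orv0 : ∀ {M : ℕ} (d : Fin M → ZMod 2), orv d 0 = 0 := by
    intro M d; simp [orv]
  have orvS : ∀ {M : ℕ} (d : Fin M → ZMod 2) (i : Fin M),
      (1 + orv d i.castSucc) * (1 + d i) = 1 + orv d i.succ := by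
    intro M d i
    by_cases h1 : ∃ j, j.castSucc < i.castSucc ∧ d j = 1
    · have h2 : ∃ j : Fin M, j.castSucc < i.succ ∧ d j = 1 := by
        obtain ⟨j, hj, hd⟩ := h1
        exact ⟨j, hj.trans (Fin.castSucc_lt_succ), hd⟩
      simp only [orv, if_pos h1, if_pos h2]
      have : (1 + 1 : ZMod 2) = 0 := by decide
      rw [this, zero_mul]
    · by_cases h3 : d i = 1
      · have h2 : ∃ j : Fin M, j.castSucc < i.succ ∧ d j = 1 := ⟨i, Fin.castSucc_lt_succ, h3⟩
        simp only [orv, if_neg h1, if_pos h2, h3]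
        decide
      · have h2 : ¬ ∃ j : Fin M, j.castSucc < i.succ ∧ d j = 1 := by
          rintro ⟨j, hj, hd⟩
          by_cases hji : j = i
          · rw [hji] at hd; exact h3 hd
          · apply h1
            refine ⟨j, ?_, hd⟩
            simp only [Fin.lt_def, Fin.val_castSucc, Fin.val_succ] at hj ⊢
            have : j.1 ≠ i.1 := fun h => hji (Fin.ext h)
            omega
        simp only [orv, if_neg h1, if_neg h2]
        rw [zmod2_ne_one h3]
        ring
  let g : GX n m → ZMod 2 := fun c => match c with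
    | .z v j => z v j
    | .h v k => orv (z v) k
    | .b => b
    | .x v t => xv v t
    | .y v k => orv (xv v) k
  refine ⟨g, ?_, fun v j => rfl⟩
  intro q
  cases q with
  | c1 v => simp [Eqn.Sat, gapSys, Aff.ev, Aff.lin, g, orv0]
  | c2 v j => simpa [Eqn.Sat, gapSys, Aff.ev, Aff.lin, g] using orvS (z v) j
  | c3 v => simp [Eqn.Sat, gapSys, Aff.ev, Aff.lin, g, orv0]
  | c4 v t => simpa [Eqn.Sat, gapSys, Aff.ev, Aff.lin, g] using orvS (xv v) t
  | c5 v =>
    simp only [Eqn.Sat, gapSys, Aff.ev, Aff.lin, List.map_cons, List.map_nil, List.sum_cons,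
      List.sum_nil, add_zero, zero_add, g]
    have hl : orv (z v) (Fin.last m) = if v ∈ ones z then 1 else 0 := by
      simp [orv, ones, Fin.castSucc_lt_last]
    rw [hl]
    by_cases hv : v ∈ Dv
    · have hy : orv (xv v) (Fin.last n) = 1 := by
        have : ∃ i : Fin n, i.castSucc < Fin.last n ∧ xv v i = 1 :=
          ⟨emb ⟨v, hv⟩, Fin.castSucc_lt_last _, by simp [xv, hv]⟩
        simp only [orv, if_pos this]
      rw [hy]
      have : (1 + 1 : ZMod 2) = 0 := by decide
      rw [this, mul_zero]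
    · have : (if v ∈ ones z then (1 : ZMod 2) else 0) = b := by
        by_contra h
        exact hv (by rw [hDv, mem_filter]; exact ⟨mem_univ _, h⟩)
      rw [this, CharTwo.add_self_eq_zero, zero_mul]
  | c6 v w t =>
    by_cases hvw : v = w
    · simp [Eqn.Sat, gapSys, Aff.ev, Aff.lin, hvw]
    · simp only [Eqn.Sat, gapSys, Aff.ev, Aff.lin, if_neg hvw, List.map_cons, List.map_nil,
        List.sum_cons, List.sum_nil, add_zero, zero_add, g]
      by_contra hne
      have h1 : xv v t = 1 := by
        by_contra h; rw [zmod2_ne_one h] at hne; simp at hne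
      have h2 : xv w t = 1 := by
        by_contra h; rw [zmod2_ne_one h] at hne; simp at hne
      simp only [xv] at h1 h2
      by_cases hv : v ∈ Dv
      · by_cases hw : w ∈ Dv
        · rw [dif_pos hv] at h1
          rw [dif_pos hw] at h2
          have e1 : emb ⟨v, hv⟩ = t := by by_contra h; rw [if_neg h] at h1; exact zero_ne_one h1
          have e2 : emb ⟨w, hw⟩ = t := by by_contra h; rw [if_neg h] at h2; exact zero_ne_one h2
          have := emb.injective (e1.trans e2.symm)
          exact hvw (congrArg Subtype.val this)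
        · rw [dif_neg hw] at h2; exact zero_ne_one h2
      · rw [dif_neg hv] at h1; exact zero_ne_one h1

/-- Cells of the total function. -/
abbrev GCell (n m μ : ℕ) : Type := TCell (Fin (4 * n) × Fin m) (GX n m) (GQ n m) μ

/-- The public bits. -/
def pubs (a : GCell n m μ → ZMod 2) : Fin (4 * n) → Fin m → ZMod 2 := fun v j => a (.pub (v, j))

open Classical in
/-- The total function: a local check fails, or more than `n` blocks contain a one. -/
noncomputable def F2 (a : GCell n m μ → ZMod 2) : Bool :=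
  decide (¬ Valid (gapSys n m) a ∨ n < (ones (pubs a)).card)

lemma F2_eq_true {a : GCell n m μ → ZMod 2} :
    F2 a = true ↔ (¬ Valid (gapSys n m) a ∨ n < (ones (pubs a)).card) := by
  simp [F2]

lemma F2_eq_false {a : GCell n m μ → ZMod 2} :
    F2 a = false ↔ (Valid (gapSys n m) a ∧ (ones (pubs a)).card ≤ n) := by
  rw [← Bool.not_eq_true, F2_eq_true, not_or, not_lt, not_not]

lemma dichotomy2 {a : GCell n m μ → ZMod 2} (h : Valid (gapSys n m) a) :
    (ones (pubs a)).card ≤ n ∨ 3 * n ≤ (ones (pubs a)).card := by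
  obtain ⟨h1, h2⟩ := h.sound
  have h3 := gap_sound h1
  have h4 : pubs a = fun v j => ∑ i, a (.sh (.z v j) i) := by
    funext v j
    exact h2 (v, j)
  rw [h4]; exact h3

end Pool.Agent.Lib.MP_ff3ed7_lc
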