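import Pool.Agent.Lib.MP_ff3ed7_lc.Defs

/-! Oracle protocols. -/

namespace Pool.Agent.Lib.MP_ff3ed7_lc

/-- All queries of the tree satisfy `P`. -/
def DTree.AllQ {ι σ : Type} (P : ι → Prop) : DTree ι σ → Prop
  | .leaf _ => True
  | .node i next => P i ∧ ∀ s, (next s).AllQ P

/-- A verifier with access to an oracle `A ⊆ {0,1}*`, coded by `List Bool → Bool`.  On input `x`,
with Merlin's message `y` and random bits `ρ`, it runs a decision tree which queries the oracle.
The length of the message, the number of random bits, the number of oracle queries and the lengths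
of the queried strings are bounded by `|x| ^ c + c` for some `c`.  There is no other restriction on
its computing power. -/
structure Verifier where
  /-- length of the message -/
  msg : ℕ → ℕ
  /-- number of random bits -/
  coins : ℕ → ℕ
  /-- the decision tree -/
  tree : (x : List Bool) → (Fin (msg x.length) → Bool) → (Fin (coins x.length) → Bool) →
    DTree (List Bool) Bool
  /-- the exponent of the polynomial bound -/
  c : ℕ
  msg_le : ∀ n, msg n ≤ n ^ c + c
  coins_le : ∀ n, coins n ≤ n ^ c + c
  depth_le : ∀ x y ρ, (tree x y ρ).DepthLE (x.length ^ c + c)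
  length_le : ∀ x y ρ, (tree x y ρ).AllQ fun s => s.length ≤ x.length ^ c + c

/-- Acceptance probability of `x` when Merlin's message `y` does not depend on the random bits. -/
noncomputable def Verifier.maProb (V : Verifier) (A : List Bool → Bool) (x : List Bool)
    (y : Fin (V.msg x.length) → Bool) : ℝ :=
  prob (V.coins x.length) fun ρ => (V.tree x y ρ).eval A = true

/-- Probability that Merlin, who sees the random bits, can make the verifier accept `x`. -/
noncomputable def Verifier.amProb (V : Verifier) (A : List Bool → Bool) (x : List Bool) : ℝ :=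
  prob (V.coins x.length) fun ρ => ∃ y, (V.tree x y ρ).eval A = true

/-- `V` is a Merlin-Arthur protocol for `L` relative to the oracle `A`. -/
def Verifier.AcceptsMA (V : Verifier) (A : List Bool → Bool) (L : Set (List Bool)) : Prop :=
  ∀ x, (x ∈ L → ∃ y, 2 / 3 ≤ V.maProb A x y) ∧ (x ∉ L → ∀ y, V.maProb A x y ≤ 1 / 3)

/-- `V` is an Arthur-Merlin protocol for `L` relative to the oracle `A`. -/
def Verifier.AcceptsAM (V : Verifier) (A : List Bool → Bool) (L : Set (List Bool)) : Prop :=
  ∀ x, (x ∈ L → 2 / 3 ≤ V.amProb A x) ∧ (x ∉ L → V.amProb A x ≤ 1 / 3)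

end Pool.Agent.Lib.MP_ff3ed7_lc
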