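import Pool.Agent.Lib.MP_ff3ed7_lc.Total
import Pool.Agent.Lib.MP_ff3ed7_lc.Oracle

/-! The generic oracle theorem. -/

open Finset

namespace Pool.Agent.Lib.MP_ff3ed7_lc

/-- The index set of the input bits of the function for `n = 2 ^ ℓ`. -/
abbrev Ix (ℓ : ℕ) : Type := Cell (2 ^ ℓ) (2 ^ ℓ) (64 * 2 ^ ℓ) × Fin (3 * ℓ + 9)

lemma card_Ix (ℓ : ℕ) : Fintype.card (Ix ℓ) ≤ 2 ^ (5 * ℓ + 16) := by
  rw [Fintype.card_prod, card_cell, Fintype.card_fin]
  set n := 2 ^ ℓ with hn
  have hn1 : 1 ≤ n := Nat.one_le_two_pow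
  have hl : 3 * ℓ + 9 ≤ 2 ^ 4 * n := by
    have : ℓ < 2 ^ ℓ := Nat.lt_two_pow_self
    omega
  have hc : 4 * n * (4 * n * ((n + 2) * (64 * n))) + 3 * n ^ 2 * (64 * n) ≤ 2 ^ 12 * n ^ 4 := by
    nlinarith [Nat.pow_le_pow_right hn1 (show 3 ≤ 4 by norm_num)]
  calc _ ≤ 2 ^ 12 * n ^ 4 * (2 ^ 4 * n) := Nat.mul_le_mul hc hl
    _ = 2 ^ 16 * n ^ 5 := by ring
    _ = 2 ^ (5 * ℓ + 16) := by rw [hn]; ring

/-- Names of the input bits: strings of length `5 ℓ + 16`. -/
lemma exists_code (ℓ : ℕ) : ∃ code : Ix ℓ → List Bool,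
    Function.Injective code ∧ ∀ c, (code c).length = 5 * ℓ + 16 := by
  have hle : Fintype.card (Ix ℓ) ≤ Fintype.card (Fin (5 * ℓ + 16) → Bool) := by
    simpa using card_Ix ℓ
  obtain ⟨emb⟩ := Function.Embedding.nonempty_of_card_le hle
  exact ⟨fun c => List.ofFn (emb c), fun a b h => emb.injective (List.ofFn_injective h),
    fun c => by simp⟩

/-- The names. -/
noncomputable def code (ℓ : ℕ) : Ix ℓ → List Bool := (exists_code ℓ).choose

lemma code_inj (ℓ : ℕ) : Function.Injective (code ℓ) := (exists_code ℓ).choose_spec.1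

lemma length_code (ℓ : ℕ) (c : Ix ℓ) : (code ℓ c).length = 5 * ℓ + 16 :=
  (exists_code ℓ).choose_spec.2 c

/-- The total Boolean functions. -/
noncomputable def fn (ℓ : ℕ) : (Ix ℓ → Bool) → Bool :=
  bitFun (separation_bits ℓ).choose (F (n := 2 ^ ℓ) (k := 2 ^ ℓ) (m := 64 * 2 ^ ℓ))

lemma hasAM_fn (ℓ : ℕ) : HasAM (fn ℓ) (ℓ + 2) (4 * ℓ + 15) (6 * ℓ + 18) :=
  (separation_bits ℓ).choose_spec.1

lemma lower_fn (ℓ p q : ℕ) (h : HasMA (fn ℓ) p q) : 2 ^ ℓ ≤ 15 * (p + 1) * (q + 1) :=
  (separation_bits ℓ).choose_spec.2 p q h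

lemma allQ_conv {ι κ σ τ : Type} {g : ι → κ} {e : ι → τ → σ} {P : κ → Prop} (h : ∀ i, P (g i))
    (t : DTree ι σ) : (t.conv g e).AllQ P := by
  induction t with
  | leaf b => trivial
  | node i f ih => exact ⟨h i, fun s => ih _⟩

lemma poly_aux (ℓ : ℕ) : 6 * ℓ + 18 ≤ ℓ ^ 24 + 24 := by
  rcases Nat.lt_or_ge ℓ 2 with h | h
  · interval_cases ℓ <;> norm_num
  · have h1 : 2 ^ 23 ≤ ℓ ^ 23 := Nat.pow_le_pow_left h 23
    have h2 : ℓ ^ 24 = ℓ ^ 23 * ℓ := pow_succ ℓ 23
    nlinarith

/-- The robust verifier. -/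
noncomputable def robustV : Verifier where
  msg ℓ := 4 * ℓ + 15
  coins ℓ := ℓ + 2
  tree x y ρ := ((hasAM_fn x.length).choose y ρ).conv (code x.length) fun _ s => s
  c := 24
  msg_le ℓ := (by omega : 4 * ℓ + 15 ≤ 6 * ℓ + 18).trans (poly_aux ℓ)
  coins_le ℓ := (by omega : ℓ + 2 ≤ 6 * ℓ + 18).trans (poly_aux ℓ)
  depth_le x y ρ := (DTree.depthLE_conv ((hasAM_fn x.length).choose_spec.1 y ρ)).mono
    (poly_aux x.length)
  length_le x y ρ := allQ_conv (fun i => by
    rw [length_code]
    exact (by omega : 5 * x.length + 16 ≤ 6 * x.length + 18).trans (poly_aux _)) _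

/-- The part of the oracle which is used for inputs of length `ℓ`. -/
noncomputable def part (A : List Bool → Bool) (ℓ : ℕ) : Ix ℓ → Bool := fun c => A (code ℓ c)

lemma amProb_yes (A : List Bool → Bool) (x : List Bool) (h : fn x.length (part A x.length) = true) :
    2 / 3 ≤ robustV.amProb A x := by
  have := (hasAM_fn x.length).choose_spec.2.1 (part A x.length) h
  unfold Verifier.amProb robustV
  simp only [DTree.eval_conv]
  exact this

lemma amProb_no (A : List Bool → Bool) (x : List Bool)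
    (h : fn x.length (part A x.length) = false) : robustV.amProb A x ≤ 1 / 3 := by
  have := (hasAM_fn x.length).choose_spec.2.2 (part A x.length) h
  unfold Verifier.amProb robustV
  simp only [DTree.eval_conv]
  exact this

/-! ### Finite use of the oracle -/

/-- The queries of a tree. -/
def DTree.qs {ι : Type} [DecidableEq ι] : DTree ι Bool → Finset ι
  | .leaf _ => ∅
  | .node i f => insert i ((f true).qs ∪ (f false).qs)

lemma DTree.eval_congr {ι : Type} [DecidableEq ι] (t : DTree ι Bool) {A B : ι → Bool}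
    (h : ∀ i ∈ t.qs, A i = B i) : t.eval A = t.eval B := by
  induction t with
  | leaf b => rfl
  | node i f ih =>
    simp only [qs, mem_insert, mem_union] at h
    simp only [eval_node]
    rw [h i (Or.inl rfl)]
    apply ih
    intro j hj
    apply h
    cases hB : B i
    · rw [hB] at hj; exact Or.inr (Or.inr hj)
    · rw [hB] at hj; exact Or.inr (Or.inl hj)

/-- Partial evaluation: queries outside of the range of `g` are answered according to `A`. -/
noncomputable def DTree.restr {ι κ : Type} (g : κ → ι) (A : ι → Bool) :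
    DTree ι Bool → DTree κ Bool := by
  classical
  exact fun t => DTree.rec (fun b => .leaf b)
    (fun i _ ih => if h : ∃ c, g c = i then .node h.choose fun s => ih s else ih (A i)) t

lemma DTree.restr_leaf {ι κ : Type} (g : κ → ι) (A : ι → Bool) (b : Bool) :
    (DTree.leaf b : DTree ι Bool).restr g A = .leaf b := rfl

open Classical in
lemma DTree.restr_node {ι κ : Type} (g : κ → ι) (A : ι → Bool) (i : ι) (f : Bool → DTree ι Bool) :
    (DTree.node i f).restr g A =
      if h : ∃ c, g c = i then .node h.choose fun s => (f s).restr g A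
      else (f (A i)).restr g A := rfl

open Classical in
/-- The oracle which is `z` on the range of `g` and `A` elsewhere. -/
noncomputable def glue {ι κ : Type} (g : κ → ι) (A : ι → Bool) (z : κ → Bool) : ι → Bool :=
  fun i => if h : ∃ c, g c = i then z h.choose else A i

lemma glue_apply {ι κ : Type} {g : κ → ι} (hg : Function.Injective g) (A : ι → Bool)
    (z : κ → Bool) (c : κ) : glue g A z (g c) = z c := by
  unfold glue
  have h : ∃ c', g c' = g c := ⟨c, rfl⟩
  rw [dif_pos h]
  rw [hg h.choose_spec]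

lemma DTree.eval_restr {ι κ : Type} (g : κ → ι) (A : ι → Bool) (t : DTree ι Bool)
    (z : κ → Bool) : (t.restr g A).eval z = t.eval (glue g A z) := by
  induction t with
  | leaf b => rfl
  | node i f ih =>
    rw [DTree.restr_node]
    by_cases h : ∃ c, g c = i
    · rw [dif_pos h]
      simp only [eval_node, ih]
      congr 2
      simp only [glue, dif_pos h]
    · rw [dif_neg h]
      simp only [eval_node, ih]
      congr 2
      simp only [glue, dif_neg h]

lemma DTree.depthLE_restr {ι κ : Type} (g : κ → ι) (A : ι → Bool) {t : DTree ι Bool} {d : ℕ}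
    (h : t.DepthLE d) : (t.restr g A).DepthLE d := by
  induction t generalizing d with
  | leaf b => trivial
  | node i f ih =>
    rw [DTree.restr_node]
    by_cases h' : ∃ c, g c = i
    · rw [dif_pos h']
      exact ⟨h.1, fun s => ih _ (h.2 _)⟩
    · rw [dif_neg h']
      exact (ih _ (h.2 _)).mono (by omega)

/-! ### The theorem -/

/-- `W` works correctly on `x` relative to `A`, for the language given by `fn`. -/
def Good (W : Verifier) (x : List Bool) (A : List Bool → Bool) : Prop :=
  (fn x.length (part A x.length) = true → ∃ y, 2 / 3 ≤ W.maProb A x y) ∧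
  (fn x.length (part A x.length) = false → ∀ y, W.maProb A x y ≤ 1 / 3)

lemma good_congr (W : Verifier) (x : List Bool) : ∃ S : Finset (List Bool),
    ∀ A B : List Bool → Bool, (∀ s ∈ S, A s = B s) → (Good W x A ↔ Good W x B) := by
  classical
  refine ⟨(univ.image (code x.length)) ∪
    univ.biUnion fun p : (Fin (W.msg x.length) → Bool) × (Fin (W.coins x.length) → Bool) =>
      (W.tree x p.1 p.2).qs, ?_⟩
  intro A B hAB
  have h1 : part A x.length = part B x.length := by
    funext c
    exact hAB _ (mem_union_left _ (mem_image_of_mem _ (mem_univ _)))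
  have h2 : ∀ y, W.maProb A x y = W.maProb B x y := by
    intro y
    unfold Verifier.maProb
    congr 1
    funext ρ
    rw [DTree.eval_congr (W.tree x y ρ) (A := A) (B := B)]
    intro s hs
    exact hAB s (mem_union_right _ (mem_biUnion.mpr ⟨(y, ρ), mem_univ _, hs⟩))
  unfold Good
  rw [h1]
  simp only [h2]

lemma exists_large (c M : ℕ) : ∃ ℓ : ℕ, M < 5 * ℓ + 16 ∧
    15 * (ℓ ^ c + c + 1) * (ℓ ^ c + c + 1) < 2 ^ ℓ := by
  have h1 : Filter.Tendsto (fun ℓ : ℕ => ((ℓ : ℝ) ^ (2 * c + 1)) / 2 ^ ℓ) Filter.atTop (nhds 0) :=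
    tendsto_pow_const_div_const_pow_of_one_lt (2 * c + 1) (by norm_num : (1 : ℝ) < 2)
  have h2 := h1.eventually (gt_mem_nhds (show (0 : ℝ) < 1 by norm_num))
  obtain ⟨ℓ, hℓ1, hℓ2⟩ := (h2.and (Filter.eventually_ge_atTop (M + 60 * (c + 2) ^ 2 + 1))).exists
  refine ⟨ℓ, by omega, ?_⟩
  rw [div_lt_one (by positivity)] at hℓ1
  have h3 : ℓ ^ (2 * c + 1) < 2 ^ ℓ := by exact_mod_cast hℓ1
  refine lt_of_le_of_lt ?_ h3
  have hpos : 1 ≤ ℓ := by omega
  have h4 : 1 ≤ ℓ ^ c := Nat.one_le_pow _ _ hpos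
  have h5 : ℓ ^ c + c + 1 ≤ (c + 2) * ℓ ^ c := by nlinarith
  calc 15 * (ℓ ^ c + c + 1) * (ℓ ^ c + c + 1) ≤ 15 * ((c + 2) * ℓ ^ c) * ((c + 2) * ℓ ^ c) := by
        gcongr
    _ = (15 * (c + 2) ^ 2) * ℓ ^ (2 * c) := by rw [two_mul, pow_add]; ring
    _ ≤ ℓ * ℓ ^ (2 * c) := by
        apply Nat.mul_le_mul_right
        have : 15 * (c + 2) ^ 2 ≤ 60 * (c + 2) ^ 2 := Nat.mul_le_mul_right _ (by norm_num)
        omega
    _ = ℓ ^ (2 * c + 1) := by rw [pow_succ]; ring

lemma dense_bad (W : Verifier) (A₀ : List Bool → Bool) (S₀ : Finset (List Bool)) :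
    ∃ A : List Bool → Bool, (∀ s ∈ S₀, A s = A₀ s) ∧ ∃ x, ¬ Good W x A := by
  classical
  obtain ⟨ℓ, h1, h2⟩ := exists_large W.c (S₀.sup List.length)
  set x : List Bool := List.replicate ℓ false with hx
  have hxl : x.length = ℓ := by simp [hx]
  by_contra hcon
  push Not at hcon
  have key : ∀ z : Ix x.length → Bool, Good W x (glue (code x.length) A₀ z) := by
    intro z
    refine hcon _ ?_ x
    intro s hs
    unfold glue
    rw [dif_neg]
    rintro ⟨c, hc⟩
    have h3 : s.length ≤ S₀.sup List.length := le_sup (f := List.length) hs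
    rw [← hc, length_code, hxl] at h3
    omega
  have hpart : ∀ z : Ix x.length → Bool,
      part (glue (code x.length) A₀ z) x.length = z := fun z =>
    funext fun c => glue_apply (code_inj _) A₀ z c
  have hMA : HasMA (fn x.length) (W.msg x.length) (x.length ^ W.c + W.c) := by
    refine ⟨W.coins x.length, fun y ρ => (W.tree x y ρ).restr (code x.length) A₀,
      fun y ρ => DTree.depthLE_restr _ _ (W.depth_le x y ρ), ?_, ?_⟩
    · intro z hz
      have := (key z).1
      rw [hpart] at this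
      obtain ⟨y, hy⟩ := this hz
      refine ⟨y, ?_⟩
      simp only [DTree.eval_restr]
      exact hy
    · intro z hz y
      have := (key z).2
      rw [hpart] at this
      simp only [DTree.eval_restr]
      exact this hz y
  have h3 := lower_fn _ _ _ hMA
  have h4 := W.msg_le x.length
  rw [hxl] at h3 h4
  have h5 : 15 * (W.msg ℓ + 1) * (ℓ ^ W.c + W.c + 1) ≤
      15 * (ℓ ^ W.c + W.c + 1) * (ℓ ^ W.c + W.c + 1) := by
    gcongr
  omega

/-- Relative to comeager many oracles, `W` is not a Merlin-Arthur protocol for our language. -/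
lemma eventually_bad (W : Verifier) :
    ∀ᶠ A in residual (List Bool → Bool), ∃ x, ¬ Good W x A := by
  have hopen : IsOpen {A : List Bool → Bool | ∃ x, ¬ Good W x A} := by
    rw [Set.ofPred_exists]
    apply isOpen_iUnion
    intro x
    obtain ⟨S, hS⟩ := good_congr W x
    rw [isOpen_iff_mem_nhds]
    intro A hA
    have hcyl : (⋂ s ∈ S, {B : List Bool → Bool | B s = A s}) ∈ nhds A := by
      apply (Finset.iInter_mem_sets S).mpr
      intro s _
      have e : {B : List Bool → Bool | B s = A s} =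
          (fun B : List Bool → Bool => B s) ⁻¹' {A s} := by ext B; simp
      rw [e]
      exact ((isOpen_discrete _).preimage (continuous_apply s)).mem_nhds (by simp)
    refine Filter.mem_of_superset hcyl ?_
    intro B hB
    simp only [Set.mem_iInter] at hB
    exact fun h => hA ((hS B A hB).mp h)
  have hdense : Dense {A : List Bool → Bool | ∃ x, ¬ Good W x A} := by
    rw [dense_iff_inter_open]
    intro U hU ⟨A₀, hA₀⟩
    rw [isOpen_pi_iff] at hU
    obtain ⟨S₀, u, h1, h2⟩ := hU A₀ hA₀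
    obtain ⟨A, h3, h4⟩ := dense_bad W A₀ S₀
    refine ⟨A, h2 ?_, h4⟩
    intro s hs
    rw [h3 s hs]
    exact (h1 s hs).2
  exact residual_of_dense_open hopen hdense

theorem generic : ∃ V : Verifier,
    (∀ A x, 2 / 3 ≤ V.amProb A x ∨ V.amProb A x ≤ 1 / 3) ∧
    ∀ W : ℕ → Verifier, ∀ᶠ A in residual (List Bool → Bool),
      ∀ i, ¬ (W i).AcceptsMA A {x | 2 / 3 ≤ V.amProb A x} := by
  refine ⟨robustV, fun A x => ?_, fun W => ?_⟩
  · rcases h : fn x.length (part A x.length) with _ | _
    · exact Or.inr (amProb_no A x h)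
    · exact Or.inl (amProb_yes A x h)
  · rw [eventually_countable_forall]
    intro i
    refine (eventually_bad (W i)).mono ?_
    rintro A ⟨x, hx⟩ hacc
    apply hx
    refine ⟨fun h => (hacc x).1 (amProb_yes A x h), fun h => (hacc x).2 ?_⟩
    intro h'
    have h1 := amProb_no A x h
    have h2 : (2 / 3 : ℝ) ≤ robustV.amProb A x := h'
    linarith

end Pool.Agent.Lib.MP_ff3ed7_lc
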