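import Pool.Agent.Lib.MP_ff3ed7_lc.Oracle

/-! Verifiers used as `Σ₂` machines. -/

namespace Pool.Agent.Lib.MP_ff3ed7_lc

/-- `W`, with the message chosen existentially and the coins chosen universally, is a `Σ₂` machine
for `L` relative to `A`. -/
def Verifier.AcceptsSigma2 (W : Verifier) (A : List Bool → Bool) (L : Set (List Bool)) : Prop :=
  ∀ x, x ∈ L ↔ ∃ y, ∀ ρ, (W.tree x y ρ).eval A = true

end Pool.Agent.Lib.MP_ff3ed7_lc
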