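import Pool.Agent.Lib.MP_ff3ed7_lc.Main
import Pool.Agent.Lib.MP_ff3ed7_lc.Upper

/-! The total Boolean functions. -/

open Finset

namespace Pool.Agent.Lib.MP_ff3ed7_lc

variable {n k m : ℕ}

def cellEquiv : Cell n k m ≃ (Fin (4 * n) × Fin (4 * n) × Fin (k + 2) × Fin m) ⊕
    (Fin (3 * n ^ 2) × Fin m) where
  toFun
    | .arr u v i j => .inl (u, v, i, j)
    | .tok t s => .inr (t, s)
  invFun
    | .inl (u, v, i, j) => .arr u v i j
    | .inr (t, s) => .tok t s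
  left_inv := by rintro (_ | _) <;> rfl
  right_inv := by rintro (_ | _) <;> rfl

lemma card_cell : Fintype.card (Cell n k m) =
    4 * n * (4 * n * ((k + 2) * m)) + 3 * n ^ 2 * m := by
  rw [Fintype.card_congr cellEquiv]
  simp [Fintype.card_sum, Fintype.card_prod]

def valEquiv : Val n m ≃ Unit ⊕ Fin m ⊕ (Fin (3 * n ^ 2) × Fin m) ⊕ (Fin (4 * n) × Fin (4 * n)) where
  toFun
    | .none => .inl ()
    | .ptr j => .inr (.inl j)
    | .tk t s => .inr (.inr (.inl (t, s)))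
    | .pr u v => .inr (.inr (.inr (u, v)))
  invFun
    | .inl () => .none
    | .inr (.inl j) => .ptr j
    | .inr (.inr (.inl (t, s))) => .tk t s
    | .inr (.inr (.inr (u, v))) => .pr u v
  left_inv := by rintro (_ | _ | _ | _) <;> rfl
  right_inv := by rintro (_ | _ | _ | _) <;> rfl

lemma card_val : Fintype.card (Val n m) = 1 + (m + (3 * n ^ 2 * m + 4 * n * (4 * n))) := by
  rw [Fintype.card_congr valEquiv]
  simp [Fintype.card_sum, Fintype.card_prod]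

def msgEquiv : Msg n k m ≃ Fin m ⊕ (Fin (4 * n) × Fin (4 * n) × Fin m) ⊕
    (Fin (4 * n) × Fin (4 * n) × Fin (k + 2) × Fin m) ⊕ (Fin (3 * n ^ 2) × Fin m × Fin m) where
  toFun
    | .hit j => .inl j
    | .d1 u v j => .inr (.inl (u, v, j))
    | .d2 u v i j => .inr (.inr (.inl (u, v, i, j)))
    | .d3 t s s' => .inr (.inr (.inr (t, s, s')))
  invFun
    | .inl j => .hit j
    | .inr (.inl (u, v, j)) => .d1 u v j
    | .inr (.inr (.inl (u, v, i, j))) => .d2 u v i j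
    | .inr (.inr (.inr (t, s, s'))) => .d3 t s s'
  left_inv := by rintro (_ | _ | _ | _) <;> rfl
  right_inv := by rintro (_ | _ | _ | _) <;> rfl

lemma card_msg : Fintype.card (Msg n k m) = m + (4 * n * (4 * n * m) +
    (4 * n * (4 * n * ((k + 2) * m)) + 3 * n ^ 2 * (m * m))) := by
  rw [Fintype.card_congr msgEquiv]
  simp [Fintype.card_sum, Fintype.card_prod]

/-- Decoding of cell contents. -/
lemma exists_dec {σ : Type} [Fintype σ] [Nonempty σ] {b : ℕ} (h : Fintype.card σ ≤ 2 ^ b) :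
    ∃ (dec : (Fin b → Bool) → σ) (enc : σ → (Fin b → Bool)), ∀ s, dec (enc s) = s := by
  have hle : Fintype.card σ ≤ Fintype.card (Fin b → Bool) := by simpa using h
  obtain ⟨emb⟩ := Function.Embedding.nonempty_of_card_le hle
  exact ⟨Function.invFun emb, emb, Function.leftInverse_invFun emb.injective⟩

/-- The Boolean version of the function, for `n = 2 ^ ℓ`. -/
theorem separation_bits (ℓ : ℕ) :
    ∃ (dec : (Fin (3 * ℓ + 9) → Bool) → Val (2 ^ ℓ) (64 * 2 ^ ℓ)),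
      HasAM (bitFun dec (F (n := 2 ^ ℓ) (k := 2 ^ ℓ) (m := 64 * 2 ^ ℓ)))
        (ℓ + 2) (4 * ℓ + 15) (6 * ℓ + 18) ∧
      ∀ p q, HasMA (bitFun dec (F (n := 2 ^ ℓ) (k := 2 ^ ℓ) (m := 64 * 2 ^ ℓ))) p q →
        2 ^ ℓ ≤ 15 * (p + 1) * (q + 1) := by
  set n := 2 ^ ℓ with hn
  have hn1 : 1 ≤ n := Nat.one_le_two_pow
  have hval : Fintype.card (Val n (64 * n)) ≤ 2 ^ (3 * ℓ + 9) := by
    rw [card_val, pow_add, mul_comm 3 ℓ, pow_mul, ← hn]
    nlinarith [Nat.pow_le_pow_right hn1 (show 1 ≤ 3 by norm_num),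
      Nat.pow_le_pow_right hn1 (show 2 ≤ 3 by norm_num),
      Nat.pow_le_pow_right hn1 (show 0 ≤ 3 by norm_num)]
  have hmsg : Fintype.card (Msg n n (64 * n)) ≤ 2 ^ (4 * ℓ + 15) := by
    rw [card_msg, pow_add, mul_comm 4 ℓ, pow_mul, ← hn]
    nlinarith [Nat.pow_le_pow_right hn1 (show 1 ≤ 4 by norm_num),
      Nat.pow_le_pow_right hn1 (show 3 ≤ 4 by norm_num)]
  have : Nonempty (Val n (64 * n)) := ⟨.none⟩
  obtain ⟨dec, enc, hde⟩ := exists_dec hval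
  refine ⟨dec, ?_, ?_⟩
  · have h := hasAM_bitFun dec _ (am_upper (n := n) (k := n) (m := 64 * n) (r := ℓ + 2)
      (p := 4 * ℓ + 15) hn1 (by rw [hn, pow_add]; ring) hmsg (by omega))
    rwa [show (3 * ℓ + 9) * 2 = 6 * ℓ + 18 by ring] at h
  · intro p q h
    have h2 := hasMA_of_bitFun dec enc hde _ h
    exact ma_lower (P := p + 1) (q := q + 1) (by omega) (by omega)
      (h2.mono (Nat.le_succ _) (Nat.le_succ _)) (by omega) le_rfl

theorem total_separation (ℓ : ℕ) : ∃ (N : ℕ) (f : (Fin N → Bool) → Bool),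
    2 ^ (4 * ℓ) ≤ N ∧ N ≤ 2 ^ (5 * ℓ + 16) ∧
    HasAM f (ℓ + 2) (4 * ℓ + 15) (6 * ℓ + 18) ∧
    ∀ p q, HasMA f p q → 2 ^ ℓ ≤ 15 * (p + 1) * (q + 1) := by
  obtain ⟨dec, h1, h2⟩ := separation_bits ℓ
  set n := 2 ^ ℓ with hn
  have hn1 : 1 ≤ n := Nat.one_le_two_pow
  let N := Fintype.card (Cell n n (64 * n) × Fin (3 * ℓ + 9))
  let e : Fin N ≃ Cell n n (64 * n) × Fin (3 * ℓ + 9) := (Fintype.equivFin _).symm
  have hN : N = (4 * n * (4 * n * ((n + 2) * (64 * n))) + 3 * n ^ 2 * (64 * n)) * (3 * ℓ + 9) := by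
    change Fintype.card (Cell n n (64 * n) × Fin (3 * ℓ + 9)) = _
    rw [Fintype.card_prod, card_cell, Fintype.card_fin]
  refine ⟨N, _, ?_, ?_, h1.reindex e, fun p q h => h2 p q (HasMA.reindex e h)⟩
  · rw [hN, mul_comm 4 ℓ, pow_mul, ← hn]
    nlinarith [Nat.zero_le ℓ, Nat.zero_le (n ^ 4), Nat.zero_le (n ^ 3), Nat.zero_le (ℓ * n ^ 4),
      Nat.zero_le (ℓ * n ^ 3)]
  · have hl : 3 * ℓ + 9 ≤ 2 ^ 4 * n := by
      have : ℓ < 2 ^ ℓ := Nat.lt_two_pow_self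
      omega
    have hc : 4 * n * (4 * n * ((n + 2) * (64 * n))) + 3 * n ^ 2 * (64 * n) ≤ 2 ^ 12 * n ^ 4 := by
      nlinarith [Nat.pow_le_pow_right hn1 (show 3 ≤ 4 by norm_num)]
    rw [hN]
    calc _ ≤ 2 ^ 12 * n ^ 4 * (2 ^ 4 * n) := Nat.mul_le_mul hc hl
      _ = 2 ^ 16 * n ^ 5 := by ring
      _ = 2 ^ (5 * ℓ + 16) := by rw [hn]; ring

end Pool.Agent.Lib.MP_ff3ed7_lc
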