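import Pool.Agent.Lib.MP_ff3ed7_lc.MainPP

/-! The total Boolean functions. -/

open Finset

namespace Pool.Agent.Lib.MP_ff3ed7_lc

section transfer

variable {ι σ κ τ : Type} {f : (ι → σ) → Bool} {g : (κ → τ) → Bool}

lemma HasPP.transfer (e : κ → ι) (s : σ → τ) (hfg : ∀ x : ι → σ, f x = g fun k => s (x (e k)))
    {p q : ℕ} (h : HasPP g p q) : HasPP f p q := by
  obtain ⟨r, T, hT, hyes, hno⟩ := h
  refine ⟨r, fun ρ => (T ρ).conv e fun _ => s, fun ρ => DTree.depthLE_conv (hT ρ),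
    fun x hx => ?_, fun x hx => ?_⟩
  · rw [hfg] at hx
    simpa only [DTree.eval_conv] using hyes _ hx
  · rw [hfg] at hx
    simpa only [DTree.eval_conv] using hno _ hx

lemma HasMA.transfer (e : κ → ι) (s : σ → τ) (hfg : ∀ x : ι → σ, f x = g fun k => s (x (e k)))
    {p q : ℕ} (h : HasMA g p q) : HasMA f p q := by
  obtain ⟨r, T, hT, hyes, hno⟩ := h
  refine ⟨r, fun y ρ => (T y ρ).conv e fun _ => s, fun y ρ => DTree.depthLE_conv (hT y ρ),
    fun x hx => ?_, fun x hx => ?_⟩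
  · rw [hfg] at hx
    simpa only [DTree.eval_conv] using hyes _ hx
  · rw [hfg] at hx
    simpa only [DTree.eval_conv] using hno _ hx

lemma HasAM.transfer (e : κ → ι) (s : σ → τ) (hfg : ∀ x : ι → σ, f x = g fun k => s (x (e k)))
    {r p q : ℕ} (h : HasAM g r p q) : HasAM f r p q := by
  obtain ⟨T, hT, hyes, hno⟩ := h
  refine ⟨fun y ρ => (T y ρ).conv e fun _ => s, fun y ρ => DTree.depthLE_conv (hT y ρ),
    fun x hx => ?_, fun x hx => ?_⟩
  · rw [hfg] at hx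
    simpa only [DTree.eval_conv] using hyes _ hx
  · rw [hfg] at hx
    simpa only [DTree.eval_conv] using hno _ hx

end transfer

/-! ### Cardinalities -/

variable {P X Q : Type} {n m μ : ℕ}

def tcellEquiv : TCell P X Q μ ≃ P ⊕ (X × Fin (μ + 1)) ⊕ (P × Fin (μ + 2)) ⊕
    (Q × Fin (μ + 1) × Fin (μ + 1)) ⊕ (Q × Fin (μ + 1) × Fin (μ + 2)) ⊕ (Q × Fin (μ + 2)) where
  toFun
    | .pub p => .inl p
    | .sh x i => .inr (.inl (x, i))
    | .ch p i => .inr (.inr (.inl (p, i)))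
    | .W q i j => .inr (.inr (.inr (.inl (q, i, j))))
    | .D q i j => .inr (.inr (.inr (.inr (.inl (q, i, j)))))
    | .E q i => .inr (.inr (.inr (.inr (.inr (q, i)))))
  invFun
    | .inl p => .pub p
    | .inr (.inl (x, i)) => .sh x i
    | .inr (.inr (.inl (p, i))) => .ch p i
    | .inr (.inr (.inr (.inl (q, i, j)))) => .W q i j
    | .inr (.inr (.inr (.inr (.inl (q, i, j))))) => .D q i j
    | .inr (.inr (.inr (.inr (.inr (q, i))))) => .E q i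
  left_inv := by rintro (_ | _ | _ | _ | _ | _) <;> rfl
  right_inv := by rintro (_ | _ | _ | _ | _ | _) <;> rfl

def defectEquiv : Defect P Q μ ≃ P ⊕ (P × Fin (μ + 1)) ⊕ P ⊕
    (Q × Fin (μ + 1) × Fin (μ + 1)) ⊕ (Q × Fin (μ + 1)) ⊕ (Q × Fin (μ + 1)) ⊕
    (Q × Fin (μ + 1) × Fin (μ + 1)) ⊕ Q ⊕ (Q × Fin (μ + 1)) ⊕ Q where
  toFun
    | .ch0 p => .inl p
    | .chS p i => .inr (.inl (p, i))
    | .chE p => .inr (.inr (.inl p))
    | .W q i j => .inr (.inr (.inr (.inl (q, i, j))))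
    | .Wd q i => .inr (.inr (.inr (.inr (.inl (q, i)))))
    | .D0 q i => .inr (.inr (.inr (.inr (.inr (.inl (q, i))))))
    | .DS q i j => .inr (.inr (.inr (.inr (.inr (.inr (.inl (q, i, j)))))))
    | .E0 q => .inr (.inr (.inr (.inr (.inr (.inr (.inr (.inl q)))))))
    | .ES q i => .inr (.inr (.inr (.inr (.inr (.inr (.inr (.inr (.inl (q, i)))))))))
    | .EE q => .inr (.inr (.inr (.inr (.inr (.inr (.inr (.inr (.inr q))))))))
  invFun
    | .inl p => .ch0 p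
    | .inr (.inl (p, i)) => .chS p i
    | .inr (.inr (.inl p)) => .chE p
    | .inr (.inr (.inr (.inl (q, i, j)))) => .W q i j
    | .inr (.inr (.inr (.inr (.inl (q, i))))) => .Wd q i
    | .inr (.inr (.inr (.inr (.inr (.inl (q, i)))))) => .D0 q i
    | .inr (.inr (.inr (.inr (.inr (.inr (.inl (q, i, j))))))) => .DS q i j
    | .inr (.inr (.inr (.inr (.inr (.inr (.inr (.inl q))))))) => .E0 q
    | .inr (.inr (.inr (.inr (.inr (.inr (.inr (.inr (.inl (q, i))))))))) => .ES q i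
    | .inr (.inr (.inr (.inr (.inr (.inr (.inr (.inr (.inr q)))))))) => .EE q
  left_inv := by rintro (_ | _ | _ | _ | _ | _ | _ | _ | _ | _) <;> rfl
  right_inv := by rintro (_ | _ | _ | _ | _ | _ | _ | _ | _ | _) <;> rfl

instance [Fintype P] [Fintype X] [Fintype Q] : Fintype (TCell P X Q μ) :=
  Fintype.ofEquiv _ tcellEquiv.symm

instance [Fintype P] [Fintype Q] : Fintype (Defect P Q μ) :=
  Fintype.ofEquiv _ defectEquiv.symm

def gxEquiv : GX n m ≃ (Fin (4 * n) × Fin m) ⊕ (Fin (4 * n) × Fin (m + 1)) ⊕ Unit ⊕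
    (Fin (4 * n) × Fin n) ⊕ (Fin (4 * n) × Fin (n + 1)) where
  toFun
    | .z v j => .inl (v, j)
    | .h v j => .inr (.inl (v, j))
    | .b => .inr (.inr (.inl ()))
    | .x v t => .inr (.inr (.inr (.inl (v, t))))
    | .y v t => .inr (.inr (.inr (.inr (v, t))))
  invFun
    | .inl (v, j) => .z v j
    | .inr (.inl (v, j)) => .h v j
    | .inr (.inr (.inl ())) => .b
    | .inr (.inr (.inr (.inl (v, t)))) => .x v t
    | .inr (.inr (.inr (.inr (v, t)))) => .y v t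
  left_inv := by rintro (_ | _ | _ | _ | _) <;> rfl
  right_inv := by rintro (_ | _ | _ | _ | _) <;> rfl

def gqEquiv : GQ n m ≃ Fin (4 * n) ⊕ (Fin (4 * n) × Fin m) ⊕ Fin (4 * n) ⊕
    (Fin (4 * n) × Fin n) ⊕ Fin (4 * n) ⊕ (Fin (4 * n) × Fin (4 * n) × Fin n) where
  toFun
    | .c1 v => .inl v
    | .c2 v j => .inr (.inl (v, j))
    | .c3 v => .inr (.inr (.inl v))
    | .c4 v t => .inr (.inr (.inr (.inl (v, t))))
    | .c5 v => .inr (.inr (.inr (.inr (.inl v))))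
    | .c6 v w t => .inr (.inr (.inr (.inr (.inr (v, w, t)))))
  invFun
    | .inl v => .c1 v
    | .inr (.inl (v, j)) => .c2 v j
    | .inr (.inr (.inl v)) => .c3 v
    | .inr (.inr (.inr (.inl (v, t)))) => .c4 v t
    | .inr (.inr (.inr (.inr (.inl v)))) => .c5 v
    | .inr (.inr (.inr (.inr (.inr (v, w, t))))) => .c6 v w t
  left_inv := by rintro (_ | _ | _ | _ | _ | _) <;> rfl
  right_inv := by rintro (_ | _ | _ | _ | _ | _) <;> rfl

lemma card_gx : Fintype.card (GX n m) =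
    4 * n * m + (4 * n * (m + 1) + (1 + (4 * n * n + 4 * n * (n + 1)))) := by
  rw [Fintype.card_congr gxEquiv]
  simp [Fintype.card_sum, Fintype.card_prod]

lemma card_gq : Fintype.card (GQ n m) =
    4 * n + (4 * n * m + (4 * n + (4 * n * n + (4 * n + 4 * n * (4 * n * n))))) := by
  rw [Fintype.card_congr gqEquiv]
  simp [Fintype.card_sum, Fintype.card_prod]

lemma card_tcell [Fintype P] [Fintype X] [Fintype Q] : Fintype.card (TCell P X Q μ) =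
    Fintype.card P + (Fintype.card X * (μ + 1) + (Fintype.card P * (μ + 2) +
      (Fintype.card Q * ((μ + 1) * (μ + 1)) + (Fintype.card Q * ((μ + 1) * (μ + 2)) +
        Fintype.card Q * (μ + 2))))) := by
  rw [Fintype.card_congr tcellEquiv]
  simp [Fintype.card_sum, Fintype.card_prod]

lemma card_defect [Fintype P] [Fintype Q] : Fintype.card (Defect P Q μ) =
    Fintype.card P + (Fintype.card P * (μ + 1) + (Fintype.card P +
      (Fintype.card Q * ((μ + 1) * (μ + 1)) + (Fintype.card Q * (μ + 1) +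
        (Fintype.card Q * (μ + 1) + (Fintype.card Q * ((μ + 1) * (μ + 1)) + (Fintype.card Q +
          (Fintype.card Q * (μ + 1) + Fintype.card Q)))))))) := by
  rw [Fintype.card_congr defectEquiv]
  simp [Fintype.card_sum, Fintype.card_prod]

/-- The cells for the parameter `n`. -/
abbrev Cl (n : ℕ) : Type := GCell n (1025 * n ^ 2) n

lemma card_q_le (hn : 1 ≤ n) : Fintype.card (GQ n (1025 * n ^ 2)) ≤ 4132 * n ^ 3 := by
  rw [card_gq]
  have h1 : n ≤ n ^ 3 := Nat.le_self_pow (by norm_num) n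
  have h2 : n ^ 2 ≤ n ^ 3 := Nat.pow_le_pow_right hn (by norm_num)
  nlinarith

lemma card_x_le (hn : 1 ≤ n) : Fintype.card (GX n (1025 * n ^ 2)) ≤ 8217 * n ^ 3 := by
  rw [card_gx]
  have h0 : 1 ≤ n ^ 3 := Nat.one_le_pow _ _ hn
  have h1 : n ≤ n ^ 3 := Nat.le_self_pow (by norm_num) n
  have h2 : n ^ 2 ≤ n ^ 3 := Nat.pow_le_pow_right hn (by norm_num)
  nlinarith

lemma card_p (n : ℕ) : Fintype.card (Fin (4 * n) × Fin (1025 * n ^ 2)) = 4100 * n ^ 3 := by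
  rw [Fintype.card_prod, Fintype.card_fin, Fintype.card_fin]; ring

lemma card_cl_le (hn : 1 ≤ n) : Fintype.card (Cl n) ≤ 2 ^ 17 * n ^ 5 := by
  rw [card_tcell, card_p]
  have hq := card_q_le hn
  have hx := card_x_le hn
  set x := Fintype.card (GX n (1025 * n ^ 2))
  set q := Fintype.card (GQ n (1025 * n ^ 2))
  have h4 : n ^ 4 ≤ n ^ 5 := Nat.pow_le_pow_right hn (by norm_num)
  have h3 : n ^ 3 ≤ n ^ 5 := Nat.pow_le_pow_right hn (by norm_num)
  have e1 : (n + 1) * (n + 1) ≤ 4 * n ^ 2 := by nlinarith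
  have e2 : (n + 1) * (n + 2) ≤ 6 * n ^ 2 := by nlinarith
  have e3 : n + 2 ≤ 3 * n ^ 2 := by nlinarith
  have e4 : n + 1 ≤ 2 * n := by omega
  have e5 : n + 2 ≤ 3 * n := by omega
  calc _ ≤ 4100 * n ^ 3 + (8217 * n ^ 3 * (2 * n) + (4100 * n ^ 3 * (3 * n) +
      (4132 * n ^ 3 * (4 * n ^ 2) + (4132 * n ^ 3 * (6 * n ^ 2) +
        4132 * n ^ 3 * (3 * n ^ 2))))) := by gcongr
    _ = 4100 * n ^ 3 + (16434 + 12300) * n ^ 4 + 13 * 4132 * n ^ 5 := by ring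
    _ ≤ 4100 * n ^ 5 + (16434 + 12300) * n ^ 5 + 13 * 4132 * n ^ 5 := by gcongr
    _ ≤ 2 ^ 17 * n ^ 5 := by
      have : 0 ≤ n ^ 5 := Nat.zero_le _
      nlinarith

lemma card_cl_ge (n : ℕ) : 2 ^ 12 * n ^ 5 ≤ Fintype.card (Cl n) := by
  rw [card_tcell, card_p, card_gq]
  have h1 : 4100 * n ^ 3 ≤ 4 * n + (4 * n * (1025 * n ^ 2) + (4 * n + (4 * n * n + (4 * n +
      4 * n * (4 * n * n))))) := by nlinarith [Nat.zero_le (n ^ 3), Nat.zero_le n, Nat.zero_le (n * n)]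
  set q := 4 * n + (4 * n * (1025 * n ^ 2) + (4 * n + (4 * n * n + (4 * n +
      4 * n * (4 * n * n)))))
  calc 2 ^ 12 * n ^ 5 ≤ 4100 * n ^ 3 * (n * n) := by nlinarith [Nat.zero_le (n ^ 5)]
    _ ≤ q * ((n + 1) * (n + 1)) := by gcongr <;> omega
    _ ≤ _ := by omega

lemma card_msg_le (hn : 1 ≤ n) : Fintype.card (Fin (1025 * n ^ 2) ⊕
    Defect (Fin (4 * n) × Fin (1025 * n ^ 2)) (GQ n (1025 * n ^ 2)) n) ≤ 2 ^ 17 * n ^ 5 := by
  rw [Fintype.card_sum, Fintype.card_fin, card_defect, card_p]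
  have hq := card_q_le hn
  set q := Fintype.card (GQ n (1025 * n ^ 2))
  have h4 : n ^ 4 ≤ n ^ 5 := Nat.pow_le_pow_right hn (by norm_num)
  have h3 : n ^ 3 ≤ n ^ 5 := Nat.pow_le_pow_right hn (by norm_num)
  have h2 : n ^ 2 ≤ n ^ 5 := Nat.pow_le_pow_right hn (by norm_num)
  have e0 : 1 ≤ n ^ 2 := Nat.one_le_pow _ _ hn
  have e1 : (n + 1) * (n + 1) ≤ 4 * n ^ 2 := by nlinarith
  have e4 : n + 1 ≤ 2 * n := by omega
  have e5 : n + 1 ≤ 2 * n ^ 2 := by nlinarith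
  calc _ ≤ 1025 * n ^ 2 + (4100 * n ^ 3 + (4100 * n ^ 3 * (2 * n) + (4100 * n ^ 3 +
      (4132 * n ^ 3 * (4 * n ^ 2) + (4132 * n ^ 3 * (2 * n ^ 2) + (4132 * n ^ 3 * (2 * n ^ 2) +
        (4132 * n ^ 3 * (4 * n ^ 2) + (4132 * n ^ 3 * n ^ 2 + (4132 * n ^ 3 * (2 * n ^ 2) +
          4132 * n ^ 3 * n ^ 2))))))))) := by
        have e6 : q ≤ 4132 * n ^ 3 * n ^ 2 := hq.trans (Nat.le_mul_of_pos_right _ (by omega))
        gcongr
    _ = 1025 * n ^ 2 + 8200 * n ^ 3 + 8200 * n ^ 4 + 16 * 4132 * n ^ 5 := by ring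
    _ ≤ 1025 * n ^ 5 + 8200 * n ^ 5 + 8200 * n ^ 5 + 16 * 4132 * n ^ 5 := by gcongr
    _ ≤ 2 ^ 17 * n ^ 5 := by
      have : 0 ≤ n ^ 5 := Nat.zero_le _
      nlinarith

/-- Bits. -/
def bz (b : Bool) : ZMod 2 := if b then 1 else 0

/-- Bits. -/
def zb (a : ZMod 2) : Bool := decide (a = 1)

lemma bz_zb (a : ZMod 2) : bz (zb a) = a := by
  rcases zmod2_cases a with rfl | rfl <;> decide

/-- The total Boolean function for `n = 2 ^ ℓ`. -/
noncomputable def fb (ℓ : ℕ) (x : Cl (2 ^ ℓ) → Bool) : Bool :=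
  F2 (n := 2 ^ ℓ) (m := 1025 * (2 ^ ℓ) ^ 2) (μ := 2 ^ ℓ) fun c => bz (x c)

lemma hasAM_fb (ℓ : ℕ) : HasAM (fb ℓ) (ℓ + 2) (5 * ℓ + 17) 10 := by
  set n := 2 ^ ℓ with hn
  have hn1 : 1 ≤ n := Nat.one_le_two_pow
  refine HasAM.transfer (e := id) (s := bz) (fun x => rfl) ?_
  refine am_upper2 (n := n) (m := 1025 * n ^ 2) (μ := n) (r := ℓ + 2) (p := 5 * ℓ + 17) hn1
    (by rw [hn, pow_add]; ring) ?_ (by positivity)
  refine (card_msg_le hn1).trans (le_of_eq ?_)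
  rw [hn]; ring

lemma fb_F2 (ℓ : ℕ) (x : Cl (2 ^ ℓ) → ZMod 2) :
    F2 (n := 2 ^ ℓ) (m := 1025 * (2 ^ ℓ) ^ 2) (μ := 2 ^ ℓ) x = fb ℓ fun c => zb (x c) := by
  unfold fb
  simp only [bz_zb]

lemma pp_fb {ℓ p q : ℕ} (h : HasPP (fb ℓ) p q) : 2 ^ ℓ < q ∨ 2 ^ (ℓ + 2) ≤ p + q := by
  have h1 := pp_lower (n := 2 ^ ℓ) (m := 1025 * (2 ^ ℓ) ^ 2) (μ := 2 ^ ℓ) Nat.one_le_two_pow le_rfl
    le_rfl (HasPP.transfer (e := id) (s := zb) (fun x => fb_F2 ℓ x) h)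
  rw [pow_add]
  omega

lemma ma_fb {ℓ p q : ℕ} (h : HasMA (fb ℓ) p q) : 2 ^ ℓ < (p + 2) * (q + 1) :=
  ma_lower2 (n := 2 ^ ℓ) (m := 1025 * (2 ^ ℓ) ^ 2) (μ := 2 ^ ℓ) Nat.one_le_two_pow le_rfl
    le_rfl (HasMA.transfer (e := id) (s := zb) (fun x => fb_F2 ℓ x) h)

theorem total_pp (ℓ : ℕ) : ∃ (N : ℕ) (f : (Fin N → Bool) → Bool),
    2 ^ (5 * ℓ + 12) ≤ N ∧ N ≤ 2 ^ (5 * ℓ + 17) ∧
    HasAM f (ℓ + 2) (5 * ℓ + 17) 10 ∧
    (∀ p q, HasPP f p q → 2 ^ ℓ < q ∨ 2 ^ (ℓ + 2) ≤ p + q) ∧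
    ∀ p q, HasMA f p q → 2 ^ ℓ < (p + 2) * (q + 1) := by
  set n := 2 ^ ℓ with hn
  have hn1 : 1 ≤ n := Nat.one_le_two_pow
  let e : Cl n ≃ Fin (Fintype.card (Cl n)) := Fintype.equivFin _
  refine ⟨Fintype.card (Cl n), fun x => fb ℓ fun c => x (e c), ?_, ?_, ?_, ?_, ?_⟩
  · refine le_trans (le_of_eq ?_) (card_cl_ge n)
    rw [hn]; ring
  · refine (card_cl_le hn1).trans (le_of_eq ?_)
    rw [hn]; ring
  · exact HasAM.transfer (e := e) (s := id) (fun x => rfl) (hasAM_fb ℓ)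
  · intro p q h
    exact pp_fb (HasPP.transfer (e := e.symm) (s := id) (fun x => by simp) h)
  · intro p q h
    exact ma_fb (HasMA.transfer (e := e.symm) (s := id) (fun x => by simp) h)

end Pool.Agent.Lib.MP_ff3ed7_lc
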