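import Pool.Agent.Lib.MP_ff3ed7_lc.SigLower
import Pool.Agent.Lib.MP_ff3ed7_lc.Total
import Pool.Agent.Lib.MP_ff3ed7_lc.TotalPP

/-! Total functions with cheap Arthur-Merlin protocols and without cheap `Σ₂` protocols. -/

open Finset

namespace Pool.Agent.Lib.MP_ff3ed7_lc

section transfer

variable {ι κ σ τ : Type} {f : (ι → σ) → Bool} {g : (κ → τ) → Bool}

lemma HasSigma2.transfer (e : κ → ι) (s : σ → τ) (hfg : ∀ x : ι → σ, f x = g fun k => s (x (e k)))
    {p q : ℕ} (h : HasSigma2 g p q) : HasSigma2 f p q := by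
  obtain ⟨r, T, hT, hf⟩ := h
  refine ⟨r, fun y ρ => (T y ρ).conv e fun _ => s, fun y ρ => DTree.depthLE_conv (hT y ρ),
    fun x => ?_⟩
  rw [hfg, hf]
  simp only [DTree.eval_conv]

end transfer

namespace Sig

variable {β n : ℕ}

/-- The Arthur-Merlin protocol. -/
theorem upper {κ μ : ℕ} (H : Pos μ → Fin 4 → Pos κ) (hn : 2 ^ κ = 4 * n)
    (hA : ∀ T : Finset (Pos κ), n < T.card → T.card < 3 * n → ¬ Closed H T) :
    HasAM (fs (β := β) H n) κ (μ + 5 * β + 2) 4 := by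
  classical
  have hn0 : 0 < n := by
    have : 0 < 2 ^ κ := by positivity
    omega
  have : Nonempty (Cert (Pos μ) β) := ⟨.inl fun _ => false⟩
  obtain ⟨dec, enc, hde⟩ := exists_dec (card_cert μ β)
  have hE : ∀ x, (fun ρ : Fin κ → Bool => ∃ y, (chkTree H ρ (dec y)).eval x = true) =
      fun ρ => Bad H x ∨ ρ ∈ Act x := by
    intro x
    funext ρ
    rw [eq_iff_iff, ← exists_chk]
    constructor
    · rintro ⟨y, hy⟩
      exact ⟨dec y, (eval_chkTree H x ρ _).mp hy⟩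
    · rintro ⟨c, hc⟩
      refine ⟨enc c, ?_⟩
      rw [hde]
      exact (eval_chkTree H x ρ c).mpr hc
  have hcast : (2 : ℝ) ^ κ = 4 * n := by exact_mod_cast hn
  have hnR : (0 : ℝ) < n := by exact_mod_cast hn0
  refine ⟨fun y ρ => chkTree H ρ (dec y), fun y ρ => depthLE_chkTree H ρ _, fun x hx => ?_,
    fun x hx => ?_⟩
  · rw [hE, prob_eq_card, hcast, le_div_iff₀ (by positivity)]
    by_cases hb : Bad H x
    · have h1 : (univ.filter fun ρ : Fin κ → Bool => Bad H x ∨ ρ ∈ Act x) = univ := by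
        ext ρ
        simp [hb]
      rw [h1, card_univ]
      simp only [Fintype.card_fun, Fintype.card_bool, Fintype.card_fin]
      push_cast
      rw [hcast]
      linarith
    · have h1 : (univ.filter fun ρ : Fin κ → Bool => Bad H x ∨ ρ ∈ Act x) = Act x := by
        ext ρ
        simp [hb]
      rw [h1]
      have h2 : n < (Act x).card := by
        simp only [fs, decide_eq_true_eq, hb, false_or] at hx
        exact hx
      have h3 : 3 * n ≤ (Act x).card := by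
        rcases dichotomy hA hb with h | h
        · omega
        · exact h
      have h4 : (3 : ℝ) * n ≤ (Act x).card := by exact_mod_cast h3
      linarith
  · have h0 : ¬ Bad H x ∧ ¬ n < (Act x).card := by
      simp only [fs, decide_eq_false_iff_not, not_or] at hx
      exact hx
    rw [hE, prob_eq_card, hcast, div_le_iff₀ (by positivity)]
    have h1 : (univ.filter fun ρ : Fin κ → Bool => Bad H x ∨ ρ ∈ Act x) = Act x := by
      ext ρ
      simp [h0.1]
    rw [h1]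
    have h2 : ((Act x).card : ℝ) ≤ n := by
      have := h0.2
      exact_mod_cast not_lt.mp this
    linarith

/-- Good rule systems, for `2 ^ (4 σ + 14)` blocks. -/
lemma exists_rules' (σ : ℕ) : ∃ H : Pos (4 * σ + 23) → Fin 4 → Pos (4 * σ + 14),
    (∀ T : Finset (Pos (4 * σ + 14)), 2 ^ (4 * σ + 12) < T.card →
      T.card < 3 * 2 ^ (4 * σ + 12) → ¬ Closed H T) ∧
    ∀ U : Finset (Pos (4 * σ + 14)), U.card ≤ 2 ^ σ → (cl H U).card ≤ 2 * 2 ^ σ := by
  have h1 : Fintype.card (Pos (4 * σ + 14)) = 2 ^ (4 * σ + 14) := by simp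
  have h2 : Fintype.card (Pos (4 * σ + 23)) = 2 ^ (4 * σ + 23) := by simp
  apply exists_rules
  · rw [h1]
    ring
  · positivity
  · positivity
  · rw [h2]
    calc 2040 * 2 ^ (4 * σ + 12) ≤ 2 ^ 11 * 2 ^ (4 * σ + 12) := by gcongr; norm_num
      _ = 2 ^ (4 * σ + 23) := by ring
  · rw [h2]
    exact Nat.pow_le_pow_right (by norm_num) (by omega)
  · rw [h1, h2]
    apply le_of_eq
    ring

/-- The rule systems. -/
noncomputable def rules (σ : ℕ) : Pos (4 * σ + 23) → Fin 4 → Pos (4 * σ + 14) :=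
  (exists_rules' σ).choose

/-- The input bits of the function. -/
abbrev Cs (σ : ℕ) : Type := SC (Pos (4 * σ + 14)) (Pos (4 * σ + 23)) (σ + 1)

/-- The function. -/
noncomputable def fσ (σ : ℕ) : (Cs σ → Bool) → Bool := fs (rules σ) (2 ^ (4 * σ + 12))

lemma hasAM_fσ (σ : ℕ) : HasAM (fσ σ) (4 * σ + 14) (9 * σ + 30) 4 := by
  have h := upper (β := σ + 1) (rules σ) (n := 2 ^ (4 * σ + 12)) (by ring)
    (exists_rules' σ).choose_spec.1
  rwa [show 4 * σ + 23 + 5 * (σ + 1) + 2 = 9 * σ + 30 by ring] at h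

lemma lower_fσ {σ p q : ℕ} (h : HasSigma2 (fσ σ) p q) : 2 ^ σ ≤ p ∨ 2 ^ σ < q := by
  have h1 := lower (β := σ + 1) (n := 2 ^ (4 * σ + 12)) (exists_rules' σ).choose_spec.2
    (by
      calc 2 * 2 ^ σ = 2 ^ (σ + 1) := by ring
        _ ≤ 2 ^ (4 * σ + 12) := Nat.pow_le_pow_right (by norm_num) (by omega))
    (by
      simp only [Fintype.card_fun, Fintype.card_bool, Fintype.card_fin]
      exact Nat.pow_lt_pow_right (by norm_num) (by omega)) h
  by_contra hcon
  push Not at hcon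
  obtain ⟨hp, hq⟩ := hcon
  have h2 : 2 ^ p * q ^ 2 ^ σ < (2 ^ (σ + 1)) ^ 2 ^ σ := by
    calc 2 ^ p * q ^ 2 ^ σ ≤ 2 ^ p * (2 ^ σ) ^ 2 ^ σ := by gcongr
      _ < 2 ^ 2 ^ σ * (2 ^ σ) ^ 2 ^ σ := by
        apply Nat.mul_lt_mul_of_pos_right
        · exact Nat.pow_lt_pow_right (by norm_num) hp
        · positivity
      _ = (2 ^ (σ + 1)) ^ 2 ^ σ := by
        rw [← mul_pow, pow_succ, mul_comm]
  omega

lemma card_Cs (σ : ℕ) : Fintype.card (Cs σ) = 2 ^ (5 * σ + 15) + (σ + 2) * 2 ^ (8 * σ + 27) := by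
  simp only [Cs, SC, Pos, Fintype.card_sum, Fintype.card_prod, Fintype.card_fun,
    Fintype.card_bool, Fintype.card_fin]
  ring

theorem total_sigma2 (σ : ℕ) : ∃ (N : ℕ) (f : (Fin N → Bool) → Bool),
    2 ^ (8 * σ + 28) ≤ N ∧ N ≤ 2 ^ (9 * σ + 29) ∧
    HasAM f (4 * σ + 14) (9 * σ + 30) 4 ∧
    ∀ p q, HasSigma2 f p q → 2 ^ σ ≤ p ∨ 2 ^ σ < q := by
  let e : Cs σ ≃ Fin (Fintype.card (Cs σ)) := Fintype.equivFin _
  refine ⟨Fintype.card (Cs σ), fun x => fσ σ fun c => x (e c), ?_, ?_, ?_, ?_⟩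
  · rw [card_Cs]
    calc 2 ^ (8 * σ + 28) = 2 * 2 ^ (8 * σ + 27) := by ring
      _ ≤ (σ + 2) * 2 ^ (8 * σ + 27) := by gcongr; omega
      _ ≤ _ := Nat.le_add_left _ _
  · rw [card_Cs]
    have h1 : σ + 1 ≤ 2 ^ σ := Nat.lt_two_pow_self
    have h2 : 2 ^ (5 * σ + 15) ≤ 2 ^ (8 * σ + 27) :=
      Nat.pow_le_pow_right (by norm_num) (by omega)
    calc 2 ^ (5 * σ + 15) + (σ + 2) * 2 ^ (8 * σ + 27)
        ≤ 2 ^ (8 * σ + 27) + (2 ^ σ + 1) * 2 ^ (8 * σ + 27) :=
          Nat.add_le_add h2 (Nat.mul_le_mul_right _ (by omega))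
      _ = (2 ^ σ + 2) * 2 ^ (8 * σ + 27) := by ring
      _ ≤ (4 * 2 ^ σ) * 2 ^ (8 * σ + 27) := by
        gcongr
        have : 1 ≤ 2 ^ σ := Nat.one_le_two_pow
        omega
      _ = 2 ^ (9 * σ + 29) := by ring
  · exact HasAM.transfer (e := e) (s := id) (fun x => rfl) (hasAM_fσ σ)
  · intro p q h
    exact lower_fσ (HasSigma2.transfer (e := e.symm) (s := id) (fun x => by simp) h)

end Sig

end Pool.Agent.Lib.MP_ff3ed7_lc
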