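import Pool.Agent.Lib.MP_ff3ed7_lc.GenericAlg
import Pool.Agent.Lib.MP_ff3ed7_lc.TotalSigma2
import Pool.Agent.Lib.MP_ff3ed7_lc.OracleSig

/-! The generic oracle theorem for `PP` with algebraic queries and `Σ₂`. -/

open Finset

namespace Pool.Agent.Lib.MP_ff3ed7_lc.Gen

open PP (Jx)
open Alg (orc val_orc orc_outside orc_eq shares_disj shA shB ppProb_eq)

/-! ### Names for the second function -/

lemma exists_name (ℓ : ℕ) : ∃ name : Sig.Cs ℓ → List Bool,
    Function.Injective name ∧ ∀ c, (name c).length = 9 * ℓ + 29 := by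
  have hle : Fintype.card (Sig.Cs ℓ) ≤ Fintype.card (Fin (9 * ℓ + 29) → Bool) := by
    rw [Sig.card_Cs]
    have h1 : ℓ + 1 ≤ 2 ^ ℓ := Nat.lt_two_pow_self
    have h2 : 2 ^ (5 * ℓ + 15) ≤ 2 ^ (8 * ℓ + 27) :=
      Nat.pow_le_pow_right (by norm_num) (by omega)
    have h3 : 1 ≤ 2 ^ ℓ := Nat.one_le_two_pow
    calc 2 ^ (5 * ℓ + 15) + (ℓ + 2) * 2 ^ (8 * ℓ + 27)
        ≤ 2 ^ (8 * ℓ + 27) + (2 ^ ℓ + 1) * 2 ^ (8 * ℓ + 27) :=
          Nat.add_le_add h2 (Nat.mul_le_mul_right _ (by omega))
      _ = (2 ^ ℓ + 2) * 2 ^ (8 * ℓ + 27) := by ring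
      _ ≤ (4 * 2 ^ ℓ) * 2 ^ (8 * ℓ + 27) := Nat.mul_le_mul_right _ (by omega)
      _ = 2 ^ (9 * ℓ + 29) := by ring
      _ = _ := by simp
  obtain ⟨emb⟩ := Function.Embedding.nonempty_of_card_le hle
  exact ⟨fun c => List.ofFn (emb c), fun a b h => emb.injective (List.ofFn_injective h),
    fun c => by simp⟩

/-- The names: strings of length `9 ℓ + 29`. -/
noncomputable def name (ℓ : ℕ) : Sig.Cs ℓ → List Bool := (exists_name ℓ).choose

lemma name_inj (ℓ : ℕ) : Function.Injective (name ℓ) := (exists_name ℓ).choose_spec.1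

lemma length_name (ℓ : ℕ) (c : Sig.Cs ℓ) : (name ℓ c).length = 9 * ℓ + 29 :=
  (exists_name ℓ).choose_spec.2 c

/-- The value on inputs of length `ℓ`. -/
noncomputable def val (A : List Bool → Bool) (ℓ : ℕ) : Bool :=
  if Even ℓ then Alg.val A ℓ else Sig.fσ ℓ fun c => A (name ℓ c)

/-- length of the message -/
def msg (ℓ : ℕ) : ℕ := if Even ℓ then 5 * ℓ + 17 else 9 * ℓ + 30

/-- number of coins -/
def coins (ℓ : ℕ) : ℕ := if Even ℓ then ℓ + 2 else 4 * ℓ + 14

lemma exists_trees (ℓ : ℕ) : ∃ T : (Fin (msg ℓ) → Bool) → (Fin (coins ℓ) → Bool) →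
    DTree (List Bool) Bool, (∀ y ρ, (T y ρ).DepthLE 30) ∧
      (∀ y ρ, (T y ρ).AllQ fun s => s.length ≤ 9 * ℓ + 29) ∧
      (∀ A, val A ℓ = true → 2 / 3 ≤ prob (coins ℓ) fun ρ => ∃ y, (T y ρ).eval A = true) ∧
      ∀ A, val A ℓ = false → prob (coins ℓ) (fun ρ => ∃ y, (T y ρ).eval A = true) ≤ 1 / 3 := by
  by_cases hℓ : Even ℓ
  · have hm : msg ℓ = 5 * ℓ + 17 := if_pos hℓ
    have hc : coins ℓ = ℓ + 2 := if_pos hℓ
    have hv : ∀ A, val A ℓ = Alg.val A ℓ := fun A => if_pos hℓ
    rw [hm, hc]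
    simp only [hv]
    obtain ⟨T, hT, hyes, hno⟩ := hasAM_fb ℓ
    refine ⟨fun y ρ => expandTree (Alg.code ℓ) (T y ρ), fun y ρ => depthLE_expandTree (hT y ρ),
      fun y ρ => allQ_expandTree (fun i => ?_) _, fun A hA => ?_, fun A hA => ?_⟩
    · rw [Alg.length_code]
      omega
    · simp only [eval_expandTree]
      exact hyes _ hA
    · simp only [eval_expandTree]
      exact hno _ hA
  · have hm : msg ℓ = 9 * ℓ + 30 := if_neg hℓ
    have hc : coins ℓ = 4 * ℓ + 14 := if_neg hℓ
    have hv : ∀ A, val A ℓ = Sig.fσ ℓ fun c => A (name ℓ c) := fun A => if_neg hℓ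
    rw [hm, hc]
    simp only [hv]
    obtain ⟨T, hT, hyes, hno⟩ := Sig.hasAM_fσ ℓ
    refine ⟨fun y ρ => (T y ρ).conv (name ℓ) fun _ s => s,
      fun y ρ => (DTree.depthLE_conv (hT y ρ)).mono (by norm_num),
      fun y ρ => allQ_conv (fun i => ?_) _, fun A hA => ?_, fun A hA => ?_⟩
    · rw [length_name]
    · simp only [DTree.eval_conv]
      exact hyes _ hA
    · simp only [DTree.eval_conv]
      exact hno _ hA

lemma poly_aux (ℓ : ℕ) : 9 * ℓ + 30 ≤ ℓ ^ 40 + 40 := by
  rcases Nat.lt_or_ge ℓ 2 with h | h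
  · interval_cases ℓ <;> norm_num
  · have h1 : 2 ^ 39 ≤ ℓ ^ 39 := Nat.pow_le_pow_left h 39
    have h2 : ℓ ^ 40 = ℓ ^ 39 * ℓ := pow_succ ℓ 39
    nlinarith

/-- The robust verifier. -/
noncomputable def robustV : Verifier where
  msg := msg
  coins := coins
  tree x := (exists_trees x.length).choose
  c := 40
  msg_le ℓ := by
    refine le_trans ?_ (poly_aux ℓ)
    unfold msg
    split_ifs <;> omega
  coins_le ℓ := by
    refine le_trans ?_ (poly_aux ℓ)
    unfold coins
    split_ifs <;> omega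
  depth_le x y ρ := ((exists_trees x.length).choose_spec.1 y ρ).mono
    ((by omega : 30 ≤ 9 * x.length + 30).trans (poly_aux x.length))
  length_le x y ρ := ((exists_trees x.length).choose_spec.2.1 y ρ).mono fun s hs =>
    (hs.trans (by omega : 9 * x.length + 29 ≤ 9 * x.length + 30)).trans (poly_aux _)

lemma amProb_yes (A : List Bool → Bool) (x : List Bool) (h : val A x.length = true) :
    2 / 3 ≤ robustV.amProb A x :=
  (exists_trees x.length).choose_spec.2.2.1 A h

lemma amProb_no (A : List Bool → Bool) (x : List Bool)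
    (h : val A x.length = false) : robustV.amProb A x ≤ 1 / 3 :=
  (exists_trees x.length).choose_spec.2.2.2 A h

/-! ### Correctness on one input -/

/-- `W` works correctly on `x` relative to `A`, as a Merlin-Arthur protocol. -/
def GoodMA (W : AlgVerifier) (x : List Bool) (A : List Bool → Bool) : Prop :=
  (val A x.length = true → ∃ y, 2 / 3 ≤ W.maProb A x y) ∧
  (val A x.length = false → ∀ y, W.maProb A x y ≤ 1 / 3)

/-- `W` works correctly on `x` relative to `A`, as a `PP` machine. -/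
def GoodPP (W : AlgVerifier) (x : List Bool) (A : List Bool → Bool) : Prop :=
  (val A x.length = true → 1 / 2 < W.ppProb A x) ∧
  (val A x.length = false → W.ppProb A x ≤ 1 / 2)

/-- `W` works correctly on `x` relative to `A`, as a `Σ₂` machine. -/
def GoodS2 (W : Verifier) (x : List Bool) (A : List Bool → Bool) : Prop :=
  val A x.length = true ↔ ∃ y, ∀ ρ, (W.tree x y ρ).eval A = true

lemma exists_val_congr (ℓ : ℕ) : ∃ S : Finset (List Bool),
    ∀ A B : List Bool → Bool, (∀ s ∈ S, A s = B s) → val A ℓ = val B ℓ := by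
  classical
  refine ⟨(univ.image (Alg.code ℓ)) ∪ (univ.image (name ℓ)), fun A B hAB => ?_⟩
  have h1 : ∀ c, A (Alg.code ℓ c) = B (Alg.code ℓ c) := fun c =>
    hAB _ (mem_union_left _ (mem_image_of_mem _ (mem_univ _)))
  have h2 : ∀ c, A (name ℓ c) = B (name ℓ c) := fun c =>
    hAB _ (mem_union_right _ (mem_image_of_mem _ (mem_univ _)))
  unfold val
  simp only [h2]
  split_ifs
  · unfold Alg.val
    congr 1
    · funext i
      simp only [fstPart, h1]
    · funext i
      simp only [sndPart, h1]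
  · rfl

lemma good_congr (W : AlgVerifier) (x : List Bool) : ∃ S : Finset (List Bool),
    ∀ A B : List Bool → Bool, (∀ s ∈ S, A s = B s) →
      (GoodMA W x A ↔ GoodMA W x B) ∧ (GoodPP W x A ↔ GoodPP W x B) := by
  classical
  obtain ⟨S, hS⟩ := exists_val_congr x.length
  refine ⟨S ∪ (List.finite_length_le Bool (x.length ^ W.c + W.c)).toFinset, ?_⟩
  intro A B hAB
  have h1 : val A x.length = val B x.length := hS A B fun s hs => hAB s (mem_union_left _ hs)
  have h3 : ∀ s : List Bool, s.length ≤ x.length ^ W.c + W.c → A s = B s := fun s hs =>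
    hAB s (mem_union_right _ (by simpa using hs))
  have h0 : ∀ y ρ, (W.tree x y ρ).eval (AQ.ans A) = (W.tree x y ρ).eval (AQ.ans B) := fun y ρ =>
    DTree.eval_congr_of_allQ (fun q hq => AQ.ans_congr h3 q hq.2) _ (W.query_le x y ρ)
  have h2 : ∀ y, W.maProb A x y = W.maProb B x y := by
    intro y
    unfold AlgVerifier.maProb
    simp only [h0]
  have h3 : W.ppProb A x = W.ppProb B x := by
    unfold AlgVerifier.ppProb
    simp only [h0]
  unfold GoodMA GoodPP
  rw [h1, h3]
  simp only [h2]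
  exact ⟨trivial, trivial⟩

lemma good_congr2 (W : Verifier) (x : List Bool) : ∃ S : Finset (List Bool),
    ∀ A B : List Bool → Bool, (∀ s ∈ S, A s = B s) → (GoodS2 W x A ↔ GoodS2 W x B) := by
  classical
  obtain ⟨S, hS⟩ := exists_val_congr x.length
  refine ⟨S ∪ (List.finite_length_le Bool (x.length ^ W.c + W.c)).toFinset, ?_⟩
  intro A B hAB
  have h1 : val A x.length = val B x.length := hS A B fun s hs => hAB s (mem_union_left _ hs)
  have h3 : ∀ s : List Bool, s.length ≤ x.length ^ W.c + W.c → A s = B s := fun s hs =>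
    hAB s (mem_union_right _ (by simpa using hs))
  have h0 : ∀ y ρ, (W.tree x y ρ).eval A = (W.tree x y ρ).eval B := fun y ρ =>
    DTree.eval_congr_of_allQ (fun s hs => h3 s hs) _ (W.length_le x y ρ)
  unfold GoodS2
  rw [h1]
  simp only [h0]

/-! ### Density -/

lemma eventually_large (c M : ℕ) : ∃ a : ℕ, ∀ ℓ, a ≤ ℓ → M < 5 * ℓ + 19 ∧
    9 * (2 * (ℓ ^ c + c + 2) * ((ℓ ^ c + c) * (2 * (ℓ ^ c + c)) + 2)) ≤ 2 ^ ℓ := by
  have h1 : Filter.Tendsto (fun ℓ : ℕ => ((ℓ : ℝ) ^ (3 * c + 1)) / 2 ^ ℓ) Filter.atTop (nhds 0) :=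
    tendsto_pow_const_div_const_pow_of_one_lt (3 * c + 1) (by norm_num : (1 : ℝ) < 2)
  have h2 := h1.eventually (gt_mem_nhds (show (0 : ℝ) < 1 by norm_num))
  rw [← Filter.eventually_atTop]
  filter_upwards [h2, Filter.eventually_ge_atTop (M + 36 * (c + 3) ^ 3 + 1)] with ℓ hℓ1 hℓ2
  refine ⟨by omega, ?_⟩
  rw [div_lt_one (by positivity)] at hℓ1
  have h3 : ℓ ^ (3 * c + 1) < 2 ^ ℓ := by exact_mod_cast hℓ1
  refine le_trans ?_ h3.le
  have hpos : 1 ≤ ℓ := by omega
  have h4 : 1 ≤ ℓ ^ c := Nat.one_le_pow _ _ hpos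
  set P := ℓ ^ c with hP
  have h5 : P + c + 2 ≤ (c + 3) * P := by nlinarith
  have h6 : (P + c) * (2 * (P + c)) + 2 ≤ 2 * (P + c + 2) ^ 2 := by nlinarith
  calc 9 * (2 * (P + c + 2) * ((P + c) * (2 * (P + c)) + 2))
      ≤ 9 * (2 * (P + c + 2) * (2 * (P + c + 2) ^ 2)) := by gcongr
    _ = 36 * (P + c + 2) ^ 3 := by ring
    _ ≤ 36 * ((c + 3) * P) ^ 3 := by gcongr
    _ = (36 * (c + 3) ^ 3) * P ^ 3 := by ring
    _ ≤ ℓ * P ^ 3 := by
        apply Nat.mul_le_mul_right
        omega
    _ = ℓ ^ (3 * c + 1) := by rw [hP]; ring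

lemma exists_input {P : ℕ → Prop} (h : ∃ a : ℕ, ∀ ℓ, a ≤ ℓ → P ℓ) (b : Bool) :
    ∃ x : List Bool, P x.length ∧ (Even x.length ↔ b = true) := by
  obtain ⟨a, ha⟩ := h
  cases b
  · refine ⟨List.replicate (2 * a + 1) false, ?_, ?_⟩
    · rw [List.length_replicate]
      exact ha _ (by omega)
    · rw [List.length_replicate]
      simp
  · refine ⟨List.replicate (2 * a) false, ?_, ?_⟩
    · rw [List.length_replicate]
      exact ha _ (by omega)
    · rw [List.length_replicate]
      simp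

lemma dense_badMA (W : AlgVerifier) (A₀ : List Bool → Bool) (S₀ : Finset (List Bool)) :
    ∃ A : List Bool → Bool, (∀ s ∈ S₀, A s = A₀ s) ∧ ∃ x, ¬ GoodMA W x A := by
  classical
  obtain ⟨x, ⟨h1, h2⟩, hx⟩ := exists_input (eventually_large W.c (S₀.sup List.length)) true
  have hev' : ∀ A, val A x.length = Alg.val A x.length := fun A => if_pos (hx.mpr rfl)
  by_contra hcon
  push Not at hcon
  have key : ∀ a b : Jx x.length → Bool × Bool, GoodMA W x (orc A₀ x.length a b) := fun a b =>
    hcon _ (orc_outside A₀ S₀ h1 a b) x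
  set N := x.length ^ W.c + W.c with hN
  have hq : ∀ y ρ, (W.tree x y ρ).AllQ fun q => q.m ≤ 2 ^ N := fun y ρ =>
    (W.query_le x y ρ).mono fun q hq => hq.1
  have hev : ∀ y ρ (a b : Jx x.length → Bool × Bool),
      (toProt N (shA x.length) (shB A₀ x.length) (W.tree x y ρ)).eval a b =
        (W.tree x y ρ).eval (AQ.ans (orc A₀ x.length a b)) := fun y ρ a b =>
    eval_toProt (orc_eq A₀ x.length a b) (shares_disj A₀ x.length a b) (hq y ρ)
  have hMA : HasMAcc (lift (fb x.length)) (W.msg x.length) (N * (2 * N)) := by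
    refine ⟨W.coins x.length,
      fun y ρ => toProt N (shA x.length) (shB A₀ x.length) (W.tree x y ρ),
      fun y ρ => cost_toProt (W.depth_le x y ρ), ?_, ?_⟩
    · intro a b hab
      have := (key a b).1
      rw [hev', val_orc] at this
      obtain ⟨y, hy⟩ := this hab
      refine ⟨y, ?_⟩
      simp only [hev]
      exact hy
    · intro a b hab y
      have := (key a b).2
      rw [hev', val_orc] at this
      simp only [hev]
      exact this hab y
  have h3 := (exactDual_fb (D := 2 * (N + 2) * (N * (2 * N) + 2)) h2).macc hMA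
  have h4 := W.msg_le x.length
  have h5 : 2 * (W.msg x.length + 2) * (N * (2 * N) + 2) ≤ 2 * (N + 2) * (N * (2 * N) + 2) := by
    gcongr
  omega

lemma dense_badPP (W : AlgVerifier) (A₀ : List Bool → Bool) (S₀ : Finset (List Bool)) :
    ∃ A : List Bool → Bool, (∀ s ∈ S₀, A s = A₀ s) ∧ ∃ x, ¬ GoodPP W x A := by
  classical
  obtain ⟨x, ⟨h1, h2⟩, hx⟩ := exists_input (eventually_large W.c (S₀.sup List.length)) true
  have hev' : ∀ A, val A x.length = Alg.val A x.length := fun A => if_pos (hx.mpr rfl)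
  by_contra hcon
  push Not at hcon
  have key : ∀ a b : Jx x.length → Bool × Bool, GoodPP W x (orc A₀ x.length a b) := fun a b =>
    hcon _ (orc_outside A₀ S₀ h1 a b) x
  set N := x.length ^ W.c + W.c with hN
  have hq : ∀ y ρ, (W.tree x y ρ).AllQ fun q => q.m ≤ 2 ^ N := fun y ρ =>
    (W.query_le x y ρ).mono fun q hq => hq.1
  have hev : ∀ y ρ (a b : Jx x.length → Bool × Bool),
      (toProt N (shA x.length) (shB A₀ x.length) (W.tree x y ρ)).eval a b =
        (W.tree x y ρ).eval (AQ.ans (orc A₀ x.length a b)) := fun y ρ a b =>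
    eval_toProt (orc_eq A₀ x.length a b) (shares_disj A₀ x.length a b) (hq y ρ)
  have hPP : HasPPcc (lift (fb x.length)) (W.msg x.length + W.coins x.length + 1)
      (N * (2 * N)) := by
    refine ⟨W.msg x.length + W.coins x.length,
      fun ρ => toProt N (shA x.length) (shB A₀ x.length)
        (W.tree x ((Fin.appendEquiv _ _).symm ρ).1 ((Fin.appendEquiv _ _).symm ρ).2),
      fun ρ => cost_toProt (W.depth_le x _ _), ?_, ?_⟩
    · intro a b hab
      have := (key a b).1
      rw [hev', val_orc] at this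
      have h3 := this hab
      rw [ppProb_eq] at h3
      simp only [hev]
      exact PP.half_lt h3
    · intro a b hab
      have := (key a b).2
      rw [hev', val_orc] at this
      have h3 := this hab
      rw [ppProb_eq] at h3
      simp only [hev]
      exact h3
  have h3 := (exactDual_fb (D := 2 * (N + 2) * (N * (2 * N) + 2)) h2).ppcc hPP
  have h4 := W.msg_le x.length
  have h5 := W.coins_le x.length
  have h6 : 2 * (N + 2) * (N * (2 * N) + 2) = 4 * (N * N * N) + 8 * (N * N) + 4 * N + 8 := by ring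
  have h7 : N * (2 * N) = 2 * (N * N) := by ring
  rw [h6, h7] at h3
  omega

lemma dense_badS2 (W : Verifier) (A₀ : List Bool → Bool) (S₀ : Finset (List Bool)) :
    ∃ A : List Bool → Bool, (∀ s ∈ S₀, A s = A₀ s) ∧ ∃ x, ¬ GoodS2 W x A := by
  classical
  obtain ⟨x, ⟨h1, h2⟩, hx⟩ := exists_input (eventually_large W.c (S₀.sup List.length)) false
  have hval : ∀ A, val A x.length = Sig.fσ x.length fun c => A (name x.length c) := fun A =>
    if_neg fun h => by simpa using hx.mp h
  by_contra hcon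
  push Not at hcon
  have key : ∀ z : Sig.Cs x.length → Bool, GoodS2 W x (glue (name x.length) A₀ z) := by
    intro z
    refine hcon _ ?_ x
    intro s hs
    unfold glue
    rw [dif_neg]
    rintro ⟨c, hc⟩
    have h3 : s.length ≤ S₀.sup List.length := le_sup (f := List.length) hs
    rw [← hc, length_name] at h3
    omega
  have hpart : ∀ z : Sig.Cs x.length → Bool,
      (fun c => glue (name x.length) A₀ z (name x.length c)) = z := fun z =>
    funext fun c => glue_apply (name_inj _) A₀ z c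
  have hS2 : HasSigma2 (Sig.fσ x.length) (W.msg x.length) (x.length ^ W.c + W.c) := by
    refine ⟨W.coins x.length, fun y ρ => (W.tree x y ρ).restr (name x.length) A₀,
      fun y ρ => DTree.depthLE_restr _ _ (W.depth_le x y ρ), fun z => ?_⟩
    have := key z
    unfold GoodS2 at this
    rw [hval, hpart] at this
    simp only [DTree.eval_restr]
    exact this
  have h3 := Sig.lower_fσ hS2
  have h4 := W.msg_le x.length
  set N := x.length ^ W.c + W.c with hN
  have h5 : 9 * (2 * (N + 2) * (N * (2 * N) + 2)) = 36 * (N * N * N) + 72 * (N * N) + 36 * N + 72 := by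
    ring
  rw [h5] at h2
  omega

theorem generic_am : ∃ V : Verifier,
    (∀ x y ρ, (V.tree x y ρ).DepthLE 30) ∧
    (∀ A x, 2 / 3 ≤ V.amProb A x ∨ V.amProb A x ≤ 1 / 3) ∧
    ∀ (W : ℕ → AlgVerifier) (W' : ℕ → Verifier), ∀ᶠ A in residual (List Bool → Bool),
      ∀ i, ¬ (W i).AcceptsMA A {x | 2 / 3 ≤ V.amProb A x} ∧
        ¬ (W i).AcceptsPP A {x | 2 / 3 ≤ V.amProb A x} ∧
        ¬ (W' i).AcceptsSigma2 A {x | 2 / 3 ≤ V.amProb A x} := by
  refine ⟨robustV, fun x y ρ => (exists_trees x.length).choose_spec.1 y ρ,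
    fun A x => ?_, fun W W' => ?_⟩
  · rcases h : val A x.length with _ | _
    · exact Or.inr (amProb_no A x h)
    · exact Or.inl (amProb_yes A x h)
  · rw [eventually_countable_forall]
    intro i
    have hno : ∀ (A : List Bool → Bool) (x : List Bool),
        val A x.length = false → x ∉ {x | 2 / 3 ≤ robustV.amProb A x} := by
      intro A x h h'
      have h1 := amProb_no A x h
      have h2 : (2 / 3 : ℝ) ≤ robustV.amProb A x := h'
      linarith
    have hM := PP.eventually_of (P := GoodMA (W i)) (fun x => by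
      obtain ⟨S, hS⟩ := good_congr (W i) x
      exact ⟨S, fun A B h => (hS A B h).1⟩) (dense_badMA (W i))
    have hP := PP.eventually_of (P := GoodPP (W i)) (fun x => by
      obtain ⟨S, hS⟩ := good_congr (W i) x
      exact ⟨S, fun A B h => (hS A B h).2⟩) (dense_badPP (W i))
    have hS := PP.eventually_of (P := GoodS2 (W' i)) (good_congr2 (W' i)) (dense_badS2 (W' i))
    filter_upwards [hM, hP, hS] with A h1 h2 h3
    refine ⟨?_, ?_, ?_⟩
    · intro hacc
      obtain ⟨x, hx⟩ := h1
      exact hx ⟨fun h => (hacc x).1 (amProb_yes A x h), fun h => (hacc x).2 (hno A x h)⟩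
    · intro hacc
      obtain ⟨x, hx⟩ := h2
      exact hx ⟨fun h => (hacc x).1 (amProb_yes A x h), fun h => (hacc x).2 (hno A x h)⟩
    · intro hacc
      obtain ⟨x, hx⟩ := h3
      apply hx
      unfold GoodS2
      rw [← hacc x]
      constructor
      · exact fun h => amProb_yes A x h
      · intro h
        by_contra h'
        exact hno A x (by simpa using h') h

end Pool.Agent.Lib.MP_ff3ed7_lc.Gen
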