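import Pool.Agent.Lib.MP_ff3ed7_lc.GenericPP
import Pool.Agent.Lib.MP_ff3ed7_lc.AlgProt
import Pool.Agent.Lib.MP_ff3ed7_lc.Exact
import Pool.Agent.Lib.MP_ff3ed7_lc.Pattern

/-! The generic oracle theorem for protocols with algebraic queries. -/

open Finset

namespace Pool.Agent.Lib.MP_ff3ed7_lc.Alg

open PP (Jx)

lemma exists_code (ℓ : ℕ) : ∃ code : Jx ℓ × Fin 4 → List Bool,
    Function.Injective code ∧ ∀ c, (code c).length = 5 * ℓ + 19 := by
  have hle : Fintype.card (Jx ℓ × Fin 4) ≤ Fintype.card (Fin (5 * ℓ + 19) → Bool) := by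
    rw [Fintype.card_prod, Fintype.card_fin]
    refine (Nat.mul_le_mul_right 4 (card_cl_le (n := 2 ^ ℓ) Nat.one_le_two_pow)).trans
      (le_of_eq ?_)
    simp
    ring
  obtain ⟨emb⟩ := Function.Embedding.nonempty_of_card_le hle
  exact ⟨fun c => List.ofFn (emb c), fun a b h => emb.injective (List.ofFn_injective h),
    fun c => by simp⟩

/-- The names: strings of length `5 ℓ + 19`. -/
noncomputable def code (ℓ : ℕ) : Jx ℓ × Fin 4 → List Bool := (exists_code ℓ).choose

lemma code_inj (ℓ : ℕ) : Function.Injective (code ℓ) := (exists_code ℓ).choose_spec.1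

lemma length_code (ℓ : ℕ) (c : Jx ℓ × Fin 4) : (code ℓ c).length = 5 * ℓ + 19 :=
  (exists_code ℓ).choose_spec.2 c

lemma poly_aux (ℓ : ℕ) : 6 * ℓ + 30 ≤ ℓ ^ 40 + 40 := by
  rcases Nat.lt_or_ge ℓ 2 with h | h
  · interval_cases ℓ <;> norm_num
  · have h1 : 2 ^ 39 ≤ ℓ ^ 39 := Nat.pow_le_pow_left h 39
    have h2 : ℓ ^ 40 = ℓ ^ 39 * ℓ := pow_succ ℓ 39
    nlinarith

/-- The robust verifier. -/
noncomputable def robustV : Verifier where
  msg ℓ := 5 * ℓ + 17
  coins ℓ := ℓ + 2
  tree x y ρ := expandTree (code x.length) ((hasAM_fb x.length).choose y ρ)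
  c := 40
  msg_le ℓ := (by omega : 5 * ℓ + 17 ≤ 6 * ℓ + 30).trans (poly_aux ℓ)
  coins_le ℓ := (by omega : ℓ + 2 ≤ 6 * ℓ + 30).trans (poly_aux ℓ)
  depth_le x y ρ := (depthLE_expandTree ((hasAM_fb x.length).choose_spec.1 y ρ)).mono
    ((by omega : 3 * 10 ≤ 6 * x.length + 30).trans (poly_aux x.length))
  length_le x y ρ := allQ_expandTree (fun i => by
    rw [length_code]
    exact (by omega : 5 * x.length + 19 ≤ 6 * x.length + 30).trans (poly_aux _)) _

/-- The value of the composed function on the part of the oracle which is used for inputs of length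
`ℓ`. -/
noncomputable def val (A : List Bool → Bool) (ℓ : ℕ) : Bool :=
  lift (fb ℓ) (fstPart (code ℓ) A) (sndPart (code ℓ) A)

lemma amProb_yes (A : List Bool → Bool) (x : List Bool) (h : val A x.length = true) :
    2 / 3 ≤ robustV.amProb A x := by
  have := (hasAM_fb x.length).choose_spec.2.1 _ h
  unfold Verifier.amProb robustV
  simp only [eval_expandTree]
  exact this

lemma amProb_no (A : List Bool → Bool) (x : List Bool)
    (h : val A x.length = false) : robustV.amProb A x ≤ 1 / 3 := by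
  have := (hasAM_fb x.length).choose_spec.2.2 _ h
  unfold Verifier.amProb robustV
  simp only [eval_expandTree]
  exact this

/-! ### Probabilities -/

lemma ppProb_eq (W : AlgVerifier) (A : List Bool → Bool) (x : List Bool) :
    W.ppProb A x = prob (W.msg x.length + W.coins x.length) fun ρ =>
      (W.tree x ((Fin.appendEquiv _ _).symm ρ).1
        ((Fin.appendEquiv _ _).symm ρ).2).eval (AQ.ans A) = true := by
  unfold AlgVerifier.ppProb prob
  congr 2
  refine Nat.card_congr ((Fin.appendEquiv _ _).subtypeEquiv fun w => ?_)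
  simp

/-- `W` works correctly on `x` relative to `A`, as a Merlin-Arthur protocol. -/
def GoodMA (W : AlgVerifier) (x : List Bool) (A : List Bool → Bool) : Prop :=
  (val A x.length = true → ∃ y, 2 / 3 ≤ W.maProb A x y) ∧
  (val A x.length = false → ∀ y, W.maProb A x y ≤ 1 / 3)

/-- `W` works correctly on `x` relative to `A`, as a `PP` machine. -/
def GoodPP (W : AlgVerifier) (x : List Bool) (A : List Bool → Bool) : Prop :=
  (val A x.length = true → 1 / 2 < W.ppProb A x) ∧
  (val A x.length = false → W.ppProb A x ≤ 1 / 2)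

lemma good_congr (W : AlgVerifier) (x : List Bool) : ∃ S : Finset (List Bool),
    ∀ A B : List Bool → Bool, (∀ s ∈ S, A s = B s) →
      (GoodMA W x A ↔ GoodMA W x B) ∧ (GoodPP W x A ↔ GoodPP W x B) := by
  classical
  refine ⟨(univ.image (code x.length)) ∪
    (List.finite_length_le Bool (x.length ^ W.c + W.c)).toFinset, ?_⟩
  intro A B hAB
  have h1 : val A x.length = val B x.length := by
    have h2 : ∀ c, A (code x.length c) = B (code x.length c) := fun c =>
      hAB _ (mem_union_left _ (mem_image_of_mem _ (mem_univ _)))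
    unfold val
    congr 1
    · funext i
      simp only [fstPart, h2]
    · funext i
      simp only [sndPart, h2]
  have h3 : ∀ s : List Bool, s.length ≤ x.length ^ W.c + W.c → A s = B s := fun s hs =>
    hAB s (mem_union_right _ (by simpa using hs))
  have h0 : ∀ y ρ, (W.tree x y ρ).eval (AQ.ans A) = (W.tree x y ρ).eval (AQ.ans B) := fun y ρ =>
    DTree.eval_congr_of_allQ (fun q hq => AQ.ans_congr h3 q hq.2) _ (W.query_le x y ρ)
  have h2 : ∀ y, W.maProb A x y = W.maProb B x y := by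
    intro y
    unfold AlgVerifier.maProb
    simp only [h0]
  have h3 : W.ppProb A x = W.ppProb B x := by
    unfold AlgVerifier.ppProb
    simp only [h0]
  unfold GoodMA GoodPP
  rw [h1, h3]
  simp only [h2]
  exact ⟨trivial, trivial⟩

/-! ### The oracles -/

/-- The contribution of the first player. -/
def zA {ι : Type} (x : ι → Bool × Bool) (c : ι × Fin 4) : Bool :=
  if c.2 = 0 then (x c.1).1 else if c.2 = 1 then (x c.1).2 else false

/-- The contribution of the second player. -/
def zB {ι : Type} (y : ι → Bool × Bool) (c : ι × Fin 4) : Bool :=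
  if c.2 = 2 then (y c.1).1 else if c.2 = 3 then (y c.1).2 else false

/-- The oracle given by the inputs of both players. -/
noncomputable def orc (A₀ : List Bool → Bool) (ℓ : ℕ) (x y : Jx ℓ → Bool × Bool) :
    List Bool → Bool :=
  glue (code ℓ) A₀ fun c => zA x c || zB y c

lemma fst_orc (A₀ : List Bool → Bool) (ℓ : ℕ) (x y : Jx ℓ → Bool × Bool) :
    fstPart (code ℓ) (orc A₀ ℓ x y) = x := by
  funext i
  simp only [fstPart, orc, glue_apply (code_inj ℓ)]
  simp [zA, zB]

lemma snd_orc (A₀ : List Bool → Bool) (ℓ : ℕ) (x y : Jx ℓ → Bool × Bool) :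
    sndPart (code ℓ) (orc A₀ ℓ x y) = y := by
  funext i
  simp only [sndPart, orc, glue_apply (code_inj ℓ)]
  simp [zA, zB]

lemma val_orc (A₀ : List Bool → Bool) (ℓ : ℕ) (x y : Jx ℓ → Bool × Bool) :
    val (orc A₀ ℓ x y) ℓ = lift (fb ℓ) x y := by
  unfold val
  rw [fst_orc, snd_orc]

lemma orc_outside {ℓ : ℕ} (A₀ : List Bool → Bool) (S₀ : Finset (List Bool))
    (h1 : S₀.sup List.length < 5 * ℓ + 19) (x y : Jx ℓ → Bool × Bool) :
    ∀ s ∈ S₀, orc A₀ ℓ x y s = A₀ s := by
  intro s hs
  unfold orc glue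
  rw [dif_neg]
  rintro ⟨c, hc⟩
  have h3 : s.length ≤ S₀.sup List.length := le_sup (f := List.length) hs
  rw [← hc, length_code] at h3
  omega

/-- The share of the first player. -/
noncomputable def shA (ℓ : ℕ) (x : Jx ℓ → Bool × Bool) : List Bool → Bool :=
  glue (code ℓ) (fun _ => false) (zA x)

/-- The share of the second player. -/
noncomputable def shB (A₀ : List Bool → Bool) (ℓ : ℕ) (y : Jx ℓ → Bool × Bool) :
    List Bool → Bool :=
  glue (code ℓ) A₀ (zB y)

lemma orc_eq (A₀ : List Bool → Bool) (ℓ : ℕ) (x y : Jx ℓ → Bool × Bool) (s : List Bool) :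
    orc A₀ ℓ x y s = (shA ℓ x s || shB A₀ ℓ y s) := by
  unfold orc shA shB glue
  by_cases h : ∃ c, code ℓ c = s
  · simp only [dif_pos h]
  · simp only [dif_neg h, Bool.false_or]

lemma shares_disj (A₀ : List Bool → Bool) (ℓ : ℕ) (x y : Jx ℓ → Bool × Bool) (s : List Bool) :
    shA ℓ x s = false ∨ shB A₀ ℓ y s = false := by
  unfold shA shB glue
  by_cases h : ∃ c, code ℓ c = s
  · simp only [dif_pos h]
    obtain ⟨i, k⟩ := h.choose
    fin_cases k <;> simp [zA, zB]
  · simp only [dif_neg h, true_or]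

/-! ### Density -/

lemma exists_large (c M : ℕ) : ∃ ℓ : ℕ, M < 5 * ℓ + 19 ∧
    9 * (2 * (ℓ ^ c + c + 2) * ((ℓ ^ c + c) * (2 * (ℓ ^ c + c)) + 2)) ≤ 2 ^ ℓ := by
  have h1 : Filter.Tendsto (fun ℓ : ℕ => ((ℓ : ℝ) ^ (3 * c + 1)) / 2 ^ ℓ) Filter.atTop (nhds 0) :=
    tendsto_pow_const_div_const_pow_of_one_lt (3 * c + 1) (by norm_num : (1 : ℝ) < 2)
  have h2 := h1.eventually (gt_mem_nhds (show (0 : ℝ) < 1 by norm_num))
  obtain ⟨ℓ, hℓ1, hℓ2⟩ := (h2.and (Filter.eventually_ge_atTop (M + 36 * (c + 3) ^ 3 + 1))).exists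
  refine ⟨ℓ, by omega, ?_⟩
  rw [div_lt_one (by positivity)] at hℓ1
  have h3 : ℓ ^ (3 * c + 1) < 2 ^ ℓ := by exact_mod_cast hℓ1
  refine le_trans ?_ h3.le
  have hpos : 1 ≤ ℓ := by omega
  have h4 : 1 ≤ ℓ ^ c := Nat.one_le_pow _ _ hpos
  set P := ℓ ^ c with hP
  have h5 : P + c + 2 ≤ (c + 3) * P := by nlinarith
  have h6 : (P + c) * (2 * (P + c)) + 2 ≤ 2 * (P + c + 2) ^ 2 := by nlinarith
  calc 9 * (2 * (P + c + 2) * ((P + c) * (2 * (P + c)) + 2))
      ≤ 9 * (2 * (P + c + 2) * (2 * (P + c + 2) ^ 2)) := by gcongr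
    _ = 36 * (P + c + 2) ^ 3 := by ring
    _ ≤ 36 * ((c + 3) * P) ^ 3 := by gcongr
    _ = (36 * (c + 3) ^ 3) * P ^ 3 := by ring
    _ ≤ ℓ * P ^ 3 := by
        apply Nat.mul_le_mul_right
        omega
    _ = ℓ ^ (3 * c + 1) := by rw [hP]; ring

lemma dense_badMA (W : AlgVerifier) (A₀ : List Bool → Bool) (S₀ : Finset (List Bool)) :
    ∃ A : List Bool → Bool, (∀ s ∈ S₀, A s = A₀ s) ∧ ∃ x, ¬ GoodMA W x A := by
  classical
  obtain ⟨ℓ, h1, h2⟩ := exists_large W.c (S₀.sup List.length)
  obtain ⟨x, rfl⟩ : ∃ x : List Bool, x.length = ℓ := ⟨List.replicate ℓ false, by simp⟩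
  by_contra hcon
  push Not at hcon
  have key : ∀ a b : Jx x.length → Bool × Bool, GoodMA W x (orc A₀ x.length a b) := fun a b =>
    hcon _ (orc_outside A₀ S₀ h1 a b) x
  set N := x.length ^ W.c + W.c with hN
  have hq : ∀ y ρ, (W.tree x y ρ).AllQ fun q => q.m ≤ 2 ^ N := fun y ρ =>
    (W.query_le x y ρ).mono fun q hq => hq.1
  have hev : ∀ y ρ (a b : Jx x.length → Bool × Bool),
      (toProt N (shA x.length) (shB A₀ x.length) (W.tree x y ρ)).eval a b =
        (W.tree x y ρ).eval (AQ.ans (orc A₀ x.length a b)) := fun y ρ a b =>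
    eval_toProt (orc_eq A₀ x.length a b) (shares_disj A₀ x.length a b) (hq y ρ)
  have hMA : HasMAcc (lift (fb x.length)) (W.msg x.length) (N * (2 * N)) := by
    refine ⟨W.coins x.length,
      fun y ρ => toProt N (shA x.length) (shB A₀ x.length) (W.tree x y ρ),
      fun y ρ => cost_toProt (W.depth_le x y ρ), ?_, ?_⟩
    · intro a b hab
      have := (key a b).1
      rw [val_orc] at this
      obtain ⟨y, hy⟩ := this hab
      refine ⟨y, ?_⟩
      simp only [hev]
      exact hy
    · intro a b hab y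
      have := (key a b).2
      rw [val_orc] at this
      simp only [hev]
      exact this hab y
  have h3 := (exactDual_fb (D := 2 * (N + 2) * (N * (2 * N) + 2)) h2).macc hMA
  have h4 := W.msg_le x.length
  have h5 : 2 * (W.msg x.length + 2) * (N * (2 * N) + 2) ≤ 2 * (N + 2) * (N * (2 * N) + 2) := by
    gcongr
  omega

lemma dense_badPP (W : AlgVerifier) (A₀ : List Bool → Bool) (S₀ : Finset (List Bool)) :
    ∃ A : List Bool → Bool, (∀ s ∈ S₀, A s = A₀ s) ∧ ∃ x, ¬ GoodPP W x A := by
  classical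
  obtain ⟨ℓ, h1, h2⟩ := exists_large W.c (S₀.sup List.length)
  obtain ⟨x, rfl⟩ : ∃ x : List Bool, x.length = ℓ := ⟨List.replicate ℓ false, by simp⟩
  by_contra hcon
  push Not at hcon
  have key : ∀ a b : Jx x.length → Bool × Bool, GoodPP W x (orc A₀ x.length a b) := fun a b =>
    hcon _ (orc_outside A₀ S₀ h1 a b) x
  set N := x.length ^ W.c + W.c with hN
  have hq : ∀ y ρ, (W.tree x y ρ).AllQ fun q => q.m ≤ 2 ^ N := fun y ρ =>
    (W.query_le x y ρ).mono fun q hq => hq.1
  have hev : ∀ y ρ (a b : Jx x.length → Bool × Bool),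
      (toProt N (shA x.length) (shB A₀ x.length) (W.tree x y ρ)).eval a b =
        (W.tree x y ρ).eval (AQ.ans (orc A₀ x.length a b)) := fun y ρ a b =>
    eval_toProt (orc_eq A₀ x.length a b) (shares_disj A₀ x.length a b) (hq y ρ)
  have hPP : HasPPcc (lift (fb x.length)) (W.msg x.length + W.coins x.length + 1)
      (N * (2 * N)) := by
    refine ⟨W.msg x.length + W.coins x.length,
      fun ρ => toProt N (shA x.length) (shB A₀ x.length)
        (W.tree x ((Fin.appendEquiv _ _).symm ρ).1 ((Fin.appendEquiv _ _).symm ρ).2),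
      fun ρ => cost_toProt (W.depth_le x _ _), ?_, ?_⟩
    · intro a b hab
      have := (key a b).1
      rw [val_orc] at this
      have h3 := this hab
      rw [ppProb_eq] at h3
      simp only [hev]
      exact PP.half_lt h3
    · intro a b hab
      have := (key a b).2
      rw [val_orc] at this
      have h3 := this hab
      rw [ppProb_eq] at h3
      simp only [hev]
      exact h3
  have h3 := (exactDual_fb (D := 2 * (N + 2) * (N * (2 * N) + 2)) h2).ppcc hPP
  have h4 := W.msg_le x.length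
  have h5 := W.coins_le x.length
  have h6 : 2 * (N + 2) * (N * (2 * N) + 2) = 4 * (N * N * N) + 8 * (N * N) + 4 * N + 8 := by ring
  have h7 : N * (2 * N) = 2 * (N * N) := by ring
  rw [h6, h7] at h3
  omega

theorem generic_alg : ∃ V : Verifier,
    (∀ x y ρ, (V.tree x y ρ).DepthLE 30) ∧
    (∀ A x, 2 / 3 ≤ V.amProb A x ∨ V.amProb A x ≤ 1 / 3) ∧
    ∀ W : ℕ → AlgVerifier, ∀ᶠ A in residual (List Bool → Bool),
      ∀ i, ¬ (W i).AcceptsMA A {x | 2 / 3 ≤ V.amProb A x} ∧
        ¬ (W i).AcceptsPP A {x | 2 / 3 ≤ V.amProb A x} := by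
  refine ⟨robustV, fun x y ρ => depthLE_expandTree ((hasAM_fb x.length).choose_spec.1 y ρ),
    fun A x => ?_, fun W => ?_⟩
  · rcases h : val A x.length with _ | _
    · exact Or.inr (amProb_no A x h)
    · exact Or.inl (amProb_yes A x h)
  · rw [eventually_countable_forall]
    intro i
    have hno : ∀ (A : List Bool → Bool) (x : List Bool),
        val A x.length = false → x ∉ {x | 2 / 3 ≤ robustV.amProb A x} := by
      intro A x h h'
      have h1 := amProb_no A x h
      have h2 : (2 / 3 : ℝ) ≤ robustV.amProb A x := h'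
      linarith
    have hM := PP.eventually_of (P := GoodMA (W i)) (fun x => by
      obtain ⟨S, hS⟩ := good_congr (W i) x
      exact ⟨S, fun A B h => (hS A B h).1⟩) (dense_badMA (W i))
    have hP := PP.eventually_of (P := GoodPP (W i)) (fun x => by
      obtain ⟨S, hS⟩ := good_congr (W i) x
      exact ⟨S, fun A B h => (hS A B h).2⟩) (dense_badPP (W i))
    filter_upwards [hM, hP] with A h1 h2
    constructor
    · intro hacc
      obtain ⟨x, hx⟩ := h1
      exact hx ⟨fun h => (hacc x).1 (amProb_yes A x h), fun h => (hacc x).2 (hno A x h)⟩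
    · intro hacc
      obtain ⟨x, hx⟩ := h2
      exact hx ⟨fun h => (hacc x).1 (amProb_yes A x h), fun h => (hacc x).2 (hno A x h)⟩

end Pool.Agent.Lib.MP_ff3ed7_lc.Alg
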