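import Pool.Agent.Lib.MP_ff3ed7_lc.Oracle

/-! Verifiers used as `PP` machines. -/

namespace Pool.Agent.Lib.MP_ff3ed7_lc

/-- Acceptance probability of `x` when both the message and the coins are random bits. -/
noncomputable def Verifier.ppProb (V : Verifier) (A : List Bool → Bool) (x : List Bool) : ℝ :=
  (Nat.card {w : (Fin (V.msg x.length) → Bool) × (Fin (V.coins x.length) → Bool) //
    (V.tree x w.1 w.2).eval A = true} : ℝ) / 2 ^ (V.msg x.length + V.coins x.length)

/-- `V`, with both strings chosen at random, is a `PP` machine for `L` relative to `A`. -/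
def Verifier.AcceptsPP (V : Verifier) (A : List Bool → Bool) (L : Set (List Bool)) : Prop :=
  ∀ x, (x ∈ L → 1 / 2 < V.ppProb A x) ∧ (x ∉ L → V.ppProb A x ≤ 1 / 2)

end Pool.Agent.Lib.MP_ff3ed7_lc
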