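import Pool.Agent.Lib.MP_ff3ed7_lc.TotalPP
import Pool.Agent.Lib.MP_ff3ed7_lc.OraclePP
import Pool.Agent.Lib.MP_ff3ed7_lc.Generic

/-! The generic oracle theorem for `MA` and `PP`. -/

open Finset

namespace Pool.Agent.Lib.MP_ff3ed7_lc.PP

/-- The index set of the input bits. -/
abbrev Jx (ℓ : ℕ) : Type := Cl (2 ^ ℓ)

lemma exists_code (ℓ : ℕ) : ∃ code : Jx ℓ → List Bool,
    Function.Injective code ∧ ∀ c, (code c).length = 5 * ℓ + 17 := by
  have hle : Fintype.card (Jx ℓ) ≤ Fintype.card (Fin (5 * ℓ + 17) → Bool) := by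
    refine (card_cl_le (n := 2 ^ ℓ) Nat.one_le_two_pow).trans (le_of_eq ?_)
    simp
    ring
  obtain ⟨emb⟩ := Function.Embedding.nonempty_of_card_le hle
  exact ⟨fun c => List.ofFn (emb c), fun a b h => emb.injective (List.ofFn_injective h),
    fun c => by simp⟩

/-- The names: strings of length `5 ℓ + 17`. -/
noncomputable def code (ℓ : ℕ) : Jx ℓ → List Bool := (exists_code ℓ).choose

lemma code_inj (ℓ : ℕ) : Function.Injective (code ℓ) := (exists_code ℓ).choose_spec.1

lemma length_code (ℓ : ℕ) (c : Jx ℓ) : (code ℓ c).length = 5 * ℓ + 17 :=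
  (exists_code ℓ).choose_spec.2 c

/-- The robust verifier. -/
noncomputable def robustV : Verifier where
  msg ℓ := 5 * ℓ + 17
  coins ℓ := ℓ + 2
  tree x y ρ := ((hasAM_fb x.length).choose y ρ).conv (code x.length) fun _ s => s
  c := 24
  msg_le ℓ := (by omega : 5 * ℓ + 17 ≤ 6 * ℓ + 18).trans (poly_aux ℓ)
  coins_le ℓ := (by omega : ℓ + 2 ≤ 6 * ℓ + 18).trans (poly_aux ℓ)
  depth_le x y ρ := (DTree.depthLE_conv ((hasAM_fb x.length).choose_spec.1 y ρ)).mono
    ((by omega : 10 ≤ 6 * x.length + 18).trans (poly_aux x.length))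
  length_le x y ρ := allQ_conv (fun i => by
    rw [length_code]
    exact (by omega : 5 * x.length + 17 ≤ 6 * x.length + 18).trans (poly_aux _)) _

/-- The part of the oracle which is used for inputs of length `ℓ`. -/
noncomputable def part (A : List Bool → Bool) (ℓ : ℕ) : Jx ℓ → Bool := fun c => A (code ℓ c)

lemma amProb_yes (A : List Bool → Bool) (x : List Bool) (h : fb x.length (part A x.length) = true) :
    2 / 3 ≤ robustV.amProb A x := by
  have := (hasAM_fb x.length).choose_spec.2.1 (part A x.length) h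
  unfold Verifier.amProb robustV
  simp only [DTree.eval_conv]
  exact this

lemma amProb_no (A : List Bool → Bool) (x : List Bool)
    (h : fb x.length (part A x.length) = false) : robustV.amProb A x ≤ 1 / 3 := by
  have := (hasAM_fb x.length).choose_spec.2.2 (part A x.length) h
  unfold Verifier.amProb robustV
  simp only [DTree.eval_conv]
  exact this

/-! ### Probabilities -/

lemma ppProb_eq (W : Verifier) (A : List Bool → Bool) (x : List Bool) :
    W.ppProb A x = prob (W.msg x.length + W.coins x.length) fun ρ =>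
      (W.tree x ((Fin.appendEquiv _ _).symm ρ).1 ((Fin.appendEquiv _ _).symm ρ).2).eval A = true := by
  unfold Verifier.ppProb prob
  congr 2
  refine Nat.card_congr ((Fin.appendEquiv _ _).subtypeEquiv fun w => ?_)
  simp

lemma half_lt {R K : ℕ} (h : (1 / 2 : ℝ) < K / 2 ^ R) : 1 / 2 + (1 / 2 : ℝ) ^ (R + 1) ≤ K / 2 ^ R := by
  have h1 : (0 : ℝ) < 2 ^ R := by positivity
  rw [lt_div_iff₀ h1] at h
  have h2 : 2 ^ R < 2 * K := by
    have : (2 : ℝ) ^ R < 2 * K := by linarith
    exact_mod_cast this
  have h3 : (2 : ℝ) ^ R + 1 ≤ 2 * K := by exact_mod_cast h2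
  rw [le_div_iff₀ h1, pow_succ, add_mul, mul_right_comm, ← mul_pow]
  norm_num
  linarith

/-! ### The theorem -/

/-- `W` works correctly on `x` relative to `A`, as a Merlin-Arthur protocol. -/
def GoodMA (W : Verifier) (x : List Bool) (A : List Bool → Bool) : Prop :=
  (fb x.length (part A x.length) = true → ∃ y, 2 / 3 ≤ W.maProb A x y) ∧
  (fb x.length (part A x.length) = false → ∀ y, W.maProb A x y ≤ 1 / 3)

/-- `W` works correctly on `x` relative to `A`, as a `PP` machine. -/
def GoodPP (W : Verifier) (x : List Bool) (A : List Bool → Bool) : Prop :=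
  (fb x.length (part A x.length) = true → 1 / 2 < W.ppProb A x) ∧
  (fb x.length (part A x.length) = false → W.ppProb A x ≤ 1 / 2)

lemma good_congr (W : Verifier) (x : List Bool) : ∃ S : Finset (List Bool),
    ∀ A B : List Bool → Bool, (∀ s ∈ S, A s = B s) →
      (GoodMA W x A ↔ GoodMA W x B) ∧ (GoodPP W x A ↔ GoodPP W x B) := by
  classical
  refine ⟨(univ.image (code x.length)) ∪
    univ.biUnion fun p : (Fin (W.msg x.length) → Bool) × (Fin (W.coins x.length) → Bool) =>
      (W.tree x p.1 p.2).qs, ?_⟩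
  intro A B hAB
  have h1 : part A x.length = part B x.length := by
    funext c
    exact hAB _ (mem_union_left _ (mem_image_of_mem _ (mem_univ _)))
  have h0 : ∀ y ρ, (W.tree x y ρ).eval A = (W.tree x y ρ).eval B := by
    intro y ρ
    apply DTree.eval_congr
    intro s hs
    exact hAB s (mem_union_right _ (mem_biUnion.mpr ⟨(y, ρ), mem_univ _, hs⟩))
  have h2 : ∀ y, W.maProb A x y = W.maProb B x y := by
    intro y
    unfold Verifier.maProb
    simp only [h0]
  have h3 : W.ppProb A x = W.ppProb B x := by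
    unfold Verifier.ppProb
    simp only [h0]
  unfold GoodMA GoodPP
  rw [h1, h3]
  simp only [h2]
  exact ⟨trivial, trivial⟩

/-- The oracles which agree with `A₀` outside of the names. -/
lemma part_glue (A₀ : List Bool → Bool) (ℓ : ℕ) (z : Jx ℓ → Bool) :
    part (glue (code ℓ) A₀ z) ℓ = z :=
  funext fun c => glue_apply (code_inj _) A₀ z c

lemma glue_outside {ℓ : ℕ} (A₀ : List Bool → Bool) (S₀ : Finset (List Bool))
    (h1 : S₀.sup List.length < 5 * ℓ + 16) (z : Jx ℓ → Bool) :
    ∀ s ∈ S₀, glue (code ℓ) A₀ z s = A₀ s := by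
  intro s hs
  unfold glue
  rw [dif_neg]
  rintro ⟨c, hc⟩
  have h3 : s.length ≤ S₀.sup List.length := le_sup (f := List.length) hs
  rw [← hc, length_code] at h3
  omega

lemma dense_badMA (W : Verifier) (A₀ : List Bool → Bool) (S₀ : Finset (List Bool)) :
    ∃ A : List Bool → Bool, (∀ s ∈ S₀, A s = A₀ s) ∧ ∃ x, ¬ GoodMA W x A := by
  classical
  obtain ⟨ℓ, h1, h2⟩ := exists_large W.c (S₀.sup List.length)
  obtain ⟨x, rfl⟩ : ∃ x : List Bool, x.length = ℓ := ⟨List.replicate ℓ false, by simp⟩
  by_contra hcon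
  push Not at hcon
  have key : ∀ z : Jx x.length → Bool, GoodMA W x (glue (code x.length) A₀ z) := fun z =>
    hcon _ (glue_outside A₀ S₀ h1 z) x
  have hMA : HasMA (fb x.length) (W.msg x.length) (x.length ^ W.c + W.c) := by
    refine ⟨W.coins x.length, fun y ρ => (W.tree x y ρ).restr (code x.length) A₀,
      fun y ρ => DTree.depthLE_restr _ _ (W.depth_le x y ρ), ?_, ?_⟩
    · intro z hz
      have := (key z).1
      rw [part_glue] at this
      obtain ⟨y, hy⟩ := this hz
      refine ⟨y, ?_⟩
      simp only [DTree.eval_restr]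
      exact hy
    · intro z hz y
      have := (key z).2
      rw [part_glue] at this
      simp only [DTree.eval_restr]
      exact this hz y
  have h3 := ma_fb hMA
  have h4 := W.msg_le x.length
  have h5 : (W.msg x.length + 2) * (x.length ^ W.c + W.c + 1) ≤
      15 * (x.length ^ W.c + W.c + 1) * (x.length ^ W.c + W.c + 1) := by
    gcongr
    omega
  omega

lemma dense_badPP (W : Verifier) (A₀ : List Bool → Bool) (S₀ : Finset (List Bool)) :
    ∃ A : List Bool → Bool, (∀ s ∈ S₀, A s = A₀ s) ∧ ∃ x, ¬ GoodPP W x A := by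
  classical
  obtain ⟨ℓ, h1, h2⟩ := exists_large W.c (S₀.sup List.length)
  obtain ⟨x, rfl⟩ : ∃ x : List Bool, x.length = ℓ := ⟨List.replicate ℓ false, by simp⟩
  by_contra hcon
  push Not at hcon
  have key : ∀ z : Jx x.length → Bool, GoodPP W x (glue (code x.length) A₀ z) := fun z =>
    hcon _ (glue_outside A₀ S₀ h1 z) x
  have hPP : HasPP (fb x.length) (W.msg x.length + W.coins x.length + 1)
      (x.length ^ W.c + W.c) := by
    refine ⟨W.msg x.length + W.coins x.length,
      fun ρ => (W.tree x ((Fin.appendEquiv _ _).symm ρ).1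
        ((Fin.appendEquiv _ _).symm ρ).2).restr (code x.length) A₀,
      fun ρ => DTree.depthLE_restr _ _ (W.depth_le x _ _), ?_, ?_⟩
    · intro z hz
      have := (key z).1
      rw [part_glue] at this
      have h3 := this hz
      rw [ppProb_eq] at h3
      simp only [DTree.eval_restr]
      exact half_lt h3
    · intro z hz
      have := (key z).2
      rw [part_glue] at this
      have h3 := this hz
      rw [ppProb_eq] at h3
      simp only [DTree.eval_restr]
      exact h3
  have h3 := pp_fb hPP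
  have h4 := W.msg_le x.length
  have h5 := W.coins_le x.length
  rw [pow_add] at h3
  have h6 : 15 * (x.length ^ W.c + W.c + 1) ≤
      15 * (x.length ^ W.c + W.c + 1) * (x.length ^ W.c + W.c + 1) :=
    Nat.le_mul_of_pos_right _ (by omega)
  omega

/-- Properties of oracles which depend on finitely many bits and hold densely. -/
lemma eventually_of {P : List Bool → (List Bool → Bool) → Prop}
    (hloc : ∀ x, ∃ S : Finset (List Bool), ∀ A B : List Bool → Bool, (∀ s ∈ S, A s = B s) →
      (P x A ↔ P x B))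
    (hdense : ∀ (A₀ : List Bool → Bool) (S₀ : Finset (List Bool)),
      ∃ A : List Bool → Bool, (∀ s ∈ S₀, A s = A₀ s) ∧ ∃ x, ¬ P x A) :
    ∀ᶠ A in residual (List Bool → Bool), ∃ x, ¬ P x A := by
  have hopen : IsOpen {A : List Bool → Bool | ∃ x, ¬ P x A} := by
    rw [Set.ofPred_exists]
    apply isOpen_iUnion
    intro x
    obtain ⟨S, hS⟩ := hloc x
    rw [isOpen_iff_mem_nhds]
    intro A hA
    have hcyl : (⋂ s ∈ S, {B : List Bool → Bool | B s = A s}) ∈ nhds A := by
      apply (Finset.iInter_mem_sets S).mpr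
      intro s _
      have e : {B : List Bool → Bool | B s = A s} =
          (fun B : List Bool → Bool => B s) ⁻¹' {A s} := by ext B; simp
      rw [e]
      exact ((isOpen_discrete _).preimage (continuous_apply s)).mem_nhds (by simp)
    refine Filter.mem_of_superset hcyl ?_
    intro B hB
    simp only [Set.mem_iInter] at hB
    exact fun h => hA ((hS B A hB).mp h)
  refine residual_of_dense_open hopen ?_
  rw [dense_iff_inter_open]
  intro U hU ⟨A₀, hA₀⟩
  rw [isOpen_pi_iff] at hU
  obtain ⟨S₀, u, h1, h2⟩ := hU A₀ hA₀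
  obtain ⟨A, h3, h4⟩ := hdense A₀ S₀
  refine ⟨A, h2 ?_, h4⟩
  intro s hs
  rw [h3 s hs]
  exact (h1 s hs).2

theorem generic_pp : ∃ V : Verifier,
    (∀ x y ρ, (V.tree x y ρ).DepthLE 10) ∧
    (∀ A x, 2 / 3 ≤ V.amProb A x ∨ V.amProb A x ≤ 1 / 3) ∧
    ∀ W : ℕ → Verifier, ∀ᶠ A in residual (List Bool → Bool),
      ∀ i, ¬ (W i).AcceptsMA A {x | 2 / 3 ≤ V.amProb A x} ∧
        ¬ (W i).AcceptsPP A {x | 2 / 3 ≤ V.amProb A x} := by
  refine ⟨robustV, fun x y ρ => DTree.depthLE_conv ((hasAM_fb x.length).choose_spec.1 y ρ),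
    fun A x => ?_, fun W => ?_⟩
  · rcases h : fb x.length (part A x.length) with _ | _
    · exact Or.inr (amProb_no A x h)
    · exact Or.inl (amProb_yes A x h)
  · rw [eventually_countable_forall]
    intro i
    have hno : ∀ (A : List Bool → Bool) (x : List Bool),
        fb x.length (part A x.length) = false → x ∉ {x | 2 / 3 ≤ robustV.amProb A x} := by
      intro A x h h'
      have h1 := amProb_no A x h
      have h2 : (2 / 3 : ℝ) ≤ robustV.amProb A x := h'
      linarith
    have hM := eventually_of (P := GoodMA (W i)) (fun x => by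
      obtain ⟨S, hS⟩ := good_congr (W i) x
      exact ⟨S, fun A B h => (hS A B h).1⟩) (dense_badMA (W i))
    have hP := eventually_of (P := GoodPP (W i)) (fun x => by
      obtain ⟨S, hS⟩ := good_congr (W i) x
      exact ⟨S, fun A B h => (hS A B h).2⟩) (dense_badPP (W i))
    filter_upwards [hM, hP] with A h1 h2
    constructor
    · intro hacc
      obtain ⟨x, hx⟩ := h1
      exact hx ⟨fun h => (hacc x).1 (amProb_yes A x h), fun h => (hacc x).2 (hno A x h)⟩
    · intro hacc
      obtain ⟨x, hx⟩ := h2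
      exact hx ⟨fun h => (hacc x).1 (amProb_yes A x h), fun h => (hacc x).2 (hno A x h)⟩

end Pool.Agent.Lib.MP_ff3ed7_lc.PP
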