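import Pool.Agent.Lib.MP_ff3ed7_lc.Func

/-! Hard inputs, and the behaviour of decision trees on them. -/

open Finset

namespace Pool.Agent.Lib.MP_ff3ed7_lc

variable {n k m : ℕ}

/-- Nodes: the hidden positions of the hard inputs. -/
abbrev Nd (n k : ℕ) : Type := Fin (4 * n) ⊕ (Fin (4 * n) × Fin (4 * n) × Fin (k + 2))

def src (u v : Fin (4 * n)) (i : Fin (k + 2)) : Nd n k := if i = 0 then .inl u else .inr (u, v, i)

def tgt (u v : Fin (4 * n)) (i : Fin (k + 2)) : Nd n k :=
  if h : i.1 + 1 < k + 2 then .inr (u, v, ⟨i.1 + 1, h⟩) else .inl v

lemma src_ne_tgt (u v : Fin (4 * n)) (i : Fin (k + 2)) : src u v i ≠ tgt u v i := by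
  unfold src tgt
  split_ifs with h1 h2 h2
  · simp
  · exfalso; apply h2; rw [h1]; simp
  · simp only [ne_eq, Sum.inr.injEq, Prod.mk.injEq, true_and]
    intro h
    have := congrArg Fin.val h
    simp at this
  · simp

/-- The yes-inputs: every block has exactly one active cell. -/
def xH (H : Nd n k → Fin m) : Cell n k m → Val n m
  | .arr u v i j => if H (src u v i) = j then .ptr (H (tgt u v i)) else .none
  | .tok _ _ => .none

/-- The no-inputs: only the blocks in `G` are active. -/
def yH (G : Finset (Fin (4 * n))) (τ : Fin (4 * n) → Fin (4 * n) → Fin (3 * n ^ 2))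
    (e : Fin (3 * n ^ 2) → Fin (4 * n) × Fin (4 * n)) (s : Fin (3 * n ^ 2) → Fin m)
    (H : Nd n k → Fin m) : Cell n k m → Val n m
  | .arr u v i j => if u ∈ G ∧ H (src u v i) = j then
      (if i.1 + 1 < k + 2 ∨ v ∈ G then .ptr (H (tgt u v i)) else .tk (τ u v) (s (τ u v)))
      else .none
  | .tok t s' => if s' = s t then .pr (e t).1 (e t).2 else .none

lemma F_xH (hn : 1 ≤ n) (H : Nd n k → Fin m) : F (xH H) = true := by
  rw [F_eq_true]
  right
  have : Act (xH H) = univ := by
    ext v
    simp only [Act, mem_filter, mem_univ, true_and, iff_true]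
    exact ⟨H (src v v 0), by simp [xH, Val.act]⟩
  rw [this, card_univ, Fintype.card_fin]
  omega

lemma F_yH {G : Finset (Fin (4 * n))} (hG : G.card = n)
    {τ : Fin (4 * n) → Fin (4 * n) → Fin (3 * n ^ 2)}
    {e : Fin (3 * n ^ 2) → Fin (4 * n) × Fin (4 * n)}
    (hτ : ∀ u ∈ G, ∀ v ∉ G, e (τ u v) = (u, v)) (s : Fin (3 * n ^ 2) → Fin m)
    (H : Nd n k → Fin m) : F (yH G τ e s H) = false := by
  rw [F_eq_false]
  have hact : ∀ u v i j, (yH G τ e s H (.arr u v i j)).act = true ↔
      (u ∈ G ∧ H (src u v i) = j) := by
    intro u v i j
    simp only [yH]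
    split_ifs with h1 h2 <;> simp [Val.act, h1]
  have hact' : ∀ u v i j, (yH G τ e s H (.arr u v i j)).act = false ↔
      ¬ (u ∈ G ∧ H (src u v i) = j) := by
    intro u v i j
    rw [← hact u v i j]; simp
  constructor
  · rintro (⟨u, v, j, h1, h2⟩ | ⟨u, v, i, j, h⟩ | ⟨t, a, b, hab, h1, h2⟩)
    · rw [hact] at h1
      rw [hact'] at h2
      apply h2
      simpa [src] using h1
    · unfold brk at h
      by_cases hc : u ∈ G ∧ H (src u v i) = j
      · by_cases hi : i.1 + 1 < k + 2
        · have : yH G τ e s H (.arr u v i j) = .ptr (H (tgt u v i)) := by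
            simp only [yH, if_pos hc]
            rw [if_pos (Or.inl hi)]
          rw [this] at h
          simp only [nxt, dif_pos hi, Bool.not_eq_true'] at h
          rw [hact'] at h
          apply h
          refine ⟨hc.1, ?_⟩
          simp [src, tgt, hi]
        · by_cases hv : v ∈ G
          · have : yH G τ e s H (.arr u v i j) = .ptr (H (tgt u v i)) := by
              simp only [yH, if_pos hc]
              rw [if_pos (Or.inr hv)]
            rw [this] at h
            simp only [nxt, dif_neg hi, Bool.not_eq_true'] at h
            rw [hact'] at h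
            apply h
            refine ⟨hv, ?_⟩
            simp [src, tgt, hi]
          · have : yH G τ e s H (.arr u v i j) = .tk (τ u v) (s (τ u v)) := by
              simp only [yH, if_pos hc]
              rw [if_neg (by tauto)]
            rw [this] at h
            simp [yH, hτ u hc.1 v hv] at h
      · have : yH G τ e s H (.arr u v i j) = .none := by
          simp only [yH, if_neg hc]
        rw [this] at h
        simp at h
    · simp only [yH, ne_eq, ite_eq_right_iff, reduceCtorEq, imp_false, not_not] at h1 h2
      exact hab (h1.trans h2.symm)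
  · have : Act (yH G τ e s H) = G := by
      ext v
      simp only [Act, mem_filter, mem_univ, true_and, hact]
      exact ⟨fun ⟨j, h, _⟩ => h, fun h => ⟨_, h, rfl⟩⟩
    rw [this, hG]

/-- Number of lucky guesses: queries which find a hidden position not known before. -/
def luck (H : Nd n k → Fin m) : DTree (Cell n k m) (Val n m) → Finset (Nd n k) → ℕ
  | .leaf _, _ => 0
  | .node (.tok _ _) f, Kn => luck H (f .none) Kn
  | .node (.arr u v i j) f, Kn =>
      if H (src u v i) = j then
        (if src u v i ∈ Kn then 0 else 1) +
          luck H (f (.ptr (H (tgt u v i)))) (insert (src u v i) (insert (tgt u v i) Kn))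
      else luck H (f .none) Kn

/-- The blocks involved in lucky guesses. -/
def wset (H : Nd n k → Fin m) : DTree (Cell n k m) (Val n m) → Finset (Nd n k) →
    Finset (Fin (4 * n))
  | .leaf _, _ => ∅
  | .node (.tok _ _) f, Kn => wset H (f .none) Kn
  | .node (.arr u v i j) f, Kn =>
      if H (src u v i) = j then
        (if src u v i ∈ Kn then ∅ else {u, v}) ∪
          wset H (f (.ptr (H (tgt u v i)))) (insert (src u v i) (insert (tgt u v i) Kn))
      else wset H (f .none) Kn

/-- The token cells which are read. -/
def reads (H : Nd n k → Fin m) : DTree (Cell n k m) (Val n m) → Finset (Fin (3 * n ^ 2) × Fin m)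
  | .leaf _ => ∅
  | .node (.tok t s) f => insert (t, s) (reads H (f .none))
  | .node (.arr u v i j) f =>
      if H (src u v i) = j then reads H (f (.ptr (H (tgt u v i)))) else reads H (f .none)

lemma card_wset (H : Nd n k → Fin m) (T : DTree (Cell n k m) (Val n m)) (Kn : Finset (Nd n k)) :
    (wset H T Kn).card ≤ 2 * luck H T Kn := by
  induction T generalizing Kn with
  | leaf b => simp [wset]
  | node c f ih =>
    rcases c with ⟨u, v, i, j⟩ | ⟨t, s⟩
    · simp only [wset, luck]
      split_ifs with h1 h2
      · rw [empty_union, zero_add]; exact ih _ _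
      · refine (card_union_le _ _).trans ?_
        have h3 : ({u, v} : Finset (Fin (4 * n))).card ≤ 2 := card_le_two
        have h4 := ih (.ptr (H (tgt u v i))) (insert (src u v i) (insert (tgt u v i) Kn))
        omega
      · exact ih _ _
    · exact ih _ _

lemma card_reads (H : Nd n k → Fin m) (T : DTree (Cell n k m) (Val n m)) {d : ℕ}
    (hd : T.DepthLE d) : (reads H T).card ≤ d := by
  induction T generalizing d with
  | leaf b => simp [reads]
  | node c f ih =>
    obtain ⟨h0, h1⟩ := hd
    rcases c with ⟨u, v, i, j⟩ | ⟨t, s⟩
    · simp only [reads]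
      split_ifs with h
      · exact (ih _ (h1 _)).trans (by omega)
      · exact (ih _ (h1 _)).trans (by omega)
    · simp only [reads]
      refine (card_insert_le _ _).trans ?_
      have := ih _ (h1 .none)
      omega

/-- Invariant of the run on a yes-input. -/
def Inv (Kn : Finset (Nd n k)) (W : Finset (Fin (4 * n))) (N : ℕ) : Prop :=
  (∀ v, (.inl v : Nd n k) ∈ Kn → v ∈ W) ∧
  (∀ u v i, (.inr (u, v, i) : Nd n k) ∈ Kn → u ∈ W ∧ (v ∈ W ∨ i.1 ≤ N))

lemma agree {G : Finset (Fin (4 * n))}
    {τ : Fin (4 * n) → Fin (4 * n) → Fin (3 * n ^ 2)}
    {e : Fin (3 * n ^ 2) → Fin (4 * n) × Fin (4 * n)}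
    {s : Fin (3 * n ^ 2) → Fin m} (H : Nd n k → Fin m) (T : DTree (Cell n k m) (Val n m))
    (Kn : Finset (Nd n k)) (W : Finset (Fin (4 * n))) (N d : ℕ) (hinv : Inv Kn W N)
    (hd : T.DepthLE d) (hN : N + d ≤ k + 1) (hW : W ⊆ G) (hw : wset H T Kn ⊆ G)
    (hs : ∀ p ∈ reads H T, s p.1 ≠ p.2) :
    T.eval (yH G τ e s H) = T.eval (xH H) := by
  induction T generalizing Kn W N d with
  | leaf b => rfl
  | node c f ih =>
    obtain ⟨h0, h1⟩ := hd
    rcases c with ⟨u, v, i, j⟩ | ⟨t, a⟩
    · simp only [DTree.eval_node]
      by_cases hj : H (src u v i) = j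
      · have hx : xH H (.arr u v i j) = .ptr (H (tgt u v i)) := by simp [xH, hj]
        simp only [wset, if_pos hj] at hw
        simp only [reads, if_pos hj] at hs
        rw [union_subset_iff] at hw
        obtain ⟨hw1, hw2⟩ := hw
        by_cases hk : src u v i ∈ Kn
        · -- known source
          have hu : u ∈ W ∧ (i.1 + 1 < k + 2 ∨ v ∈ W) := by
            by_cases hi : i = 0
            · rw [src, if_pos hi] at hk
              refine ⟨hinv.1 u hk, Or.inl ?_⟩
              rw [hi]; simp
            · rw [src, if_neg hi] at hk
              obtain ⟨g1, g2⟩ := hinv.2 _ _ _ hk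
              refine ⟨g1, ?_⟩
              rcases g2 with g2 | g2
              · exact Or.inr g2
              · left; omega
          have hy : yH G τ e s H (.arr u v i j) = .ptr (H (tgt u v i)) := by
            simp only [yH]
            rw [if_pos ⟨hW hu.1, hj⟩, if_pos]
            rcases hu.2 with g | g
            · exact Or.inl g
            · exact Or.inr (hW g)
          rw [hx, hy]
          refine ih _ _ W (N + 1) (d - 1) ?_ (h1 _) (by omega) hW hw2 hs
          refine ⟨fun w hw => ?_, fun a b l hl => ?_⟩
          · rw [mem_insert, mem_insert] at hw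
            rcases hw with hw | hw | hw
            · by_cases hi : i = 0
              · rw [src, if_pos hi] at hw
                rw [Sum.inl.injEq] at hw
                rw [hw]; exact hu.1
              · rw [src, if_neg hi] at hw
                simp at hw
            · by_cases hi : i.1 + 1 < k + 2
              · rw [tgt, dif_pos hi] at hw
                simp at hw
              · rw [tgt, dif_neg hi] at hw
                rw [Sum.inl.injEq] at hw
                rw [hw]
                exact hu.2.resolve_left hi
            · exact hinv.1 w hw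
          · rw [mem_insert, mem_insert] at hl
            rcases hl with hl | hl | hl
            · rw [← hl] at hk
              obtain ⟨g1, g2⟩ := hinv.2 _ _ _ hk
              exact ⟨g1, g2.imp id fun g => by omega⟩
            · by_cases hi : i.1 + 1 < k + 2
              · rw [tgt, dif_pos hi] at hl
                simp only [Sum.inr.injEq, Prod.mk.injEq] at hl
                obtain ⟨rfl, rfl, rfl⟩ := hl
                refine ⟨hu.1, ?_⟩
                by_cases hi0 : i = 0
                · right; simp [hi0]
                · rw [src, if_neg hi0] at hk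
                  obtain ⟨g1, g2⟩ := hinv.2 _ _ _ hk
                  exact g2.imp id fun g => by simp only; omega
              · rw [tgt, dif_neg hi] at hl
                simp at hl
            · obtain ⟨g1, g2⟩ := hinv.2 _ _ _ hl
              exact ⟨g1, g2.imp id fun g => by omega⟩
        · -- lucky guess
          rw [if_neg hk] at hw1
          have hu : u ∈ G := hw1 (by simp)
          have hv : v ∈ G := hw1 (by simp)
          have hy : yH G τ e s H (.arr u v i j) = .ptr (H (tgt u v i)) := by
            simp only [yH]
            rw [if_pos ⟨hu, hj⟩, if_pos (Or.inr hv)]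
          rw [hx, hy]
          refine ih _ _ (insert u (insert v W)) (N + 1) (d - 1) ?_ (h1 _) (by omega) ?_ hw2 hs
          · refine ⟨fun w hw => ?_, fun a b l hl => ?_⟩
            · rw [mem_insert, mem_insert] at hw
              rcases hw with hw | hw | hw
              · by_cases hi : i = 0
                · rw [src, if_pos hi, Sum.inl.injEq] at hw
                  rw [hw]; simp
                · rw [src, if_neg hi] at hw
                  simp at hw
              · by_cases hi : i.1 + 1 < k + 2
                · rw [tgt, dif_pos hi] at hw
                  simp at hw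
                · rw [tgt, dif_neg hi, Sum.inl.injEq] at hw
                  rw [hw]; simp
              · simp [hinv.1 w hw]
            · rw [mem_insert, mem_insert] at hl
              rcases hl with hl | hl | hl
              · by_cases hi : i = 0
                · rw [src, if_pos hi] at hl
                  simp at hl
                · rw [src, if_neg hi] at hl
                  simp only [Sum.inr.injEq, Prod.mk.injEq] at hl
                  obtain ⟨rfl, rfl, rfl⟩ := hl
                  exact ⟨by simp, by simp⟩
              · by_cases hi : i.1 + 1 < k + 2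
                · rw [tgt, dif_pos hi] at hl
                  simp only [Sum.inr.injEq, Prod.mk.injEq] at hl
                  obtain ⟨rfl, rfl, rfl⟩ := hl
                  exact ⟨by simp, by simp⟩
                · rw [tgt, dif_neg hi] at hl
                  simp at hl
              · obtain ⟨g1, g2⟩ := hinv.2 _ _ _ hl
                refine ⟨by simp [g1], ?_⟩
                rcases g2 with g2 | g2
                · left; simp [g2]
                · right; omega
          · intro w hw
            rw [mem_insert, mem_insert] at hw
            rcases hw with rfl | rfl | hw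
            · exact hu
            · exact hv
            · exact hW hw
      · have hx : xH H (.arr u v i j) = .none := by simp [xH, hj]
        have hy : yH G τ e s H (.arr u v i j) = .none := by
          simp only [yH]
          rw [if_neg (fun h => hj h.2)]
        rw [hx, hy]
        simp only [wset, if_neg hj] at hw
        simp only [reads, if_neg hj] at hs
        refine ih _ Kn W (N + 1) (d - 1) ?_ (h1 _) (by omega) hW hw hs
        refine ⟨hinv.1, fun a b l hl => ?_⟩
        obtain ⟨g1, g2⟩ := hinv.2 _ _ _ hl
        exact ⟨g1, g2.imp id fun g => by omega⟩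
    · simp only [DTree.eval_node]
      simp only [reads] at hs
      have hx : xH H (.tok t a) = .none := rfl
      have hta : s t ≠ a := hs (t, a) (by simp)
      have hy : yH G τ e s H (.tok t a) = .none := by
        simp only [yH]
        rw [if_neg (fun h => hta h.symm)]
      rw [hx, hy]
      refine ih _ Kn W (N + 1) (d - 1) ?_ (h1 _) (by omega) hW hw ?_
      · refine ⟨hinv.1, fun a b l hl => ?_⟩
        obtain ⟨g1, g2⟩ := hinv.2 _ _ _ hl
        exact ⟨g1, g2.imp id fun g => by omega⟩
      · exact fun p hp => hs p (by simp [hp])

end Pool.Agent.Lib.MP_ff3ed7_lc
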