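import Pool.Agent.Lib.MP_ff3ed7_lc.Tree

/-! The moment method for Merlin-Arthur protocols. -/

open Finset

namespace Pool.Agent.Lib.MP_ff3ed7_lc

lemma prob_nonneg (r : ℕ) (E : (Fin r → Bool) → Prop) : 0 ≤ prob r E := by
  unfold prob; positivity

lemma prob_pow (r κ : ℕ) (E : (Fin r → Bool) → Prop) :
    prob r E ^ κ = (Nat.card {ρ : Fin κ → (Fin r → Bool) // ∀ i, E (ρ i)} : ℝ) / (2 ^ r) ^ κ := by
  unfold prob
  rw [div_pow]
  congr 1
  have : Nat.card {ρ : Fin κ → (Fin r → Bool) // ∀ i, E (ρ i)} =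
      Nat.card (Fin κ → {ρ : Fin r → Bool // E ρ}) :=
    Nat.card_congr (Equiv.subtypePiEquivPi (p := fun _ ρ => E ρ))
  rw [this, Nat.card_fun, Nat.card_eq_fintype_card (α := Fin κ), Fintype.card_fin]
  push_cast
  rfl

/-- If every tree of small depth accepts the yes-inputs `x a` not much more often than the
no-inputs `y b`, then Merlin-Arthur protocols are expensive. -/
theorem moment {ι σ X Y : Type} [Fintype X] [Fintype Y] [Nonempty X] [Nonempty Y]
    (f : (ι → σ) → Bool) (x : X → ι → σ) (y : Y → ι → σ) (hx : ∀ a, f (x a) = true)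
    (hy : ∀ b, f (y b) = false) (D : ℕ) (ε Λ : ℝ) (hΛ : 0 ≤ Λ)
    (hmain : ∀ T : DTree ι σ, T.DepthLE D →
      (Nat.card {a : X // T.eval (x a) = true} : ℝ) / Fintype.card X ≤
        ε + Λ * ((Nat.card {b : Y // T.eval (y b) = true} : ℝ) / Fintype.card Y))
    {p q : ℕ} (h : HasMA f p q) (κ : ℕ) (hκ : κ * q ≤ D) :
    (2 / 3 : ℝ) ^ κ ≤ 2 ^ p * (ε + Λ * (1 / 3) ^ κ) := by
  classical
  obtain ⟨r, T, hT, hyes, hno⟩ := h
  have hX : (0 : ℝ) < Fintype.card X := by exact_mod_cast Fintype.card_pos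
  have hY : (0 : ℝ) < Fintype.card Y := by exact_mod_cast Fintype.card_pos
  set N : ℝ := (2 ^ r) ^ κ with hN
  have hNpos : 0 < N := by positivity
  -- probabilities as sums
  have key : ∀ (w : Fin p → Bool) {Z : Type} [Fintype Z] (z : Z → ι → σ),
      ∑ a, prob r (fun ρ => (T w ρ).eval (z a) = true) ^ κ =
        (∑ ρ : Fin κ → (Fin r → Bool),
          (Nat.card {a : Z // (DTree.andAll κ fun i => T w (ρ i)).eval (z a) = true} : ℝ)) / N := by
    intro w Z _ z
    simp only [prob_pow]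
    rw [← sum_div]
    congr 1
    simp only [Nat.card_eq_fintype_card, Fintype.card_subtype, DTree.eval_andAll]
    have : ∀ (A B : Type) [Fintype A] [Fintype B] (Q : A → B → Prop),
        ∑ a, ((univ.filter fun b => Q a b).card : ℝ) =
          ∑ b, ((univ.filter fun a => Q a b).card : ℝ) := by
      intro A B _ _ Q
      have h1 : ∀ a, ((univ.filter fun b => Q a b).card : ℝ) = ∑ b, if Q a b then (1 : ℝ) else 0 := by
        intro a; simp
      have h2 : ∀ b, ((univ.filter fun a => Q a b).card : ℝ) = ∑ a, if Q a b then (1 : ℝ) else 0 := by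
        intro b; simp
      simp only [h1, h2]
      exact sum_comm
    convert this Z (Fin κ → (Fin r → Bool)) fun a ρ => ∀ i, (T w (ρ i)).eval (z a) = true
  -- upper bound for each message
  have hup : ∀ w : Fin p → Bool, ∑ a, prob r (fun ρ => (T w ρ).eval (x a) = true) ^ κ ≤
      Fintype.card X * (ε + Λ * (1 / 3) ^ κ) := by
    intro w
    have hyb : ∑ b, prob r (fun ρ => (T w ρ).eval (y b) = true) ^ κ ≤
        Fintype.card Y * (1 / 3) ^ κ := by
      calc _ ≤ ∑ _b : Y, (1 / 3 : ℝ) ^ κ := sum_le_sum fun b _ =>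
            pow_le_pow_left₀ (prob_nonneg _ _) (hno _ (hy b) w) κ
        _ = _ := by simp
    rw [key w y] at hyb
    rw [key w x]
    have hdepth : ∀ ρ : Fin κ → (Fin r → Bool),
        (DTree.andAll κ fun i => T w (ρ i)).DepthLE D := fun ρ =>
      (DTree.depthLE_andAll fun i => hT w (ρ i)).mono hκ
    have hsum : ∑ ρ : Fin κ → (Fin r → Bool),
        (Nat.card {a : X // (DTree.andAll κ fun i => T w (ρ i)).eval (x a) = true} : ℝ) ≤
        ∑ ρ : Fin κ → (Fin r → Bool), (Fintype.card X * (ε + Λ *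
          ((Nat.card {b : Y // (DTree.andAll κ fun i => T w (ρ i)).eval (y b) = true} : ℝ) /
            Fintype.card Y))) := by
      refine sum_le_sum fun ρ _ => ?_
      have := hmain _ (hdepth ρ)
      rw [div_le_iff₀ hX] at this
      linarith
    have hcard : (∑ _ρ : Fin κ → (Fin r → Bool), (1 : ℝ)) = N := by
      simp [hN]
    have hexp : ∑ ρ : Fin κ → (Fin r → Bool), (Fintype.card X * (ε + Λ *
          ((Nat.card {b : Y // (DTree.andAll κ fun i => T w (ρ i)).eval (y b) = true} : ℝ) /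
            Fintype.card Y))) = Fintype.card X * (ε * N + Λ *
          ((∑ ρ : Fin κ → (Fin r → Bool),
            (Nat.card {b : Y // (DTree.andAll κ fun i => T w (ρ i)).eval (y b) = true} : ℝ)) /
            Fintype.card Y)) := by
      rw [← mul_sum, sum_add_distrib, ← mul_sum, ← sum_div, ← hcard, mul_sum]
      simp
    rw [div_le_iff₀ hNpos]
    refine hsum.trans ?_
    rw [hexp]
    rw [div_le_iff₀ hNpos] at hyb
    set S := ∑ ρ : Fin κ → (Fin r → Bool),
            (Nat.card {b : Y // (DTree.andAll κ fun i => T w (ρ i)).eval (y b) = true} : ℝ)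
    have h1 : S / Fintype.card Y ≤ (1 / 3) ^ κ * N := by
      rw [div_le_iff₀ hY]
      linarith
    have h2 : Λ * (S / Fintype.card Y) ≤ Λ * ((1 / 3) ^ κ * N) := mul_le_mul_of_nonneg_left h1 hΛ
    have h3 : ε * N + Λ * (S / Fintype.card Y) ≤ (ε + Λ * (1 / 3) ^ κ) * N := by
      linarith
    calc (Fintype.card X : ℝ) * (ε * N + Λ * (S / Fintype.card Y))
        ≤ Fintype.card X * ((ε + Λ * (1 / 3) ^ κ) * N) := mul_le_mul_of_nonneg_left h3 hX.le
      _ = _ := by ring
  -- lower bound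
  have hlow : (Fintype.card X : ℝ) * (2 / 3) ^ κ ≤
      ∑ a, ∑ w : Fin p → Bool, prob r (fun ρ => (T w ρ).eval (x a) = true) ^ κ := by
    calc (Fintype.card X : ℝ) * (2 / 3) ^ κ = ∑ _a : X, (2 / 3 : ℝ) ^ κ := by simp
      _ ≤ _ := by
        refine sum_le_sum fun a _ => ?_
        obtain ⟨w, hw⟩ := hyes _ (hx a)
        calc (2 / 3 : ℝ) ^ κ ≤ prob r (fun ρ => (T w ρ).eval (x a) = true) ^ κ :=
              pow_le_pow_left₀ (by norm_num) hw κ
          _ ≤ _ := single_le_sum (f := fun w => prob r (fun ρ => (T w ρ).eval (x a) = true) ^ κ)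
              (fun w _ => pow_nonneg (prob_nonneg _ _) κ) (mem_univ w)
  rw [sum_comm] at hlow
  have h4 : ∑ w : Fin p → Bool, ∑ a, prob r (fun ρ => (T w ρ).eval (x a) = true) ^ κ ≤
      2 ^ p * (Fintype.card X * (ε + Λ * (1 / 3) ^ κ)) := by
    calc _ ≤ ∑ _w : Fin p → Bool, Fintype.card X * (ε + Λ * (1 / 3) ^ κ) :=
          sum_le_sum fun w _ => hup w
      _ = _ := by simp
  have h5 := hlow.trans h4
  have h6 : (Fintype.card X : ℝ) * (2 / 3) ^ κ ≤
      Fintype.card X * (2 ^ p * (ε + Λ * (1 / 3) ^ κ)) := by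
    calc _ ≤ _ := h5
      _ = _ := by ring
  exact le_of_mul_le_mul_left h6 hX

end Pool.Agent.Lib.MP_ff3ed7_lc
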