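import Pool.Agent.Lib.MP_ff3ed7_lc.Count
import Pool.Agent.Lib.MP_ff3ed7_lc.Moment

/-! The lower bound for Merlin-Arthur protocols for the cell version of the function. -/

open Finset

namespace Pool.Agent.Lib.MP_ff3ed7_lc

variable {n k m : ℕ}

/-- Binomial comparison. -/
lemma choose_le {N r w : ℕ} (hwr : w ≤ r) (h : ∀ i < w, N - i ≤ 8 * (r - i)) (hrN : r ≤ N) :
    N.choose r ≤ 8 ^ w * (N - w).choose (r - w) := by
  induction w with
  | zero => simp
  | succ w ih =>
    have h1 := ih (by omega) (fun i hi => h i (by omega))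
    refine h1.trans ?_
    rw [pow_succ, mul_assoc]
    refine Nat.mul_le_mul_left _ ?_
    have h2 := h w (by omega)
    obtain ⟨N', hN'⟩ : ∃ N', N - w = N' + 1 := ⟨N - w - 1, by omega⟩
    obtain ⟨r', hr'⟩ : ∃ r', r - w = r' + 1 := ⟨r - w - 1, by omega⟩
    rw [show N - (w + 1) = N' by omega, show r - (w + 1) = r' by omega, hN', hr']
    rw [hN', hr'] at h2
    have h3 := Nat.add_one_mul_choose_eq N' r'
    have h4 : (N' + 1).choose (r' + 1) * (r' + 1) ≤ (8 * N'.choose r') * (r' + 1) := by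
      rw [← h3]
      calc (N' + 1) * N'.choose r' ≤ (8 * (r' + 1)) * N'.choose r' := Nat.mul_le_mul_right _ h2
        _ = _ := by ring
    exact Nat.le_of_mul_le_mul_right h4 (Nat.succ_pos _)

/-- A random set of size `n` contains a given small set with decent probability. -/
lemma card_sets (W : Finset (Fin (4 * n))) {w : ℕ} (hW : W.card ≤ w) (hw : 2 * w ≤ n) :
    (4 * n).choose n ≤
      8 ^ w * ((powersetCard n (univ : Finset (Fin (4 * n)))).filter fun G => W ⊆ G).card := by
  have h1 : (4 * n).choose n ≤ 8 ^ W.card * (4 * n - W.card).choose (n - W.card) := by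
    apply choose_le
    · omega
    · intro i hi; omega
    · omega
  have h2 : (4 * n - W.card).choose (n - W.card) ≤
      ((powersetCard n (univ : Finset (Fin (4 * n)))).filter fun G => W ⊆ G).card := by
    have h3 : (powersetCard (n - W.card) Wᶜ).card = (4 * n - W.card).choose (n - W.card) := by
      rw [card_powersetCard, card_compl, Fintype.card_fin]
    rw [← h3]
    refine card_le_card_of_injOn (fun G => G ∪ W) ?_ ?_
    · intro G hG
      rw [mem_coe, mem_powersetCard] at hG
      have hdisj : Disjoint G W := by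
        rw [Finset.disjoint_left]
        intro a ha
        have := hG.1 ha
        rwa [mem_compl] at this
      simp only [coe_filter, mem_powersetCard, subset_univ, true_and, Set.mem_ofPred_eq]
      refine ⟨?_, subset_union_right⟩
      rw [card_union_of_disjoint hdisj, hG.2]
      omega
    · intro G hG G' hG' h
      rw [mem_coe, mem_powersetCard] at hG hG'
      simp only at h
      ext a
      by_cases ha : a ∈ W
      · have h1 : a ∉ G := fun h => by have := hG.1 h; rw [mem_compl] at this; exact this ha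
        have h2 : a ∉ G' := fun h => by have := hG'.1 h; rw [mem_compl] at this; exact this ha
        simp [h1, h2]
      · have := congrArg (fun S => a ∈ S) h
        simpa [ha] using this
  calc _ ≤ _ := h1
    _ ≤ 8 ^ w * (4 * n - W.card).choose (n - W.card) :=
        Nat.mul_le_mul_right _ (Nat.pow_le_pow_right (by norm_num) hW)
    _ ≤ _ := Nat.mul_le_mul_left _ h2

/-- Random positions of the token slots avoid a small set of cells. -/
lemma card_slots {T : ℕ} (S : Finset (Fin T × Fin m)) {d : ℕ} (hS : S.card ≤ d)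
    (hd : 2 * d ≤ m) (hm : 0 < m) :
    m ^ T ≤ 2 * (univ.filter fun s : Fin T → Fin m => ∀ p ∈ S, s p.1 ≠ p.2).card := by
  classical
  have h1 : ∀ p : Fin T × Fin m, (univ.filter fun s : Fin T → Fin m => s p.1 = p.2).card * m ≤
      m ^ T := by
    intro p
    have := card_cyl_le ({p.1} : Finset (Fin T)) (fun _ => p.2) (fun _ => True)
    simp only [card_singleton, pow_one, Fintype.card_fin] at this
    refine le_trans (Nat.mul_le_mul_right _ (card_le_card ?_)) this
    intro s hs
    rw [mem_cyl]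
    simpa using hs
  have h2 : (univ.filter fun s : Fin T → Fin m => ¬ ∀ p ∈ S, s p.1 ≠ p.2) ⊆
      S.biUnion fun p => univ.filter fun s : Fin T → Fin m => s p.1 = p.2 := by
    intro s hs
    simp only [mem_filter, mem_univ, true_and, not_forall] at hs
    obtain ⟨p, hp, hps⟩ := hs
    rw [mem_biUnion]
    exact ⟨p, hp, by simpa using hps⟩
  have h3 := (card_le_card h2).trans card_biUnion_le
  have h4 : (univ.filter fun s : Fin T → Fin m => ¬ ∀ p ∈ S, s p.1 ≠ p.2).card * m ≤
      d * m ^ T := by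
    calc _ ≤ (∑ p ∈ S, (univ.filter fun s : Fin T → Fin m => s p.1 = p.2).card) * m :=
          Nat.mul_le_mul_right _ h3
      _ = ∑ p ∈ S, (univ.filter fun s : Fin T → Fin m => s p.1 = p.2).card * m := by
          rw [sum_mul]
      _ ≤ ∑ _p ∈ S, m ^ T := sum_le_sum fun p _ => h1 p
      _ = S.card * m ^ T := by simp
      _ ≤ d * m ^ T := Nat.mul_le_mul_right _ hS
  have h5 : (univ.filter fun s : Fin T → Fin m => ∀ p ∈ S, s p.1 ≠ p.2).card +
      (univ.filter fun s : Fin T → Fin m => ¬ ∀ p ∈ S, s p.1 ≠ p.2).card = m ^ T := by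
    rw [card_filter_add_card_filter_not]
    simp
  set A := (univ.filter fun s : Fin T → Fin m => ∀ p ∈ S, s p.1 ≠ p.2).card
  set B := (univ.filter fun s : Fin T → Fin m => ¬ ∀ p ∈ S, s p.1 ≠ p.2).card
  have h6 : (2 * B) * m ≤ m ^ T * m := by
    calc (2 * B) * m = 2 * (B * m) := by ring
      _ ≤ 2 * (d * m ^ T) := Nat.mul_le_mul_left _ h4
      _ = (2 * d) * m ^ T := by ring
      _ ≤ m * m ^ T := Nat.mul_le_mul_right _ hd
      _ = _ := by ring
  have h7 : 2 * B ≤ m ^ T := Nat.le_of_mul_le_mul_right h6 hm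
  omega

/-- Token assignments. -/
lemma exists_tokens (G : Finset (Fin (4 * n))) (hG : G.card = n) :
    ∃ (τ : Fin (4 * n) → Fin (4 * n) → Fin (3 * n ^ 2))
      (e : Fin (3 * n ^ 2) → Fin (4 * n) × Fin (4 * n)),
      ∀ u ∈ G, ∀ v ∉ G, e (τ u v) = (u, v) := by
  classical
  have hcard : Fintype.card (G × (Gᶜ : Finset (Fin (4 * n)))) = 3 * n ^ 2 := by
    rw [Fintype.card_prod, Fintype.card_coe, Fintype.card_coe, card_compl, Fintype.card_fin, hG]
    rw [show 4 * n - n = 3 * n by omega]; ring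
  rcases Nat.eq_zero_or_pos n with rfl | hn
  · exact ⟨fun u => (Fin.cast (by norm_num) u : Fin 0).elim0,
      fun t => (Fin.cast (by norm_num) t : Fin 0).elim0,
      fun u => (Fin.cast (by norm_num) u : Fin 0).elim0⟩
  · let E : G × (Gᶜ : Finset (Fin (4 * n))) ≃ Fin (3 * n ^ 2) :=
      Fintype.equivFinOfCardEq hcard
    have hpos : 0 < 3 * n ^ 2 := by positivity
    refine ⟨fun u v => if h : u ∈ G ∧ v ∉ G then E (⟨u, h.1⟩, ⟨v, by simpa using h.2⟩)
      else ⟨0, hpos⟩, fun t => ((E.symm t).1.1, (E.symm t).2.1), ?_⟩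
    intro u hu v hv
    simp [hu, hv]

open Classical in
/-- The index type of the no-inputs. -/
abbrev NoIdx (n k m : ℕ) : Type :=
  (Nd n k → Fin m) × {G : Finset (Fin (4 * n)) // G ∈ powersetCard n univ} ×
    (Fin (3 * n ^ 2) → Fin m)

/-- The no-inputs. -/
noncomputable def noIn (b : NoIdx n k m) : Cell n k m → Val n m :=
  yH b.2.1.1 (exists_tokens b.2.1.1 (mem_powersetCard.mp b.2.1.2).2).choose
    (exists_tokens b.2.1.1 (mem_powersetCard.mp b.2.1.2).2).choose_spec.choose b.2.2 b.1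

lemma F_noIn (b : NoIdx n k m) : F (noIn b) = false :=
  F_yH (mem_powersetCard.mp b.2.1.2).2
    (exists_tokens b.2.1.1 (mem_powersetCard.mp b.2.1.2).2).choose_spec.choose_spec _ _

lemma main_nat (T : DTree (Cell n k m) (Val n m)) {D R : ℕ} (hT : T.DepthLE D) (hD : D ≤ k + 1)
    (hDm : 2 * D ≤ m) (hm : 0 < m) (hR : 4 * R ≤ n) :
    (univ.filter fun H : Nd n k → Fin m => T.eval (xH H) = true ∧ luck H T ∅ < R).card *
      ((4 * n).choose n * m ^ (3 * n ^ 2)) ≤
    2 * 8 ^ (2 * R) * (univ.filter fun b : NoIdx n k m => T.eval (noIn b) = true).card := by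
  classical
  have h1 : (univ.filter fun b : NoIdx n k m => T.eval (noIn b) = true).card =
      ∑ H : Nd n k → Fin m, (univ.filter fun gs :
        {G : Finset (Fin (4 * n)) // G ∈ powersetCard n univ} × (Fin (3 * n ^ 2) → Fin m) =>
          T.eval (noIn (H, gs)) = true).card := by
    rw [card_filter, Fintype.sum_prod_type]
    refine sum_congr rfl fun H _ => ?_
    rw [card_filter]
  rw [h1]
  have h2 : ∀ H ∈ (univ.filter fun H : Nd n k → Fin m => T.eval (xH H) = true ∧ luck H T ∅ < R),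
      (4 * n).choose n * m ^ (3 * n ^ 2) ≤ 2 * 8 ^ (2 * R) * (univ.filter fun gs :
        {G : Finset (Fin (4 * n)) // G ∈ powersetCard n univ} × (Fin (3 * n ^ 2) → Fin m) =>
          T.eval (noIn (H, gs)) = true).card := by
    intro H hH
    simp only [mem_filter, mem_univ, true_and] at hH
    have hW : (wset H T ∅).card ≤ 2 * R := (card_wset H T ∅).trans (by omega)
    have h3 := card_sets (wset H T ∅) hW (by omega)
    have h4 := card_slots (T := 3 * n ^ 2) (reads H T) (card_reads H T hT) hDm hm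
    have h5 : ((powersetCard n (univ : Finset (Fin (4 * n)))).filter
          fun G => wset H T ∅ ⊆ G).card =
        (univ.filter fun G : {G : Finset (Fin (4 * n)) // G ∈ powersetCard n univ} =>
          wset H T ∅ ⊆ G.1).card := by
      rw [← card_map (Function.Embedding.subtype _)]
      congr 1
      ext G
      simp only [mem_filter, mem_map, mem_univ, true_and, Function.Embedding.coe_subtype]
      constructor
      · rintro ⟨g1, g2⟩; exact ⟨⟨G, g1⟩, g2, rfl⟩
      · rintro ⟨⟨G', g1⟩, g2, rfl⟩; exact ⟨g1, g2⟩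
    rw [h5] at h3
    have h6 : ((univ.filter fun G : {G : Finset (Fin (4 * n)) // G ∈ powersetCard n univ} =>
          wset H T ∅ ⊆ G.1) ×ˢ (univ.filter fun s : Fin (3 * n ^ 2) → Fin m =>
            ∀ p ∈ reads H T, s p.1 ≠ p.2)) ⊆ (univ.filter fun gs :
        {G : Finset (Fin (4 * n)) // G ∈ powersetCard n univ} × (Fin (3 * n ^ 2) → Fin m) =>
          T.eval (noIn (H, gs)) = true) := by
      rintro ⟨G, s⟩ h
      simp only [mem_product, mem_filter, mem_univ, true_and] at h ⊢
      unfold noIn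
      rw [agree H T ∅ ∅ 0 D ⟨by simp, by simp⟩ hT (by omega) (by simp) h.1 h.2]
      exact hH.1
    have h7 := card_le_card h6
    rw [card_product] at h7
    calc (4 * n).choose n * m ^ (3 * n ^ 2) ≤ _ := Nat.mul_le_mul h3 h4
      _ = 2 * 8 ^ (2 * R) * (_ * _) := by ring
      _ ≤ _ := Nat.mul_le_mul_left _ h7
  calc _ = ∑ _H ∈ (univ.filter fun H : Nd n k → Fin m => T.eval (xH H) = true ∧ luck H T ∅ < R),
        (4 * n).choose n * m ^ (3 * n ^ 2) := by rw [sum_const, smul_eq_mul]
    _ ≤ ∑ H ∈ (univ.filter fun H : Nd n k → Fin m => T.eval (xH H) = true ∧ luck H T ∅ < R),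
        2 * 8 ^ (2 * R) * (univ.filter fun gs :
        {G : Finset (Fin (4 * n)) // G ∈ powersetCard n univ} × (Fin (3 * n ^ 2) → Fin m) =>
          T.eval (noIn (H, gs)) = true).card := sum_le_sum h2
    _ = 2 * 8 ^ (2 * R) * ∑ H ∈ (univ.filter fun H : Nd n k → Fin m =>
          T.eval (xH H) = true ∧ luck H T ∅ < R), _ := by rw [mul_sum]
    _ ≤ _ := Nat.mul_le_mul_left _ (sum_le_sum_of_subset (filter_subset _ _))

lemma main_ineq (T : DTree (Cell n k m) (Val n m)) {D R : ℕ} (hT : T.DepthLE D) (hD : D ≤ k + 1)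
    (hDm : 2 * D ≤ m) (hm : 0 < m) (hR : 4 * R ≤ n) :
    (Nat.card {H : Nd n k → Fin m // T.eval (xH H) = true} : ℝ) /
        Fintype.card (Nd n k → Fin m) ≤
      (D.choose R : ℝ) / m ^ R + 2 * 8 ^ (2 * R) *
        ((Nat.card {b : NoIdx n k m // T.eval (noIn b) = true} : ℝ) /
          Fintype.card (NoIdx n k m)) := by
  classical
  have hX : Fintype.card (Nd n k → Fin m) = m ^ Fintype.card (Nd n k) := by simp
  have hY : Fintype.card (NoIdx n k m) =
      m ^ Fintype.card (Nd n k) * ((4 * n).choose n * m ^ (3 * n ^ 2)) := by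
    rw [Fintype.card_prod, Fintype.card_prod, hX]
    congr 2
    · rw [Fintype.card_coe, card_powersetCard, card_univ, Fintype.card_fin]
    · simp
  have h1 := main_nat T hT hD hDm hm hR
  have h2 := count T D R ∅ (fun _ => ⟨0, hm⟩) hT
  simp only [card_empty, add_zero] at h2
  have h3 : (univ.filter fun H : Nd n k → Fin m => T.eval (xH H) = true) ⊆
      (univ.filter fun H : Nd n k → Fin m => T.eval (xH H) = true ∧ luck H T ∅ < R) ∪
      (cyl ∅ (fun _ => ⟨0, hm⟩) fun H => R ≤ luck H T ∅) := by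
    intro H hH
    simp only [mem_filter, mem_univ, true_and] at hH
    rw [mem_union, mem_cyl]
    by_cases h : luck H T ∅ < R
    · left; simp [hH, h]
    · right; exact ⟨by simp, by omega⟩
  have h4 := (card_le_card h3).trans (card_union_le _ _)
  rw [Nat.card_eq_fintype_card, Nat.card_eq_fintype_card, Fintype.card_subtype,
    Fintype.card_subtype, hX, hY]
  set A := (univ.filter fun H : Nd n k → Fin m => T.eval (xH H) = true).card
  set A1 := (univ.filter fun H : Nd n k → Fin m => T.eval (xH H) = true ∧ luck H T ∅ < R).card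
  set A2 := (cyl ∅ (fun _ => ⟨0, hm⟩) fun H : Nd n k → Fin m => R ≤ luck H T ∅).card
  set B := (univ.filter fun b : NoIdx n k m => T.eval (noIn b) = true).card
  set M := m ^ Fintype.card (Nd n k)
  set L := (4 * n).choose n * m ^ (3 * n ^ 2)
  have hMpos : (0 : ℝ) < M := by positivity
  have hLpos : (0 : ℝ) < L := by
    have : 0 < (4 * n).choose n := Nat.choose_pos (by omega)
    positivity
  have hmR : (0 : ℝ) < (m : ℝ) ^ R := by positivity
  have h1' : (A1 : ℝ) * L ≤ 2 * 8 ^ (2 * R) * B := by exact_mod_cast h1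
  have h2' : (A2 : ℝ) * m ^ R ≤ D.choose R * M := by exact_mod_cast h2
  have h4' : (A : ℝ) ≤ A1 + A2 := by exact_mod_cast h4
  rw [div_le_iff₀ hMpos]
  have e1 : (A2 : ℝ) ≤ D.choose R / m ^ R * M := by
    rw [div_mul_eq_mul_div, le_div_iff₀ hmR]; exact h2'
  have e2 : (A1 : ℝ) ≤ 2 * 8 ^ (2 * R) * (B / (M * L : ℕ)) * M := by
    have : 2 * 8 ^ (2 * R) * ((B : ℝ) / (M * L : ℕ)) * M = 2 * 8 ^ (2 * R) * B / L := by
      push_cast
      field_simp
    rw [this, le_div_iff₀ hLpos]; exact h1'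
  calc (A : ℝ) ≤ A1 + A2 := h4'
    _ ≤ _ := add_le_add e2 e1
    _ = _ := by ring

/-- Lower bound for Merlin-Arthur protocols for the cell version. -/
theorem ma_lower {n k m P q : ℕ} (hP : 1 ≤ P) (hq : 1 ≤ q) (h : HasMA (F (n := n) (k := k) (m := m)) P q)
    (hk : n ≤ k + 1) (hm : 64 * n ≤ m) : n ≤ 15 * P * q := by
  by_contra hlt
  push Not at hlt
  have hn : 1 ≤ n := by
    have : 0 < 15 * P * q := by positivity
    omega
  have hm0 : 0 < m := by omega
  have hPq : P ≤ P * q := Nat.le_mul_of_pos_right _ hq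
  have : NeZero m := ⟨hm0.ne'⟩
  set D := 15 * P * q with hD
  set R := 2 * P with hR
  have h8 : 4 * R ≤ n := by
    have : 15 * P * q = 15 * (P * q) := by ring
    omega
  have : Nonempty (NoIdx n k m) := by
    obtain ⟨G, hG⟩ : (powersetCard n (univ : Finset (Fin (4 * n)))).Nonempty := by
      rw [powersetCard_nonempty, card_univ, Fintype.card_fin]; omega
    exact ⟨(fun _ => 0, ⟨G, hG⟩, fun _ => 0)⟩
  have key := moment (F (n := n) (k := k) (m := m)) xH noIn (F_xH hn) F_noIn D
    ((D.choose R : ℝ) / m ^ R) (2 * 8 ^ (2 * R)) (by positivity)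
    (fun T hT => main_ineq T hT (by omega) (by omega) hm0 h8) h (15 * P) (le_of_eq (by rw [hD]))
  -- bound the exceptional term
  have hDm : (64 : ℝ) * D ≤ m := by
    have : 64 * D ≤ m := by omega
    exact_mod_cast this
  have he : (D.choose R : ℝ) / m ^ R ≤ (1 / 64) ^ R := by
    rw [div_le_iff₀ (by positivity)]
    have h1 : (D.choose R : ℝ) ≤ (D : ℝ) ^ R := by exact_mod_cast Nat.choose_le_pow _ _
    have h2 : (D : ℝ) ^ R ≤ (1 / 64 * m : ℝ) ^ R := by
      apply pow_le_pow_left₀ (by positivity)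
      linarith
    rw [mul_pow] at h2
    linarith
  have h3 : (2 : ℝ) ^ P * ((D.choose R : ℝ) / m ^ R + 2 * 8 ^ (2 * R) * (1 / 3) ^ (15 * P)) ≤
      2 ^ P * ((1 / 64) ^ R + 2 * 8 ^ (2 * R) * (1 / 3) ^ (15 * P)) := by
    apply mul_le_mul_of_nonneg_left _ (by positivity)
    linarith
  have h4 := key.trans h3
  rw [hR] at h4
  -- everything is a P-th power
  have e1 : (2 / 3 : ℝ) ^ (15 * P) = ((2 / 3) ^ 15) ^ P := by rw [pow_mul]
  have e2 : (2 : ℝ) ^ P * ((1 / 64) ^ (2 * P) + 2 * 8 ^ (2 * (2 * P)) * (1 / 3) ^ (15 * P)) =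
      (2 * (1 / 64) ^ 2) ^ P + 2 * (2 * 8 ^ 4 * (1 / 3) ^ 15) ^ P := by
    rw [mul_pow, mul_pow, mul_pow, ← pow_mul, ← pow_mul, ← pow_mul]
    ring
  rw [e1, e2] at h4
  have f1 : (2 * (1 / 64) ^ 2 : ℝ) ^ P ≤ (1 / 4 * (2 / 3) ^ 15) ^ P := by
    apply pow_le_pow_left₀ (by positivity); norm_num
  have f2 : (2 * 8 ^ 4 * (1 / 3) ^ 15 : ℝ) ^ P ≤ (1 / 4 * (2 / 3) ^ 15) ^ P := by
    apply pow_le_pow_left₀ (by positivity); norm_num
  have f3 : (1 / 4 * (2 / 3) ^ 15 : ℝ) ^ P ≤ 1 / 4 * ((2 / 3) ^ 15) ^ P := by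
    rw [mul_pow]
    apply mul_le_mul_of_nonneg_right _ (by positivity)
    calc (1 / 4 : ℝ) ^ P ≤ (1 / 4) ^ 1 := pow_le_pow_of_le_one (by norm_num) (by norm_num) hP
      _ = _ := by norm_num
  have hpos : (0 : ℝ) < ((2 / 3) ^ 15) ^ P := by positivity
  linarith

end Pool.Agent.Lib.MP_ff3ed7_lc
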