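import Pool.Agent.Lib.MP_ff3ed7_lc.DualProd
import Pool.Agent.Lib.MP_ff3ed7_lc.Moment
import Pool.Agent.Lib.MP_ff3ed7_lc.DefsPP

/-! Lower bounds for `PP` and `MA` protocols. -/

open Finset

namespace Pool.Agent.Lib.MP_ff3ed7_lc

section abstract

variable {ι σ I : Type} [Fintype I]

open Classical in
/-- Indicator of acceptance. -/
noncomputable def ind (t : DTree ι σ) (x : ι → σ) : ℝ := if t.eval x = true then 1 else 0

lemma sum_prob_pow {r κ : ℕ} (T : (Fin r → Bool) → DTree ι σ) (α : I → ℝ) (x : I → ι → σ) :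
    ∑ i, α i * prob r (fun ρ => (T ρ).eval (x i) = true) ^ κ =
      (∑ ρ : Fin κ → (Fin r → Bool),
        ∑ i, α i * ind (DTree.andAll κ fun j => T (ρ j)) (x i)) / (2 ^ r) ^ κ := by
  classical
  rw [sum_comm, sum_div]
  refine sum_congr rfl fun i _ => ?_
  rw [prob_pow, ← mul_sum, mul_div_assoc]
  congr 2
  rw [Nat.card_eq_fintype_card, Fintype.card_subtype, card_filter]
  push_cast
  refine sum_congr rfl fun ρ _ => ?_
  unfold ind
  simp only [DTree.eval_andAll]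

/-- Expectation of powers of acceptance probabilities. -/
lemma transfer (α β : I → ℝ) (x : I → ι → σ)
    (D : ℕ) (ε : ℝ)
    (hmain : ∀ t : DTree ι σ, t.DepthLE D →
      ∑ i, α i * ind t (x i) ≤ ∑ i, β i * ind t (x i) + ε)
    {r κ q : ℕ} (T : (Fin r → Bool) → DTree ι σ) (hT : ∀ ρ, (T ρ).DepthLE q) (hκ : κ * q ≤ D) :
    ∑ i, α i * prob r (fun ρ => (T ρ).eval (x i) = true) ^ κ ≤
      ∑ i, β i * prob r (fun ρ => (T ρ).eval (x i) = true) ^ κ + ε := by
  rw [sum_prob_pow, sum_prob_pow]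
  have hN : (0 : ℝ) < (2 ^ r) ^ κ := by positivity
  rw [div_add' _ _ _ hN.ne', div_le_div_iff_of_pos_right hN]
  have h1 : ∑ ρ : Fin κ → (Fin r → Bool), ∑ i, α i * ind (DTree.andAll κ fun j => T (ρ j)) (x i) ≤
      ∑ ρ : Fin κ → (Fin r → Bool),
        (∑ i, β i * ind (DTree.andAll κ fun j => T (ρ j)) (x i) + ε) :=
    sum_le_sum fun ρ _ => hmain _ ((DTree.depthLE_andAll fun j => hT _).mono hκ)
  refine h1.trans (le_of_eq ?_)
  rw [sum_add_distrib]
  congr 1
  simp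
  ring

variable {f : (ι → σ) → Bool} {α β : I → ℝ} {x : I → ι → σ}

lemma pp_abstract (hα : ∀ i, 0 ≤ α i) (hβ : ∀ i, 0 ≤ β i) (hα1 : ∑ i, α i = 1) (hβ1 : ∑ i, β i ≤ 1)
    (hfα : ∀ i, α i ≠ 0 → f (x i) = true) (hfβ : ∀ i, β i ≠ 0 → f (x i) = false) {D : ℕ} {ε : ℝ}
    (hmain : ∀ t : DTree ι σ, t.DepthLE D →
      ∑ i, α i * ind t (x i) ≤ ∑ i, β i * ind t (x i) + ε)
    {p q : ℕ} (hq : q ≤ D) (h : HasPP f p q) : (1 / 2 : ℝ) ^ p ≤ ε := by
  obtain ⟨r, T, hT, hyes, hno⟩ := h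
  have h1 := transfer α β x D ε hmain (κ := 1) T hT (by omega)
  simp only [pow_one] at h1
  have h2 : ∑ i, α i * (1 / 2 + (1 / 2) ^ p) ≤
      ∑ i, α i * prob r (fun ρ => (T ρ).eval (x i) = true) := by
    refine sum_le_sum fun i _ => ?_
    by_cases h0 : α i = 0
    · rw [h0, zero_mul, zero_mul]
    · exact mul_le_mul_of_nonneg_left (hyes _ (hfα i h0)) (hα i)
  have h3 : ∑ i, β i * prob r (fun ρ => (T ρ).eval (x i) = true) ≤ ∑ i, β i * (1 / 2) := by
    refine sum_le_sum fun i _ => ?_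
    by_cases h0 : β i = 0
    · rw [h0, zero_mul, zero_mul]
    · exact mul_le_mul_of_nonneg_left (hno _ (hfβ i h0)) (hβ i)
  rw [← sum_mul, hα1] at h2
  rw [← sum_mul] at h3
  linarith

lemma ma_abstract (hα : ∀ i, 0 ≤ α i) (hβ : ∀ i, 0 ≤ β i) (hα1 : ∑ i, α i = 1) (hβ1 : ∑ i, β i ≤ 1)
    (hfα : ∀ i, α i ≠ 0 → f (x i) = true) (hfβ : ∀ i, β i ≠ 0 → f (x i) = false) {D : ℕ} {ε : ℝ}
    (hmain : ∀ t : DTree ι σ, t.DepthLE D →
      ∑ i, α i * ind t (x i) ≤ ∑ i, β i * ind t (x i) + ε)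
    {p q κ : ℕ} (hq : κ * q ≤ D) (h : HasMA f p q) :
    (2 / 3 : ℝ) ^ κ ≤ 2 ^ p * ((1 / 3) ^ κ + ε) := by
  obtain ⟨r, T, hT, hyes, hno⟩ := h
  have h1 : ∀ y, ∑ i, α i * prob r (fun ρ => (T y ρ).eval (x i) = true) ^ κ ≤ (1 / 3) ^ κ + ε := by
    intro y
    have h2 := transfer α β x D ε hmain (κ := κ) (T y) (hT y) hq
    have h3 : ∑ i, β i * prob r (fun ρ => (T y ρ).eval (x i) = true) ^ κ ≤
        ∑ i, β i * (1 / 3) ^ κ := by
      refine sum_le_sum fun i _ => ?_
      by_cases h0 : β i = 0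
      · rw [h0, zero_mul, zero_mul]
      · exact mul_le_mul_of_nonneg_left
          (pow_le_pow_left₀ (prob_nonneg _ _) (hno _ (hfβ i h0) y) κ) (hβ i)
    rw [← sum_mul] at h3
    have h4 : (∑ i, β i) * (1 / 3 : ℝ) ^ κ ≤ 1 * (1 / 3) ^ κ := by gcongr
    linarith
  have h5 : (2 / 3 : ℝ) ^ κ ≤
      ∑ i, α i * ∑ y : Fin p → Bool, prob r (fun ρ => (T y ρ).eval (x i) = true) ^ κ := by
    calc (2 / 3 : ℝ) ^ κ = ∑ i, α i * (2 / 3) ^ κ := by rw [← sum_mul, hα1, one_mul]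
      _ ≤ _ := by
        refine sum_le_sum fun i _ => ?_
        by_cases h0 : α i = 0
        · rw [h0, zero_mul, zero_mul]
        · obtain ⟨y, hy⟩ := hyes _ (hfα i h0)
          refine mul_le_mul_of_nonneg_left ?_ (hα i)
          calc (2 / 3 : ℝ) ^ κ ≤ prob r (fun ρ => (T y ρ).eval (x i) = true) ^ κ :=
                pow_le_pow_left₀ (by norm_num) hy κ
            _ ≤ _ := single_le_sum
                (f := fun y => prob r (fun ρ => (T y ρ).eval (x i) = true) ^ κ)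
                (fun w _ => pow_nonneg (prob_nonneg _ _) κ) (mem_univ y)
  simp only [mul_sum] at h5
  rw [sum_comm] at h5
  refine h5.trans ?_
  calc _ ≤ ∑ _y : Fin p → Bool, ((1 / 3 : ℝ) ^ κ + ε) := sum_le_sum fun y _ => h1 y
    _ = _ := by rw [sum_const, nsmul_eq_mul]; simp

end abstract

/-! ### The main inequality -/

variable {n m μ : ℕ}

lemma cnt_le (t : DTree (GCell n m μ) (ZMod 2)) (τ : List (GCell n m μ × ZMod 2))
    (T : Fin (4 * n) → Finset (Fin m)) :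
    cnt t τ T ≤ Fintype.card (Rnd (GX n m) (GQ n m) μ) := by
  classical
  unfold cnt
  exact card_filter_le _ _

lemma main2 (hm : ∀ t ∈ nds n, t ≤ m) (hμ : n ≤ μ) (t : DTree (GCell n m μ) (ZMod 2)) (q : ℕ)
    (τ : List (GCell n m μ × ZMod 2)) (ht : t.DepthLE q) (hτ : τ.length + q ≤ n) :
    ∑ T, W1 n T * cnt t τ T ≤
      ∑ T ∈ univ.filter (fun T : Fin (4 * n) → Finset (Fin m) => (ne T).card ≤ n),
        W0 n T * cnt t τ T + 2 ^ q * ((1 / 16) ^ n * Fintype.card (Rnd (GX n m) (GQ n m) μ)) := by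
  classical
  induction t generalizing q τ with
  | leaf b =>
    have hpos : (0 : ℝ) ≤ (1 / 16) ^ n * Fintype.card (Rnd (GX n m) (GQ n m) μ) := by positivity
    cases b with
    | false =>
      simp only [cnt_leaf_false, Nat.cast_zero, mul_zero, sum_const_zero, zero_add]
      positivity
    | true =>
      have h1 : ∀ T : Fin (4 * n) → Finset (Fin m),
          W1 n T * (cnt (.leaf true) τ T : ℝ) =
            W1 n T * (cnt (.leaf true) τ (fun v => T v ∩ rd τ v) : ℝ) := by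
        intro T
        by_cases h : W1 n T = 0
        · rw [h, zero_mul, zero_mul]
        · rw [cnt_leaf_true (by omega) (by omega) (Or.inr (by rw [W1_supp h]; omega))]
      rw [sum_congr rfl fun T _ => h1 T,
        junta hm (rd τ) (fun v => (card_rd_le τ v).trans (by omega))
          fun T => (cnt (.leaf true) τ T : ℝ)]
      rw [← sum_filter_add_sum_filter_not univ (fun T : Fin (4 * n) → Finset (Fin m) =>
        (ne T).card ≤ n)]
      have h2 : ∑ T ∈ univ.filter (fun T : Fin (4 * n) → Finset (Fin m) => (ne T).card ≤ n),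
          W0 n T * (cnt (.leaf true) τ (fun v => T v ∩ rd τ v) : ℝ) =
          ∑ T ∈ univ.filter (fun T : Fin (4 * n) → Finset (Fin m) => (ne T).card ≤ n),
          W0 n T * (cnt (.leaf true) τ T : ℝ) := by
        refine sum_congr rfl fun T hT => ?_
        simp only [mem_filter, mem_univ, true_and] at hT
        rw [cnt_leaf_true (by omega) (by omega) (Or.inl hT)]
      rw [h2]
      have h3 : ∑ T ∈ univ.filter (fun T : Fin (4 * n) → Finset (Fin m) => ¬ (ne T).card ≤ n),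
          W0 n T * (cnt (.leaf true) τ (fun v => T v ∩ rd τ v) : ℝ) ≤
          (1 / 16) ^ n * Fintype.card (Rnd (GX n m) (GQ n m) μ) := by
        calc _ ≤ ∑ T ∈ univ.filter (fun T : Fin (4 * n) → Finset (Fin m) => ¬ (ne T).card ≤ n),
              W0 n T * (Fintype.card (Rnd (GX n m) (GQ n m) μ) : ℝ) := by
              refine sum_le_sum fun T _ => mul_le_mul_of_nonneg_left ?_ (W0_nonneg T)
              exact_mod_cast cnt_le _ _ _
          _ = (∑ T ∈ univ.filter (fun T : Fin (4 * n) → Finset (Fin m) => ¬ (ne T).card ≤ n),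
              W0 n T) * (Fintype.card (Rnd (GX n m) (GQ n m) μ) : ℝ) := by rw [sum_mul]
          _ ≤ _ := by
              refine mul_le_mul_of_nonneg_right ?_ (Nat.cast_nonneg _)
              have := tail (n := n) hm
              simp only [not_le]
              exact this
      have h4 : (1 : ℝ) ≤ 2 ^ q := one_le_pow₀ (by norm_num)
      have h5 : (1 / 16) ^ n * (Fintype.card (Rnd (GX n m) (GQ n m) μ) : ℝ) ≤
          2 ^ q * ((1 / 16) ^ n * Fintype.card (Rnd (GX n m) (GQ n m) μ)) :=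
        le_mul_of_one_le_left hpos h4
      linarith
  | node c f ih =>
    obtain ⟨hq0, hf⟩ := ht
    obtain ⟨q, rfl⟩ : ∃ e, q = e + 1 := ⟨q - 1, by omega⟩
    have h0 := ih 0 q ((c, 0) :: τ) (hf 0) (by simp only [List.length_cons]; omega)
    have h1 := ih 1 q ((c, 1) :: τ) (hf 1) (by simp only [List.length_cons]; omega)
    simp only [cnt_node, Nat.cast_add, mul_add, sum_add_distrib]
    rw [pow_succ]
    linarith

/-- Index set of the inputs. -/
abbrev Idx (n m μ : ℕ) : Type := (Fin (4 * n) → Finset (Fin m)) × Rnd (GX n m) (GQ n m) μ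

/-- Weights of the yes-inputs. -/
noncomputable def αw (i : Idx n m μ) : ℝ := W1 n i.1 / Fintype.card (Rnd (GX n m) (GQ n m) μ)

open Classical in
/-- Weights of the no-inputs. -/
noncomputable def βw (i : Idx n m μ) : ℝ :=
  if (ne i.1).card ≤ n then W0 n i.1 / Fintype.card (Rnd (GX n m) (GQ n m) μ) else 0

lemma αw_nonneg (i : Idx n m μ) : 0 ≤ αw i := div_nonneg (W1_nonneg _) (Nat.cast_nonneg _)

lemma βw_nonneg (i : Idx n m μ) : 0 ≤ βw i := by
  unfold βw
  split_ifs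
  · exact div_nonneg (W0_nonneg _) (Nat.cast_nonneg _)
  · exact le_rfl

lemma sum_αw (hm : ∀ t ∈ nds n, t ≤ m) : ∑ i : Idx n m μ, αw i = 1 := by
  classical
  have hN : (0 : ℝ) < Fintype.card (Rnd (GX n m) (GQ n m) μ) := by
    exact_mod_cast Fintype.card_pos
  rw [Fintype.sum_prod_type]
  unfold αw
  simp only [sum_const, card_univ, nsmul_eq_mul]
  have h : ∀ T : Fin (4 * n) → Finset (Fin m),
      (Fintype.card (Rnd (GX n m) (GQ n m) μ) : ℝ) *
        (W1 n T / Fintype.card (Rnd (GX n m) (GQ n m) μ)) = W1 n T := by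
    intro T; field_simp
  rw [sum_congr rfl fun T _ => h T]
  exact sum_W (sum_w1 hm)

lemma sum_βw (hm : ∀ t ∈ nds n, t ≤ m) : ∑ i : Idx n m μ, βw i ≤ 1 := by
  classical
  have hN : (0 : ℝ) < Fintype.card (Rnd (GX n m) (GQ n m) μ) := by
    exact_mod_cast Fintype.card_pos
  have h1 : ∑ i : Idx n m μ, βw i ≤ ∑ i : Idx n m μ,
      W0 n i.1 / Fintype.card (Rnd (GX n m) (GQ n m) μ) := by
    refine sum_le_sum fun i _ => ?_
    unfold βw
    split_ifs
    · exact le_rfl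
    · exact div_nonneg (W0_nonneg _) (Nat.cast_nonneg _)
  refine h1.trans (le_of_eq ?_)
  rw [Fintype.sum_prod_type]
  simp only [sum_const, card_univ, nsmul_eq_mul]
  have h : ∀ T : Fin (4 * n) → Finset (Fin m),
      (Fintype.card (Rnd (GX n m) (GQ n m) μ) : ℝ) *
        (W0 n T / Fintype.card (Rnd (GX n m) (GQ n m) μ)) = W0 n T := by
    intro T; field_simp
  rw [sum_congr rfl fun T _ => h T]
  exact sum_W (sum_w0 hm)

lemma cnt_eq (t : DTree (GCell n m μ) (ZMod 2)) (T : Fin (4 * n) → Finset (Fin m)) :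
    (cnt t [] T : ℝ) = ∑ ω : Rnd (GX n m) (GQ n m) μ, ind t (inp T ω) := by
  classical
  unfold cnt ind
  rw [card_filter]
  push_cast
  refine sum_congr rfl fun ω _ => ?_
  simp

lemma main3 (hm : ∀ t ∈ nds n, t ≤ m) (hμ : n ≤ μ) (t : DTree (GCell n m μ) (ZMod 2)) (q : ℕ)
    (ht : t.DepthLE q) (hq : q ≤ n) :
    ∑ i : Idx n m μ, αw i * ind t (inp i.1 i.2) ≤
      ∑ i : Idx n m μ, βw i * ind t (inp i.1 i.2) + 2 ^ q * (1 / 16) ^ n := by
  classical
  have hN : (0 : ℝ) < Fintype.card (Rnd (GX n m) (GQ n m) μ) := by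
    exact_mod_cast Fintype.card_pos
  have h := main2 hm hμ t q [] ht (by simpa using hq)
  set N : ℝ := (Fintype.card (Rnd (GX n m) (GQ n m) μ) : ℝ)
  have h1 : ∑ i : Idx n m μ, αw i * ind t (inp i.1 i.2) = (∑ T, W1 n T * cnt t [] T) / N := by
    rw [Fintype.sum_prod_type, sum_div]
    refine sum_congr rfl fun T _ => ?_
    rw [cnt_eq, mul_sum, sum_div]
    refine sum_congr rfl fun ω _ => ?_
    unfold αw
    ring
  have h2 : ∑ i : Idx n m μ, βw i * ind t (inp i.1 i.2) =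
      (∑ T ∈ univ.filter (fun T : Fin (4 * n) → Finset (Fin m) => (ne T).card ≤ n),
        W0 n T * cnt t [] T) / N := by
    rw [Fintype.sum_prod_type, sum_div, sum_filter]
    refine sum_congr rfl fun T _ => ?_
    unfold βw
    split_ifs with hT
    · rw [cnt_eq, mul_sum, sum_div]
      refine sum_congr rfl fun ω _ => ?_
      ring
    · simp
  rw [h1, h2, div_add' _ _ _ hN.ne', div_le_div_iff_of_pos_right hN]
  refine h.trans (le_of_eq ?_)
  ring

lemma αw_true (i : Idx n m μ) (hn : 1 ≤ n) (h : αw i ≠ 0) : F2 (inp i.1 i.2) = true := by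
  have h1 : W1 n i.1 ≠ 0 := by
    intro h0; apply h; unfold αw; rw [h0, zero_div]
  have h2 := W1_supp h1
  exact F2_inp_true (Or.inr (by omega)) (by omega) i.2

lemma βw_false (i : Idx n m μ) (h : βw i ≠ 0) : F2 (inp i.1 i.2) = false := by
  classical
  have h1 : (ne i.1).card ≤ n := by
    by_contra h0
    apply h
    unfold βw
    rw [if_neg h0]
  exact F2_inp_false h1 i.2

/-- Lower bound for `PP`. -/
theorem pp_lower {p q : ℕ} (hn : 1 ≤ n) (hm : 1025 * n ^ 2 ≤ m) (hμ : n ≤ μ)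
    (h : HasPP (F2 (n := n) (m := m) (μ := μ)) p q) : n < q ∨ 4 * n ≤ p + q := by
  by_contra hcon
  push Not at hcon
  obtain ⟨h1, h2⟩ := hcon
  have hm' : ∀ t ∈ nds n, t ≤ m := fun t ht => (nds_le hn ht).trans hm
  have key := pp_abstract (x := fun i : Idx n m μ => inp i.1 i.2) αw_nonneg βw_nonneg (sum_αw hm')
    (sum_βw hm') (fun i => αw_true i hn) βw_false (fun t ht => main3 hm' hμ t q ht h1) le_rfl h
  have h3 : (2 : ℝ) ^ (4 * n) ≤ 2 ^ (p + q) := by
    have e1 : (1 / 16 : ℝ) ^ n = 1 / 2 ^ (4 * n) := by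
      rw [pow_mul, one_div, one_div, inv_pow]; norm_num
    have e2 : (1 / 2 : ℝ) ^ p = 1 / 2 ^ p := by rw [one_div, one_div, inv_pow]
    rw [e1, e2, mul_one_div, div_le_div_iff₀ (by positivity) (by positivity), one_mul] at key
    rw [pow_add]; linarith
  have h4 := (pow_le_pow_iff_right₀ (by norm_num : (1 : ℝ) < 2)).mp h3
  omega

/-- Lower bound for `MA`. -/
theorem ma_lower2 {p q : ℕ} (hn : 1 ≤ n) (hm : 1025 * n ^ 2 ≤ m) (hμ : n ≤ μ)
    (h : HasMA (F2 (n := n) (m := m) (μ := μ)) p q) : n < (p + 2) * (q + 1) := by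
  by_contra hcon
  push Not at hcon
  have hm' : ∀ t ∈ nds n, t ≤ m := fun t ht => (nds_le hn ht).trans hm
  have hq : (p + 2) * q ≤ n := (Nat.mul_le_mul_left _ (Nat.le_succ q)).trans hcon
  have hp : p + 2 ≤ n := le_trans (by nlinarith [Nat.zero_le (p * q), Nat.zero_le q]) hcon
  have key := ma_abstract (x := fun i : Idx n m μ => inp i.1 i.2) αw_nonneg βw_nonneg (sum_αw hm')
    (sum_βw hm') (fun i => αw_true i hn) βw_false (fun t ht => main3 hm' hμ t n ht le_rfl)
    (κ := p + 2) hq h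
  have e1 : (2 : ℝ) ^ n * (1 / 16) ^ n = (1 / 8) ^ n := by rw [← mul_pow]; norm_num
  have e2 : (1 / 8 : ℝ) ^ n ≤ (1 / 8) ^ (p + 2) :=
    pow_le_pow_of_le_one (by norm_num) (by norm_num) hp
  have e3 : (1 / 8 : ℝ) ^ (p + 2) ≤ (1 / 3) ^ (p + 2) := pow_le_pow_left₀ (by norm_num) (by norm_num) _
  rw [e1] at key
  have h1 : (2 / 3 : ℝ) ^ (p + 2) ≤ 2 ^ p * (2 * (1 / 3) ^ (p + 2)) := by
    refine key.trans (mul_le_mul_of_nonneg_left ?_ (by positivity))
    linarith
  have h2 : (2 / 3 : ℝ) ^ (p + 2) = 2 ^ (p + 2) * (1 / 3) ^ (p + 2) := by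
    rw [← mul_pow]; norm_num
  have h3 : (0 : ℝ) < (1 / 3) ^ (p + 2) := by positivity
  have h4 : (0 : ℝ) < 2 ^ p * (1 / 3) ^ (p + 2) := by positivity
  rw [h2, pow_add 2 p 2] at h1
  nlinarith

end Pool.Agent.Lib.MP_ff3ed7_lc
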