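import Pool.Agent.Lib.MP_ff3ed7_lc.Adv.Core
import Pool.Agent.Lib.MP_ff3ed7_lc.Adv.Main
import Pool.Agent.Lib.MP_ff3ed7_lc.Adv.Sgn
import Pool.Agent.Lib.MP_ff3ed7_lc.Adv.Mc
import Pool.Agent.Lib.MP_ff3ed7_lc.Adv.Md
import Pool.Agent.Lib.MP_ff3ed7_lc.Adv.Hyb
import Pool.Agent.Lib.MP_ff3ed7_lc.Adv.Tp
import Pool.Agent.Lib.MP_ff3ed7_lc.Adv.Tm
import Pool.Agent.Lib.MP_ff3ed7_lc.Adv.Grow
import Pool.Agent.Lib.MP_ff3ed7_lc.Adv.Wt

/-!
A robust Arthur-Merlin oracle protocol with about `a n` random bits whose language, relative to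
comeager many oracles, has no Merlin-Arthur protocol and is not in `PP` with `a n` bits of advice,
even if the verifiers have access to the multilinear extensions of the oracle over all finite
commutative rings, and is not in `Σ₂`.
-/

namespace Pool.Agent.Lib.MP_ff3ed7_lc.OldGenericAdvice

open Pool.Agent.Lib.MP_ff3ed7_lc Pool.Agent.Lib.MP_ff3ed7_lc.Adv

/-- Let `a n ≤ n ^ k + k` for all `n`. There is an oracle verifier `V` which uses at most
`a n + 4 n + 14` random bits on inputs of length `n`, makes at most `30` oracle queries and satisfies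
the Arthur-Merlin promise relative to every oracle, such that for every sequence `W 0, W 1, …` of
verifiers with advice and with access to the multilinear extensions of the oracle and every sequence
`W' 0, W' 1, …` of ordinary oracle verifiers there is a comeager set of oracles `A` relative to
which, for the language which `V` accepts as an Arthur-Merlin protocol, no `W i` is a
Merlin-Arthur protocol and no `W i` is a `PP` machine, with any advice strings `h n` of length at
most `a n` (which may depend on `A`), and no `W' i` is a `Σ₂` machine.  (By `mlext_bool`, an ordinary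
query is the special case of an algebraic query at a point with coordinates `0` and `1`.) -/
theorem result (k : ℕ) (a : ℕ → ℕ) (ha : ∀ n, a n ≤ n ^ k + k) : ∃ V : Verifier,
    (∀ n, V.coins n ≤ a n + 4 * n + 14) ∧
    (∀ x y ρ, (V.tree x y ρ).DepthLE 30) ∧
    (∀ A x, 2 / 3 ≤ V.amProb A x ∨ V.amProb A x ≤ 1 / 3) ∧
    ∀ (W : ℕ → AdvVerifier) (W' : ℕ → Verifier), ∀ᶠ A in residual (List Bool → Bool),
      ∀ i, (∀ h : ℕ → List Bool, (∀ n, (h n).length ≤ a n) →
          ¬ (W i).AcceptsMA h A {x | 2 / 3 ≤ V.amProb A x} ∧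
          ¬ (W i).AcceptsPP h A {x | 2 / 3 ≤ V.amProb A x}) ∧
        ¬ (W' i).AcceptsSigma2 A {x | 2 / 3 ≤ V.amProb A x} :=
  generic_adv (tCore tSgn tMc (tMd tMc) tHyb) tGrow tWt (tTp tMc (tMd tMc)) (tTm tMc (tMd tMc))
    k a ha

end Pool.Agent.Lib.MP_ff3ed7_lc.OldGenericAdvice
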