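import Pool.Agent.Lib.MP_ff3ed7_lc.Generic

/-!
A robust Arthur-Merlin oracle protocol whose language has no Merlin-Arthur protocol relative to
comeager many oracles.
-/

namespace Pool.Agent.Lib.MP_ff3ed7_lc.GenericOracle

open Pool.Agent.Lib.MP_ff3ed7_lc

/-- There is an oracle verifier `V` which satisfies the Arthur-Merlin promise relative to every
oracle, such that for every sequence `W 0, W 1, …` of verifiers there is a comeager set of oracles
`A` relative to which no `W i` is a Merlin-Arthur protocol for the language which `V` accepts as an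
Arthur-Merlin protocol. -/
theorem result : ∃ V : Verifier,
    (∀ A x, 2 / 3 ≤ V.amProb A x ∨ V.amProb A x ≤ 1 / 3) ∧
    ∀ W : ℕ → Verifier, ∀ᶠ A in residual (List Bool → Bool),
      ∀ i, ¬ (W i).AcceptsMA A {x | 2 / 3 ≤ V.amProb A x} :=
  generic

end Pool.Agent.Lib.MP_ff3ed7_lc.GenericOracle
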