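import Pool.Agent.Lib.MP_ff3ed7_lc.GenericPP

/-!
A robust Arthur-Merlin oracle protocol whose language, relative to comeager many oracles, has no
Merlin-Arthur protocol and is not in `PP`.
-/

namespace Pool.Agent.Lib.MP_ff3ed7_lc.OldGenericPP

open Pool.Agent.Lib.MP_ff3ed7_lc

/-- There is an oracle verifier `V` which makes at most `10` oracle queries and satisfies the
Arthur-Merlin promise relative to every oracle, such that for every sequence `W 0, W 1, …` of
verifiers there is a comeager set of oracles `A` relative to which no `W i` is a Merlin-Arthur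
protocol, and no `W i` is a `PP` machine, for the language which `V` accepts as an Arthur-Merlin
protocol. -/
theorem result : ∃ V : Verifier,
    (∀ x y ρ, (V.tree x y ρ).DepthLE 10) ∧
    (∀ A x, 2 / 3 ≤ V.amProb A x ∨ V.amProb A x ≤ 1 / 3) ∧
    ∀ W : ℕ → Verifier, ∀ᶠ A in residual (List Bool → Bool),
      ∀ i, ¬ (W i).AcceptsMA A {x | 2 / 3 ≤ V.amProb A x} ∧
        ¬ (W i).AcceptsPP A {x | 2 / 3 ≤ V.amProb A x} :=
  PP.generic_pp

end Pool.Agent.Lib.MP_ff3ed7_lc.OldGenericPP
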