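import Pool.Agent.Lib.MP_ff3ed7_lc.Prg2.All

/-!
One oracle relative to which there are pseudorandom generators against circuits with alternating
guess bits and `AM = coAM = PSPACE`, although `AM ∩ coAM` is hard on the average for `S₂` machines of
subexponential size with advice.
-/

namespace Pool.Agent.Lib.MP_ff3ed7_lc.OldMaximalGap

open Pool.Agent.Lib.MP_ff3ed7_lc Pool.Agent.Lib.MP_ff3ed7_lc.Prg2

/-- Let `g N ≤ N`, let the value of `F k x A` depend only on the strings of length at most
`|x| ^ k + k` in `A`, and let `W 0, W 1, …` be any `S₂` oracle machines with advice, such that for all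
`i` and `c` there are arbitrarily large `n` with `t n ≤ 2 ^ (n / 16)` (`t` the size bound of `W i`) and
`g N ≤ n / 16` for all `N ≤ t n + n ^ c`.  There is an oracle `A` such that
(1) the generator `gen A N`, `N ≥ 6`, whose `16 * N ^ 6` outputs of `N` bits are read from `A`, is
pseudorandom with error `1 / N` for all circuits with `N` inputs, `N` gates, oracle gates for `A` and
`g N` guess bits with any quantifiers;
(2) every language `{x | F k x A = true}` and its complement have Arthur-Merlin protocols with
`4 * (n ^ k + k + n)` random bits and one query;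
(3) for every `k` there is a language `L` which has such protocols, and so has its complement, but for
every `i` there are arbitrarily large `n` for which `W i` with any advice `h` of length at most
`n ^ k + k` is right on at most `(1 / 2 + 2 ^ (- n / 4)) * 2 ^ n` of the inputs of length `n`.
In the protocols exactly one reply is accepted for every string of random bits on the right side, and
at most `4 ^ r` of the `16 ^ r` strings of random bits (`r = n ^ k + k + n`) have an accepted reply on
the wrong side.
Moreover every polynomial `P^MA` machine with advice is an `S₂` machine with advice. -/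
theorem result :
    (∀ (g : ℕ → ℕ) (F : ℕ → List Bool → (List Bool → Bool) → Bool) (W : ℕ → Machine),
      (∀ N, g N ≤ N) →
      (∀ k x A A', (∀ u : List Bool, u.length ≤ x.length ^ k + k → A u = A' u) →
        F k x A = F k x A') →
      (∀ i c n₀, ∃ n ≥ n₀, (W i).t n ^ 16 ≤ 2 ^ n ∧ ∀ N ≤ (W i).t n + n ^ c, 16 * g N ≤ n) →
      ∃ A : List Bool → Bool,
        (∀ N ≥ 6, FoolsAt g A N) ∧
        (∀ k, (∀ x, Inst A true k x (F k x A)) ∧
          (VAM true true k).AcceptsAM A {x | F k x A = true} ∧
          (VAM true false k).AcceptsAM A {x | F k x A = true}ᶜ) ∧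
        ∀ k, ∃ L : Set (List Bool),
          (∀ x, (x ∈ L → Inst A false k x true) ∧ (x ∉ L → Inst A false k x false)) ∧
          (VAM false true k).AcceptsAM A L ∧ (VAM false false k).AcceptsAM A Lᶜ ∧
          ∀ i n₀, ∃ n ≥ n₀, ∀ h : List Bool, h.length ≤ n ^ k + k →
            (Nat.card {x : Fin n → Bool // (W i).Right h A L (List.ofFn x)} : ℝ) ≤
              (1 / 2 + (2 : ℝ) ^ (-(n : ℝ) / 4)) * 2 ^ n) ∧
    ∀ V : Prg.Machine, ∃ W : Machine, (∀ n, W.t n ≤ (n ^ V.c + V.c) * (n ^ V.c + V.c + 1)) ∧
      ∀ (A : List Bool → Bool) (h x : List Bool) (b : Bool),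
        (V.tree h x).Decides A b → (W.run h x).Decides A b :=
  ⟨fun g F W hg hF hW => world lim g hg F hF W hW, tPMA⟩

end Pool.Agent.Lib.MP_ff3ed7_lc.OldMaximalGap
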