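import Pool.Agent.Lib.MP_ff3ed7_lc.Prg.All

/-!
An oracle relative to which there is a pseudorandom generator with logarithmic seeds against
circuits, but `AM ∩ coAM` is not contained in `P^MA` with `n ^ k` bits of advice.
-/

namespace Pool.Agent.Lib.MP_ff3ed7_lc.OldPRGWorld

open Pool.Agent.Lib.MP_ff3ed7_lc Pool.Agent.Lib.MP_ff3ed7_lc.Prg

/-- Let `s` grow faster than every polynomial and let `W 0, W 1, …` be any `P^MA` oracle machines
with advice.  There is an oracle `A` such that the generator `gen A N`, `N ≥ 6`, whose `16 * N ^ 6`
outputs of `N` bits are read from `A`, is pseudorandom with error `1 / N` for all circuits with `N`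
inputs and `N` gates which have oracle gates for `A`, and for every `k` there is a language `L` with
Arthur-Merlin protocols (with `n ^ k + k + n` random bits and one query) for `L` and for its
complement which no `W i` decides with any advice strings `h n` of length at most `n ^ k + k`.
On inputs in `L` every string of random bits has exactly one accepted reply in the protocol for `L`,
and at most `2 ^ (n ^ k + k) * s n` strings of random bits have an accepted reply in the protocol
for the complement; outside of `L` it is the other way round. -/
theorem result (s : ℕ → ℕ) (hs : ∀ c, ∃ n₀, ∀ n ≥ n₀, n ^ c ≤ s n) (W : ℕ → Machine) :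
    ∃ A : List Bool → Bool,
      (∀ N ≥ 6, FoolsAt A N) ∧
      ∀ k, ∃ L : Set (List Bool),
        (∀ x, (x ∈ L → Inst s A k x true) ∧ (x ∉ L → Inst s A k x false)) ∧
        (VAM true k).AcceptsAM A L ∧ (VAM false k).AcceptsAM A Lᶜ ∧
        ∀ i (h : ℕ → List Bool), (∀ n, (h n).length ≤ n ^ k + k) → ¬ (W i).DecidesLang h A L :=
  prg_world lim s hs W

end Pool.Agent.Lib.MP_ff3ed7_lc.OldPRGWorld
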