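import Pool.Agent.Lib.MP_ff3ed7_lc.TotalComm

/-!
Total two-party functions with cheap Arthur-Merlin communication protocols and without cheap `PP` or
Merlin-Arthur communication protocols.
-/

namespace Pool.Agent.Lib.MP_ff3ed7_lc.OldTotalComm

open Pool.Agent.Lib.MP_ff3ed7_lc

/-- For every `ℓ` there is a total function `F` of two strings of `M` bits,
`2 ^ (5 ℓ + 13) ≤ M ≤ 2 ^ (5 ℓ + 18)`, which has an Arthur-Merlin communication protocol with
`ℓ + 2` random bits and a message of `5 ℓ + 47` bits, while every `PP` communication protocol for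
`F` with gap `2 ^ (-p)` and `c` bits of communication satisfies `2 ^ ℓ < 18 (p + c + 1)`, and every
Merlin-Arthur communication protocol for `F` with a message of `p` bits and `c` bits of
communication satisfies `2 ^ ℓ < 18 (p + 2) (c + 2)`. -/
theorem result (ℓ : ℕ) : ∃ (M : ℕ) (F : (Fin M → Bool) → (Fin M → Bool) → Bool),
    2 ^ (5 * ℓ + 13) ≤ M ∧ M ≤ 2 ^ (5 * ℓ + 18) ∧
    HasAMcc F (ℓ + 2) (5 * ℓ + 47) ∧
    (∀ p c, HasPPcc F p c → 2 ^ ℓ < 18 * (p + c + 1)) ∧
    ∀ p c, HasMAcc F p c → 2 ^ ℓ < 18 * (p + 2) * (c + 2) := by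
  obtain ⟨M, F, h1, h2, h3, h4, h5, -⟩ := total_comm ℓ
  exact ⟨M, F, h1, h2, h3, h4, h5⟩

end Pool.Agent.Lib.MP_ff3ed7_lc.OldTotalComm
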