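import Pool.Agent.Lib.MP_ff3ed7_lc.TotalPP

/-!
Total Boolean functions with constant-query Arthur-Merlin protocols and without cheap `PP` or
Merlin-Arthur protocols.
-/

namespace Pool.Agent.Lib.MP_ff3ed7_lc.OldTotalPP

open Pool.Agent.Lib.MP_ff3ed7_lc

/-- For every `ℓ` there is a total Boolean function `f` of `N` bits,
`2 ^ (5 ℓ + 12) ≤ N ≤ 2 ^ (5 ℓ + 17)`, which has an Arthur-Merlin query protocol with `ℓ + 2` random
bits, a reply of `5 ℓ + 17` bits and `10` queries, while every `PP` query protocol for `f` with gap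
`2 ^ (-p)` and `q` queries satisfies `2 ^ ℓ < q` or `2 ^ (ℓ + 2) ≤ p + q`, and every Merlin-Arthur
query protocol for `f` with a message of `p` bits and `q` queries satisfies
`2 ^ ℓ < (p + 2) (q + 1)`. -/
theorem result (ℓ : ℕ) : ∃ (N : ℕ) (f : (Fin N → Bool) → Bool),
    2 ^ (5 * ℓ + 12) ≤ N ∧ N ≤ 2 ^ (5 * ℓ + 17) ∧
    HasAM f (ℓ + 2) (5 * ℓ + 17) 10 ∧
    (∀ p q, HasPP f p q → 2 ^ ℓ < q ∨ 2 ^ (ℓ + 2) ≤ p + q) ∧
    ∀ p q, HasMA f p q → 2 ^ ℓ < (p + 2) * (q + 1) :=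
  total_pp ℓ

end Pool.Agent.Lib.MP_ff3ed7_lc.OldTotalPP
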