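import Pool.Agent.Lib.MP_ff3ed7_lc.Total

/-!
Separation of Arthur-Merlin from Merlin-Arthur query complexity by total Boolean functions.
-/

namespace Pool.Agent.Lib.MP_ff3ed7_lc.TotalSeparation

open Pool.Agent.Lib.MP_ff3ed7_lc

/-- For every `ℓ` there is a total Boolean function `f` of `N` bits, `2 ^ (4 ℓ) ≤ N ≤ 2 ^ (5 ℓ + 16)`,
which has an Arthur-Merlin query protocol with `ℓ + 2` random bits, a reply of `4 ℓ + 15` bits and
`6 ℓ + 18` queries, while every Merlin-Arthur query protocol for `f` with a message of `p` bits and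
`q` queries satisfies `2 ^ ℓ ≤ 15 (p + 1) (q + 1)`. -/
theorem result (ℓ : ℕ) : ∃ (N : ℕ) (f : (Fin N → Bool) → Bool),
    2 ^ (4 * ℓ) ≤ N ∧ N ≤ 2 ^ (5 * ℓ + 16) ∧
    HasAM f (ℓ + 2) (4 * ℓ + 15) (6 * ℓ + 18) ∧
    ∀ p q, HasMA f p q → 2 ^ ℓ ≤ 15 * (p + 1) * (q + 1) :=
  total_separation ℓ

end Pool.Agent.Lib.MP_ff3ed7_lc.TotalSeparation
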