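import Pool.Agent.Lib.MP_ff3ed7_lc.U.Total

/-!
Total two-party functions with cheap Arthur-Merlin communication protocols and large sign-rank.
-/

namespace Pool.Agent.Lib.MP_ff3ed7_lc.OldTotalSignRank

open Pool.Agent.Lib.MP_ff3ed7_lc

/-- For every `ℓ` there is a total function `F` of two strings of `N ≤ 2 ^ (8 ℓ + 32)` bits which
has an Arthur-Merlin communication protocol with `5 ℓ + 23` random bits and a message of
`24 ℓ + 145` bits, while `2 ^ ℓ ≤ 31 (k + 4)` if the sign-rank of `F` is at most `2 ^ k`,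
`2 ^ ℓ ≤ 31 (c + 5)` if `F` has an unbounded error protocol of cost `c`,
`2 ^ ℓ < 18 (p + c + 2)` if `F` has a `PP` protocol with gap `2 ^ (-p)` and `c` bits of
communication, and `2 ^ ℓ < 18 (p + 2) (c + 2)` if `F` has a Merlin-Arthur protocol with a message
of `p` bits and `c` bits of communication. -/
theorem result (ℓ : ℕ) : ∃ (N : ℕ) (F : (Fin N → Bool) → (Fin N → Bool) → Bool),
    N ≤ 2 ^ (8 * ℓ + 32) ∧
    HasAMcc F (5 * ℓ + 23) (24 * ℓ + 145) ∧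
    (∀ k, SignRankLE F (2 ^ k) → 2 ^ ℓ ≤ 31 * (k + 4)) ∧
    (∀ c, HasUPPcc F c → 2 ^ ℓ ≤ 31 * (c + 5)) ∧
    (∀ p c, HasPPcc F p c → 2 ^ ℓ < 18 * (p + c + 2)) ∧
    ∀ p c, HasMAcc F p c → 2 ^ ℓ < 18 * (p + 2) * (c + 2) :=
  U.total_uppcc ℓ

end Pool.Agent.Lib.MP_ff3ed7_lc.OldTotalSignRank
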