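import Pool.Agent.Lib.MP_ff3ed7_lc.TotalUPP

/-!
Total Boolean functions with constant-query Arthur-Merlin protocols, with large threshold degree,
and without cheap Merlin-Arthur protocols, classical or quantum.
-/

namespace Pool.Agent.Lib.MP_ff3ed7_lc.OldTotalUPP

open Pool.Agent.Lib.MP_ff3ed7_lc

/-- For every `ℓ` there is a total Boolean function `f` of `N` bits,
`2 ^ (5 ℓ + 12) ≤ N ≤ 2 ^ (5 ℓ + 17)`, which has an Arthur-Merlin query protocol with `ℓ + 2` random
bits, a reply of `5 ℓ + 17` bits and `10` queries, while every real polynomial which represents `f`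
by its sign has degree more than `2 ^ ℓ / 9`, every Merlin-Arthur query protocol for `f` with a
message of `p` bits and `q` queries satisfies `2 ^ ℓ < (p + 2) (q + 1)`, and every quantum
Merlin-Arthur query protocol for `f` with a witness of `p` qubits and `T` queries satisfies
`2 ^ ℓ < 18 (p + 1) T`. -/
theorem result (ℓ : ℕ) : ∃ (N : ℕ) (f : (Fin N → Bool) → Bool),
    2 ^ (5 * ℓ + 12) ≤ N ∧ N ≤ 2 ^ (5 * ℓ + 17) ∧
    HasAM f (ℓ + 2) (5 * ℓ + 17) 10 ∧
    (∀ D, ThrDegLE f D → 2 ^ ℓ < 9 * D) ∧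
    (∀ p q, HasMA f p q → 2 ^ ℓ < (p + 2) * (q + 1)) ∧
    ∀ p T, HasQMA f p T → 2 ^ ℓ < 18 * (p + 1) * T := by
  obtain ⟨N, f, h1, h2, h3, -, -, h4, h5, h6⟩ := total_upp ℓ
  exact ⟨N, f, h1, h2, h3, h5, h4, h6⟩

end Pool.Agent.Lib.MP_ff3ed7_lc.OldTotalUPP
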