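import Pool.Agent.Lib.MP_ff3ed7_lc.SigHyper
import Pool.Agent.Lib.MP_ff3ed7_lc.Tree

/-!
The total function.  Block `v` is active at position `i` if the bit `blk v i` is one.  If the three
blocks in the body of rule `ℓ` are active at the positions `i`, the bits `ptr ℓ i k w` must mark a
path in the binary tree of depth `β`, which leads to a position where the head of `ℓ` is active.
-/

open Finset

namespace Pool.Agent.Lib.MP_ff3ed7_lc.Sig

set_option linter.unusedSectionVars false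

/-- Positions in a block. -/
abbrev Pos (β : ℕ) : Type := Fin β → Bool

/-- The input bits. -/
abbrev SC (V Λ : Type) (β : ℕ) : Type :=
  (V × Pos β) ⊕ (Λ × (Fin 3 → Pos β) × Fin (β + 1) × Pos β)

variable {V Λ : Type} [Fintype V] [DecidableEq V] [Fintype Λ] [DecidableEq Λ] {β n : ℕ}

/-- The bit which says whether block `v` is active at position `i`. -/
def blk (v : V) (i : Pos β) : SC V Λ β := .inl (v, i)

/-- The bit which marks the node `w` of level `k` of the tree for rule `ℓ` and positions `i`. -/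
def ptr (ℓ : Λ) (i : Fin 3 → Pos β) (k : Fin (β + 1)) (w : Pos β) : SC V Λ β :=
  .inr (ℓ, i, k, w)

/-- Certificates. -/
abbrev Cert (Λ : Type) (β : ℕ) : Type :=
  Pos β ⊕ (Λ × (Fin 3 → Pos β)) ⊕ (Λ × (Fin 3 → Pos β) × Fin β × Pos β) ⊕
    (Λ × (Fin 3 → Pos β) × Pos β)

/-- The check of a certificate; `v` is the random block. -/
def chk (H : Λ → Fin 4 → V) (x : SC V Λ β → Bool) (v : V) : Cert Λ β → Prop
  | .inl i => x (blk v i) = true
  | .inr (.inl (ℓ, i)) => (∀ t : Fin 3, x (blk (H ℓ t.castSucc) (i t)) = true) ∧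
      x (ptr ℓ i 0 fun _ => false) = false
  | .inr (.inr (.inl (ℓ, i, k, w))) => x (ptr ℓ i k.castSucc w) = true ∧
      x (ptr ℓ i k.succ (Function.update w k false)) = false ∧
      x (ptr ℓ i k.succ (Function.update w k true)) = false
  | .inr (.inr (.inr (ℓ, i, w))) => x (ptr ℓ i (Fin.last β) w) = true ∧
      x (blk (H ℓ 3) w) = false

/-- The tree which checks a certificate. -/
def chkTree (H : Λ → Fin 4 → V) (v : V) : Cert Λ β → DTree (SC V Λ β) Bool
  | .inl i => .node (blk v i) .leaf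
  | .inr (.inl (ℓ, i)) =>
      (DTree.andAll 3 fun t => .node (blk (H ℓ t.castSucc) (i t)) .leaf).and
        (.node (ptr ℓ i 0 fun _ => false) fun b => .leaf (!b))
  | .inr (.inr (.inl (ℓ, i, k, w))) => DTree.and (.node (ptr ℓ i k.castSucc w) .leaf)
      (.and (.node (ptr ℓ i k.succ (Function.update w k false)) fun b => .leaf (!b))
        (.node (ptr ℓ i k.succ (Function.update w k true)) fun b => .leaf (!b)))
  | .inr (.inr (.inr (ℓ, i, w))) => DTree.and (.node (ptr ℓ i (Fin.last β) w) .leaf)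
      (.node (blk (H ℓ 3) w) fun b => .leaf (!b))

lemma eval_chkTree (H : Λ → Fin 4 → V) (x : SC V Λ β → Bool) (v : V) (c : Cert Λ β) :
    (chkTree H v c).eval x = true ↔ chk H x v c := by
  rcases c with i | ⟨ℓ, i⟩ | ⟨ℓ, i, k, w⟩ | ⟨ℓ, i, w⟩
  · simp [chkTree, chk]
  · simp only [chkTree, chk, DTree.eval_and, Bool.and_eq_true, DTree.eval_andAll, DTree.eval_node,
      DTree.eval_leaf, Bool.not_eq_true']
  · simp only [chkTree, chk, DTree.eval_and, Bool.and_eq_true, DTree.eval_node,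
      DTree.eval_leaf, Bool.not_eq_true']
  · simp only [chkTree, chk, DTree.eval_and, Bool.and_eq_true, DTree.eval_node,
      DTree.eval_leaf, Bool.not_eq_true']

lemma depthLE_chkTree (H : Λ → Fin 4 → V) (v : V) (c : Cert Λ β) :
    (chkTree H v c).DepthLE 4 := by
  have h1 : ∀ (q : SC V Λ β) (g : Bool → Bool),
      (DTree.node q fun b => .leaf (g b) : DTree (SC V Λ β) Bool).DepthLE 1 := fun q g =>
    ⟨by norm_num, fun _ => trivial⟩
  rcases c with i | ⟨ℓ, i⟩ | ⟨ℓ, i, k, w⟩ | ⟨ℓ, i, w⟩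
  · exact (h1 _ fun b => b).mono (by norm_num)
  · exact DTree.depthLE_and (d := 3) (e := 1)
      (DTree.depthLE_andAll (k := 3) (d := 1) fun t => h1 _ fun b => b) (h1 _ _)
  · exact (DTree.depthLE_and (d := 1) (e := 2) (h1 _ fun b => b)
      (DTree.depthLE_and (d := 1) (e := 1) (h1 _ _) (h1 _ _))).mono (by norm_num)
  · exact (DTree.depthLE_and (d := 1) (e := 1) (h1 _ fun b => b) (h1 _ _)).mono (by norm_num)

/-- The input has a defect. -/
def Bad (H : Λ → Fin 4 → V) (x : SC V Λ β → Bool) : Prop :=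
  (∃ ℓ i, (∀ t : Fin 3, x (blk (H ℓ t.castSucc) (i t)) = true) ∧
    x (ptr ℓ i 0 fun _ => false) = false) ∨
  (∃ ℓ i, ∃ k : Fin β, ∃ w, x (ptr ℓ i k.castSucc w) = true ∧
      x (ptr ℓ i k.succ (Function.update w k false)) = false ∧
      x (ptr ℓ i k.succ (Function.update w k true)) = false) ∨
  (∃ ℓ i w, x (ptr ℓ i (Fin.last β) w) = true ∧ x (blk (H ℓ 3) w) = false)

/-- The active blocks. -/
def Act (x : SC V Λ β → Bool) : Finset V := univ.filter fun v => ∃ i, x (blk v i) = true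

lemma mem_Act {x : SC V Λ β → Bool} {v : V} : v ∈ Act x ↔ ∃ i, x (blk v i) = true := by
  simp [Act]

open Classical in
/-- The function: there is a defect or more than `n` blocks are active. -/
noncomputable def fs (H : Λ → Fin 4 → V) (n : ℕ) (x : SC V Λ β → Bool) : Bool :=
  decide (Bad H x ∨ n < (Act x).card)

lemma exists_chk {H : Λ → Fin 4 → V} {x : SC V Λ β → Bool} {v : V} :
    (∃ c, chk H x v c) ↔ (Bad H x ∨ v ∈ Act x) := by
  rw [mem_Act]
  constructor
  · rintro ⟨i | ⟨ℓ, i⟩ | ⟨ℓ, i, k, w⟩ | ⟨ℓ, i, w⟩, hc⟩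
    · exact Or.inr ⟨i, hc⟩
    · exact Or.inl (Or.inl ⟨ℓ, i, hc⟩)
    · exact Or.inl (Or.inr (Or.inl ⟨ℓ, i, k, w, hc⟩))
    · exact Or.inl (Or.inr (Or.inr ⟨ℓ, i, w, hc⟩))
  · rintro ((⟨ℓ, i, hc⟩ | ⟨ℓ, i, k, w, hc⟩ | ⟨ℓ, i, w, hc⟩) | ⟨i, hc⟩)
    · exact ⟨.inr (.inl (ℓ, i)), hc⟩
    · exact ⟨.inr (.inr (.inl (ℓ, i, k, w))), hc⟩
    · exact ⟨.inr (.inr (.inr (ℓ, i, w))), hc⟩
    · exact ⟨.inl i, hc⟩

/-- Without defects the set of active blocks is closed. -/
lemma closed_of_not_bad {H : Λ → Fin 4 → V} {x : SC V Λ β → Bool} (hx : ¬ Bad H x) :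
    Closed H (Act x) := by
  intro ℓ hℓ
  simp only [mem_Act] at hℓ ⊢
  choose i hi using hℓ
  simp only [Bad, not_or, not_exists, not_and, Bool.not_eq_false] at hx
  obtain ⟨h1, h2, h3⟩ := hx
  have key : ∀ k : ℕ, ∀ hk : k < β + 1, ∃ w, x (ptr ℓ i ⟨k, hk⟩ w) = true := by
    intro k
    induction k with
    | zero => exact fun _ => ⟨_, h1 ℓ i hi⟩
    | succ k ih =>
      intro hk
      obtain ⟨w, hw⟩ := ih (by omega)
      have hk' : k < β := by omega
      by_cases h : x (ptr ℓ i (Fin.succ ⟨k, hk'⟩) (Function.update w ⟨k, hk'⟩ false)) = true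
      · exact ⟨_, h⟩
      · exact ⟨_, h2 ℓ i ⟨k, hk'⟩ w hw (by simpa using h)⟩
  obtain ⟨w, hw⟩ := key β (by omega)
  exact ⟨w, h3 ℓ i w hw⟩

lemma dichotomy {H : Λ → Fin 4 → V}
    (hA : ∀ T : Finset V, n < T.card → T.card < 3 * n → ¬ Closed H T)
    {x : SC V Λ β → Bool} (hx : ¬ Bad H x) : (Act x).card ≤ n ∨ 3 * n ≤ (Act x).card := by
  by_contra hcon
  push Not at hcon
  exact hA _ hcon.1 hcon.2 (closed_of_not_bad hx)

lemma prob_eq_card (r : ℕ) (E : (Fin r → Bool) → Prop) [DecidablePred E] :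
    prob r E = ((univ.filter E).card : ℝ) / 2 ^ r := by
  unfold prob
  rw [Nat.card_eq_fintype_card, Fintype.card_subtype]

lemma card_cert (μ β : ℕ) : Fintype.card (Cert (Pos μ) β) ≤ 2 ^ (μ + 5 * β + 2) := by
  simp only [Cert, Pos, Fintype.card_sum, Fintype.card_prod, Fintype.card_fun, Fintype.card_bool,
    Fintype.card_fin]
  set m := 2 ^ β with hm
  set L := 2 ^ μ with hL
  have h1 : 1 ≤ L := Nat.one_le_two_pow
  have h2 : 1 ≤ m := Nat.one_le_two_pow
  have h3 : β < m := Nat.lt_two_pow_self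
  have h4 : 2 ^ (μ + 5 * β + 2) = 4 * (L * m ^ 5) := by
    rw [hL, hm]
    ring
  rw [h4]
  have h5 : m ≤ L * m ^ 5 := by
    calc m = 1 * m ^ 1 := by ring
      _ ≤ L * m ^ 5 := Nat.mul_le_mul h1 (Nat.pow_le_pow_right h2 (by norm_num))
  have h6 : L * m ^ 3 ≤ L * m ^ 5 :=
    Nat.mul_le_mul_left _ (Nat.pow_le_pow_right h2 (by norm_num))
  have h7 : L * (m ^ 3 * (β * m)) ≤ L * m ^ 5 := by
    apply Nat.mul_le_mul_left
    calc m ^ 3 * (β * m) ≤ m ^ 3 * (m * m) := by gcongr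
      _ = m ^ 5 := by ring
  have h8 : L * (m ^ 3 * m) ≤ L * m ^ 5 := by
    apply Nat.mul_le_mul_left
    calc m ^ 3 * m = m ^ 4 := by ring
      _ ≤ m ^ 5 := Nat.pow_le_pow_right h2 (by norm_num)
  omega

end Pool.Agent.Lib.MP_ff3ed7_lc.Sig
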