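import Mathlib

/-!
Rule systems without closed sets of medium size in which small sets have small closures.
-/

open Finset

namespace Pool.Agent.Lib.MP_ff3ed7_lc.Sig

set_option linter.unusedSectionVars false

variable {V Λ : Type} [Fintype V] [DecidableEq V] [Fintype Λ] [DecidableEq Λ]

/-- `T` is closed under the rules: if the first three entries of a rule are in `T`, so is the
last one. -/
def Closed (H : Λ → Fin 4 → V) (T : Finset V) : Prop :=
  ∀ ℓ, (∀ t : Fin 3, H ℓ t.castSucc ∈ T) → H ℓ 3 ∈ T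

/-- The closure. -/
noncomputable def cl (H : Λ → Fin 4 → V) (U : Finset V) : Finset V := by
  classical
  exact univ.filter fun v => ∀ T, Closed H T → U ⊆ T → v ∈ T

lemma mem_cl {H : Λ → Fin 4 → V} {U : Finset V} {v : V} :
    v ∈ cl H U ↔ ∀ T, Closed H T → U ⊆ T → v ∈ T := by
  classical
  simp [cl]

lemma subset_cl (H : Λ → Fin 4 → V) (U : Finset V) : U ⊆ cl H U := fun _ hv =>
  mem_cl.mpr fun _ _ hU => hU hv

lemma closed_cl (H : Λ → Fin 4 → V) (U : Finset V) : Closed H (cl H U) := by
  intro ℓ hℓ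
  rw [mem_cl]
  intro T hT hU
  exact hT ℓ fun t => mem_cl.mp (hℓ t) T hT hU

lemma cl_subset {H : Λ → Fin 4 → V} {U T : Finset V} (hT : Closed H T) (hU : U ⊆ T) :
    cl H U ⊆ T := fun _ hv => mem_cl.mp hv T hT hU

lemma cl_mono {H : Λ → Fin 4 → V} {U U' : Finset V} (h : U ⊆ U') : cl H U ⊆ cl H U' :=
  cl_subset (closed_cl H U') (h.trans (subset_cl H U'))

lemma cl_empty (H : Λ → Fin 4 → V) : cl H ∅ = ∅ := by
  apply subset_empty.mp
  apply cl_subset
  · intro ℓ hℓ
    exact absurd (hℓ 0) (notMem_empty _)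
  · exact subset_rfl

/-- The rules inside of a set. -/
noncomputable def inside (H : Λ → Fin 4 → V) (W : Finset V) : Finset Λ := by
  classical
  exact univ.filter fun ℓ => ∀ t, H ℓ t ∈ W

lemma mem_inside {H : Λ → Fin 4 → V} {W : Finset V} {ℓ : Λ} :
    ℓ ∈ inside H W ↔ ∀ t, H ℓ t ∈ W := by
  classical
  simp [inside]

/-- If small sets contain few rules then small sets have small closures. -/
lemma exists_closed {H : Λ → Fin 4 → V} {s : ℕ}
    (hB : ∀ W : Finset V, W.card ≤ 2 * s → (inside H W).card < s) {U : Finset V}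
    (hU : U.card ≤ s) : ∃ T, U ⊆ T ∧ Closed H T ∧ T.card ≤ 2 * s := by
  classical
  let P : Finset V → Prop := fun W => U ⊆ W ∧ W.card ≤ 2 * s ∧
    W.card ≤ U.card + (inside H W).card
  have hne : (univ.filter P).Nonempty := ⟨U, by
    simp only [mem_filter, mem_univ, true_and, P]
    exact ⟨subset_rfl, by omega, by omega⟩⟩
  obtain ⟨W, hW, hmax⟩ := exists_max_image (univ.filter P) card hne
  simp only [mem_filter, mem_univ, true_and, P] at hW hmax
  obtain ⟨h1, h2, h3⟩ := hW
  have h4 := hB W h2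
  refine ⟨W, h1, ?_, h2⟩
  intro ℓ hℓ
  by_contra hcon
  have h5 : (insert (H ℓ 3) W).card = W.card + 1 := card_insert_of_notMem hcon
  have h6 : insert ℓ (inside H W) ⊆ inside H (insert (H ℓ 3) W) := by
    intro ℓ' hℓ'
    rw [mem_inside]
    rcases mem_insert.mp hℓ' with rfl | h
    · intro t
      refine Fin.lastCases ?_ (fun t => ?_) t
      · exact mem_insert_self _ _
      · exact mem_insert_of_mem (hℓ t)
    · exact fun t => mem_insert_of_mem (mem_inside.mp h t)
  have h7 : ℓ ∉ inside H W := fun h => hcon (mem_inside.mp h 3)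
  have h8 := card_le_card h6
  rw [card_insert_of_notMem h7] at h8
  have h9 := hmax (insert (H ℓ 3) W) ⟨h1.trans (subset_insert _ _), by omega, by omega⟩
  omega

/-! ### Counting -/

/-- rules which do not lead out of `T` -/
lemma card_noCross (T : Finset V) :
    (univ.filter fun r : Fin 4 → V => (∀ t : Fin 3, r t.castSucc ∈ T) → r 3 ∈ T).card +
      T.card ^ 3 * (Fintype.card V - T.card) = Fintype.card V ^ 4 := by
  have hne : ∀ t : Fin 3, t.castSucc ≠ Fin.last 3 := fun t => (Fin.castSucc_lt_last t).ne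
  have h1 : (univ.filter fun r : Fin 4 → V => ¬ ((∀ t : Fin 3, r t.castSucc ∈ T) → r 3 ∈ T)) =
      Fintype.piFinset fun t : Fin 4 => if t = Fin.last 3 then Tᶜ else T := by
    ext r
    simp only [mem_filter, mem_univ, true_and, Classical.not_imp, Fintype.mem_piFinset]
    constructor
    · rintro ⟨h1, h2⟩ t
      refine Fin.lastCases ?_ (fun t => ?_) t
      · rw [if_pos rfl]
        exact mem_compl.mpr h2
      · rw [if_neg (hne t)]
        exact h1 t
    · intro h
      refine ⟨fun t => ?_, ?_⟩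
      · have := h t.castSucc
        rw [if_neg (hne t)] at this
        exact this
      · have := h (Fin.last 3)
        rw [if_pos rfl] at this
        exact mem_compl.mp this
  have h2 := Finset.card_filter_add_card_filter_not (s := (univ : Finset (Fin 4 → V)))
    (fun r : Fin 4 → V => (∀ t : Fin 3, r t.castSucc ∈ T) → r 3 ∈ T)
  rw [h1, Fintype.card_piFinset] at h2
  have h3 : ∏ t : Fin 4, (if t = Fin.last 3 then Tᶜ else T : Finset V).card =
      T.card ^ 3 * (Fintype.card V - T.card) := by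
    rw [Fin.prod_univ_castSucc, if_pos rfl, card_compl]
    simp only [hne, if_false, prod_const, card_univ, Fintype.card_fin]
  rw [h3] at h2
  rw [h2]
  simp

open Classical in
/-- For most rule systems there is no closed set of medium size. -/
lemma card_badA {n : ℕ} (hV : Fintype.card V = 4 * n) (hL : 2040 * n ≤ Fintype.card Λ) (hn : 0 < n) :
    4 * (univ.filter fun H : Λ → Fin 4 → V =>
      ∃ T : Finset V, n < T.card ∧ T.card < 3 * n ∧ Closed H T).card ≤
        (Fintype.card V ^ 4) ^ Fintype.card Λ := by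
  classical
  set L := Fintype.card Λ with hLdef
  have h1 : ∀ T : Finset V, n < T.card → T.card < 3 * n →
      (univ.filter fun H : Λ → Fin 4 → V => Closed H T).card ≤ (255 * n ^ 4) ^ L := by
    intro T hT1 hT2
    have h2 : (univ.filter fun H : Λ → Fin 4 → V => Closed H T) =
        Fintype.piFinset fun _ : Λ =>
          univ.filter fun r : Fin 4 → V => (∀ t : Fin 3, r t.castSucc ∈ T) → r 3 ∈ T := by
      ext H
      simp only [mem_filter, mem_univ, true_and, Fintype.mem_piFinset, Closed]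
    rw [h2, Fintype.card_piFinset, prod_const, card_univ]
    apply Nat.pow_le_pow_left
    have h3 := card_noCross T
    rw [hV] at h3
    have h4 : n ^ 3 * n ≤ T.card ^ 3 * (4 * n - T.card) :=
      Nat.mul_le_mul (Nat.pow_le_pow_left hT1.le 3) (by omega)
    have h5 : (4 * n) ^ 4 = 255 * n ^ 4 + n ^ 3 * n := by ring
    omega
  have h2 : (univ.filter fun H : Λ → Fin 4 → V =>
      ∃ T : Finset V, n < T.card ∧ T.card < 3 * n ∧ Closed H T) ⊆
      ((univ : Finset (Finset V)).filter fun T => n < T.card ∧ T.card < 3 * n).biUnion fun T =>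
        univ.filter fun H : Λ → Fin 4 → V => Closed H T := by
    intro H hH
    simp only [mem_filter, mem_univ, true_and] at hH
    obtain ⟨T, hT1, hT2, hT3⟩ := hH
    simp only [mem_biUnion, mem_filter, mem_univ, true_and]
    exact ⟨T, ⟨hT1, hT2⟩, hT3⟩
  have h3 := (card_le_card h2).trans (card_biUnion_le_card_mul _ _ ((255 * n ^ 4) ^ L)
    (fun T hT => by
      simp only [mem_filter, mem_univ, true_and] at hT
      exact h1 T hT.1 hT.2))
  have h4 : ((univ : Finset (Finset V)).filter fun T => n < T.card ∧ T.card < 3 * n).card ≤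
      2 ^ (4 * n) := by
    refine (card_filter_le _ _).trans ?_
    rw [card_univ, Fintype.card_finset, hV]
  have h5 : 2 * 255 ^ 255 ≤ 256 ^ 255 := by
    have h6 : (1 : ℝ) + (255 : ℕ) * (1 / 255) ≤ (1 + 1 / 255) ^ 255 :=
      one_add_mul_le_pow (by norm_num) 255
    have h7 : (2 : ℝ) * 255 ^ 255 ≤ 256 ^ 255 := by
      have h8 : (256 : ℝ) ^ 255 = (1 + 1 / 255) ^ 255 * 255 ^ 255 := by
        rw [← mul_pow]
        norm_num
      rw [h8]
      have h9 : (0 : ℝ) < 255 ^ 255 := by positivity
      have h10 : (2 : ℝ) ≤ (1 + 1 / 255) ^ 255 := by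
        refine le_trans ?_ h6
        norm_num
      exact mul_le_mul_of_nonneg_right h10 h9.le
    exact_mod_cast h7
  have h6 : 2 ^ (8 * n) * 255 ^ L ≤ 256 ^ L := by
    obtain ⟨d, hd⟩ := Nat.exists_eq_add_of_le hL
    rw [hd, pow_add, pow_add]
    have h7 : 2 ^ (8 * n) * 255 ^ (2040 * n) ≤ 256 ^ (2040 * n) := by
      have h8 := Nat.pow_le_pow_left h5 (8 * n)
      rw [mul_pow, ← pow_mul 255 255, ← pow_mul 256 255] at h8
      rw [show 2040 * n = 255 * (8 * n) by ring]
      exact h8
    calc 2 ^ (8 * n) * (255 ^ (2040 * n) * 255 ^ d) = (2 ^ (8 * n) * 255 ^ (2040 * n)) * 255 ^ d := by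
          ring
      _ ≤ 256 ^ (2040 * n) * 256 ^ d := by gcongr; norm_num
  have h7 : 4 ≤ 2 ^ (4 * n) := by
    calc 4 = 2 ^ 2 := by norm_num
      _ ≤ 2 ^ (4 * n) := Nat.pow_le_pow_right (by norm_num) (by omega)
  calc _ ≤ 4 * (2 ^ (4 * n) * (255 * n ^ 4) ^ L) := by
        gcongr
        exact h3.trans (Nat.mul_le_mul_right _ h4)
    _ ≤ 2 ^ (4 * n) * (2 ^ (4 * n) * (255 * n ^ 4) ^ L) := Nat.mul_le_mul_right _ h7
    _ = (2 ^ (8 * n) * 255 ^ L) * (n ^ 4) ^ L := by
        rw [mul_pow, show 8 * n = 4 * n + 4 * n by ring, pow_add]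
        ring
    _ ≤ 256 ^ L * (n ^ 4) ^ L := Nat.mul_le_mul_right _ h6
    _ = ((4 * n) ^ 4) ^ L := by
        rw [← mul_pow]
        congr 1
        ring
    _ = _ := by rw [hV]

/-- The rule systems for which the rules `ι a` lie in the range of `w`. -/
lemma card_inside {s N : ℕ} (w : Fin N → V) (ι : Fin s → Λ) (hι : Function.Injective ι) :
    (Fintype.piFinset fun ℓ : Λ => if ℓ ∈ univ.image ι then
        Fintype.piFinset fun _ : Fin 4 => univ.image w else univ).card ≤
      (N ^ 4) ^ s * (Fintype.card V ^ 4) ^ (Fintype.card Λ - s) := by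
  classical
  rw [Fintype.card_piFinset]
  have h1 : ∀ ℓ : Λ, (if ℓ ∈ univ.image ι then
      Fintype.piFinset fun _ : Fin 4 => univ.image w else univ : Finset (Fin 4 → V)).card ≤
      if ℓ ∈ univ.image ι then N ^ 4 else Fintype.card V ^ 4 := by
    intro ℓ
    split_ifs with h
    · rw [Fintype.card_piFinset, prod_const, card_univ, Fintype.card_fin]
      apply Nat.pow_le_pow_left
      refine card_image_le.trans ?_
      simp
    · simp
  refine (prod_le_prod' fun ℓ _ => h1 ℓ).trans (le_of_eq ?_)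
  rw [prod_ite, prod_const, prod_const]
  congr 2
  · rw [filter_mem_eq_inter, univ_inter, card_image_of_injective _ hι, card_univ, Fintype.card_fin]
  · have : (univ.filter fun ℓ : Λ => ℓ ∉ univ.image ι) = (univ.image ι)ᶜ := by
      ext ℓ
      simp
    rw [this, card_compl, card_image_of_injective _ hι, card_univ, Fintype.card_fin]

lemma num_aux {s R L Q : ℕ} (hs : 0 < s) (hR : 2 * (L * Q) ≤ R ^ 2) :
    2 * (R ^ (2 * s) * L ^ s * Q ^ s) ≤ (R ^ 4) ^ s := by
  calc 2 * (R ^ (2 * s) * L ^ s * Q ^ s)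
      ≤ 2 ^ s * (R ^ (2 * s) * L ^ s * Q ^ s) := by
        gcongr
        exact Nat.le_self_pow hs.ne' 2
    _ = (R ^ 2 * (2 * (L * Q))) ^ s := by
        rw [mul_pow, mul_pow, mul_pow, ← pow_mul]
        ring
    _ ≤ (R ^ 2 * R ^ 2) ^ s := by gcongr
    _ = (R ^ 4) ^ s := by ring

open Classical in
/-- For most rule systems small sets contain few rules. -/
lemma card_badB {s : ℕ} (hs : 0 < s) (hΛ : s ≤ Fintype.card Λ)
    (hR : 2 * (Fintype.card Λ * (2 * s) ^ 4) ≤ Fintype.card V ^ 2) :
    2 * (univ.filter fun H : Λ → Fin 4 → V =>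
      ∃ W : Finset V, W.card ≤ 2 * s ∧ s ≤ (inside H W).card).card ≤
        (Fintype.card V ^ 4) ^ Fintype.card Λ := by
  have h1 : (univ.filter fun H : Λ → Fin 4 → V =>
      ∃ W : Finset V, W.card ≤ 2 * s ∧ s ≤ (inside H W).card) ⊆
      (univ ×ˢ (univ.filter fun ι : Fin s → Λ => Function.Injective ι) :
        Finset ((Fin (2 * s) → V) × (Fin s → Λ))).biUnion fun p =>
        Fintype.piFinset fun ℓ : Λ => if ℓ ∈ univ.image p.2 then
          Fintype.piFinset fun _ : Fin 4 => univ.image p.1 else univ := by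
    intro H hH
    simp only [mem_filter, mem_univ, true_and] at hH
    obtain ⟨W, hW1, hW2⟩ := hH
    obtain ⟨I, hI1, hI2⟩ := exists_subset_card_eq hW2
    have hWne : W.Nonempty := by
      have : (inside H W).Nonempty := card_pos.mp (by omega)
      obtain ⟨ℓ, hℓ⟩ := this
      exact ⟨_, mem_inside.mp hℓ 0⟩
    obtain ⟨w, hw⟩ : ∃ w : Fin (2 * s) → V, W ⊆ univ.image w := by
      have hle : Fintype.card W ≤ Fintype.card (Fin (2 * s)) := by simpa using hW1
      obtain ⟨emb⟩ := Function.Embedding.nonempty_of_card_le hle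
      have : Nonempty W := hWne.to_subtype
      refine ⟨fun i => (Function.invFun emb i : W), ?_⟩
      intro v hv
      rw [mem_image]
      exact ⟨emb ⟨v, hv⟩, mem_univ _, by
        rw [Function.leftInverse_invFun emb.injective]⟩
    let e : Fin s ≃ I := (Fintype.equivFinOfCardEq (by rw [Fintype.card_coe, hI2])).symm
    rw [mem_biUnion]
    refine ⟨(w, fun a => (e a : Λ)), ?_, ?_⟩
    · simp only [mem_product, mem_univ, true_and, mem_filter]
      exact Subtype.val_injective.comp e.injective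
    · rw [Fintype.mem_piFinset]
      intro ℓ
      split_ifs with h
      · rw [Fintype.mem_piFinset]
        intro t
        obtain ⟨a, -, ha⟩ := mem_image.mp h
        apply hw
        have h2 : (e a : Λ) ∈ inside H W := hI1 (e a).2
        rw [← ha]
        exact mem_inside.mp h2 t
      · exact mem_univ _
  have h2 := (card_le_card h1).trans (card_biUnion_le_card_mul _ _
    (((2 * s) ^ 4) ^ s * (Fintype.card V ^ 4) ^ (Fintype.card Λ - s)) (fun p hp => by
      simp only [mem_product, mem_univ, true_and, mem_filter] at hp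
      exact card_inside p.1 p.2 hp))
  set R := Fintype.card V
  set L := Fintype.card Λ
  have h3 : (univ ×ˢ (univ.filter fun ι : Fin s → Λ => Function.Injective ι) :
      Finset ((Fin (2 * s) → V) × (Fin s → Λ))).card ≤ R ^ (2 * s) * L ^ s := by
    rw [card_product]
    apply Nat.mul_le_mul
    · simp [R]
    · refine (card_filter_le _ _).trans ?_
      simp [L]
  have h4 : (R ^ 4) ^ L = (R ^ 4) ^ s * (R ^ 4) ^ (L - s) := by
    rw [← pow_add]
    congr 1
    omega
  have h5 : 2 * (R ^ (2 * s) * L ^ s * ((2 * s) ^ 4) ^ s) ≤ (R ^ 4) ^ s := num_aux hs hR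
  calc _ ≤ 2 * (R ^ (2 * s) * L ^ s * (((2 * s) ^ 4) ^ s * (R ^ 4) ^ (L - s))) := by
        gcongr
        exact h2.trans (Nat.mul_le_mul_right _ h3)
    _ = 2 * (R ^ (2 * s) * L ^ s * ((2 * s) ^ 4) ^ s) * (R ^ 4) ^ (L - s) := by ring
    _ ≤ (R ^ 4) ^ s * (R ^ 4) ^ (L - s) := Nat.mul_le_mul_right _ h5
    _ = _ := h4.symm

/-- Existence of good rule systems. -/
theorem exists_rules {n s : ℕ} (hV : Fintype.card V = 4 * n) (hn : 0 < n) (hs : 0 < s)
    (hL : 2040 * n ≤ Fintype.card Λ) (hΛ : s ≤ Fintype.card Λ)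
    (hR : 2 * (Fintype.card Λ * (2 * s) ^ 4) ≤ Fintype.card V ^ 2) :
    ∃ H : Λ → Fin 4 → V,
      (∀ T : Finset V, n < T.card → T.card < 3 * n → ¬ Closed H T) ∧
      ∀ U : Finset V, U.card ≤ s → (cl H U).card ≤ 2 * s := by
  classical
  have h1 := card_badA (Λ := Λ) hV hL hn
  have h2 := card_badB (V := V) hs hΛ hR
  by_contra hcon
  push Not at hcon
  have h3 : (univ : Finset (Λ → Fin 4 → V)) ⊆
      (univ.filter fun H : Λ → Fin 4 → V =>
        ∃ T : Finset V, n < T.card ∧ T.card < 3 * n ∧ Closed H T) ∪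
      (univ.filter fun H : Λ → Fin 4 → V =>
        ∃ W : Finset V, W.card ≤ 2 * s ∧ s ≤ (inside H W).card) := by
    intro H _
    rw [mem_union]
    by_cases hA : ∃ T : Finset V, n < T.card ∧ T.card < 3 * n ∧ Closed H T
    · exact Or.inl (mem_filter.mpr ⟨mem_univ _, hA⟩)
    · right
      refine mem_filter.mpr ⟨mem_univ _, ?_⟩
      by_contra hB
      push Not at hA hB
      obtain ⟨U, hU1, hU2⟩ := hcon H hA
      obtain ⟨T, hT1, hT2, hT3⟩ := exists_closed hB hU1
      have := card_le_card (cl_subset hT2 hT1)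
      omega
  have h4 := (card_le_card h3).trans (card_union_le _ _)
  have h5 : (univ : Finset (Λ → Fin 4 → V)).card = (Fintype.card V ^ 4) ^ Fintype.card Λ := by
    simp
  have h6 : 0 < (Fintype.card V ^ 4) ^ Fintype.card Λ := by
    rw [hV]
    positivity
  rw [h5] at h4
  omega

end Pool.Agent.Lib.MP_ff3ed7_lc.Sig
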