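import Pool.Agent.Lib.MP_ff3ed7_lc.SigFunc
import Pool.Agent.Lib.MP_ff3ed7_lc.DefsSig

/-! The lower bound for `Σ₂` protocols. -/

open Finset

namespace Pool.Agent.Lib.MP_ff3ed7_lc

/-- The cells which a tree queries on input `x`. -/
def DTree.path {ι σ : Type} (x : ι → σ) : DTree ι σ → List ι
  | .leaf _ => []
  | .node i f => i :: (f (x i)).path x

lemma DTree.length_path {ι σ : Type} {x : ι → σ} {t : DTree ι σ} {q : ℕ} (h : t.DepthLE q) :
    (t.path x).length ≤ q := by
  induction t generalizing q with
  | leaf b => simp [path]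
  | node i f ih =>
    have := ih (x i) (h.2 _)
    have h0 := h.1
    simp only [path, List.length_cons]
    omega

lemma DTree.eval_eq_of_path {ι σ : Type} {x y : ι → σ} {t : DTree ι σ}
    (h : ∀ i ∈ t.path x, y i = x i) : t.eval y = t.eval x := by
  induction t with
  | leaf b => rfl
  | node i f ih =>
    simp only [path, List.mem_cons, forall_eq_or_imp] at h
    simp only [eval_node, h.1]
    exact ih _ h.2

namespace Sig

set_option linter.unusedSectionVars false

variable {V Λ : Type} [Fintype V] [DecidableEq V] [Fintype Λ] [DecidableEq Λ] {β n : ℕ}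

/-- The first `k` bits. -/
def pre (k : ℕ) (a : Pos β) : Pos β := fun b => if b.val < k then a b else false

lemma pre_zero (a : Pos β) : pre 0 a = fun _ => false := by
  funext b
  simp [pre]

lemma pre_last (a : Pos β) : pre β a = a := by
  funext b
  simp [pre]

lemma pre_succ (a : Pos β) (k : Fin β) :
    Function.update (pre k a) k (a k) = pre (k + 1) a := by
  funext b
  by_cases h : b = k
  · subst h
    simp [pre]
  · rw [Function.update_of_ne h]
    simp only [pre]
    have h1 : (b.val < k.val + 1) ↔ b.val < k.val := by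
      have : b.val ≠ k.val := fun h' => h (Fin.ext h')
      omega
    simp only [h1]

open Classical in
/-- The input with one active position `j v` in each block `v ∈ T`. -/
noncomputable def inst (H : Λ → Fin 4 → V) (T : Finset V) (j : V → Pos β) : SC V Λ β → Bool
  | .inl (v, i) => decide (v ∈ T ∧ i = j v)
  | .inr (ℓ, i, k, w) => decide ((∀ t : Fin 3, H ℓ t.castSucc ∈ T) ∧
      (i = fun t => j (H ℓ t.castSucc)) ∧ w = pre k (j (H ℓ 3)))

lemma inst_blk {H : Λ → Fin 4 → V} {T : Finset V} {j : V → Pos β} {v : V} {i : Pos β} :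
    inst H T j (blk v i) = true ↔ v ∈ T ∧ i = j v := by
  simp [inst, blk]

lemma inst_ptr {H : Λ → Fin 4 → V} {T : Finset V} {j : V → Pos β} {ℓ : Λ} {i : Fin 3 → Pos β}
    {k : Fin (β + 1)} {w : Pos β} :
    inst H T j (ptr ℓ i k w) = true ↔ (∀ t : Fin 3, H ℓ t.castSucc ∈ T) ∧
      (i = fun t => j (H ℓ t.castSucc)) ∧ w = pre k (j (H ℓ 3)) := by
  simp [inst, ptr]

lemma act_inst (H : Λ → Fin 4 → V) (T : Finset V) (j : V → Pos β) : Act (inst H T j) = T := by
  ext v
  rw [mem_Act]
  constructor
  · rintro ⟨i, hi⟩
    exact (inst_blk.mp hi).1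
  · exact fun hv => ⟨j v, inst_blk.mpr ⟨hv, rfl⟩⟩

lemma not_bad_inst {H : Λ → Fin 4 → V} {T : Finset V} (hT : Closed H T) (j : V → Pos β) :
    ¬ Bad H (inst H T j) := by
  rintro (⟨ℓ, i, h1, h2⟩ | ⟨ℓ, i, k, w, h1, h2, h3⟩ | ⟨ℓ, i, w, h1, h2⟩)
  · rw [← Bool.not_eq_true] at h2
    apply h2
    rw [inst_ptr]
    exact ⟨fun t => (inst_blk.mp (h1 t)).1, funext fun t => (inst_blk.mp (h1 t)).2,
      (pre_zero _).symm⟩
  · rw [inst_ptr] at h1
    obtain ⟨h4, h5, h6⟩ := h1
    rw [Fin.val_castSucc] at h6
    rw [← Bool.not_eq_true] at h2 h3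
    rcases h7 : j (H ℓ 3) k with _ | _
    · apply h2
      rw [inst_ptr]
      refine ⟨h4, h5, ?_⟩
      rw [h6, ← h7, pre_succ, Fin.val_succ]
    · apply h3
      rw [inst_ptr]
      refine ⟨h4, h5, ?_⟩
      rw [h6, ← h7, pre_succ, Fin.val_succ]
  · rw [inst_ptr] at h1
    obtain ⟨h4, h5, h6⟩ := h1
    rw [Fin.val_last, pre_last] at h6
    rw [← Bool.not_eq_true] at h2
    apply h2
    rw [inst_blk]
    exact ⟨hT ℓ h4, h6⟩

lemma fs_inst {H : Λ → Fin 4 → V} {T : Finset V} (hT : Closed H T) (j : V → Pos β) :
    fs H n (inst H T j) = true ↔ n < T.card := by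
  simp only [fs, decide_eq_true_eq, act_inst, not_bad_inst hT j, false_or]

open Classical in
/-- The pair which is hit if a cell changes. -/
noncomputable def hitp (H : Λ → Fin 4 → V) (T : Finset V) : SC V Λ β → Finset (V × Pos β)
  | .inl (v, i) => if v ∈ T then ∅ else {(v, i)}
  | .inr (ℓ, i, _, _) => if h : ∃ t : Fin 3, H ℓ t.castSucc ∉ T then
      {(H ℓ h.choose.castSucc, i h.choose)} else ∅

lemma card_hitp (H : Λ → Fin 4 → V) (T : Finset V) (c : SC V Λ β) : (hitp H T c).card ≤ 1 := by
  rcases c with ⟨v, i⟩ | ⟨ℓ, i, k, w⟩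
  · simp only [hitp]
    split_ifs <;> simp
  · simp only [hitp]
    split_ifs <;> simp

lemma notMem_of_hitp {H : Λ → Fin 4 → V} {T : Finset V} {c : SC V Λ β} {e : V × Pos β}
    (he : e ∈ hitp H T c) : e.1 ∉ T := by
  rcases c with ⟨v, i⟩ | ⟨ℓ, i, k, w⟩
  · simp only [hitp] at he
    split_ifs at he with h
    · exact absurd he (notMem_empty _)
    · rw [mem_singleton] at he
      rw [he]
      exact h
  · simp only [hitp] at he
    split_ifs at he with h
    · rw [mem_singleton] at he
      rw [he]
      exact h.choose_spec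
    · exact absurd he (notMem_empty _)

lemma hit_of_ne {H : Λ → Fin 4 → V} {T : Finset V} (hT : Closed H T) {j a : V → Pos β}
    (hja : ∀ v ∈ T, j v = a v) {c : SC V Λ β} (hc : inst H univ j c ≠ inst H T a c) :
    ∃ e ∈ hitp H T c, j e.1 = e.2 := by
  rcases c with ⟨v, i⟩ | ⟨ℓ, i, k, w⟩
  · by_cases hv : v ∈ T
    · exfalso
      apply hc
      simp only [inst, hv, mem_univ, true_and, hja v hv]
    · refine ⟨(v, i), ?_, ?_⟩
      · simp only [hitp, if_neg hv, mem_singleton]
      · have h1 : inst H T a (.inl (v, i)) = false := by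
          simp [inst, hv]
        rw [h1] at hc
        have h2 : inst H univ j (.inl (v, i)) = true := by
          simpa using hc
        exact (inst_blk.mp h2).2.symm
  · by_cases h : ∃ t : Fin 3, H ℓ t.castSucc ∉ T
    · refine ⟨(H ℓ h.choose.castSucc, i h.choose), ?_, ?_⟩
      · simp only [hitp, dif_pos h, mem_singleton]
      · have h1 : inst H T a (.inr (ℓ, i, k, w)) = false := by
          rw [← Bool.not_eq_true]
          intro h2
          exact h.choose_spec ((inst_ptr.mp h2).1 _)
        rw [h1] at hc
        have h2 : inst H univ j (.inr (ℓ, i, k, w)) = true := by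
          simpa using hc
        have h3 := (inst_ptr.mp h2).2.1
        exact (congrFun h3 h.choose).symm
    · exfalso
      apply hc
      push Not at h
      have h1 : (fun t : Fin 3 => j (H ℓ t.castSucc)) = fun t => a (H ℓ t.castSucc) :=
        funext fun t => hja _ (h t)
      have h2 : j (H ℓ 3) = a (H ℓ 3) := hja _ (hT ℓ h)
      simp only [inst, mem_univ, h, h1, h2]

/-! ### Counting -/

section count

variable {P : Type} [Fintype P] [DecidableEq P]

/-- The assignments which agree with `a` on `T`. -/
lemma card_agree (T : Finset V) (a : V → P) :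
    (univ.filter fun j : V → P => ∀ v ∈ T, j v = a v).card * Fintype.card P ^ T.card =
      Fintype.card P ^ Fintype.card V := by
  have h1 : (univ.filter fun j : V → P => ∀ v ∈ T, j v = a v) =
      Fintype.piFinset fun v => if v ∈ T then {a v} else univ := by
    ext j
    simp only [mem_filter, mem_univ, true_and, Fintype.mem_piFinset]
    constructor
    · intro h v
      split_ifs with hv
      · exact mem_singleton.mpr (h v hv)
      · exact mem_univ _
    · intro h v hv
      have := h v
      rw [if_pos hv] at this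
      exact mem_singleton.mp this
  rw [h1, Fintype.card_piFinset]
  have h2 : ∏ v, (if v ∈ T then {a v} else univ : Finset P).card =
      Fintype.card P ^ (Tᶜ).card := by
    have h3 : ∀ v, (if v ∈ T then {a v} else univ : Finset P).card =
        if v ∈ T then 1 else Fintype.card P := by
      intro v
      split_ifs <;> simp
    simp only [h3]
    rw [prod_ite, prod_const_one, one_mul, prod_const]
    congr 2
    ext v
    simp
  rw [h2, ← pow_add, card_compl]
  congr 1
  have := card_le_univ T
  omega

/-- The assignments which agree with `a` on `T` and outside of `T'`, and have the value `b` at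
`u`. -/
lemma card_ext {T T' : Finset V} (hTT : T ⊆ T') {u : V} (hu : u ∈ T') (huT : u ∉ T) (a : V → P)
    (b : P) :
    (Fintype.piFinset fun v => if v ∈ T then {a v} else if v = u then {b} else
      if v ∈ T' then univ else {a v}).card * Fintype.card P ^ (T.card + 1) =
        Fintype.card P ^ T'.card := by
  rw [Fintype.card_piFinset]
  have h3 : ∀ v, (if v ∈ T then {a v} else if v = u then {b} else
      if v ∈ T' then univ else {a v} : Finset P).card =
      if v ∈ T' \ (insert u T) then Fintype.card P else 1 := by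
    intro v
    by_cases h1 : v ∈ T
    · rw [if_pos h1, if_neg (by simp [h1]), card_singleton]
    · rw [if_neg h1]
      by_cases h2 : v = u
      · rw [if_pos h2, if_neg (by simp [h2]), card_singleton]
      · rw [if_neg h2]
        by_cases h4 : v ∈ T'
        · rw [if_pos h4, if_pos (by simp [h4, h1, h2])]
          simp
        · rw [if_neg h4, if_neg (by simp [h4]), card_singleton]
  simp only [h3]
  rw [prod_ite, prod_const_one, mul_one, prod_const]
  have h4 : (univ.filter fun v => v ∈ T' \ (insert u T)) = T' \ (insert u T) := by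
    ext v
    simp
  rw [h4, ← pow_add]
  congr 1
  have h5 : insert u T ⊆ T' := insert_subset hu hTT
  rw [card_sdiff_of_subset h5, card_insert_of_notMem huT]
  have h6 := card_le_card h5
  rw [card_insert_of_notMem huT] at h6
  omega

lemma count_le {H : Λ → Fin 4 → V} {s N q : ℕ}
    (hB : ∀ U : Finset V, U.card ≤ s → (cl H U).card ≤ N) (S : Finset (V → P))
    (hS : ∀ T : Finset V, Closed H T → T.card ≤ N → ∀ a : V → P, ∃ E : Finset (V × P),
      E.card ≤ q ∧ (∀ e ∈ E, e.1 ∉ T) ∧
        ∀ j ∈ S, (∀ v ∈ T, j v = a v) → ∃ e ∈ E, j e.1 = e.2) (r : ℕ) :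
    ∀ (U : Finset V), U.card + r ≤ s → ∀ a : V → P,
      (S.filter fun j => ∀ v ∈ cl H U, j v = a v).card * Fintype.card P ^ (r + (cl H U).card) ≤
        q ^ r * Fintype.card P ^ Fintype.card V := by
  induction r with
  | zero =>
    intro U _ a
    rw [pow_zero, one_mul, zero_add, ← card_agree (cl H U) a]
    apply Nat.mul_le_mul_right
    apply card_le_card
    intro j hj
    rw [mem_filter] at hj ⊢
    exact ⟨mem_univ _, hj.2⟩
  | succ r ih =>
    intro U hU a
    set T := cl H U with hT
    set m := Fintype.card P with hm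
    obtain ⟨E, hE1, hE2, hE3⟩ := hS T (closed_cl H U) (hB U (by omega)) a
    have h1 : (S.filter fun j => ∀ v ∈ T, j v = a v) ⊆
        E.biUnion fun e => S.filter fun j => (∀ v ∈ T, j v = a v) ∧ j e.1 = e.2 := by
      intro j hj
      rw [mem_filter] at hj
      obtain ⟨e, he1, he2⟩ := hE3 j hj.1 hj.2
      rw [mem_biUnion]
      exact ⟨e, he1, mem_filter.mpr ⟨hj.1, hj.2, he2⟩⟩
    have h2 : ∀ e ∈ E, (S.filter fun j => (∀ v ∈ T, j v = a v) ∧ j e.1 = e.2).card *
        m ^ (r + 1 + T.card) ≤ q ^ r * m ^ Fintype.card V := by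
      intro e he
      set T' := cl H (insert e.1 U) with hT'
      have hTT : T ⊆ T' := cl_mono (subset_insert _ _)
      have hu : e.1 ∈ T' := subset_cl _ _ (mem_insert_self _ _)
      have huT := hE2 e he
      set C : Finset (V → P) := Fintype.piFinset fun v => if v ∈ T then {a v} else
        if v = e.1 then {e.2} else if v ∈ T' then univ else {a v} with hC
      have h3 : (S.filter fun j => (∀ v ∈ T, j v = a v) ∧ j e.1 = e.2) ⊆
          C.biUnion fun c => S.filter fun j => ∀ v ∈ T', j v = c v := by
        intro j hj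
        rw [mem_filter] at hj
        obtain ⟨hj1, hj2, hj3⟩ := hj
        rw [mem_biUnion]
        refine ⟨fun v => if v ∈ T' then j v else a v, ?_, ?_⟩
        · rw [hC, Fintype.mem_piFinset]
          intro v
          by_cases h4 : v ∈ T
          · rw [if_pos h4, if_pos (hTT h4), hj2 v h4]
            exact mem_singleton_self _
          · rw [if_neg h4]
            by_cases h5 : v = e.1
            · rw [if_pos h5, h5, if_pos hu, hj3]
              exact mem_singleton_self _
            · rw [if_neg h5]
              by_cases h6 : v ∈ T'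
              · rw [if_pos h6]
                exact mem_univ _
              · rw [if_neg h6, if_neg h6]
                exact mem_singleton_self _
        · rw [mem_filter]
          refine ⟨hj1, fun v hv => ?_⟩
          show j v = if v ∈ T' then j v else a v
          rw [if_pos hv]
      have hUc : (insert e.1 U).card + r ≤ s := by
        have := card_insert_le e.1 U
        omega
      have h4 : ∀ c ∈ C, (S.filter fun j => ∀ v ∈ T', j v = c v).card ≤
          (S.filter fun j => ∀ v ∈ T', j v = c v).card := fun _ _ => le_rfl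
      have h5 : (S.filter fun j => (∀ v ∈ T, j v = a v) ∧ j e.1 = e.2).card ≤
          ∑ c ∈ C, (S.filter fun j => ∀ v ∈ T', j v = c v).card :=
        (card_le_card h3).trans card_biUnion_le
      have h6 : ∀ c ∈ C, (S.filter fun j => ∀ v ∈ T', j v = c v).card * m ^ (r + T'.card) ≤
          q ^ r * m ^ Fintype.card V := fun c _ => ih _ hUc c
      have h7 : (∑ c ∈ C, (S.filter fun j => ∀ v ∈ T', j v = c v).card) * m ^ (r + T'.card) ≤
          C.card * (q ^ r * m ^ Fintype.card V) := by
        rw [sum_mul]
        exact (sum_le_sum h6).trans (by rw [sum_const, smul_eq_mul])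
      have h8 : C.card * m ^ (T.card + 1) = m ^ T'.card := card_ext hTT hu huT a e.2
      have hC0 : 0 < C.card := by
        rcases Nat.eq_zero_or_pos C.card with h9 | h9
        · exfalso
          rw [h9, zero_mul] at h8
          have hm0 : 0 < m := Fintype.card_pos_iff.mpr ⟨e.2⟩
          have : 0 < m ^ T'.card := pow_pos hm0 _
          omega
        · exact h9
      refine Nat.le_of_mul_le_mul_left ?_ hC0
      calc C.card * ((S.filter fun j => (∀ v ∈ T, j v = a v) ∧ j e.1 = e.2).card *
            m ^ (r + 1 + T.card))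
          = (S.filter fun j => (∀ v ∈ T, j v = a v) ∧ j e.1 = e.2).card *
            (m ^ r * (C.card * m ^ (T.card + 1))) := by
            rw [show r + 1 + T.card = r + (T.card + 1) by ring, pow_add]
            ring
        _ = (S.filter fun j => (∀ v ∈ T, j v = a v) ∧ j e.1 = e.2).card * m ^ (r + T'.card) := by
            rw [h8, pow_add]
        _ ≤ (∑ c ∈ C, (S.filter fun j => ∀ v ∈ T', j v = c v).card) * m ^ (r + T'.card) :=
            Nat.mul_le_mul_right _ h5
        _ ≤ C.card * (q ^ r * m ^ Fintype.card V) := h7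
    calc (S.filter fun j => ∀ v ∈ T, j v = a v).card * m ^ (r + 1 + T.card)
        ≤ (∑ e ∈ E, (S.filter fun j => (∀ v ∈ T, j v = a v) ∧ j e.1 = e.2).card) *
          m ^ (r + 1 + T.card) :=
          Nat.mul_le_mul_right _ ((card_le_card h1).trans card_biUnion_le)
      _ ≤ E.card * (q ^ r * m ^ Fintype.card V) := by
          rw [sum_mul]
          exact (sum_le_sum h2).trans (by rw [sum_const, smul_eq_mul])
      _ ≤ q * (q ^ r * m ^ Fintype.card V) := Nat.mul_le_mul_right _ hE1
      _ = q ^ (r + 1) * m ^ Fintype.card V := by ring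

end count

/-- The lower bound. -/
theorem lower {H : Λ → Fin 4 → V} {s N : ℕ}
    (hB : ∀ U : Finset V, U.card ≤ s → (cl H U).card ≤ N) (hNn : N ≤ n)
    (hV : n < Fintype.card V) {p q : ℕ} (h : HasSigma2 (fs (β := β) H n) p q) :
    (2 ^ β) ^ s ≤ 2 ^ p * q ^ s := by
  classical
  obtain ⟨r, T, hT, hf⟩ := h
  have hun : Closed H univ := fun ℓ _ => mem_univ _
  have h1 : ∀ y : Fin p → Bool, (univ.filter fun j : V → Pos β =>
      ∀ ρ, (T y ρ).eval (inst H univ j) = true).card * (2 ^ β) ^ s ≤
        q ^ s * (2 ^ β) ^ Fintype.card V := by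
    intro y
    have h2 := count_le (r := s) hB (univ.filter fun j : V → Pos β =>
      ∀ ρ, (T y ρ).eval (inst H univ j) = true) (q := q) (fun W hW hWN a => by
        have h3 : ¬ fs H n (inst H W a) = true := by
          rw [fs_inst hW a]
          omega
        rw [hf] at h3
        push Not at h3
        obtain ⟨ρ, hρ⟩ := h3 y
        refine ⟨((T y ρ).path (inst H W a)).toFinset.biUnion (hitp H W), ?_, ?_, ?_⟩
        · refine (card_biUnion_le_card_mul _ _ 1 fun c _ => card_hitp H W c).trans ?_
          rw [mul_one]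
          exact (List.toFinset_card_le _).trans (DTree.length_path (hT y ρ))
        · intro e he
          obtain ⟨c, -, hc⟩ := mem_biUnion.mp he
          exact notMem_of_hitp hc
        · intro j hj hja
          simp only [mem_filter, mem_univ, true_and] at hj
          have h4 : ∃ c ∈ (T y ρ).path (inst H W a), inst H univ j c ≠ inst H W a c := by
            by_contra hcon
            push Not at hcon
            exact hρ ((DTree.eval_eq_of_path hcon).symm.trans (hj ρ))
          obtain ⟨c, hc1, hc2⟩ := h4
          obtain ⟨e, he1, he2⟩ := hit_of_ne hW hja hc2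
          exact ⟨e, mem_biUnion.mpr ⟨c, List.mem_toFinset.mpr hc1, he1⟩, he2⟩)
      ∅ (by simp) (fun _ _ => false)
    simp only [cl_empty, card_empty, add_zero] at h2
    have h5 : Fintype.card (Pos β) = 2 ^ β := by simp
    rw [h5] at h2
    refine le_trans ?_ h2
    apply Nat.mul_le_mul_right
    apply card_le_card
    intro j hj
    rw [mem_filter]
    exact ⟨hj, fun v hv => absurd hv (notMem_empty _)⟩
  have h2 : (univ : Finset (V → Pos β)) ⊆ univ.biUnion fun y : Fin p → Bool =>
      univ.filter fun j : V → Pos β => ∀ ρ, (T y ρ).eval (inst H univ j) = true := by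
    intro j _
    have h3 : fs H n (inst H univ j) = true := by
      rw [fs_inst hun j, card_univ]
      exact hV
    rw [hf] at h3
    obtain ⟨y, hy⟩ := h3
    rw [mem_biUnion]
    exact ⟨y, mem_univ _, mem_filter.mpr ⟨mem_univ _, hy⟩⟩
  have h3 : (2 ^ β) ^ Fintype.card V ≤ ∑ y : Fin p → Bool, (univ.filter fun j : V → Pos β =>
      ∀ ρ, (T y ρ).eval (inst H univ j) = true).card := by
    have := (card_le_card h2).trans card_biUnion_le
    simpa using this
  have h4 : (2 ^ β) ^ Fintype.card V * (2 ^ β) ^ s ≤
      2 ^ p * (q ^ s * (2 ^ β) ^ Fintype.card V) := by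
    calc _ ≤ (∑ y : Fin p → Bool, (univ.filter fun j : V → Pos β =>
          ∀ ρ, (T y ρ).eval (inst H univ j) = true).card) * (2 ^ β) ^ s :=
          Nat.mul_le_mul_right _ h3
      _ ≤ ∑ _y : Fin p → Bool, q ^ s * (2 ^ β) ^ Fintype.card V := by
          rw [sum_mul]
          exact sum_le_sum fun y _ => h1 y
      _ = _ := by
          rw [sum_const, smul_eq_mul]
          simp
  have h5 : 0 < (2 ^ β) ^ Fintype.card V := by positivity
  refine Nat.le_of_mul_le_mul_left ?_ h5
  calc _ ≤ _ := h4
    _ = _ := by ring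

end Sig

end Pool.Agent.Lib.MP_ff3ed7_lc
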