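import Pool.Agent.Lib.MP_ff3ed7_lc.Tree

/-!
Locally checkable and locally hiding encodings of the solutions of a system of quadratic equations
over `ZMod 2`: each variable is split into `μ + 1` shares.
-/

open Finset

namespace Pool.Agent.Lib.MP_ff3ed7_lc

/-- A sparse affine form. -/
structure Aff (X : Type) where
  /-- constant term -/
  c : ZMod 2
  /-- the variables which occur -/
  vars : List X

/-- The linear part. -/
def Aff.lin {X : Type} (a : Aff X) (h : X → ZMod 2) : ZMod 2 := (a.vars.map h).sum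

/-- The value. -/
def Aff.ev {X : Type} (a : Aff X) (h : X → ZMod 2) : ZMod 2 := a.c + a.lin h

/-- The equation `A * B = C`. -/
structure Eqn (X : Type) where
  A : Aff X
  B : Aff X
  C : Aff X

/-- The assignment `h` satisfies the equation. -/
def Eqn.Sat {X : Type} (q : Eqn X) (h : X → ZMod 2) : Prop := q.A.ev h * q.B.ev h = q.C.ev h

/-- A system of equations indexed by `Q`, in variables `X`, with public variables `P`. -/
structure Sys (P X Q : Type) where
  pv : P → X
  eqn : Q → Eqn X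

/-- The cells. -/
inductive TCell (P X Q : Type) (μ : ℕ) : Type
  /-- public bit -/
  | pub (p : P) : TCell P X Q μ
  /-- share `i` of variable `x` -/
  | sh (x : X) (i : Fin (μ + 1)) : TCell P X Q μ
  /-- partial sums of the shares of a public variable -/
  | ch (p : P) (i : Fin (μ + 2)) : TCell P X Q μ
  /-- matrix of masked products for equation `q` -/
  | W (q : Q) (i j : Fin (μ + 1)) : TCell P X Q μ
  /-- partial sums of its rows -/
  | D (q : Q) (i : Fin (μ + 1)) (j : Fin (μ + 2)) : TCell P X Q μ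
  /-- partial sums of the row sums -/
  | E (q : Q) (i : Fin (μ + 2)) : TCell P X Q μ

variable {P X Q : Type} {μ : ℕ}

/-- Share `i` of an affine form. -/
def Aff.sh (a : Aff X) (s : X → Fin (μ + 1) → ZMod 2) (i : Fin (μ + 1)) : ZMod 2 :=
  (if i = 0 then a.c else 0) + a.lin fun x => s x i

lemma Aff.lin_add (a : Aff X) (h k : X → ZMod 2) : a.lin (fun x => h x + k x) = a.lin h + a.lin k := by
  unfold Aff.lin
  induction a.vars with
  | nil => simp
  | cons x l ih => simp only [List.map_cons, List.sum_cons, ih]; ring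

lemma Aff.lin_sum {ι : Type} (S : Finset ι) (a : Aff X) (h : ι → X → ZMod 2) :
    a.lin (fun x => ∑ i ∈ S, h i x) = ∑ i ∈ S, a.lin (h i) := by
  unfold Aff.lin
  induction a.vars with
  | nil => simp
  | cons x l ih => simp only [List.map_cons, List.sum_cons, ih, sum_add_distrib]

lemma Aff.sum_sh (a : Aff X) (s : X → Fin (μ + 1) → ZMod 2) :
    ∑ i, a.sh s i = a.ev fun x => ∑ i, s x i := by
  unfold Aff.sh Aff.ev
  rw [sum_add_distrib, Aff.lin_sum]
  simp

/-- Partial sums. -/
def psum {M : ℕ} (v : Fin M → ZMod 2) (k : Fin (M + 1)) : ZMod 2 :=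
  ∑ i ∈ univ.filter (fun i : Fin M => i.castSucc < k), v i

@[simp] lemma psum_zero {M : ℕ} (v : Fin M → ZMod 2) : psum v 0 = 0 := by
  unfold psum
  simp

lemma psum_succ {M : ℕ} (v : Fin M → ZMod 2) (i : Fin M) :
    psum v i.succ = psum v i.castSucc + v i := by
  unfold psum
  have h : (univ.filter fun j : Fin M => j.castSucc < i.succ) =
      insert i (univ.filter fun j : Fin M => j.castSucc < i.castSucc) := by
    ext j
    simp only [mem_filter, mem_univ, true_and, mem_insert, Fin.lt_def, Fin.val_succ,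
      Fin.val_castSucc, Fin.ext_iff]
    omega
  rw [h, sum_insert (by simp), add_comm]

@[simp] lemma psum_last {M : ℕ} (v : Fin M → ZMod 2) : psum v (Fin.last M) = ∑ i, v i := by
  unfold psum
  congr 1
  ext j
  simp [Fin.castSucc_lt_last]

lemma chain {M : ℕ} (c : Fin (M + 1) → ZMod 2) (v : Fin M → ZMod 2) (h0 : c 0 = 0)
    (hS : ∀ i : Fin M, c i.succ = c i.castSucc + v i) (k : Fin (M + 1)) : c k = psum v k := by
  induction k using Fin.induction with
  | zero => rw [h0, psum_zero]
  | succ i ih => rw [hS, ih, psum_succ]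

/-- A symmetric matrix with zero diagonal has sum zero in characteristic two. -/
lemma sum_symm {ι : Type} [Fintype ι] [DecidableEq ι] (N : ι → ι → ZMod 2)
    (h1 : ∀ i j, N i j = N j i) (h2 : ∀ i, N i i = 0) : ∑ i, ∑ j, N i j = 0 := by
  rw [← sum_product' univ univ fun i j => N i j]
  refine sum_involution (fun p _ => (p.2, p.1)) ?_ ?_ ?_ ?_
  · rintro ⟨i, j⟩ _
    simp only
    rw [h1 i j]
    exact CharTwo.add_self_eq_zero _
  · rintro ⟨i, j⟩ _ hne h
    simp only [Prod.mk.injEq] at h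
    apply hne
    simp only
    rw [h.1]; exact h2 _
  · intro p _; simp
  · intro p _; rfl

/-- The local checks. -/
structure Valid (S : Sys P X Q) (a : TCell P X Q μ → ZMod 2) : Prop where
  ch0 : ∀ p, a (.ch p 0) = 0
  chS : ∀ p (i : Fin (μ + 1)), a (.ch p i.succ) = a (.ch p i.castSucc) + a (.sh (S.pv p) i)
  chE : ∀ p, a (.ch p (Fin.last _)) = a (.pub p)
  W : ∀ q i j, i ≠ j → a (.W q i j) + a (.W q j i) =
    (S.eqn q).A.sh (fun x i => a (.sh x i)) i * (S.eqn q).B.sh (fun x i => a (.sh x i)) j +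
    (S.eqn q).A.sh (fun x i => a (.sh x i)) j * (S.eqn q).B.sh (fun x i => a (.sh x i)) i
  Wd : ∀ q i, a (.W q i i) =
    (S.eqn q).A.sh (fun x i => a (.sh x i)) i * (S.eqn q).B.sh (fun x i => a (.sh x i)) i +
    (S.eqn q).C.sh (fun x i => a (.sh x i)) i
  D0 : ∀ q i, a (.D q i 0) = 0
  DS : ∀ q i (j : Fin (μ + 1)), a (.D q i j.succ) = a (.D q i j.castSucc) + a (.W q i j)
  E0 : ∀ q, a (.E q 0) = 0
  ES : ∀ q (i : Fin (μ + 1)), a (.E q i.succ) = a (.E q i.castSucc) + a (.D q i (Fin.last _))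
  EE : ∀ q, a (.E q (Fin.last _)) = 0

/-- The double sum of a matrix of masked products. -/
lemma sum_masked (q : Eqn X) (s : X → Fin (μ + 1) → ZMod 2) (w : Fin (μ + 1) → Fin (μ + 1) → ZMod 2)
    (h1 : ∀ i j, i ≠ j → w i j + w j i = q.A.sh s i * q.B.sh s j + q.A.sh s j * q.B.sh s i)
    (h2 : ∀ i, w i i = q.A.sh s i * q.B.sh s i + q.C.sh s i) :
    ∑ i, ∑ j, w i j = q.A.ev (fun x => ∑ i, s x i) * q.B.ev (fun x => ∑ i, s x i) +
      q.C.ev (fun x => ∑ i, s x i) := by
  have key : ∑ i, ∑ j, (w i j + q.A.sh s i * q.B.sh s j + if i = j then q.C.sh s i else 0) = 0 := by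
    apply sum_symm
    · intro i j
      by_cases hij : i = j
      · rw [hij]
      · rw [if_neg hij, if_neg (fun h => hij h.symm)]
        have h := h1 i j hij
        have h3 : w i j = w j i + (q.A.sh s i * q.B.sh s j + q.A.sh s j * q.B.sh s i) := by
          rw [← h]
          rw [add_comm (w i j), ← add_assoc, CharTwo.add_self_eq_zero, zero_add]
        rw [h3]
        have h4 := CharTwo.add_self_eq_zero (q.A.sh s i * q.B.sh s j)
        linear_combination h4
    · intro i
      rw [h2 i, if_pos rfl]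
      have h4 := CharTwo.add_self_eq_zero (q.A.sh s i * q.B.sh s i)
      have h5 := CharTwo.add_self_eq_zero (q.C.sh s i)
      linear_combination h4 + h5
  simp only [sum_add_distrib, sum_ite_eq, mem_univ, if_true] at key
  rw [← sum_mul_sum, Aff.sum_sh, Aff.sum_sh, Aff.sum_sh] at key
  have h6 := CharTwo.add_self_eq_zero (q.A.ev (fun x => ∑ i, s x i) * q.B.ev (fun x => ∑ i, s x i))
  have h7 := CharTwo.add_self_eq_zero (q.C.ev (fun x => ∑ i, s x i))
  linear_combination key - h6 - h7

lemma Valid.sound {S : Sys P X Q} {a : TCell P X Q μ → ZMod 2} (h : Valid S a) :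
    (∀ q, (S.eqn q).Sat fun x => ∑ i, a (.sh x i)) ∧
    ∀ p, a (.pub p) = ∑ i, a (.sh (S.pv p) i) := by
  constructor
  · intro q
    have h1 := sum_masked (S.eqn q) (fun x i => a (.sh x i)) (fun i j => a (.W q i j))
      (h.W q) (h.Wd q)
    have h2 : ∀ i, a (.D q i (Fin.last _)) = ∑ j, a (.W q i j) := by
      intro i
      rw [chain (fun k => a (.D q i k)) (fun j => a (.W q i j)) (h.D0 q i) (h.DS q i), psum_last]
    have h3 : a (.E q (Fin.last _)) = ∑ i, a (.D q i (Fin.last _)) := by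
      rw [chain (fun k => a (.E q k)) (fun i => a (.D q i (Fin.last _))) (h.E0 q) (h.ES q),
        psum_last]
    rw [h.EE q] at h3
    simp only [h2] at h3
    rw [h1] at h3
    unfold Eqn.Sat
    have h4 := CharTwo.add_self_eq_zero ((S.eqn q).C.ev fun x => ∑ i, a (.sh x i))
    linear_combination -h3 - h4
  · intro p
    rw [← h.chE p, chain (fun k => a (.ch p k)) (fun i => a (.sh (S.pv p) i)) (h.ch0 p) (h.chS p),
      psum_last]

/-- Shares of `h` from randomness `r`. -/
def shr (h : X → ZMod 2) (r : X → Fin μ → ZMod 2) : X → Fin (μ + 1) → ZMod 2 :=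
  fun x => Fin.cons (h x + ∑ k, r x k) (r x)

lemma sum_shr (h : X → ZMod 2) (r : X → Fin μ → ZMod 2) (x : X) : ∑ i, shr h r x i = h x := by
  unfold shr
  rw [Fin.sum_univ_succ]
  simp only [Fin.cons_zero, Fin.cons_succ]
  have := CharTwo.add_self_eq_zero (∑ k, r x k)
  linear_combination this

/-- The matrix of masked products. -/
def wm (q : Eqn X) (s : X → Fin (μ + 1) → ZMod 2) (N : Fin (μ + 1) → Fin (μ + 1) → ZMod 2)
    (i j : Fin (μ + 1)) : ZMod 2 :=
  q.A.sh s i * q.B.sh s j + (if i = j then q.C.sh s i else 0) + (N i j + N j i)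

/-- The randomness. -/
abbrev Rnd (X Q : Type) (μ : ℕ) : Type :=
  (X → Fin μ → ZMod 2) × (Q → Fin (μ + 1) → Fin (μ + 1) → ZMod 2)

/-- The encoding of `h` with randomness `ω`. -/
def tab (S : Sys P X Q) (h : X → ZMod 2) (ω : Rnd X Q μ) : TCell P X Q μ → ZMod 2
  | .pub p => h (S.pv p)
  | .sh x i => shr h ω.1 x i
  | .ch p k => psum (shr h ω.1 (S.pv p)) k
  | .W q i j => wm (S.eqn q) (shr h ω.1) (ω.2 q) i j
  | .D q i k => psum (fun j => wm (S.eqn q) (shr h ω.1) (ω.2 q) i j) k
  | .E q k => psum (fun i => ∑ j, wm (S.eqn q) (shr h ω.1) (ω.2 q) i j) k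

lemma valid_tab {S : Sys P X Q} {h : X → ZMod 2} (hS : ∀ q, (S.eqn q).Sat h) (ω : Rnd X Q μ) :
    Valid S (tab S h ω) where
  ch0 p := psum_zero _
  chS p i := psum_succ _ _
  chE p := by simp only [tab, psum_last]; exact sum_shr _ _ _
  W q i j hij := by
    simp only [tab, wm, if_neg hij, if_neg (Ne.symm hij)]
    have h1 := CharTwo.add_self_eq_zero (ω.2 q i j)
    have h2 := CharTwo.add_self_eq_zero (ω.2 q j i)
    linear_combination h1 + h2
  Wd q i := by
    simp only [tab, wm, if_true]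
    have h1 := CharTwo.add_self_eq_zero (ω.2 q i i)
    linear_combination h1
  D0 q i := psum_zero _
  DS q i j := psum_succ _ _
  E0 q := psum_zero _
  ES q i := by simp only [tab, psum_last]; exact psum_succ _ _
  EE q := by
    simp only [tab, psum_last]
    rw [sum_masked (S.eqn q) (shr h ω.1)]
    · simp only [sum_shr]
      have h1 := hS q
      unfold Eqn.Sat at h1
      rw [h1]
      exact CharTwo.add_self_eq_zero _
    · intro i j hij
      simp only [wm, if_neg hij, if_neg (Ne.symm hij)]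
      have h1 := CharTwo.add_self_eq_zero (ω.2 q i j)
      have h2 := CharTwo.add_self_eq_zero (ω.2 q j i)
      linear_combination h1 + h2
    · intro i
      simp only [wm, if_true]
      have h1 := CharTwo.add_self_eq_zero (ω.2 q i i)
      linear_combination h1

/-! ### Local hiding -/

/-- Change of the randomness which moves the secret from `h` to `h + Δ` by changing share `i₀`. -/
def flip (S : Sys P X Q) (h Δ : X → ZMod 2) (i₀ : Fin (μ + 1)) (ω : Rnd X Q μ) : Rnd X Q μ :=
  (fun x k => ω.1 x k + if k.succ = i₀ then Δ x else 0,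
   fun q j l => ω.2 q j l + if l = i₀ ∧ j ≠ i₀ then
      (S.eqn q).A.sh (shr h ω.1) j * (S.eqn q).B.lin Δ else 0)

lemma flip_injective (S : Sys P X Q) (h Δ : X → ZMod 2) (i₀ : Fin (μ + 1)) :
    Function.Injective (flip S h Δ i₀ : Rnd X Q μ → Rnd X Q μ) := by
  rintro ⟨r, N⟩ ⟨r', N'⟩ he
  simp only [flip, Prod.mk.injEq] at he
  obtain ⟨h1, h2⟩ := he
  have hr : r = r' := by
    funext x k
    have := congrFun (congrFun h1 x) k
    exact add_right_cancel this
  subst hr
  refine Prod.ext rfl ?_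
  funext q j l
  have := congrFun (congrFun (congrFun h2 q) j) l
  exact add_right_cancel this

lemma shr_flip (S : Sys P X Q) (h Δ : X → ZMod 2) (i₀ : Fin (μ + 1)) (ω : Rnd X Q μ) (x : X)
    (i : Fin (μ + 1)) : shr (fun x => h x + Δ x) (flip S h Δ i₀ ω).1 x i =
      shr h ω.1 x i + if i = i₀ then Δ x else 0 := by
  unfold shr
  refine Fin.cases ?_ (fun k => ?_) i
  · simp only [Fin.cons_zero, flip, sum_add_distrib]
    by_cases h0 : (0 : Fin (μ + 1)) = i₀
    · rw [if_pos h0]
      have : ∀ k : Fin μ, ¬ k.succ = i₀ := by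
        intro k hk; rw [← h0] at hk; exact Fin.succ_ne_zero k hk
      simp only [this, if_false, sum_const_zero]
      ring
    · rw [if_neg h0]
      obtain ⟨k, rfl⟩ : ∃ k : Fin μ, k.succ = i₀ := Fin.exists_succ_eq.mpr (fun h => h0 h.symm)
      simp only [Fin.succ_inj, sum_ite_eq', mem_univ, if_true]
      have := CharTwo.add_self_eq_zero (Δ x)
      linear_combination this
  · simp only [Fin.cons_succ, flip]

lemma ash_flip (S : Sys P X Q) (h Δ : X → ZMod 2) (i₀ : Fin (μ + 1)) (ω : Rnd X Q μ) (a : Aff X)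
    (i : Fin (μ + 1)) : a.sh (shr (fun x => h x + Δ x) (flip S h Δ i₀ ω).1) i =
      a.sh (shr h ω.1) i + if i = i₀ then a.lin Δ else 0 := by
  unfold Aff.sh
  simp only [shr_flip]
  by_cases hi : i = i₀
  · simp only [hi, if_true]
    rw [Aff.lin_add]
    ring
  · simp only [hi, if_false, add_zero]

lemma wm_flip (S : Sys P X Q) (h Δ : X → ZMod 2) (i₀ : Fin (μ + 1)) (ω : Rnd X Q μ) (q : Q)
    {i : Fin (μ + 1)} (hi : i ≠ i₀) (j : Fin (μ + 1)) :
    wm (S.eqn q) (shr (fun x => h x + Δ x) (flip S h Δ i₀ ω).1) ((flip S h Δ i₀ ω).2 q) i j =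
      wm (S.eqn q) (shr h ω.1) (ω.2 q) i j := by
  unfold wm
  simp only [ash_flip, if_neg hi, add_zero]
  by_cases hj : j = i₀
  · subst hj
    simp only [if_true, flip, true_and, ne_eq, hi, not_false_eq_true, false_and,
      if_false, add_zero]
    have := CharTwo.add_self_eq_zero ((S.eqn q).A.sh (shr h ω.1) i * (S.eqn q).B.lin Δ)
    linear_combination this
  · simp only [flip, hj, hi, false_and, if_false, add_zero]

lemma rowsum_flip (S : Sys P X Q) (h Δ : X → ZMod 2) (i₀ : Fin (μ + 1)) (ω : Rnd X Q μ) (q : Q)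
    (h1 : (S.eqn q).Sat h) (h2 : (S.eqn q).Sat fun x => h x + Δ x) (i : Fin (μ + 1)) :
    ∑ j, wm (S.eqn q) (shr (fun x => h x + Δ x) (flip S h Δ i₀ ω).1)
        ((flip S h Δ i₀ ω).2 q) i j =
      ∑ j, wm (S.eqn q) (shr h ω.1) (ω.2 q) i j := by
  by_cases hi : i = i₀
  · subst hi
    unfold wm
    simp only [sum_add_distrib, sum_ite_eq, mem_univ, if_true]
    rw [← mul_sum, ← mul_sum, Aff.sum_sh, Aff.sum_sh]
    simp only [sum_shr, ash_flip, if_true]
    have e1 : ∑ j, (flip S h Δ i ω).2 q i j = ∑ j, ω.2 q i j := by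
      refine sum_congr rfl fun j _ => ?_
      simp [flip]
    have e2 : ∑ j, (flip S h Δ i ω).2 q j i = ∑ j, ω.2 q j i +
        ((S.eqn q).A.ev h + (S.eqn q).A.sh (shr h ω.1) i) * (S.eqn q).B.lin Δ := by
      have e3 : ∀ j, (flip S h Δ i ω).2 q j i = ω.2 q j i +
          ((S.eqn q).A.sh (shr h ω.1) j * (S.eqn q).B.lin Δ +
            if j = i then (S.eqn q).A.sh (shr h ω.1) j * (S.eqn q).B.lin Δ else 0) := by
        intro j
        simp only [flip, true_and]
        by_cases hj : j = i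
        · rw [if_neg (by simpa using hj), if_pos hj, CharTwo.add_self_eq_zero]
        · rw [if_pos hj, if_neg hj, add_zero]
      simp only [e3, sum_add_distrib, sum_ite_eq', mem_univ, if_true]
      rw [← sum_mul, Aff.sum_sh]
      simp only [sum_shr]
      ring
    rw [e1, e2]
    have e4 : (S.eqn q).B.ev (fun x => h x + Δ x) = (S.eqn q).B.ev h + (S.eqn q).B.lin Δ := by
      unfold Aff.ev; rw [Aff.lin_add]; ring
    have e5 : (S.eqn q).A.ev (fun x => h x + Δ x) = (S.eqn q).A.ev h + (S.eqn q).A.lin Δ := by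
      unfold Aff.ev; rw [Aff.lin_add]; ring
    have e6 : (S.eqn q).C.ev (fun x => h x + Δ x) = (S.eqn q).C.ev h + (S.eqn q).C.lin Δ := by
      unfold Aff.ev; rw [Aff.lin_add]; ring
    unfold Eqn.Sat at h1 h2
    rw [e4, e5, e6] at h2
    rw [e4]
    set A := (S.eqn q).A.ev h
    set B := (S.eqn q).B.ev h
    set C := (S.eqn q).C.ev h
    set dA := (S.eqn q).A.lin Δ
    set dB := (S.eqn q).B.lin Δ
    set dC := (S.eqn q).C.lin Δ
    have t1 := CharTwo.add_self_eq_zero ((S.eqn q).A.sh (shr h ω.1) i * dB)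
    have t2 := CharTwo.add_self_eq_zero dC
    linear_combination h2 - h1 + t1 + t2
  · refine sum_congr rfl fun j _ => wm_flip S h Δ i₀ ω q hi j

/-- The row of a cell. -/
def TCell.row : TCell P X Q μ → Option (Fin (μ + 1))
  | .sh _ i => some i
  | .W _ i _ => some i
  | .D _ i _ => some i
  | _ => none

/-- The public variable of a cell. -/
def TCell.pb : TCell P X Q μ → Option P
  | .pub p => some p
  | .ch p _ => some p
  | _ => none

lemma tab_flip {S : Sys P X Q} {h Δ : X → ZMod 2} (h1 : ∀ q, (S.eqn q).Sat h)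
    (h2 : ∀ q, (S.eqn q).Sat fun x => h x + Δ x) {i₀ : Fin (μ + 1)} (ω : Rnd X Q μ)
    {c : TCell P X Q μ} (hc : c.row ≠ some i₀) (hp : ∀ p, c.pb = some p → Δ (S.pv p) = 0) :
    tab S (fun x => h x + Δ x) (flip S h Δ i₀ ω) c = tab S h ω c := by
  cases c with
  | pub p =>
    simp only [tab]
    rw [hp p rfl, add_zero]
  | sh x i =>
    simp only [TCell.row, ne_eq, Option.some.injEq] at hc
    simp only [tab, shr_flip, if_neg hc, add_zero]
  | ch p k =>
    simp only [tab]
    congr 1
    funext i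
    rw [shr_flip, hp p rfl]
    simp
  | W q i j =>
    simp only [TCell.row, ne_eq, Option.some.injEq] at hc
    exact wm_flip S h Δ i₀ ω q hc j
  | D q i k =>
    simp only [TCell.row, ne_eq, Option.some.injEq] at hc
    simp only [tab]
    congr 1
    funext j
    exact wm_flip S h Δ i₀ ω q hc j
  | E q k =>
    simp only [tab]
    congr 1
    funext i
    exact rowsum_flip S h Δ i₀ ω q (h1 q) (h2 q) i

lemma card_le_aux {S : Sys P X Q} {h h' : X → ZMod 2} (h1 : ∀ q, (S.eqn q).Sat h)
    (h2 : ∀ q, (S.eqn q).Sat h') (T : List (TCell P X Q μ × ZMod 2)) (hT : T.length ≤ μ)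
    (hp : ∀ c ∈ T, ∀ p, c.1.pb = some p → h (S.pv p) = h' (S.pv p)) [Finite X] [Finite Q] :
    Nat.card {ω : Rnd X Q μ // ∀ c ∈ T, tab S h ω c.1 = c.2} ≤
      Nat.card {ω : Rnd X Q μ // ∀ c ∈ T, tab S h' ω c.1 = c.2} := by
  classical
  -- an index not touched
  obtain ⟨i₀, hi₀⟩ : ∃ i₀ : Fin (μ + 1), ∀ c ∈ T, c.1.row ≠ some i₀ := by
    by_contra hcon
    push Not at hcon
    choose c hc1 hc2 using hcon
    have hinj : Function.Injective fun i : Fin (μ + 1) => (⟨T.idxOf (c i), List.idxOf_lt_length_iff.mpr (hc1 i)⟩ : Fin T.length) := by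
      intro i j hij
      simp only [Fin.mk.injEq] at hij
      have : c i = c j := (List.idxOf_inj (hc1 i)).mp hij
      have h3 := hc2 i
      rw [this, hc2 j] at h3
      exact (Option.some.inj h3).symm
    have := Fintype.card_le_of_injective _ hinj
    simp at this
    omega
  set Δ : X → ZMod 2 := fun x => h x + h' x with hΔ
  have hh' : (fun x => h x + Δ x) = h' := by
    funext x
    simp only [hΔ]
    rw [← add_assoc, CharTwo.add_self_eq_zero, zero_add]
  have h2' : ∀ q, (S.eqn q).Sat fun x => h x + Δ x := by rw [hh']; exact h2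
  have hmap : ∀ ω : Rnd X Q μ, (∀ c ∈ T, tab S h ω c.1 = c.2) →
      ∀ c ∈ T, tab S h' (flip S h Δ i₀ ω) c.1 = c.2 := by
    intro ω hω c hc
    rw [← hω c hc, ← hh']
    apply tab_flip h1 h2' ω (hi₀ c hc)
    intro p hpc
    simp only [hΔ]
    rw [hp c hc p hpc]
    exact CharTwo.add_self_eq_zero _
  exact Nat.card_le_card_of_injective
    (fun ω : {ω : Rnd X Q μ // ∀ c ∈ T, tab S h ω c.1 = c.2} =>
      (⟨flip S h Δ i₀ ω.1, hmap ω.1 ω.2⟩ : {ω : Rnd X Q μ // ∀ c ∈ T, tab S h' ω c.1 = c.2}))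
    (fun a b hab => Subtype.ext (flip_injective S h Δ i₀ (congrArg Subtype.val hab)))

/-- Local hiding: few cells of the encoding depend only on the public bits which were read. -/
theorem local_hiding {S : Sys P X Q} {h h' : X → ZMod 2} (h1 : ∀ q, (S.eqn q).Sat h)
    (h2 : ∀ q, (S.eqn q).Sat h') (T : List (TCell P X Q μ × ZMod 2)) (hT : T.length ≤ μ)
    (hp : ∀ c ∈ T, ∀ p, c.1.pb = some p → h (S.pv p) = h' (S.pv p)) [Finite X] [Finite Q] :
    Nat.card {ω : Rnd X Q μ // ∀ c ∈ T, tab S h ω c.1 = c.2} =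
      Nat.card {ω : Rnd X Q μ // ∀ c ∈ T, tab S h' ω c.1 = c.2} :=
  le_antisymm (card_le_aux h1 h2 T hT hp)
    (card_le_aux h2 h1 T hT fun c hc p hpc => (hp c hc p hpc).symm)

end Pool.Agent.Lib.MP_ff3ed7_lc
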